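import Pool.Agent.CN.WDefs

/-!
# The square of the lifted differential
-/

universe u

namespace Pool.Agent.CN

open Finset IsLocalRing

private lemma aux_smul {S : Type u} [CommRing S] (I : Ideal S) {Y : Type u} [AddCommGroup Y]
    [Module S Y] [Module (S ⧸ I) Y] [IsScalarTower S (S ⧸ I) Y] (x : S) (y : Y) :
    (Ideal.Quotient.mk I x) • y = x • y := by
  rw [← Ideal.Quotient.algebraMap_eq, algebraMap_smul]

private lemma aux_lift {S : Type u} [CommRing S] (I : Ideal S) {ι κ : Type} (m : ι → κ → S ⧸ I) :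
    ∃ M : ι → κ → S, (∀ a b, Ideal.Quotient.mk I (M a b) = m a b) ∧
      ∀ a b, m a b = 0 → M a b = 0 := by
  classical
  have h : ∀ a b, ∃ x : S, Ideal.Quotient.mk I x = m a b ∧ (m a b = 0 → x = 0) := by
    intro a b
    by_cases h0 : m a b = 0
    · exact ⟨0, by rw [h0, map_zero], fun _ => rfl⟩
    · obtain ⟨x, hx⟩ := Ideal.Quotient.mk_surjective (m a b)
      exact ⟨x, hx, fun h => absurd h h0⟩
  choose M hM using h
  exact ⟨M, fun a b => (hM a b).1, fun a b => (hM a b).2⟩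

/-- The square `θ` of a lift to `S` of the differential of `D`, and the basic identity. -/
theorem exists_atiyah {S : Type u} [CommRing S] [IsLocalRing S] (I : Ideal S) (D : BC (S ⧸ I)) :
    ∃ θ : D.ι → D.ι → I, (∀ a c, θ a c ≠ 0 → D.g a = D.g c - 2 ∧ D.σ a = D.σ c) ∧
      (∀ (Y : Type u) [AddCommGroup Y] [Module S Y] [Module (S ⧸ I) Y]
        [IsScalarTower S (S ⧸ I) Y] (p : I →ₗ[S] Y) (a c : D.ι),
        ∑ b, D.m a b • p (θ b c) = ∑ b, D.m b c • p (θ a b)) ∧
      ∀ (r : ℕ) (f : Fin r → S) (w : WD S f) (hf : ∀ l, f l ∈ I)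
        (z : D.ι → ∀ n, Fin (w.b n) → S ⧸ I), D.op (w.dg I hf (S ⧸ I)).d z = 0 →
        ∃ y : D.ι → ∀ n, Fin (w.b n) → I,
          ∀ (Y : Type u) [AddCommGroup Y] [Module S Y] [Module (S ⧸ I) Y]
            [IsScalarTower S (S ⧸ I) Y] (p : I →ₗ[S] Y),
            (fun a n i => ∑ c, z c n i • p (θ a c) +
              ∑ l, w.chi I (S ⧸ I) l (z a) n i • p ⟨f l, hf l⟩) =
            D.op (w.dg I hf Y).d (fun a n i => p (y a n i)) := by
  classical
  obtain ⟨M, hM, hM0⟩ := aux_lift I D.m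
  have hMM : ∀ a c, ∑ b, M a b * M b c ∈ I := by
    intro a c
    rw [← Ideal.Quotient.eq_zero_iff_mem, map_sum]
    simp only [map_mul, hM]
    exact D.sq a c
  have hne : ∀ a b, M a b ≠ 0 → D.m a b ≠ 0 := fun a b h h' => h (hM0 a b h')
  have hσ : ∀ a b, M a b * ((D.σ b : ℤ) : S) = - (M a b * ((D.σ a : ℤ) : S)) := by
    intro a b
    by_cases h : M a b = 0
    · simp [h]
    · rw [D.sgn a b (hne a b h)]
      push_cast
      ring
  refine ⟨fun a c => ⟨∑ b, M a b * M b c, hMM a c⟩, ?_, ?_, ?_⟩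
  · intro a c h
    have h1 : ∑ b, M a b * M b c ≠ 0 := fun h' => h (Subtype.ext h')
    obtain ⟨b, -, hb⟩ := Finset.exists_ne_zero_of_sum_ne_zero h1
    have h2 : M a b ≠ 0 := left_ne_zero_of_mul hb
    have h3 : M b c ≠ 0 := right_ne_zero_of_mul hb
    have e1 := D.deg a b (hne a b h2)
    have e2 := D.deg b c (hne b c h3)
    have e3 := D.sgn a b (hne a b h2)
    have e4 := D.sgn b c (hne b c h3)
    constructor
    · omega
    · rw [e4, e3, neg_neg]
  · intro Y _ _ _ _ p a c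
    have e1 : ∀ b, D.m a b • p ⟨∑ e, M b e * M e c, hMM b c⟩ =
        p (M a b • (⟨∑ e, M b e * M e c, hMM b c⟩ : I)) := by
      intro b
      rw [← hM a b, aux_smul, map_smul]
    have e2 : ∀ b, D.m b c • p ⟨∑ e, M a e * M e b, hMM a b⟩ =
        p (M b c • (⟨∑ e, M a e * M e b, hMM a b⟩ : I)) := by
      intro b
      rw [← hM b c, aux_smul, map_smul]
    simp only [e1, e2]
    rw [← map_sum, ← map_sum]
    congr 1
    apply Subtype.ext
    simp only [AddSubmonoidClass.coe_finsetSum, SetLike.val_smul, smul_eq_mul, mul_sum]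
    rw [sum_comm]
    refine sum_congr rfl fun b _ => sum_congr rfl fun e _ => ?_
    ring
  · intro r f w hf z hz
    have hz' : ∃ Z : D.ι → ∀ n, Fin (w.b n) → S, ∀ a n i, Ideal.Quotient.mk I (Z a n i) = z a n i := by
      have h : ∀ (a : D.ι) (n : ℕ) (i : Fin (w.b n)), ∃ x : S, Ideal.Quotient.mk I x = z a n i :=
        fun a n i => Ideal.Quotient.mk_surjective (z a n i)
      choose Z hZ using h
      exact ⟨Z, hZ⟩
    obtain ⟨Z, hZ⟩ := hz'
    have hy : ∀ (a : D.ι) (n : ℕ) (i : Fin (w.b n)),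
        ∑ b, M a b * Z b n i + ((D.σ a : ℤ) : S) * ∑ j, w.G n i j * Z a (n + 1) j ∈ I := by
      intro a n i
      have h := congrFun (congrFun (congrFun hz a) n) i
      rw [BC.op_apply] at h
      rw [← Ideal.Quotient.eq_zero_iff_mem]
      have h2 : (∑ b, D.m a b • z b + D.σ a • (w.dg I hf (S ⧸ I)).d (z a)) n i =
          ∑ b, D.m a b * z b n i + ((D.σ a : ℤ) : S ⧸ I) *
            ∑ j, Ideal.Quotient.mk I (w.G n i j) * z a (n + 1) j := by
        simp only [Pi.add_apply, Finset.sum_apply, Pi.smul_apply, smul_eq_mul, zsmul_eq_mul]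
        rfl
      rw [h2] at h
      simp only [map_add, map_sum, map_mul, map_intCast, hM, hZ]
      exact h
    refine ⟨fun a n i => ⟨_, hy a n i⟩, ?_⟩
    intro Y _ _ _ _ p
    funext a n i
    rw [BC.op_apply]
    have hR : (∑ b, D.m a b • (fun (n : ℕ) (i : Fin (w.b n)) =>
          p ⟨∑ c, M b c * Z c n i + ((D.σ b : ℤ) : S) * ∑ j, w.G n i j * Z b (n + 1) j,
            hy b n i⟩) +
        D.σ a • (w.dg I hf Y).d (fun (n : ℕ) (i : Fin (w.b n)) =>
          p ⟨∑ c, M a c * Z c n i + ((D.σ a : ℤ) : S) * ∑ j, w.G n i j * Z a (n + 1) j,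
            hy a n i⟩)) n i =
        ∑ b, D.m a b • p ⟨∑ c, M b c * Z c n i + ((D.σ b : ℤ) : S) *
            ∑ j, w.G n i j * Z b (n + 1) j, hy b n i⟩ +
        D.σ a • ∑ j, Ideal.Quotient.mk I (w.G n i j) •
          p ⟨∑ c, M a c * Z c (n + 1) j + ((D.σ a : ℤ) : S) *
            ∑ k, w.G (n + 1) j k * Z a (n + 1 + 1) k, hy a (n + 1) j⟩ := by
      simp only [Pi.add_apply, Finset.sum_apply, Pi.smul_apply]
      rfl
    rw [hR]
    have hc : ∀ l, w.chi I (S ⧸ I) l (z a) n i =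
        Ideal.Quotient.mk I (∑ k, w.C l n i k * Z a (n + 2) k) := by
      intro l
      simp only [map_sum, map_mul, hZ]
      rfl
    have eA : ∀ c, z c n i • p ⟨∑ b, M a b * M b c, hMM a c⟩ =
        p (Z c n i • (⟨∑ b, M a b * M b c, hMM a c⟩ : I)) := by
      intro c
      rw [← hZ c n i, aux_smul, map_smul]
    have eB : ∀ l, w.chi I (S ⧸ I) l (z a) n i • p ⟨f l, hf l⟩ =
        p ((∑ k, w.C l n i k * Z a (n + 2) k) • (⟨f l, hf l⟩ : I)) := by
      intro l
      rw [hc, aux_smul, map_smul]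
    have eC : ∀ b, D.m a b • p ⟨∑ c, M b c * Z c n i + ((D.σ b : ℤ) : S) *
            ∑ j, w.G n i j * Z b (n + 1) j, hy b n i⟩ =
        p (M a b • (⟨∑ c, M b c * Z c n i + ((D.σ b : ℤ) : S) *
            ∑ j, w.G n i j * Z b (n + 1) j, hy b n i⟩ : I)) := by
      intro b
      rw [← hM a b, aux_smul, map_smul]
    have eD : ∀ j, Ideal.Quotient.mk I (w.G n i j) •
          p ⟨∑ c, M a c * Z c (n + 1) j + ((D.σ a : ℤ) : S) *
            ∑ k, w.G (n + 1) j k * Z a (n + 1 + 1) k, hy a (n + 1) j⟩ =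
        p (w.G n i j • (⟨∑ c, M a c * Z c (n + 1) j + ((D.σ a : ℤ) : S) *
            ∑ k, w.G (n + 1) j k * Z a (n + 1 + 1) k, hy a (n + 1) j⟩ : I)) := by
      intro j
      rw [aux_smul, map_smul]
    simp only [eA, eB, eC, eD]
    rw [← map_sum, ← map_sum, ← map_sum, ← map_sum, ← map_zsmul, ← map_add, ← map_add]
    congr 1
    apply Subtype.ext
    have hcoe : ∀ (k : ℤ) (x : I), ((k • x : I) : S) = (k : S) * (x : S) := by
      intro k x
      simp
    simp only [AddMemClass.coe_add, AddSubmonoidClass.coe_finsetSum, SetLike.val_smul,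
      smul_eq_mul, hcoe]
    have hσσ : ((D.σ a : ℤ) : S) * ((D.σ a : ℤ) : S) = 1 := by
      rw [← Int.cast_mul, D.σσ, Int.cast_one]
    have s1 : ∑ c, Z c n i * ∑ b, M a b * M b c = ∑ b, M a b * ∑ c, M b c * Z c n i := by
      simp only [mul_sum]
      rw [sum_comm]
      exact sum_congr rfl fun b _ => sum_congr rfl fun c _ => by ring
    have s2 : ∑ l, (∑ k, w.C l n i k * Z a (n + 2) k) * f l =
        ∑ j, w.G n i j * ∑ k, w.G (n + 1) j k * Z a (n + 1 + 1) k := by
      have t1 : ∑ l, (∑ k, w.C l n i k * Z a (n + 2) k) * f l =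
          ∑ k, (∑ l, f l * w.C l n i k) * Z a (n + 2) k := by
        simp only [sum_mul]
        rw [sum_comm]
        exact sum_congr rfl fun b _ => sum_congr rfl fun c _ => by ring
      rw [t1]
      have t2 : ∀ k, (∑ l, f l * w.C l n i k) * Z a (n + 2) k =
          ∑ j, w.G n i j * (w.G (n + 1) j k * Z a (n + 2) k) := by
        intro k
        rw [← w.sq n i k, sum_mul]
        exact sum_congr rfl fun c _ => by ring
      simp only [t2]
      rw [sum_comm]
      exact sum_congr rfl fun j _ => by rw [mul_sum]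
    have s3 : ∑ b, M a b * (∑ c, M b c * Z c n i + ((D.σ b : ℤ) : S) *
          ∑ j, w.G n i j * Z b (n + 1) j) =
        ∑ b, M a b * ∑ c, M b c * Z c n i -
          ((D.σ a : ℤ) : S) * ∑ b, M a b * ∑ j, w.G n i j * Z b (n + 1) j := by
      rw [mul_sum, ← sum_sub_distrib]
      refine sum_congr rfl fun b _ => ?_
      linear_combination (∑ j, w.G n i j * Z b (n + 1) j) * hσ a b
    have s4 : ∑ j, w.G n i j * (∑ c, M a c * Z c (n + 1) j + ((D.σ a : ℤ) : S) *
          ∑ k, w.G (n + 1) j k * Z a (n + 1 + 1) k) =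
        ∑ b, M a b * ∑ j, w.G n i j * Z b (n + 1) j +
          ((D.σ a : ℤ) : S) * ∑ j, w.G n i j * ∑ k, w.G (n + 1) j k * Z a (n + 1 + 1) k := by
      simp only [mul_add, sum_add_distrib]
      congr 1
      · simp only [mul_sum]
        rw [sum_comm]
        exact sum_congr rfl fun b _ => sum_congr rfl fun c _ => by ring
      · rw [mul_sum]
        exact sum_congr rfl fun b _ => by ring
    rw [s1, s2, s3, s4]
    linear_combination (-(∑ j, w.G n i j * ∑ k, w.G (n + 1) j k * Z a (n + 1 + 1) k)) * hσσ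

end Pool.Agent.CN
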