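import Pool.Agent.CN.FDefs
import Pool.Agent.Helper19.Partial

/-!
# A regular element of `I` modulo `J` outside `V`, and linear algebra modulo `𝔪`
-/

universe u

namespace Pool.Agent.CN

open Finset IsLocalRing Pool.Agent.Helper19

theorem exists_regular_avoid {S : Type u} [CommRing S] [IsLocalRing S] [IsNoetherianRing S]
    (J I V : Ideal S) (hI : I ≠ ⊤) (hJ : J ≤ V) (hJI : J ≤ I) (hIV : ¬ I ≤ V) (hpd : FPD J I) :
    ∃ f ∈ I, f ∉ V ∧ ∀ x, f * x ∈ J → x ∈ J := by
  obtain ⟨A, _, _, hs, hker, n, hPD⟩ := hpd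
  have hcomap : ∀ W : Ideal S, J ≤ W → (W.map (algebraMap S A)).comap (algebraMap S A) = W := by
    intro W hW
    rw [Ideal.comap_map_of_surjective _ hs]
    rw [← RingHom.ker_eq_comap_bot, hker]
    exact sup_eq_left.2 hW
  have hIA : I.map (algebraMap S A) ≠ ⊤ := by
    intro h
    apply hI
    rw [← hcomap I hJI, h, Ideal.comap_top]
  have : Nontrivial A := by
    by_contra h
    rw [not_nontrivial_iff_subsingleton] at h
    exact hIA (Subsingleton.elim _ _)
  have : IsLocalRing A := IsLocalRing.of_surjective' (algebraMap S A) hs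
  have : IsNoetherianRing A := isNoetherianRing_of_surjective S A (algebraMap S A) hs
  have h0 : I.map (algebraMap S A) ≠ ⊥ := by
    intro h
    apply hIV
    refine le_trans ?_ hJ
    rw [← hker, RingHom.ker_eq_comap_bot, ← h]
    exact Ideal.le_comap_map
  have hV : ¬ I.map (algebraMap S A) ≤ V.map (algebraMap S A) := by
    intro h
    apply hIV
    rw [← hcomap V hJ]
    exact Ideal.map_le_iff_le_comap.1 h
  obtain ⟨f', hf1, hf2, hf3⟩ := exists_regular_not_mem _ _ hV (exists_regular_mem _ h0 (n + 1) hPD)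
  obtain ⟨f, rfl⟩ := hs f'
  refine ⟨f, ?_, ?_, ?_⟩
  · rw [← hcomap I hJI]
    exact hf1
  · intro h
    exact hf2 (Ideal.mem_map_of_mem _ h)
  · intro x hx
    rw [← hker, RingHom.mem_ker] at hx ⊢
    rw [map_mul] at hx
    apply hf3
    simp only [smul_eq_mul, mul_zero]
    exact hx

theorem exists_dual {R : Type u} [CommRing R] [IsLocalRing R] {ι : Type} [Fintype ι]
    {r : ℕ} (η : Fin r → ι → R) (η' : ι → R)
    (h : ¬ ∃ s : Fin r → R, ∀ x, η' x - ∑ l, s l * η l x ∈ maximalIdeal R) :
    ∃ ρ : ι → R, ∑ x, ρ x * η' x = 1 ∧ ∀ l, ∑ x, ρ x * η l x ∈ maximalIdeal R := by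
  classical
  let k := ResidueField R
  let π : R →+* k := residue R
  have hπs : Function.Surjective π := residue_surjective
  have hπ0 : ∀ a, π a = 0 ↔ a ∈ maximalIdeal R := fun a => residue_eq_zero_iff a
  let v : Fin r → (ι → k) := fun l x => π (η l x)
  let w : ι → k := fun x => π (η' x)
  have hw : w ∉ Submodule.span k (Set.range v) := by
    intro hw
    rw [Submodule.mem_span_range_iff_exists_fun] at hw
    obtain ⟨c, hc⟩ := hw
    choose s hs using fun l => hπs (c l)
    apply h
    refine ⟨s, fun x => ?_⟩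
    rw [← hπ0, map_sub, map_sum, sub_eq_zero]
    have h1 := congrFun hc x
    simp only [Finset.sum_apply, Pi.smul_apply, smul_eq_mul, v, w] at h1
    rw [← h1]
    apply sum_congr rfl
    intro l _
    rw [map_mul, hs]
  obtain ⟨f, hf1, hf2⟩ := Submodule.exists_le_ker_of_notMem hw
  have hrep : ∀ y : ι → k, f y = ∑ x, y x * f (Pi.single x 1) := by
    intro y
    conv_lhs => rw [pi_eq_sum_univ' y]
    rw [map_sum]
    apply sum_congr rfl
    intro x _
    rw [map_smul, smul_eq_mul]
  choose g hg using fun x => hπs (f (Pi.single x 1))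
  have hu : IsUnit (∑ x, g x * η' x) := by
    by_contra hu
    rw [← mem_nonunits_iff, ← mem_maximalIdeal, ← hπ0, map_sum] at hu
    apply hf1
    rw [hrep]
    rw [← hu]
    apply sum_congr rfl
    intro x _
    rw [map_mul, hg, mul_comm]
  obtain ⟨u, hu⟩ := hu
  refine ⟨fun x => (↑u⁻¹ : R) * g x, ?_, ?_⟩
  · simp only [mul_assoc]
    rw [← mul_sum, ← hu, Units.inv_mul]
  · intro l
    simp only [mul_assoc]
    rw [← mul_sum]
    apply Ideal.mul_mem_left
    rw [← hπ0, map_sum]
    have h1 : f (v l) = 0 := hf2 (Submodule.subset_span ⟨l, rfl⟩)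
    rw [hrep] at h1
    rw [← h1]
    apply sum_congr rfl
    intro x _
    rw [map_mul, hg, mul_comm]

end Pool.Agent.CN
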