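import Mathlib

/-!
# Bounded complexes of finite free modules as matrices (`BC`), acting on graded differential
modules (`DG`).

For a complex `D : BC R` with matrix `m` and signs `σ` and a differential module `(V, d)`, the
total complex `D ⊗ V` is `D.ι → V` with differential
`(D.op d z) a = ∑ b, m a b • z b + σ a • d (z a)`.
-/

universe u

namespace Pool.Agent.CN

open Finset

/-- A bounded complex of finite free `R`-modules: `m a b` is the coefficient of the basis
element `a` in the differential of the basis element `b`. -/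
structure BC (R : Type u) [CommRing R] where
  ι : Type
  fin : Fintype ι
  dec : DecidableEq ι
  g : ι → ℤ
  σ : ι → ℤ
  m : ι → ι → R
  pm : ∀ a, σ a = 1 ∨ σ a = -1
  deg : ∀ a b, m a b ≠ 0 → g b = g a + 1
  sgn : ∀ a b, m a b ≠ 0 → σ b = - σ a
  sq : ∀ a c, ∑ b, m a b * m b c = 0

attribute [instance] BC.fin BC.dec

/-- A graded differential module: `d` has degree `-1`, `p t` is the projection to degree `t`. -/
structure DG (R : Type u) [CommRing R] (V : Type u) [AddCommGroup V] [Module R V] where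
  d : V →ₗ[R] V
  p : ℤ → V →ₗ[R] V
  dd : ∀ v, d (d v) = 0
  dp : ∀ t v, d (p t v) = p (t - 1) (d v)
  pp : ∀ t v, p t (p t v) = p t v

section Basic

variable {R : Type u} [CommRing R] {V W : Type u} [AddCommGroup V] [Module R V]
  [AddCommGroup W] [Module R W]

/-- a matrix acting on vectors with entries in a module -/
def mulV {α β : Type} [Fintype β] (φ : α → β → R) (z : β → V) : α → V :=
  fun a => ∑ b, φ a b • z b

section mulV

variable {α β γ : Type} [Fintype β] [Fintype γ]

lemma mulV_add (φ : α → β → R) (z w : β → V) : mulV φ (z + w) = mulV φ z + mulV φ w := by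
  funext a; simp [mulV, smul_add, sum_add_distrib]

lemma mulV_sub (φ : α → β → R) (z w : β → V) : mulV φ (z - w) = mulV φ z - mulV φ w := by
  funext a; simp [mulV, smul_sub, sum_sub_distrib]

lemma mulV_neg (φ : α → β → R) (z : β → V) : mulV φ (-z) = - mulV φ z := by
  funext a; simp [mulV]

lemma mulV_zero (φ : α → β → R) : mulV φ (0 : β → V) = 0 := by
  funext a; simp [mulV]

lemma add_mulV (φ ψ : α → β → R) (z : β → V) :
    mulV (fun a b => φ a b + ψ a b) z = mulV φ z + mulV ψ z := by
  funext a; simp [mulV, add_smul, sum_add_distrib]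

lemma mulV_mulV (φ : α → β → R) (ψ : β → γ → R) (z : γ → V) :
    mulV φ (mulV ψ z) = mulV (fun a c => ∑ b, φ a b * ψ b c) z := by
  funext a
  simp only [mulV, sum_smul, smul_sum, mul_smul]
  rw [sum_comm]

lemma mulV_map (φ : α → β → R) (z : β → V) (f : V →ₗ[R] W) :
    mulV φ (fun b => f (z b)) = fun a => f (mulV φ z a) := by
  funext a; simp [mulV, map_sum]

end mulV

namespace BC

variable (D : BC R)

lemma σσ (a : D.ι) : D.σ a * D.σ a = 1 := by
  rcases D.pm a with h | h <;> rw [h] <;> norm_num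

omit [Module R V] in
lemma σσ_smul (a : D.ι) (v : V) : D.σ a • D.σ a • v = v := by
  rw [smul_smul, D.σσ, one_smul]

lemma σmm (a b : D.ι) (v : V) : D.m a b • D.σ b • v = - (D.σ a • D.m a b • v) := by
  by_cases h : D.m a b = 0
  · simp [h]
  · rw [D.sgn a b h, neg_smul, smul_neg, smul_comm]

/-- the differential of `D ⊗ V` -/
def op (d : V →ₗ[R] V) : (D.ι → V) →ₗ[R] (D.ι → V) where
  toFun z a := ∑ b, D.m a b • z b + D.σ a • d (z a)
  map_add' z w := by
    funext a
    simp only [Pi.add_apply, smul_add, map_add, sum_add_distrib]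
    abel
  map_smul' r z := by
    funext a
    simp only [Pi.smul_apply, map_smul, RingHom.id_apply, smul_add, smul_sum]
    congr 1
    · exact sum_congr rfl fun b _ => smul_comm _ _ _
    · exact smul_comm _ _ _

lemma op_apply (d : V →ₗ[R] V) (z : D.ι → V) (a : D.ι) :
    D.op d z a = ∑ b, D.m a b • z b + D.σ a • d (z a) := rfl

lemma op_op (d : V →ₗ[R] V) (hd : ∀ v, d (d v) = 0) (z : D.ι → V) : D.op d (D.op d z) = 0 := by
  funext a
  rw [op_apply, Pi.zero_apply]
  simp only [op_apply, smul_add, sum_add_distrib, map_add, map_sum, map_smul, map_zsmul, hd,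
    smul_zero, add_zero, smul_sum]
  have h1 : ∑ b, ∑ c, D.m a b • D.m b c • z c = 0 := by
    rw [sum_comm]
    refine sum_eq_zero fun c _ => ?_
    simp only [smul_smul]
    rw [← sum_smul, D.sq, zero_smul]
  rw [h1, zero_add, ← sum_add_distrib]
  refine sum_eq_zero fun b _ => ?_
  rw [σmm, neg_add_cancel]

/-- functoriality in the differential module -/
lemma op_map (d : V →ₗ[R] V) (d' : W →ₗ[R] W) (f : V →ₗ[R] W) (h : ∀ v, d' (f v) = f (d v))
    (z : D.ι → V) : D.op d' (fun a => f (z a)) = fun a => f (D.op d z a) := by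
  funext a
  simp [op_apply, h, map_sum]

/-- projection to total degree `t` -/
def pr (p : ℤ → V →ₗ[R] V) (t : ℤ) : (D.ι → V) →ₗ[R] (D.ι → V) where
  toFun z a := p (t - D.g a) (z a)
  map_add' z w := by funext a; simp
  map_smul' r z := by funext a; simp

lemma pr_apply (p : ℤ → V →ₗ[R] V) (t : ℤ) (z : D.ι → V) (a : D.ι) :
    D.pr p t z a = p (t - D.g a) (z a) := rfl

/-- the graded differential module `D ⊗ V` -/
def dg (A : DG R V) : DG R (D.ι → V) where
  d := D.op A.d
  p := D.pr A.p
  dd z := D.op_op A.d A.dd z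
  dp t z := by
    funext a
    have h1 : D.pr A.p (t - 1) (D.op A.d z) a =
        A.p (t - 1 - D.g a) (∑ b, D.m a b • z b + D.σ a • A.d (z a)) := rfl
    rw [h1, op_apply, pr_apply, map_add, map_sum, A.dp, map_zsmul]
    congr 1
    · refine sum_congr rfl fun b _ => ?_
      rw [map_smul, pr_apply]
      by_cases h : D.m a b = 0
      · simp [h]
      · rw [D.deg a b h, show t - (D.g a + 1) = t - 1 - D.g a by ring]
    · rw [show t - D.g a - 1 = t - 1 - D.g a by ring]
  pp t z := by
    funext a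
    rw [pr_apply, pr_apply, A.pp]

lemma dg_d (A : DG R V) : (D.dg A).d = D.op A.d := rfl

lemma dg_p (A : DG R V) : (D.dg A).p = D.pr A.p := rfl

/-- the tensor product of two complexes -/
def tensor (X D : BC R) : BC R where
  ι := X.ι × D.ι
  fin := inferInstance
  dec := inferInstance
  g x := X.g x.1 + D.g x.2
  σ x := X.σ x.1 * D.σ x.2
  m x y := X.m x.1 y.1 * (if x.2 = y.2 then 1 else 0) +
    (if x.1 = y.1 then 1 else 0) * ((X.σ x.1 : R) * D.m x.2 y.2)
  pm x := by
    rcases X.pm x.1 with h1 | h1 <;> rcases D.pm x.2 with h2 | h2 <;> rw [h1, h2] <;> norm_num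
  deg := by
    rintro ⟨x, a⟩ ⟨y, b⟩ h
    by_cases h1 : X.m x y * (if a = b then 1 else 0) = 0
    · have h2 : (if x = y then (1 : R) else 0) * ((X.σ x : R) * D.m a b) ≠ 0 := by
        intro h2; exact h (by simp only [h1, h2, add_zero])
      have h3 : x = y := by by_contra h3; exact h2 (by rw [if_neg h3, zero_mul])
      have h4 : D.m a b ≠ 0 := fun h4 => h2 (by rw [h4, mul_zero, mul_zero])
      subst h3
      simp only [D.deg a b h4]
      ring
    · have h3 : a = b := by by_contra h3; exact h1 (by rw [if_neg h3, mul_zero])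
      have h4 : X.m x y ≠ 0 := fun h4 => h1 (by rw [h4, zero_mul])
      subst h3
      simp only [X.deg x y h4]
      ring
  sgn := by
    rintro ⟨x, a⟩ ⟨y, b⟩ h
    by_cases h1 : X.m x y * (if a = b then 1 else 0) = 0
    · have h2 : (if x = y then (1 : R) else 0) * ((X.σ x : R) * D.m a b) ≠ 0 := by
        intro h2; exact h (by simp only [h1, h2, add_zero])
      have h3 : x = y := by by_contra h3; exact h2 (by rw [if_neg h3, zero_mul])
      have h4 : D.m a b ≠ 0 := fun h4 => h2 (by rw [h4, mul_zero, mul_zero])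
      subst h3
      simp only [D.sgn a b h4]
      ring
    · have h3 : a = b := by by_contra h3; exact h1 (by rw [if_neg h3, mul_zero])
      have h4 : X.m x y ≠ 0 := fun h4 => h1 (by rw [h4, zero_mul])
      subst h3
      simp only [X.sgn x y h4]
      ring
  sq := by
    rintro ⟨x, a⟩ ⟨y, b⟩
    simp only [Fintype.sum_prod_type]
    have key : ∀ (z : X.ι) (c : D.ι),
        (X.m x z * (if a = c then 1 else 0) + (if x = z then 1 else 0) * ((X.σ x : R) * D.m a c)) *
        (X.m z y * (if c = b then 1 else 0) + (if z = y then 1 else 0) * ((X.σ z : R) * D.m c b)) =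
        (X.m x z * X.m z y) * ((if a = c then 1 else 0) * (if c = b then 1 else 0)) +
        (if z = y then 1 else 0) * ((if a = c then 1 else 0) * (X.m x z * (X.σ z : R) * D.m c b)) +
        (if x = z then 1 else 0) * ((if c = b then 1 else 0) * ((X.σ x : R) * D.m a c * X.m z y)) +
        ((if x = z then 1 else 0) * (if z = y then 1 else 0) * ((X.σ x : R) * (X.σ z : R))) *
          (D.m a c * D.m c b) := by
      intro z c; ring
    simp only [key, sum_add_distrib]
    have e1 : ∑ z, ∑ c, (X.m x z * X.m z y) *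
        ((if a = c then (1 : R) else 0) * (if c = b then 1 else 0)) = 0 := by
      rw [sum_comm]
      refine sum_eq_zero fun c _ => ?_
      rw [← sum_mul, X.sq, zero_mul]
    have e4 : ∑ z, ∑ c, ((if x = z then (1 : R) else 0) * (if z = y then 1 else 0) *
        ((X.σ x : R) * (X.σ z : R))) * (D.m a c * D.m c b) = 0 := by
      refine sum_eq_zero fun z _ => ?_
      rw [← mul_sum, D.sq, mul_zero]
    have e2 : ∑ z, ∑ c, (if z = y then (1 : R) else 0) *
        ((if a = c then 1 else 0) * (X.m x z * (X.σ z : R) * D.m c b)) =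
        X.m x y * (X.σ y : R) * D.m a b := by
      simp [ite_mul, mul_ite, sum_ite_eq, sum_ite_eq']
    have e3 : ∑ z, ∑ c, (if x = z then (1 : R) else 0) *
        ((if c = b then 1 else 0) * ((X.σ x : R) * D.m a c * X.m z y)) =
        (X.σ x : R) * D.m a b * X.m x y := by
      simp [ite_mul, mul_ite, sum_ite_eq, sum_ite_eq']
    rw [e1, e2, e3, e4]
    by_cases h : X.m x y = 0
    · simp [h]
    · rw [X.sgn x y h]; push_cast; ring

lemma tensor_op (X D : BC R) (d : V →ₗ[R] V) (z : X.ι × D.ι → V) (x : X.ι) (a : D.ι) :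
    (X.tensor D).op d z (x, a) = X.op (D.op d) (fun x a => z (x, a)) x a := by
  have h : (X.tensor D).op d z (x, a) =
      ∑ y : X.ι × D.ι, (X.m x y.1 * (if a = y.2 then 1 else 0) +
        (if x = y.1 then 1 else 0) * ((X.σ x : R) * D.m a y.2)) • z y +
        (X.σ x * D.σ a) • d (z (x, a)) := rfl
  rw [h, op_apply, Fintype.sum_prod_type]
  simp only [add_smul, sum_add_distrib, Pi.add_apply, Finset.sum_apply, Pi.smul_apply, op_apply,
    smul_add, smul_sum, smul_smul]
  rw [add_assoc]
  congr 1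
  · refine sum_congr rfl fun y _ => ?_
    rw [sum_eq_single a]
    · simp
    · intro c _ hc; rw [if_neg (Ne.symm hc), mul_zero, zero_smul]
    · simp
  · congr 1
    rw [sum_eq_single x]
    · simp [mul_smul, Int.cast_smul_eq_zsmul]
    · intro y _ hy
      refine sum_eq_zero fun c _ => ?_
      rw [if_neg (Ne.symm hy), zero_mul, zero_smul]
    · simp

end BC

/-- a chain map of degree `0`, given by a matrix -/
structure CM (D' D : BC R) (φ : D.ι → D'.ι → R) : Prop where
  comm : ∀ a c, ∑ b, D.m a b * φ b c = ∑ b, φ a b * D'.m b c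
  sgn : ∀ a b, φ a b ≠ 0 → D.σ a = D'.σ b

lemma CM.op {D' D : BC R} {φ : D.ι → D'.ι → R} (h : CM D' D φ) (d : V →ₗ[R] V)
    (z : D'.ι → V) : D.op d (mulV φ z) = mulV φ (D'.op d z) := by
  funext a
  simp only [BC.op_apply, mulV, smul_add, sum_add_distrib, map_sum, map_smul, smul_sum]
  congr 1
  · have h1 : ∑ b, ∑ c, D.m a b • φ b c • z c = ∑ c, (∑ b, D.m a b * φ b c) • z c := by
      rw [sum_comm]
      refine sum_congr rfl fun c _ => ?_
      rw [sum_smul]
      exact sum_congr rfl fun b _ => by rw [mul_smul]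
    have h2 : ∑ b, ∑ c, φ a b • D'.m b c • z c = ∑ c, (∑ b, φ a b * D'.m b c) • z c := by
      rw [sum_comm]
      refine sum_congr rfl fun c _ => ?_
      rw [sum_smul]
      exact sum_congr rfl fun b _ => by rw [mul_smul]
    rw [h1, h2]
    exact sum_congr rfl fun c _ => by rw [h.comm]
  · refine sum_congr rfl fun b _ => ?_
    by_cases h1 : φ a b = 0
    · simp [h1]
    · rw [h.sgn a b h1, smul_comm]

lemma CM.comp {D'' D' D : BC R} {φ : D.ι → D'.ι → R} {ψ : D'.ι → D''.ι → R} (h : CM D' D φ)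
    (h' : CM D'' D' ψ) : CM D'' D (fun a c => ∑ b, φ a b * ψ b c) where
  comm a c := by
    have h1 : ∀ b, D.m a b * ∑ e, φ b e * ψ e c = ∑ e, (D.m a b * φ b e) * ψ e c := fun b => by
      rw [mul_sum]; exact sum_congr rfl fun e _ => by ring
    have h2 : ∀ b, (∑ e, φ a e * ψ e b) * D''.m b c = ∑ e, φ a e * (ψ e b * D''.m b c) :=
      fun b => by rw [sum_mul]; exact sum_congr rfl fun e _ => by ring
    simp only [h1, h2]
    rw [sum_comm]
    rw [sum_comm (f := fun b e => φ a e * (ψ e b * D''.m b c))]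
    have h3 : ∀ e, ∑ b, D.m a b * φ b e * ψ e c = (∑ b, φ a b * D'.m b e) * ψ e c := fun e => by
      rw [← sum_mul, h.comm]
    have h4 : ∀ e, ∑ b, φ a e * (ψ e b * D''.m b c) = φ a e * ∑ b, D'.m e b * ψ b c := fun e => by
      rw [← mul_sum, h'.comm]
    simp only [h3, h4]
    have h5 : ∀ e, (∑ b, φ a b * D'.m b e) * ψ e c = ∑ b, φ a b * (D'.m b e * ψ e c) := fun e => by
      rw [sum_mul]; exact sum_congr rfl fun b _ => by ring
    simp only [h5, mul_sum]
    rw [sum_comm]
  sgn a c hac := by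
    obtain ⟨b, -, hb⟩ := exists_ne_zero_of_sum_ne_zero hac
    have h1 : φ a b ≠ 0 := fun h0 => hb (by rw [h0, zero_mul])
    have h2 : ψ b c ≠ 0 := fun h0 => hb (by rw [h0, mul_zero])
    rw [h.sgn a b h1, h'.sgn b c h2]

/-- a boundary -/
def Bdy (A : DG R V) (z : V) : Prop := ∃ v, z = A.d v

lemma Bdy.add {A : DG R V} {z w : V} (h : Bdy A z) (h' : Bdy A w) : Bdy A (z + w) := by
  obtain ⟨v, rfl⟩ := h; obtain ⟨v', rfl⟩ := h'
  exact ⟨v + v', (map_add _ _ _).symm⟩

lemma Bdy.neg {A : DG R V} {z : V} (h : Bdy A z) : Bdy A (-z) := by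
  obtain ⟨v, rfl⟩ := h
  exact ⟨-v, (map_neg _ _).symm⟩

lemma Bdy.sub {A : DG R V} {z w : V} (h : Bdy A z) (h' : Bdy A w) : Bdy A (z - w) := by
  rw [sub_eq_add_neg]; exact h.add h'.neg

lemma Bdy.zero {A : DG R V} : Bdy A (0 : V) := ⟨0, (map_zero _).symm⟩

lemma CM.bdy {D' D : BC R} {φ : D.ι → D'.ι → R} (h : CM D' D φ) (A : DG R V) {z : D'.ι → V}
    (hz : Bdy (D'.dg A) z) : Bdy (D.dg A) (mulV φ z) := by
  obtain ⟨v, rfl⟩ := hz
  exact ⟨mulV φ v, (h.op A.d v).symm⟩

end Basic

end Pool.Agent.CN
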