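import Pool.Agent.CN.WDefs

/-!
# The operators `χ l` commute with the differential modulo `(f)`
-/

universe u

namespace Pool.Agent.CN

open Finset IsLocalRing

section Syz

variable {S : Type u} [CommRing S]

/-- a syzygy of a regular family: the last coefficient lies in the ideal of the others -/
lemma RegFam.syz_last {r : ℕ} {f : Fin (r + 1) → S} (hreg : RegFam f) (c : Fin (r + 1) → S)
    (h : ∑ l, f l * c l = 0) :
    c (Fin.last r) ∈ Ideal.span (Set.range fun l : Fin r => f l.castSucc) := by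
  refine hreg.2 _ ?_
  rw [Fin.sum_univ_castSucc] at h
  have h1 : f (Fin.last r) * c (Fin.last r) = - ∑ l : Fin r, f l.castSucc * c l.castSucc := by
    linear_combination h
  rw [h1]
  refine Ideal.neg_mem_iff _ |>.2 (Ideal.sum_mem _ fun l _ => ?_)
  exact Ideal.mul_mem_right _ _ (Ideal.subset_span ⟨l, rfl⟩)

/-- a syzygy of a regular family has coefficients in the ideal -/
lemma RegFam.syz {r : ℕ} {f : Fin r → S} (hreg : RegFam f) (c : Fin r → S)
    (h : ∑ l, f l * c l = 0) (l : Fin r) : c l ∈ Ideal.span (Set.range f) := by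
  induction r with
  | zero => exact l.elim0
  | succ r ih =>
    have hlast := hreg.syz_last c h
    have hle : Ideal.span (Set.range fun l : Fin r => f l.castSucc) ≤
        Ideal.span (Set.range f) := by
      refine Ideal.span_mono ?_
      rintro _ ⟨l, rfl⟩
      exact ⟨l.castSucc, rfl⟩
    obtain ⟨e, he⟩ := (Ideal.mem_span_range_iff_exists_fun).1 hlast
    have h2 : ∑ l : Fin r, (fun l : Fin r => f l.castSucc) l *
        (fun l : Fin r => c l.castSucc + f (Fin.last r) * e l) l = 0 := by
      have h3 : ∑ l : Fin r, f l.castSucc * (c l.castSucc + f (Fin.last r) * e l) =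
          ∑ l : Fin r, f l.castSucc * c l.castSucc +
            f (Fin.last r) * ∑ l : Fin r, e l * f l.castSucc := by
        rw [mul_sum, ← sum_add_distrib]
        exact sum_congr rfl fun l _ => by ring
      show ∑ l : Fin r, f l.castSucc * (c l.castSucc + f (Fin.last r) * e l) = 0
      rw [h3, he, ← h, Fin.sum_univ_castSucc]
    have h4 := ih hreg.1 _ h2
    refine Fin.lastCases (hle hlast) (fun l => ?_) l
    have h5 := hle (h4 l)
    have h6 : f (Fin.last r) * e l ∈ Ideal.span (Set.range f) :=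
      Ideal.mul_mem_right _ _ (Ideal.subset_span ⟨Fin.last r, rfl⟩)
    have h7 := Ideal.sub_mem _ h5 h6
    simpa using h7

end Syz

variable {S : Type u} [CommRing S] [IsLocalRing S]

/-- associativity of the triple product gives a syzygy of the family `f` -/
lemma WD.syz {r : ℕ} {f : Fin r → S} (w : WD S f) (n : ℕ)
    (i : Fin (w.b n)) (k : Fin (w.b (n + 3))) :
    ∑ l, f l * (∑ j, w.G n i j * w.C l (n + 1) j k -
      ∑ j, w.C l n i j * w.G (n + 2) j k) = 0 := by
  have h1 : ∑ l, f l * ∑ j, w.G n i j * w.C l (n + 1) j k =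
      ∑ j, w.G n i j * ∑ j', w.G (n + 1) j j' * w.G (n + 2) j' k := by
    calc ∑ l, f l * ∑ j, w.G n i j * w.C l (n + 1) j k
        = ∑ l, ∑ j, f l * (w.G n i j * w.C l (n + 1) j k) := by
          exact sum_congr rfl fun l _ => mul_sum _ _ _
      _ = ∑ j, ∑ l, f l * (w.G n i j * w.C l (n + 1) j k) := sum_comm
      _ = ∑ j, w.G n i j * ∑ l, f l * w.C l (n + 1) j k := by
          refine sum_congr rfl fun j _ => ?_
          rw [mul_sum]
          exact sum_congr rfl fun l _ => by ring
      _ = _ := sum_congr rfl fun j _ => by rw [← w.sq (n + 1) j k]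
  have h2 : ∑ l, f l * ∑ j, w.C l n i j * w.G (n + 2) j k =
      ∑ j, w.G n i j * ∑ j', w.G (n + 1) j j' * w.G (n + 2) j' k := by
    calc ∑ l, f l * ∑ j, w.C l n i j * w.G (n + 2) j k
        = ∑ l, ∑ j, f l * (w.C l n i j * w.G (n + 2) j k) := by
          exact sum_congr rfl fun l _ => mul_sum _ _ _
      _ = ∑ j, ∑ l, f l * (w.C l n i j * w.G (n + 2) j k) := sum_comm
      _ = ∑ j', (∑ l, f l * w.C l n i j') * w.G (n + 2) j' k := by
          refine sum_congr rfl fun j _ => ?_
          rw [sum_mul]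
          exact sum_congr rfl fun l _ => by ring
      _ = ∑ j', ∑ j, w.G n i j * (w.G (n + 1) j j' * w.G (n + 2) j' k) := by
          refine sum_congr rfl fun j' _ => ?_
          rw [← w.sq n i j', sum_mul]
          exact sum_congr rfl fun l _ => by ring
      _ = ∑ j, ∑ j', w.G n i j * (w.G (n + 1) j j' * w.G (n + 2) j' k) := sum_comm
      _ = _ := sum_congr rfl fun j _ => (mul_sum _ _ _).symm
  simp only [mul_sub, sum_sub_distrib]
  rw [h1, h2, sub_self]

theorem WD.commLast {r : ℕ} {f : Fin (r + 1) → S} (w : WD S f) (hreg : RegFam f) (n : ℕ)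
    (i : Fin (w.b n)) (k : Fin (w.b (n + 3))) :
    ∑ j, w.G n i j * w.C (Fin.last r) (n + 1) j k - ∑ j, w.C (Fin.last r) n i j * w.G (n + 2) j k ∈
      Ideal.span (Set.range fun l : Fin r => f l.castSucc) :=
  hreg.syz_last (fun l => ∑ j, w.G n i j * w.C l (n + 1) j k -
      ∑ j, w.C l n i j * w.G (n + 2) j k) (w.syz n i k)

theorem WD.comm {r : ℕ} {f : Fin r → S} (w : WD S f) (hreg : RegFam f) (l : Fin r) (n : ℕ)
    (i : Fin (w.b n)) (k : Fin (w.b (n + 3))) :
    ∑ j, w.G n i j * w.C l (n + 1) j k - ∑ j, w.C l n i j * w.G (n + 2) j k ∈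
      Ideal.span (Set.range f) :=
  hreg.syz (fun l => ∑ j, w.G n i j * w.C l (n + 1) j k -
      ∑ j, w.C l n i j * w.G (n + 2) j k) (w.syz n i k) l

theorem WD.op2 {r : ℕ} {f : Fin r → S} (w : WD S f) (hreg : RegFam f) (I : Ideal S)
    (hf : ∀ l, f l ∈ I) (Y : Type u) [AddCommGroup Y] [Module (S ⧸ I) Y] (l : Fin r) :
    Op2 (w.dg I hf Y) (w.chi I Y l) where
  comm v := by
    have hI : Ideal.span (Set.range f) ≤ I := by
      rw [Ideal.span_le]
      rintro _ ⟨l, rfl⟩
      exact hf l
    funext n i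
    show ∑ j, Ideal.Quotient.mk I (w.G n i j) •
        ∑ k, Ideal.Quotient.mk I (w.C l (n + 1) j k) • v (n + 3) k =
      ∑ j, Ideal.Quotient.mk I (w.C l n i j) •
        ∑ k, Ideal.Quotient.mk I (w.G (n + 2) j k) • v (n + 3) k
    simp only [smul_sum, smul_smul]
    rw [sum_comm]
    conv_rhs => rw [sum_comm]
    refine sum_congr rfl fun k _ => ?_
    rw [← sum_smul, ← sum_smul]
    congr 1
    simp only [← map_mul]
    rw [← map_sum, ← map_sum]
    exact (Ideal.Quotient.eq).2 (hI (w.comm hreg l n i k))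
  deg t v := by
    funext n i
    show ∑ j, Ideal.Quotient.mk I (w.C l n i j) • WD.prj I Y t v (n + 2) j =
      if (n : ℤ) = t - 2 then ∑ j, Ideal.Quotient.mk I (w.C l n i j) • v (n + 2) j else 0
    simp only [WD.prj_apply]
    by_cases h : (n : ℤ) = t - 2
    · have h' : ((n + 2 : ℕ) : ℤ) = t := by push_cast; omega
      simp only [if_pos h, if_pos h']
    · have h' : ¬ ((n + 2 : ℕ) : ℤ) = t := by push_cast; omega
      simp only [if_neg h, if_neg h', smul_zero, sum_const_zero]

end Pool.Agent.CN
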