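import Pool.Agent.CN.FDefs
import Pool.Agent.CN.Atiyah
import Pool.Agent.CN.StarAbs
import Pool.Agent.CN.WComm

/-!
# Detection data from resolutions of `N` and `Hom(I, N)`
-/

universe u

namespace Pool.Agent.CN

open Finset IsLocalRing

section Dual

variable {R : Type u} [CommRing R]

/-- the dual complex, shifted by `s` -/
def BC.dualS (π : BC R) (s : ℕ) : BC R where
  ι := π.ι
  fin := π.fin
  dec := π.dec
  g x := s - π.g x
  σ x := (-1) ^ s * π.σ x
  m x y := π.m y x
  pm x := by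
    rcases π.pm x with h | h <;> rcases neg_one_pow_eq_or ℤ s with h' | h' <;> rw [h, h'] <;>
      norm_num
  deg x y h := by rw [π.deg y x h]; ring
  sgn x y h := by rw [π.sgn y x h]; ring
  sq a c := by
    rw [← π.sq c a]
    exact sum_congr rfl fun b _ => mul_comm _ _

/-- copies of a complex -/
def BC.copies (T : Type) [Fintype T] [DecidableEq T] (X : BC R) : BC R where
  ι := T × X.ι
  fin := inferInstance
  dec := inferInstance
  g x := X.g x.2
  σ x := X.σ x.2
  m x y := if x.1 = y.1 then X.m x.2 y.2 else 0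
  pm x := X.pm x.2
  deg x y h := by
    by_cases h' : x.1 = y.1
    · rw [if_pos h'] at h; exact X.deg _ _ h
    · rw [if_neg h'] at h; exact absurd rfl h
  sgn x y h := by
    by_cases h' : x.1 = y.1
    · rw [if_pos h'] at h; exact X.sgn _ _ h
    · rw [if_neg h'] at h; exact absurd rfl h
  sq := by
    rintro ⟨n, x⟩ ⟨k, y⟩
    rw [Fintype.sum_prod_type, sum_eq_single n]
    · by_cases h : n = k
      · simp [h, X.sq]
      · simp [h]
    · intro b _ hb
      refine sum_eq_zero fun c _ => ?_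
      rw [if_neg (Ne.symm hb), zero_mul]
    · simp

lemma BC.copies_op (T : Type) [Fintype T] [DecidableEq T] (X : BC R) {V : Type u}
    [AddCommGroup V] [Module R V] (d : V →ₗ[R] V) (z : T × X.ι → V) (n : T) (x : X.ι) :
    (BC.copies T X).op d z (n, x) = X.op d (fun x => z (n, x)) x := by
  have h : (BC.copies T X).op d z (n, x) =
      ∑ y : T × X.ι, (if n = y.1 then X.m x y.2 else 0) • z y + X.σ x • d (z (n, x)) := rfl
  rw [h, BC.op_apply, Fintype.sum_prod_type, sum_eq_single n]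
  · simp
  · intro b _ hb
    refine sum_eq_zero fun c _ => ?_
    rw [if_neg (Ne.symm hb), zero_smul]
  · simp

/-- a module with zero differential in degree `0` -/
def DG.triv (R : Type u) [CommRing R] (Y : Type u) [AddCommGroup Y] [Module R Y] : DG R Y where
  d := 0
  p t := if t = 0 then LinearMap.id else 0
  dd _ := rfl
  dp t v := by simp
  pp t v := by by_cases h : t = 0 <;> simp [h]

lemma FRes.sum_m_ε {N : Type u} [AddCommGroup N] [Module R N] {s : ℕ} (F : FRes R N s)
    (b : F.ν.ι) : ∑ a, F.ν.m a b • F.ε a = 0 := by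
  have := F.qi.Em b 1
  simpa using this

lemma FRes.ε0 {N : Type u} [AddCommGroup N] [Module R N] {s : ℕ} (F : FRes R N s)
    (a : F.ν.ι) (h : F.ν.g a ≠ 0) : F.ε a = 0 := by
  have := LinearMap.congr_fun (F.qi.E0 a h) 1
  simpa using this

/-- comparison for functions -/
lemma FRes.qiPi {N : Type u} [AddCommGroup N] [Module R N] {s : ℕ} (F : FRes R N s)
    (J : Type) : QIData F.ν (J → R) (J → N)
      (fun a => LinearMap.pi fun j => (LinearMap.toSpanSingleton R N (F.ε a)) ∘ₗ
        (LinearMap.proj j)) :=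
  QIData.pi (V := fun _ : J => R) (W := fun _ : J => N)
    (E := fun a _ => LinearMap.toSpanSingleton R N (F.ε a)) (fun _ => F.qi)

/-- lifting of the cycles of `X ⊗ N` of degree `k` -/
lemma FRes.lift_deg {N : Type u} [AddCommGroup N] [Module R N] {s : ℕ} (F : FRes R N s)
    (X : BC R) (k : ℤ) (h : X.ι → N) (h1 : ∀ x, ∑ y, X.m x y • h y = 0)
    (h2 : ∀ x, h x ≠ 0 → X.g x = k) :
    ∃ ηh : F.ν.ι → X.ι → R, F.ν.op (X.op (0 : R →ₗ[R] R)) ηh = 0 ∧
      (∀ n x, ηh n x ≠ 0 → F.ν.g n + X.g x = k) ∧ ∀ x, ∑ n, ηh n x • F.ε n = h x := by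
  have hcomm : ∀ (a : F.ν.ι) (v : X.ι → R),
      (LinearMap.pi fun j => (LinearMap.toSpanSingleton R N (F.ε a)) ∘ₗ
        (LinearMap.proj j)) ((X.dg (DG.triv R R)).d v) =
      (X.dg (DG.triv R N)).d ((LinearMap.pi fun j =>
        (LinearMap.toSpanSingleton R N (F.ε a)) ∘ₗ (LinearMap.proj j)) v) := by
    intro a v
    funext x
    simp only [BC.dg_d, DG.triv, LinearMap.pi_apply, LinearMap.comp_apply, LinearMap.proj_apply,
      LinearMap.toSpanSingleton_apply, BC.op_apply, LinearMap.zero_apply, smul_zero, add_zero,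
      smul_eq_mul, sum_smul, mul_smul]
  obtain ⟨z, hz1, hz2⟩ := (F.qiPi X.ι).lift F.g0 F.σ0 (X.dg (DG.triv R R))
    (X.dg (DG.triv R N)) hcomm h (by
      funext x
      rw [BC.dg_d, BC.op_apply, h1, zero_add]
      simp [DG.triv])
  have hz3 : ∀ x, ∑ n, z n x • F.ε n = h x := fun x => by
    have := congrFun hz2 x
    rw [Finset.sum_apply] at this
    exact this
  let Z := F.ν.dg (X.dg (DG.triv R R))
  have hp : ∀ n x, Z.p k z n x = if F.ν.g n + X.g x = k then z n x else 0 := by
    intro n x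
    change (DG.triv R R).p (k - F.ν.g n - X.g x) (z n x) = _
    by_cases hk : F.ν.g n + X.g x = k
    · rw [if_pos hk]
      simp [DG.triv, show k - F.ν.g n - X.g x = 0 by omega]
    · rw [if_neg hk]
      have : ¬ (k - F.ν.g n - X.g x = 0) := by omega
      simp [DG.triv, this]
  refine ⟨Z.p k z, ?_, fun n x hn => ?_, fun x => ?_⟩
  · have : Z.d (Z.p k z) = 0 := by
      rw [Z.dp]
      have : Z.d z = 0 := hz1
      rw [this, map_zero]
    exact this
  · by_contra h3
    exact hn (by rw [hp, if_neg h3])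
  · simp only [hp]
    by_cases hk : X.g x = k
    · rw [← hz3]
      refine sum_congr rfl fun n _ => ?_
      by_cases hn : F.ν.g n = 0
      · rw [if_pos (by omega)]
      · rw [F.ε0 n hn, smul_zero, smul_zero]
    · have h4 : h x = 0 := by
        by_contra h5
        exact hk (h2 x h5)
      rw [h4]
      refine sum_eq_zero fun n _ => ?_
      by_cases hn : F.ν.g n = 0
      · rw [if_neg (by omega), zero_smul]
      · rw [F.ε0 n hn, smul_zero]

/-- a cycle over zero has top components in `X.m · _` -/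
lemma FRes.top_mem {N : Type u} [AddCommGroup N] [Module R N] {s : ℕ} (F : FRes R N s)
    (X : BC R) (K : Ideal R) (hK : ∀ x y, X.m x y ∈ K) (ηh : F.ν.ι → X.ι → R)
    (h1 : F.ν.op (X.op (0 : R →ₗ[R] R)) ηh = 0) (h2 : ∀ x, ∑ n, ηh n x • F.ε n = 0)
    (n : F.ν.ι) (hn : F.ν.g n = s) (x : X.ι) : ηh n x ∈ K := by
  have hcomm : ∀ (a : F.ν.ι) (v : X.ι → R),
      (LinearMap.pi fun j => (LinearMap.toSpanSingleton R N (F.ε a)) ∘ₗ
        (LinearMap.proj j)) ((X.dg (DG.triv R R)).d v) =
      (X.dg (DG.triv R N)).d ((LinearMap.pi fun j =>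
        (LinearMap.toSpanSingleton R N (F.ε a)) ∘ₗ (LinearMap.proj j)) v) := by
    intro a v
    funext x
    simp only [BC.dg_d, DG.triv, LinearMap.pi_apply, LinearMap.comp_apply, LinearMap.proj_apply,
      LinearMap.toSpanSingleton_apply, BC.op_apply, LinearMap.zero_apply, smul_zero, add_zero,
      smul_eq_mul, sum_smul, mul_smul]
  obtain ⟨v, hv, -⟩ := (F.qiPi X.ι).acyc F.g0 F.σ0 (X.dg (DG.triv R R))
    (X.dg (DG.triv R N)) hcomm ηh h1 (by
      funext x
      rw [Finset.sum_apply]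
      exact h2 x)
  rw [← hv]
  have h3 : F.ν.op (X.dg (DG.triv R R)).d v n x =
      (∑ n', F.ν.m n n' • v n') x + (F.ν.σ n • (X.op (0 : R →ₗ[R] R) (v n))) x := rfl
  have h4 : ∑ n', F.ν.m n n' • v n' = 0 := by
    refine sum_eq_zero fun n' _ => ?_
    by_cases h5 : F.ν.m n n' = 0
    · rw [h5, zero_smul]
    · have h6 := F.ν.deg n n' h5
      have h7 := F.gs n'
      omega
  rw [h3, h4, Pi.zero_apply, zero_add, Pi.smul_apply, BC.op_apply, LinearMap.zero_apply,
    smul_zero, add_zero]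
  have h8 : ∑ b, X.m x b • v n b ∈ K :=
    Ideal.sum_mem _ fun b _ => Ideal.mul_mem_right _ _ (hK x b)
  rw [← Int.cast_smul_eq_zsmul R]
  exact Ideal.mul_mem_left _ _ h8

end Dual

theorem exists_DD {S : Type u} [CommRing S] [IsLocalRing S] [IsNoetherianRing S] (I : Ideal S)
    [IsLocalRing (S ⧸ I)] (N : Type u) [AddCommGroup N] [Module S N] [Module (S ⧸ I) N]
    [IsScalarTower S (S ⧸ I) N] (s : ℕ) (FN : FRes (S ⧸ I) N s)
    (FP : FRes (S ⧸ I) (I →ₗ[S] N) s)
    (hmin : ∀ a b, FP.ν.m a b ∈ maximalIdeal (S ⧸ I)) :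
    ∃ D : DD S I, ∀ c : Fin D.N → S, (∀ x, D.evη c x ∈ maximalIdeal (S ⧸ I)) →
      ∃ û : FN.ν.ι → FP.ν.ι → S ⧸ I,
        ChainLift FN FP (evP I N ⟨D.evF c, D.evF_mem c⟩) û ∧
        ∀ n x, FN.ν.g n = s → û n x ∈ maximalIdeal (S ⧸ I) := by
  obtain ⟨k, F, hF⟩ := (Submodule.fg_iff_exists_fin_generating_family
    (N := I)).mp (IsNoetherian.noetherian _)
  have hFI : ∀ i, F i ∈ I := fun i => by rw [← hF]; exact Submodule.subset_span ⟨i, rfl⟩
  let X := FP.ν.dualS s
  -- the functions `x ↦ ε x f`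
  have hcyc : ∀ (f : I) (x : X.ι), ∑ y, X.m x y • FP.ε y f = 0 := by
    intro f x
    have h1 := congrArg (evP I N f) (FP.sum_m_ε x)
    rw [map_sum, map_zero] at h1
    rw [← h1]
    exact sum_congr rfl fun y _ => ((evP I N f).map_smul _ _).symm
  have hsupp : ∀ (f : I) (x : X.ι), FP.ε x f ≠ 0 → X.g x = s := by
    intro f x h
    have h1 : FP.ν.g x = 0 := by
      by_contra h2
      exact h (by rw [FP.ε0 x h2]; rfl)
    change (s : ℤ) - FP.ν.g x = s
    rw [h1, sub_zero]
  choose ηh hη1 hη2 hη3 using fun i => FN.lift_deg X s (fun x => FP.ε x ⟨F i, hFI i⟩)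
    (hcyc ⟨F i, hFI i⟩) (hsupp ⟨F i, hFI i⟩)
  -- linear combinations
  let ηc : (Fin k → S) → FN.ν.ι → X.ι → S ⧸ I :=
    fun c => ∑ i, Ideal.Quotient.mk I (c i) • ηh i
  have hηc : ∀ c n x, ηc c n x = ∑ i, Ideal.Quotient.mk I (c i) * ηh i n x := by
    intro c n x
    simp only [ηc, Finset.sum_apply, Pi.smul_apply, smul_eq_mul]
  have hηc1 : ∀ c, FN.ν.op (X.op (0 : (S ⧸ I) →ₗ[S ⧸ I] (S ⧸ I))) (ηc c) = 0 := by
    intro c
    simp only [ηc, map_sum, map_smul, hη1, smul_zero, sum_const_zero]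
  have hηc2 : ∀ c n x, ηc c n x ≠ 0 → FN.ν.g n + X.g x = s := by
    intro c n x h
    rw [hηc] at h
    obtain ⟨i, -, hi⟩ := exists_ne_zero_of_sum_ne_zero h
    exact hη2 i n x (fun h0 => hi (by rw [h0, mul_zero]))
  have hcI : ∀ c : Fin k → S, ∑ i, c i * F i ∈ I := fun c =>
    I.sum_mem fun i _ => I.mul_mem_left _ (hFI i)
  have hηc3 : ∀ (c : Fin k → S) x, ∑ n, ηc c n x • FN.ε n = FP.ε x ⟨∑ i, c i * F i, hcI c⟩ := by
    intro c x
    simp only [hηc, sum_smul, mul_smul]
    rw [sum_comm]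
    have h1 : (⟨∑ i, c i * F i, hcI c⟩ : I) = ∑ i, c i • (⟨F i, hFI i⟩ : I) := by
      apply Subtype.ext
      rw [AddSubmonoidClass.coe_finsetSum]
      rfl
    rw [h1, map_sum]
    refine sum_congr rfl fun i _ => ?_
    rw [← smul_sum, hη3, map_smul]
    exact algebraMap_smul (S ⧸ I) (c i) (FP.ε x ⟨F i, hFI i⟩)
  let T := {n : FN.ν.ι // FN.ν.g n = s}
  refine ⟨{
    N := k
    F := F
    hF := hF
    X := BC.copies T X
    hX := ?_
    hσ := ?_
    hXm := ?_
    η := fun i x => ηh i x.1.1 x.2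
    hη := ?_
    rel := ?_
    star := ?_ }, ?_⟩
  · rintro ⟨n, x⟩
    have := FP.gs x
    change 0 ≤ (s : ℤ) - FP.ν.g x
    omega
  · rintro ⟨n, x⟩ h
    have h1 : FP.ν.g x = s := by
      change (s : ℤ) - FP.ν.g x = 0 at h
      omega
    change (-1) ^ s * FP.ν.σ x = 1
    rw [FP.σs x h1, ← mul_pow]
    norm_num
  · rintro ⟨n, x⟩ ⟨n', y⟩
    change (if n = n' then FP.ν.m y x else 0) ∈ _
    by_cases h : n = n'
    · rw [if_pos h]; exact hmin y x
    · rw [if_neg h]; exact Ideal.zero_mem _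
  · rintro i ⟨n, x⟩ h
    have h1 := hη2 i n.1 x h
    have h2 := n.2
    change X.g x = 0
    omega
  · rintro c hc ⟨n, x⟩
    have h1 := FN.top_mem X (maximalIdeal (S ⧸ I)) (fun x y => hmin y x) (ηc c) (hηc1 c) (by
      intro x
      rw [hηc3]
      have : (⟨∑ i, c i * F i, hcI c⟩ : I) = 0 := Subtype.ext hc
      rw [this, map_zero]) n.1 n.2 x
    rw [hηc] at h1
    exact h1
  · -- the star property
    intro r c hreg w hf D
    obtain ⟨θ, hθ1, hθ2, hθ3⟩ := exists_atiyah I D
    let e : N →ₗ[S ⧸ I] (∀ n, Fin (w.b n) → S ⧸ I) →ₗ[S ⧸ I] (∀ n, Fin (w.b n) → N) :=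
      LinearMap.mk₂ (S ⧸ I) (fun y v n i => v n i • y)
        (fun y y' v => by funext n i; exact smul_add _ _ _)
        (fun a y v => by funext n i; exact smul_comm _ _ _)
        (fun y v v' => by funext n i; exact add_smul _ _ _)
        (fun a y v => by funext n i; exact mul_smul _ _ _)
    have he : ∀ y v n i, e y v n i = v n i • y := fun y v n i => rfl
    obtain ⟨α, hα1, hα2⟩ := star_abs FN X (w.dg I hf (S ⧸ I)) (w.dg I hf N) e (by
        intro y v
        funext n i
        rw [he]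
        change ∑ j, Ideal.Quotient.mk I (w.G n i j) • e y v (n + 1) j =
          (∑ j, Ideal.Quotient.mk I (w.G n i j) • v (n + 1) j) • y
        rw [sum_smul]
        exact sum_congr rfl fun j _ => by rw [he, smul_eq_mul, mul_smul]) (by
        have h1 := QIData.pi (V := fun n => Fin (w.b n) → S ⧸ I) (W := fun n => Fin (w.b n) → N)
          (fun n => FN.qiPi (Fin (w.b n)))
        have h2 : (fun a => e (FN.ε a)) = (fun a => LinearMap.pi fun n =>
          (LinearMap.pi fun j : Fin (w.b n) => (LinearMap.toSpanSingleton (S ⧸ I) N (FN.ε a)) ∘ₗ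
            (LinearMap.proj j)) ∘ₗ (LinearMap.proj n)) := by
          funext a
          refine LinearMap.ext fun v => ?_
          funext n i
          rfl
        rw [h2]
        exact h1)
      (w.chi I (S ⧸ I)) (fun l => w.op2 hreg I hf (S ⧸ I) l) (fun l => ηc (c l))
      (fun l => hηc1 (c l)) D (fun x a c => FP.ε x (θ a c)) (by
        intro x a c h
        refine ⟨hsupp _ x h, hθ1 a c fun h0 => h ?_⟩
        rw [h0, map_zero]) (by
        intro x a c
        exact hcyc (θ a c) x) (by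
        intro x a c
        exact hθ2 N (FP.ε x) a c) (by
        intro z hz
        obtain ⟨y, hy⟩ := hθ3 r _ w hf z hz
        refine ⟨fun x a n i => X.σ x • FP.ε x (y a n i), ?_⟩
        funext x a
        have h1 := congrFun (hy N (FP.ε x)) a
        have h2 : X.op (D.op (w.dg I hf N).d) (fun x a n i => X.σ x • FP.ε x (y a n i)) x a =
            D.op (w.dg I hf N).d (fun a n i => FP.ε x (y a n i)) a := by
          rw [BC.op_apply]
          have h3 : (fun a n i => X.σ x • FP.ε x (y a n i)) =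
              X.σ x • (fun a n i => FP.ε x (y a n i)) := rfl
          rw [h3, map_zsmul, X.σσ_smul, Pi.add_apply]
          have h4 : (∑ x', X.m x x' • (fun a n i => X.σ x' • FP.ε x' (y a n i))) = 0 := by
            funext a n i
            simp only [Finset.sum_apply, Pi.smul_apply, Pi.zero_apply]
            have h5 : ∀ x', X.m x x' • X.σ x' • FP.ε x' (y a n i) =
                - (X.σ x • X.m x x' • FP.ε x' (y a n i)) := fun x' => X.σmm x x' _
            simp only [h5, sum_neg_distrib, ← smul_sum, hcyc, smul_zero, neg_zero]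
          rw [h4]
          simp
        rw [h2, ← h1]
        funext n i
        simp only [Pi.add_apply, Finset.sum_apply, he, hηc3])
    refine ⟨fun x c => α x.1.1 x.1.2 x.2 c, fun x a c h => hα1 x.1 x.2 a c h, fun z hz => ?_⟩
    have hop : ∀ (z : (T × X.ι) × D.ι → ∀ n, Fin (w.b n) → S ⧸ I) n x a,
        ((BC.copies T X).tensor D).op (w.dg I hf (S ⧸ I)).d z ((n, x), a) =
          X.op (D.op (w.dg I hf (S ⧸ I)).d) (fun x a => z ((n, x), a)) x a := by
      intro z n x a
      rw [BC.tensor_op]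
      exact congrFun (BC.copies_op T X (D.op (w.dg I hf (S ⧸ I)).d) (fun x a => z (x, a)) n x) a
    refine ⟨?_, ?_⟩
    · funext ⟨⟨n, x⟩, a⟩
      rw [hop]
      exact congrFun (congrFun (hα2 z hz n).1 x) a
    · choose v hv using fun n => (hα2 z hz n).2
      refine ⟨fun x => v x.1.1 x.1.2 x.2, ?_⟩
      funext ⟨⟨n, x⟩, a⟩
      rw [BC.dg_d, hop]
      have h1 := congrFun (congrFun (hv n) x) a
      rw [← h1]
      simp only [Pi.add_apply, Finset.sum_apply, mulV, hηc]
  · -- the chain lift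
    intro c hc
    refine ⟨fun n x => ηc c n x, ⟨fun n x h => ?_, fun n x => ?_, fun x => ?_⟩, fun n x hn => ?_⟩
    · have h1 := hηc2 c n x h
      change FN.ν.g n + ((s : ℤ) - FP.ν.g x) = s at h1
      omega
    · have h1 := congrFun (congrFun (hηc1 c) n) x
      rw [BC.op_apply, Pi.add_apply, Finset.sum_apply, Pi.smul_apply, BC.op_apply,
        LinearMap.zero_apply, smul_zero, add_zero] at h1
      have h2 := eq_neg_of_add_eq_zero_left h1
      simp only [Pi.smul_apply, smul_eq_mul] at h2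
      refine h2.trans ?_
      rw [neg_smul]
      congr 2
      exact sum_congr rfl fun y _ => mul_comm _ _
    · exact hηc3 c x
    · have h1 := hc (⟨n, hn⟩, x)
      have h2 : ηc c n x ∈ maximalIdeal (S ⧸ I) := by
        rw [hηc]
        exact h1
      exact h2

end Pool.Agent.CN
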