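import Pool.Agent.CN.FDefs
import Pool.Agent.Helper19.ABound
import Pool.Agent.Helper19.RegularPd

/-!
# Maximal regular sequences and the Auslander–Buchsbaum inequality
-/

universe u

namespace Pool.Agent.CN

open Finset IsLocalRing Pool.Agent.Helper19 RingTheory.Sequence

/-- a regular sequence bounding all finite projective dimensions -/
theorem exists_max_regular (R : Type u) [CommRing R] [IsLocalRing R] [IsNoetherianRing R] :
    ∃ rs : List R, IsRegular R rs ∧ ∀ (n : ℕ) (X : Type u) [AddCommGroup X] [Module R X]
      [Module.Finite R X], PD R X n → PD R X (rs.length + 1) := by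
  classical
  have hdim : ringKrullDim R < ⊤ := ringKrullDim_lt_top
  obtain ⟨d, hd⟩ : ∃ d : ℕ, ringKrullDim R = d := by
    have h0 : (0 : WithBot ℕ∞) ≤ ringKrullDim R := ringKrullDim_nonneg_of_nontrivial
    revert hdim h0
    generalize ringKrullDim R = D
    intro hdim h0
    induction D using WithBot.recBotCoe with
    | bot => simp at h0
    | coe D =>
      induction D using ENat.recTopCoe with
      | top => exact absurd hdim (lt_irrefl _)
      | coe D => exact ⟨D, rfl⟩
  have hbound : ∀ rs : List R, IsRegular R rs → rs.length ≤ d := by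
    intro rs hrs
    have h1 := ringKrullDim_add_length_eq_ringKrullDim_of_isRegular rs hrs
    have hnt : Nontrivial (R ⧸ Ideal.ofList rs) := by
      rw [Ideal.Quotient.nontrivial_iff]
      intro htop
      have := hrs.top_ne_smul
      rw [htop] at this
      simp at this
    have h0 : (0 : WithBot ℕ∞) ≤ ringKrullDim (R ⧸ Ideal.ofList rs) :=
      ringKrullDim_nonneg_of_nontrivial
    have h2 : ((rs.length : ℕ) : WithBot ℕ∞) ≤ ringKrullDim (R ⧸ Ideal.ofList rs) + rs.length :=
      le_add_of_nonneg_left h0
    rw [h1, hd] at h2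
    exact_mod_cast h2
  let P : ℕ → Prop := fun k => ∃ rs : List R, IsRegular R rs ∧ rs.length = k
  have hP0 : P 0 := ⟨[], IsRegular.nil R R, rfl⟩
  have hmax := Nat.findGreatest_spec (P := P) (Nat.zero_le d) hP0
  obtain ⟨rs, hrs, hlen⟩ := hmax
  refine ⟨rs, hrs, ?_⟩
  rw [hlen]
  refine pd_of_depth_le _ R fun ts hts => ?_
  exact Nat.le_findGreatest (hbound ts hts) ⟨ts, hts, rfl⟩

/-- the chain of ideals of a regular sequence of a quotient -/
theorem data_of_isRegular {R R' : Type u} [CommRing R] [IsLocalRing R] [CommRing R']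
    (π : R →+* R') (hπ : Function.Surjective π) (rs : List R') (hrs : IsRegular R' rs) :
    ∃ (J : ℕ → Ideal R) (y : ℕ → R), J 0 = RingHom.ker π ∧
      (∀ i < rs.length, J (i + 1) = J i ⊔ Ideal.span {y i}) ∧
      ∀ i < rs.length, y i ∈ maximalIdeal R ∧ ∀ z, y i * z ∈ J i → z ∈ J i := by
  choose σ hσ using hπ
  refine ⟨fun i => (Ideal.ofList (rs.take i)).comap π, fun i => σ (rs.getD i 0), ?_, ?_, ?_⟩
  · simp [RingHom.ker]
  · intro i hi
    have h1 : rs.take (i + 1) = rs.take i ++ [rs.getD i 0] := by
      rw [List.take_add_one, List.getD_eq_getElem?_getD, List.getElem?_eq_getElem hi]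
      simp
    apply le_antisymm
    · intro x hx
      change π x ∈ Ideal.ofList (rs.take (i + 1)) at hx
      rw [h1, Ideal.ofList_append, Ideal.ofList_singleton, Submodule.mem_sup] at hx
      obtain ⟨a, ha, b, hb, hab⟩ := hx
      obtain ⟨c, rfl⟩ := Ideal.mem_span_singleton'.mp hb
      rw [Submodule.mem_sup]
      refine ⟨x - σ c * σ (rs.getD i 0), ?_, σ c * σ (rs.getD i 0), ?_, by ring⟩
      · change π (x - σ c * σ (rs.getD i 0)) ∈ Ideal.ofList (rs.take i)
        rw [map_sub, map_mul, hσ, hσ, ← hab, add_sub_cancel_right]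
        exact ha
      · exact Ideal.mul_mem_left _ _ (Ideal.mem_span_singleton_self _)
    · refine sup_le (Ideal.comap_mono ?_) ?_
      · rw [h1, Ideal.ofList_append]; exact le_sup_left
      · rw [Ideal.span_singleton_le_iff_mem]
        change π (σ (rs.getD i 0)) ∈ Ideal.ofList (rs.take (i + 1))
        rw [hσ, h1, Ideal.ofList_append, Ideal.ofList_singleton]
        exact le_sup_right (a := Ideal.ofList (rs.take i)) (Ideal.mem_span_singleton_self _)
  · intro i hi
    have hget : rs.getD i 0 = rs[i] := by
      rw [List.getD_eq_getElem?_getD, List.getElem?_eq_getElem hi]; simp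
    constructor
    · rw [mem_maximalIdeal, mem_nonunits_iff]
      intro hu
      have h1 : IsUnit (rs.getD i 0) := by
        rw [← hσ (rs.getD i 0)]; exact hu.map π
      rw [hget] at h1
      have h2 : Ideal.ofList rs = ⊤ :=
        Ideal.eq_top_of_isUnit_mem _ (Ideal.subset_span (List.getElem_mem hi)) h1
      have := hrs.top_ne_smul
      rw [h2] at this
      simp at this
    · intro z hz
      have h1 := hrs.toIsWeaklyRegular.regular_mod_prev i hi
      change π z ∈ Ideal.ofList (rs.take i)
      change π (σ (rs.getD i 0) * z) ∈ Ideal.ofList (rs.take i) at hz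
      rw [map_mul, hσ, hget] at hz
      have h2 : rs[i] • (Submodule.Quotient.mk (π z) :
          R' ⧸ (Ideal.ofList (rs.take i) • ⊤ : Submodule R' R')) = 0 := by
        rw [← Submodule.Quotient.mk_smul, Submodule.Quotient.mk_eq_zero, smul_eq_mul]
        simpa using hz
      have h3 := h1.right_eq_zero_of_smul h2
      rw [Submodule.Quotient.mk_eq_zero] at h3
      simpa using h3

/-- regular families and regular sequences -/
theorem exists_isRegular_of_regFam {S : Type u} [CommRing S] [IsLocalRing S] {r : ℕ}
    (f : Fin r → S) (hf : ∀ l, f l ∈ maximalIdeal S) (hreg : RegFam f) :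
    ∃ rs : List S, IsRegular S rs ∧ Ideal.ofList rs = Ideal.span (Set.range f) := by
  have hspan : ∀ (r : ℕ) (f : Fin r → S), Ideal.ofList (List.ofFn f) =
      Ideal.span (Set.range f) := by
    intro r f
    rw [Ideal.ofList]
    congr 1
    ext x
    simp [List.mem_ofFn]
  have hweak : ∀ (r : ℕ) (f : Fin r → S), RegFam f → IsWeaklyRegular S (List.ofFn f) := by
    intro r
    induction r with
    | zero => intro f _; simp
    | succ r ih =>
      intro f hf
      rw [List.ofFn_succ', List.concat_eq_append, isWeaklyRegular_append_iff]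
      refine ⟨ih _ hf.1, ?_⟩
      rw [isWeaklyRegular_singleton_iff]
      intro a b hab
      obtain ⟨a, rfl⟩ := Submodule.Quotient.mk_surjective _ a
      obtain ⟨b, rfl⟩ := Submodule.Quotient.mk_surjective _ b
      have hab' : f (Fin.last r) • (Submodule.Quotient.mk a : S ⧸ (Ideal.ofList
          (List.ofFn fun i : Fin r => f i.castSucc) • ⊤ : Submodule S S)) =
          f (Fin.last r) • Submodule.Quotient.mk b := hab
      rw [← Submodule.Quotient.mk_smul, ← Submodule.Quotient.mk_smul, Submodule.Quotient.eq,
        ← smul_sub, hspan] at hab'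
      rw [Submodule.Quotient.eq, hspan]
      simp only [smul_eq_mul, Ideal.mul_top] at hab' ⊢
      exact hf.2 _ hab'
  refine ⟨List.ofFn f, ⟨hweak r f hreg, ?_⟩, hspan r f⟩
  intro htop
  rw [hspan, smul_eq_mul, Ideal.mul_top] at htop
  have h1 : Ideal.span (Set.range f) ≤ maximalIdeal S := by
    rw [Ideal.span_le]
    rintro _ ⟨l, rfl⟩
    exact hf l
  rw [← htop] at h1
  exact (maximalIdeal.isMaximal S).ne_top (top_le_iff.mp h1)

end Pool.Agent.CN
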