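import Pool.Agent.CN.FDefs
import Pool.Agent.Helper19.Partial

/-!
# Homomorphisms `I → N` vanishing on `J`
-/

universe u

namespace Pool.Agent.CN

open Finset IsLocalRing Pool.Agent.Helper19

/-- If no nonzero homomorphism `I → N` vanishes on `J` then `I ≤ J`. -/
theorem le_of_hom_zero {S : Type u} [CommRing S] [IsLocalRing S] [IsNoetherianRing S]
    (J I : Ideal S) (hI : I ≠ ⊤) (hJI : J ≤ I) (hpd : FPD J I)
    (N : Type u) [AddCommGroup N] [Module S N] [Module.Finite S N] [Nontrivial N]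
    (hN : ∀ x ∈ I, ∀ v : N, x • v = 0)
    (h : ∀ g : I →ₗ[S] N, (∀ x : I, x.1 ∈ J → g x = 0) → g = 0) : I ≤ J := by
  by_contra hnot
  let K : Submodule S I := Submodule.comap I.subtype J
  have hsub : Subsingleton ((I ⧸ K) →ₗ[S] N) := by
    refine ⟨fun φ ψ => ?_⟩
    have key : ∀ χ : (I ⧸ K) →ₗ[S] N, χ = 0 := by
      intro χ
      have h1 := h (χ ∘ₗ K.mkQ) (fun x hx => by
        have h2 : K.mkQ x = 0 := by
          rw [Submodule.mkQ_apply, Submodule.Quotient.mk_eq_zero]
          exact hx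
        rw [LinearMap.comp_apply, h2, map_zero])
      apply LinearMap.ext
      intro y
      obtain ⟨x, rfl⟩ := K.mkQ_surjective y
      exact LinearMap.congr_fun h1 x
    rw [key φ, key ψ]
  rw [IsSMulRegular.subsingleton_linearMap_iff] at hsub
  obtain ⟨r, hr, hreg⟩ := hsub
  have hrJ : ∀ x ∈ I, r * x ∈ J := by
    intro x hx
    rw [Module.mem_annihilator] at hr
    have h1 := hr (K.mkQ ⟨x, hx⟩)
    rw [← map_smul, Submodule.mkQ_apply, Submodule.Quotient.mk_eq_zero] at h1
    exact h1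
  obtain ⟨A, _, _, hs, hker, n, hpdA⟩ := hpd
  have hnt : Nontrivial A := by
    by_contra hA
    rw [not_nontrivial_iff_subsingleton] at hA
    have h1 : (1 : S) ∈ RingHom.ker (algebraMap S A) := Subsingleton.elim _ _
    rw [hker] at h1
    exact hI ((Ideal.eq_top_iff_one _).mpr (hJI h1))
  have hloc : IsLocalRing A := IsLocalRing.of_surjective' (algebraMap S A) hs
  have hnoe : IsNoetherianRing A := isNoetherianRing_of_surjective S A (algebraMap S A) hs
  have hIA : I.map (algebraMap S A) ≠ ⊥ := by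
    intro h0
    rw [Ideal.map_eq_bot_iff_le_ker, hker] at h0
    exact hnot h0
  obtain ⟨a, ha, hareg⟩ := exists_regular_mem _ hIA (n + 1) hpdA
  obtain ⟨a', ha', rfl⟩ := (Ideal.mem_map_iff_of_surjective _ hs).mp ha
  have h1 : algebraMap S A (r * a') = 0 := by
    have h2 := hrJ a' ha'
    rw [← hker] at h2
    exact h2
  rw [map_mul, mul_comm] at h1
  have h2 : algebraMap S A r = 0 := hareg (by
    change algebraMap S A a' * algebraMap S A r = algebraMap S A a' * 0
    rw [h1, mul_zero])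
  have h3 : r ∈ J := by rw [← hker]; exact h2
  obtain ⟨v, hv⟩ := exists_ne (0 : N)
  apply hv
  apply hreg
  change r • v = r • (0 : N)
  rw [hN r (hJI h3) v, smul_zero]

theorem exists_hom_socle {S : Type u} [CommRing S] [IsLocalRing S] [IsNoetherianRing S]
    (J I : Ideal S) (hIJ : ¬ I ≤ J)
    (N : Type u) [AddCommGroup N] [Module S N] (v : N) (hv : v ≠ 0)
    (hmv : ∀ a ∈ maximalIdeal S, a • v = 0) :
    ∃ g : I →ₗ[S] N, g ≠ 0 ∧ (∀ x : I, x.1 ∈ J → g x = 0) ∧
      ∀ a ∈ maximalIdeal S, a • g = 0 := by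
  let K : Submodule S I := Submodule.comap I.subtype J
  have hns : ¬ Subsingleton ((I ⧸ K) →ₗ[S] (S ⧸ maximalIdeal S)) := by
    rw [IsSMulRegular.subsingleton_linearMap_iff]
    rintro ⟨r, hr, hreg⟩
    apply hIJ
    have hru : IsUnit r := by
      by_contra hnu
      have hrm : r ∈ maximalIdeal S := (mem_maximalIdeal r).mpr hnu
      have h1 : (1 : S ⧸ maximalIdeal S) = 0 := by
        apply hreg
        change r • (1 : S ⧸ maximalIdeal S) = r • (0 : S ⧸ maximalIdeal S)
        rw [smul_zero, Algebra.smul_def, mul_one]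
        exact Ideal.Quotient.eq_zero_iff_mem.mpr hrm
      exact one_ne_zero h1
    intro x hx
    rw [Module.mem_annihilator] at hr
    have h1 := hr (K.mkQ ⟨x, hx⟩)
    rw [← map_smul, Submodule.mkQ_apply, Submodule.Quotient.mk_eq_zero] at h1
    have h2 : r * x ∈ J := h1
    obtain ⟨u, rfl⟩ := hru
    have h3 := J.mul_mem_left ((u⁻¹ : Sˣ) : S) h2
    rwa [← mul_assoc, Units.inv_mul, one_mul] at h3
  rw [not_subsingleton_iff_nontrivial] at hns
  obtain ⟨φ, hφ⟩ := exists_ne (0 : (I ⧸ K) →ₗ[S] (S ⧸ maximalIdeal S))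
  let ι : (S ⧸ maximalIdeal S) →ₗ[S] N :=
    Submodule.liftQ (maximalIdeal S) (LinearMap.toSpanSingleton S N v) (by
      intro a ha
      rw [LinearMap.mem_ker, LinearMap.toSpanSingleton_apply]
      exact hmv a ha)
  have hιmk : ∀ s : S, ι (Submodule.Quotient.mk s) = s • v := fun s => rfl
  have hι : ∀ y, ι y = 0 → y = 0 := by
    intro y hy
    obtain ⟨s, rfl⟩ := Submodule.Quotient.mk_surjective _ y
    rw [hιmk] at hy
    rw [Submodule.Quotient.mk_eq_zero]
    by_contra hs
    rw [mem_maximalIdeal, mem_nonunits_iff, not_not] at hs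
    exact hv (hs.smul_eq_zero.mp hy)
  have hkill : ∀ a ∈ maximalIdeal S, ∀ y, a • ι y = 0 := by
    intro a ha y
    obtain ⟨s, rfl⟩ := Submodule.Quotient.mk_surjective _ y
    rw [hιmk, smul_comm, hmv a ha, smul_zero]
  refine ⟨ι ∘ₗ φ ∘ₗ K.mkQ, ?_, ?_, ?_⟩
  · intro h0
    apply hφ
    apply LinearMap.ext
    intro y
    obtain ⟨x, rfl⟩ := K.mkQ_surjective y
    exact hι _ (LinearMap.congr_fun h0 x)
  · intro x hx
    have h2 : K.mkQ x = 0 := by
      rw [Submodule.mkQ_apply, Submodule.Quotient.mk_eq_zero]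
      exact hx
    rw [LinearMap.comp_apply, LinearMap.comp_apply, h2, map_zero, map_zero]
  · intro a ha
    apply LinearMap.ext
    intro x
    exact hkill a ha _

end Pool.Agent.CN
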