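import Pool.Agent.CN.QI
import Pool.Agent.Helper19.PdBasic

/-!
# Minimal resolutions as matrices
-/

universe u

namespace Pool.Agent.CN

open Finset IsLocalRing Pool.Agent.Helper19

section

variable {R : Type u} [CommRing R]

lemma toSpan_eq_zero {N : Type u} [AddCommGroup N] [Module R N] {x : N}
    (h : LinearMap.toSpanSingleton R N x = 0) : x = 0 := by
  have := congrArg (fun f => f 1) h
  simpa using this

/-- free modules -/
def freeBC (R : Type u) [CommRing R] (n : ℕ) : BC R where
  ι := Fin n
  fin := inferInstance
  dec := inferInstance
  g _ := 0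
  σ _ := 1
  m _ _ := 0
  pm _ := Or.inl rfl
  deg _ _ h := absurd rfl h
  sgn _ _ h := absurd rfl h
  sq _ _ := by simp

variable {N : Type u} [AddCommGroup N] [Module R N] {s n : ℕ} {π : (Fin n → R) →ₗ[R] N}

lemma FRes.eps_zero {s : ℕ} (F : FRes R N s) (b : F.ν.ι) (hb : F.ν.g b ≠ 0) : F.ε b = 0 :=
  toSpan_eq_zero (F.qi.E0 b hb)

/-- one more step -/
def stepBC (π : (Fin n → R) →ₗ[R] N) (F : FRes R (LinearMap.ker π) s) : BC R where
  ι := Fin n ⊕ F.ν.ι
  fin := inferInstance
  dec := inferInstance
  g := Sum.elim (fun _ => 0) (fun b => F.ν.g b + 1)
  σ := Sum.elim (fun _ => 1) (fun b => - F.ν.σ b)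
  m x y := match x, y with
    | Sum.inl _, Sum.inl _ => 0
    | Sum.inl i, Sum.inr b => (F.ε b).val i
    | Sum.inr _, Sum.inl _ => 0
    | Sum.inr a, Sum.inr b => F.ν.m a b
  pm x := by
    rcases x with x | b
    · exact Or.inl rfl
    · rcases F.ν.pm b with h | h
      · right; simp [h]
      · left; simp [h]
  deg := by
    rintro (x | a) (y | b) h
    · exact absurd rfl h
    · by_contra hg
      apply h
      have h0 : F.ν.g b ≠ 0 := by
        simp only [Sum.elim_inr, Sum.elim_inl] at hg
        omega
      change (F.ε b).val x = 0
      rw [F.eps_zero b h0]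
      rfl
    · exact absurd rfl h
    · simp only [Sum.elim_inr]
      rw [F.ν.deg a b h]
  sgn := by
    rintro (x | a) (y | b) h
    · exact absurd rfl h
    · simp only [Sum.elim_inr, Sum.elim_inl]
      have h0 : F.ν.g b = 0 := by
        by_contra h0
        apply h
        change (F.ε b).val x = 0
        rw [F.eps_zero b h0]
        rfl
      rw [F.σ0 b h0]
    · exact absurd rfl h
    · simp only [Sum.elim_inr]
      rw [F.ν.sgn a b h]
  sq := by
    rintro (x | a) (y | b)
    · rw [Fintype.sum_sum_type]; simp
    · rw [Fintype.sum_sum_type]
      simp only [zero_mul, sum_const_zero, zero_add]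
      have h1 := F.qi.Em b 1
      have h2 := congrArg (fun v => v.val x) h1
      simp only [LinearMap.toSpanSingleton_apply, one_smul] at h2
      rw [AddSubmonoidClass.coe_finsetSum, Finset.sum_apply] at h2
      simp only [SetLike.val_smul, Pi.smul_apply, smul_eq_mul] at h2
      rw [← show ((0 : LinearMap.ker π).val x : R) = 0 from rfl, ← h2]
      exact sum_congr rfl fun c _ => mul_comm _ _
    · rw [Fintype.sum_sum_type]; simp
    · rw [Fintype.sum_sum_type]; simp [F.ν.sq]

lemma sum_step (π : (Fin n → R) →ₗ[R] N) (F : FRes R (LinearMap.ker π) s) {M : Type*}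
    [AddCommMonoid M] (f : (stepBC π F).ι → M) :
    ∑ a, f a = ∑ i : Fin n, f (Sum.inl i) + ∑ b : F.ν.ι, f (Sum.inr b) :=
  Fintype.sum_sum_type (α₁ := Fin n) (α₂ := F.ν.ι) f

lemma pi_eq_sum (x : Fin n → R) : ∑ i, x i • π (Pi.single i 1) = π x := by
  conv_rhs => rw [LinearMap.pi_apply_eq_sum_univ π x]
  refine sum_congr rfl fun i _ => ?_
  congr 2
  funext j
  rw [Pi.single_apply]
  simp [eq_comm]

/-- the resolution with one more step -/
def stepRes (π : (Fin n → R) →ₗ[R] N) (hπ : Function.Surjective π)
    (F : FRes R (LinearMap.ker π) s) : FRes R N (s + 1) where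
  ν := stepBC π F
  ε := Sum.elim (fun i => π (Pi.single i 1)) (fun _ => 0)
  g0 := by
    rintro (i | b)
    · exact le_refl _
    · have := F.g0 b
      change 0 ≤ F.ν.g b + 1
      omega
  gs := by
    rintro (i | b)
    · change (0 : ℤ) ≤ _
      positivity
    · have := F.gs b
      change F.ν.g b + 1 ≤ _
      push_cast
      omega
  σ0 := by
    rintro (i | b) h
    · rfl
    · have := F.g0 b
      change F.ν.g b + 1 = 0 at h
      omega
  σs := by
    rintro (i | b) h
    · change (0 : ℤ) = _ at h
      push_cast at h
      omega
    · change F.ν.g b + 1 = _ at h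
      change - F.ν.σ b = _
      push_cast at h
      rw [F.σs b (by omega), pow_succ]
      ring
  qi :=
    { E0 := by
        rintro (i | b) h
        · exact absurd rfl h
        · exact LinearMap.toSpanSingleton_zero R N
      surj := by
        intro y
        obtain ⟨x, rfl⟩ := hπ y
        refine ⟨Sum.elim x 0, ?_, ?_⟩
        · rintro (i | b) h
          · exact absurd rfl h
          · rfl
        · rw [sum_step]
          simp only [Sum.elim_inl, Sum.elim_inr, LinearMap.toSpanSingleton_apply, smul_zero,
            sum_const_zero, add_zero]
          exact pi_eq_sum x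
      Em := by
        rintro (j | b) v
        · rw [sum_step]
          simp [stepBC]
        · rw [sum_step]
          simp only [Sum.elim_inl, Sum.elim_inr, LinearMap.toSpanSingleton_apply, smul_zero,
            sum_const_zero, add_zero]
          have h1 : ∀ i : Fin n, (stepBC π F).m (Sum.inl i) (Sum.inr b) • v • π (Pi.single i 1) =
              v • ((F.ε b).val i • π (Pi.single i 1)) := fun i => smul_comm _ _ _
          simp only [h1]
          rw [← smul_sum, pi_eq_sum, (F.ε b).2, smul_zero]
      ex0 := by
        intro z hz hs
        rw [sum_step] at hs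
        simp only [Sum.elim_inl, Sum.elim_inr, LinearMap.toSpanSingleton_apply, smul_zero,
            sum_const_zero, add_zero] at hs
        have hs' : π (fun i => z (Sum.inl i)) = 0 := by
          rw [← pi_eq_sum]; exact hs
        obtain ⟨w, hw1, hw2⟩ := F.qi.surj ⟨fun i => z (Sum.inl i), hs'⟩
        refine ⟨Sum.elim 0 w, ?_, ?_⟩
        · rintro (i | b) h
          · rfl
          · change F.ν.g b + 1 ≠ 1 at h
            exact hw1 b (by omega)
        · funext x
          change ∑ y : (stepBC π F).ι, (stepBC π F).m x y • (Sum.elim 0 w : Fin n ⊕ F.ν.ι → R) y = _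
          rw [sum_step]
          simp only [Sum.elim_inl, Sum.elim_inr, Pi.zero_apply, smul_zero, sum_const_zero,
            zero_add]
          rcases x with i | a
          · have h2 := congrArg (fun v => v.val i) hw2
            simp only [LinearMap.toSpanSingleton_apply] at h2
            rw [AddSubmonoidClass.coe_finsetSum, Finset.sum_apply] at h2
            simp only [SetLike.val_smul, Pi.smul_apply, smul_eq_mul] at h2
            rw [← h2]
            refine sum_congr rfl fun b _ => ?_
            change (F.ε b).val i * w b = _
            ring
          · rw [hz (Sum.inr a) (by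
              have := F.g0 a
              change F.ν.g a + 1 ≠ 0
              omega)]
            refine sum_eq_zero fun b _ => ?_
            change F.ν.m a b • w b = 0
            by_cases hb : F.ν.m a b = 0
            · rw [hb, zero_smul]
            · rw [hw1 b (by
                have := F.ν.deg a b hb
                have := F.g0 a
                omega), smul_zero]
      ex := by
        intro i hi z hz hm
        have hzl : ∀ j, z (Sum.inl j) = 0 := fun j => hz (Sum.inl j) (by
          change (0 : ℤ) ≠ i; omega)
        have hzr : ∀ b, F.ν.g b ≠ i - 1 → z (Sum.inr b) = 0 := fun b hb => hz (Sum.inr b) (by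
          change F.ν.g b + 1 ≠ i; omega)
        have hml : ∀ j : Fin n, ∑ b, (F.ε b).val j * z (Sum.inr b) = 0 := by
          intro j
          have h := congrFun hm (Sum.inl j)
          change ∑ y : (stepBC π F).ι, (stepBC π F).m (Sum.inl j) y • z y = 0 at h
          rw [sum_step] at h
          simp only [hzl, smul_zero, sum_const_zero, zero_add] at h
          exact h
        have hmr : mulV F.ν.m (fun b => z (Sum.inr b)) = 0 := by
          funext a
          have h := congrFun hm (Sum.inr a)
          change ∑ y : (stepBC π F).ι, (stepBC π F).m (Sum.inr a) y • z y = 0 at h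
          rw [sum_step] at h
          simp only [hzl, smul_zero, sum_const_zero, zero_add] at h
          exact h
        obtain ⟨w, hw1, hw2⟩ : ∃ w : F.ν.ι → R, (∀ a, F.ν.g a ≠ i → w a = 0) ∧
            mulV F.ν.m w = fun b => z (Sum.inr b) := by
          by_cases h1 : i = 1
          · subst h1
            obtain ⟨w, hw1, hw2⟩ := F.qi.ex0 (fun b => z (Sum.inr b))
              (fun b hb => hzr b (by simpa using hb)) (by
                apply Subtype.ext
                rw [AddSubmonoidClass.coe_finsetSum]
                funext j
                rw [Finset.sum_apply]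
                rw [show ((0 : LinearMap.ker π).val j : R) = 0 from rfl, ← hml j]
                refine sum_congr rfl fun b _ => ?_
                simp only [LinearMap.toSpanSingleton_apply, SetLike.val_smul, Pi.smul_apply,
                  smul_eq_mul]
                ring)
            exact ⟨w, hw1, hw2⟩
          · obtain ⟨w, hw1, hw2⟩ := F.qi.ex (i - 1) (by omega) (fun b => z (Sum.inr b))
              (fun b hb => hzr b hb) hmr
            exact ⟨w, fun a ha => hw1 a (by omega), hw2⟩
        refine ⟨Sum.elim 0 w, ?_, ?_⟩
        · rintro (j | b) h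
          · rfl
          · change F.ν.g b + 1 ≠ i + 1 at h
            exact hw1 b (by omega)
        · funext x
          change ∑ y : (stepBC π F).ι, (stepBC π F).m x y • (Sum.elim 0 w : Fin n ⊕ F.ν.ι → R) y = _
          rw [sum_step]
          simp only [Sum.elim_inl, Sum.elim_inr, Pi.zero_apply, smul_zero, sum_const_zero,
            zero_add]
          rcases x with j | a
          · rw [hzl]
            refine sum_eq_zero fun b _ => ?_
            change (F.ε b).val j * w b = 0
            by_cases hb : F.ν.g b = 0
            · rw [hw1 b (by omega), mul_zero]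
            · rw [F.eps_zero b hb]
              change (0 : R) * w b = 0
              rw [zero_mul]
          · exact congrFun hw2 a }

end

theorem exists_minRes {R : Type u} [CommRing R] [IsLocalRing R] [IsNoetherianRing R] (s : ℕ) :
    ∀ (N : Type u) [AddCommGroup N] [Module R N] [Module.Finite R N], PD R N (s + 1) →
      ∃ F : FRes R N s, ∀ a b, F.ν.m a b ∈ maximalIdeal R := by
  induction s with
  | zero =>
    intro N _ _ _ hN
    have hproj : Module.Projective R N := projective_of_pd_one hN
    have hfree : Module.Free R N := Module.free_of_flat_of_isLocalRing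
    let b := Module.finBasis R N
    refine ⟨⟨freeBC R (Module.finrank R N), b, fun _ => le_refl _,
      fun _ => le_refl _, fun _ _ => rfl, fun _ _ => rfl, ?_⟩, ?_⟩
    · refine ⟨fun a h => absurd rfl h, fun y => ⟨b.repr y, fun a h => absurd rfl h, ?_⟩,
        fun _ _ => by simp [freeBC], ?_, ?_⟩
      · simp only [LinearMap.toSpanSingleton_apply]
        exact b.sum_repr y
      · intro z _ hz
        refine ⟨0, fun _ _ => rfl, ?_⟩
        have h1 : z = 0 := by
          funext a
          exact Fintype.linearIndependent_iff.mp b.linearIndependent z
            (by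
              have h := hz
              simp only [LinearMap.toSpanSingleton_apply] at h
              exact h) a
        rw [h1, mulV_zero]
      · intro i hi z hz _
        refine ⟨0, fun _ _ => rfl, ?_⟩
        have h1 : z = 0 := by
          funext a
          exact hz a (by change (0 : ℤ) ≠ i; omega)
        rw [h1, mulV_zero]
    · intro a c
      exact zero_mem _
  | succ s ih =>
    intro N _ _ _ hN
    obtain ⟨n, π, hπ, hmin⟩ := exists_minimal_cover (A := R) (X := N)
    have hK : PD R (LinearMap.ker π) (s + 1) :=
      pd_ker (f := (LinearMap.ker π).subtype) (g := π) Subtype.val_injective hπ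
        (fun v => by simp) hN
    obtain ⟨F, hF⟩ := ih (LinearMap.ker π) hK
    refine ⟨stepRes π hπ F, ?_⟩
    rintro (i | a) (j | b)
    · exact zero_mem _
    · exact hmin _ (F.ε b).2 i
    · exact zero_mem _
    · exact hF a b

end Pool.Agent.CN
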