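import Mathlib

/-!
# A socle element modulo a regular element in dimension one
-/

universe u

namespace Pool.Agent.CN

open IsLocalRing

theorem exists_socle_mod {R : Type u} [CommRing R] [IsLocalRing R] [IsNoetherianRing R]
    (E : Type u) [AddCommGroup E] [Module R E] [Module.Finite R E] [Nontrivial E]
    (x : R) (hx : x ∈ maximalIdeal R) (hreg : IsSMulRegular E x)
    (hdim : Module.supportDim R E ≤ 1) :
    ∃ p : E, (¬ ∃ p', p = x • p') ∧ ∀ a ∈ maximalIdeal R, ∃ p', a • p = x • p' := by
  have h1 := Module.supportDim_quotSMulTop_succ_eq_supportDim hreg hx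
  have hnt : Module.supportDim R E ≠ ⊥ := Module.supportDim_ne_bot_of_nontrivial R E
  have h2 : Module.supportDim R (QuotSMulTop x E) = 0 := by
    rw [← h1] at hdim hnt
    generalize Module.supportDim R (QuotSMulTop x E) = d at *
    induction d using WithBot.recBotCoe with
    | bot => exact absurd rfl hnt
    | coe d =>
      have h3 : ((d + 1 : ℕ∞) : WithBot ℕ∞) ≤ ((1 : ℕ∞) : WithBot ℕ∞) := by exact_mod_cast hdim
      rw [WithBot.coe_le_coe] at h3
      have h4 : d = 0 := by
        induction d using ENat.recTopCoe with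
        | top => exact absurd h3 (by decide)
        | coe d =>
          have : d + 1 ≤ 1 := by exact_mod_cast h3
          have : d = 0 := by omega
          rw [this]; rfl
      rw [h4]; rfl
  have h3 := support_of_supportDim_eq_zero (R := R) (N := QuotSMulTop x E) h2
  have hnt2 : Nontrivial (QuotSMulTop x E) := by
    simp [← Module.supportDim_ne_bot_iff_nontrivial R, h2]
  obtain ⟨p, hp⟩ := associatedPrimes.nonempty R (QuotSMulTop x E)
  rw [AssociatedPrimes.mem_iff, isAssociatedPrime_iff] at hp
  obtain ⟨hpp, e, he⟩ := hp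
  have he' : ∀ a, a ∈ p ↔ a • e = 0 := by
    intro a
    rw [he, Submodule.mem_colon_singleton, Submodule.mem_bot]
  have hmem : (⟨p, hpp⟩ : PrimeSpectrum R) ∈ Module.support R (QuotSMulTop x E) := by
    rw [Module.mem_support_iff_exists_annihilator]
    refine ⟨e, ?_⟩
    intro a ha
    rw [he']
    rw [Submodule.mem_annihilator_span_singleton] at ha
    exact ha
  rw [h3, PrimeSpectrum.mem_zeroLocus] at hmem
  have hpm : ∀ a ∈ maximalIdeal R, a ∈ p := fun a ha => hmem ha
  obtain ⟨y, rfl⟩ := Submodule.mkQ_surjective _ e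
  refine ⟨y, ?_, ?_⟩
  · rintro ⟨y', hy'⟩
    apply hpp.ne_top
    rw [Ideal.eq_top_iff_one, he', one_smul, Submodule.mkQ_apply, Submodule.Quotient.mk_eq_zero,
      hy']
    exact Submodule.smul_mem_pointwise_smul _ _ _ Submodule.mem_top
  · intro a ha
    have h4 := (he' a).1 (hpm a ha)
    rw [Submodule.mkQ_apply, ← Submodule.Quotient.mk_smul, Submodule.Quotient.mk_eq_zero,
      Submodule.mem_smul_pointwise_iff_exists] at h4
    obtain ⟨y', -, h5⟩ := h4
    exact ⟨y', h5.symm⟩

end Pool.Agent.CN
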