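import Pool.Agent.CN.FDefs

/-!
# Detection of socle elements by the top entries of a chain lift
-/

universe u

namespace Pool.Agent.CN

open Finset IsLocalRing

section Aux

variable {R : Type u} [CommRing R]

/-- elements of `J • ⊤` lift to degree `0` vectors with entries in `J` -/
lemma FRes.mem_smul_top {N : Type u} [AddCommGroup N] [Module R N] {s : ℕ} (FN : FRes R N s)
    (J : Ideal R) {x : N} (hx : x ∈ J • (⊤ : Submodule R N)) :
    ∃ z : FN.ν.ι → R, (∀ a, FN.ν.g a ≠ 0 → z a = 0) ∧ (∀ a, z a ∈ J) ∧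
      ∑ a, z a • FN.ε a = x := by
  refine Submodule.smul_induction_on hx ?_ ?_
  · intro r hr n _
    obtain ⟨z, hz1, hz2⟩ := FN.qi.surj n
    refine ⟨fun a => r * z a, fun a ha => by simp [hz1 a ha], fun a => J.mul_mem_right _ hr, ?_⟩
    rw [← hz2, smul_sum]
    refine sum_congr rfl fun a _ => ?_
    rw [LinearMap.toSpanSingleton_apply, mul_smul]
  · rintro x y ⟨z, hz1, hz2, hz3⟩ ⟨w, hw1, hw2, hw3⟩
    refine ⟨fun a => z a + w a, fun a ha => by simp [hz1 a ha, hw1 a ha],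
      fun a => J.add_mem (hz2 a) (hw2 a), ?_⟩
    simp only [add_smul, sum_add_distrib, hz3, hw3]

/-- the differential preserves ideals -/
lemma sum_m_mem (ν : BC R) (J : Ideal R) {z : ν.ι → R} (hz : ∀ a, z a ∈ J) (a : ν.ι) :
    ∑ b, ν.m a b * z b ∈ J :=
  J.sum_mem fun b _ => J.mul_mem_left _ (hz b)

/-- the differential of a vector in degree `i + 1` is in degree `i` -/
lemma sum_m_deg (ν : BC R) {i : ℤ} {z : ν.ι → R} (hz : ∀ a, ν.g a ≠ i + 1 → z a = 0) (a : ν.ι)
    (ha : ν.g a ≠ i) : ∑ b, ν.m a b * z b = 0 := by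
  refine sum_eq_zero fun b _ => ?_
  by_cases hb : ν.m a b = 0
  · rw [hb, zero_mul]
  · rw [hz b (by rw [ν.deg a b hb]; omega), mul_zero]

/-- `d ∘ d = 0` -/
lemma sum_m_m (ν : BC R) (z : ν.ι → R) (a : ν.ι) :
    ∑ b, ν.m a b * ∑ c, ν.m b c * z c = 0 := by
  simp only [mul_sum]
  rw [sum_comm]
  refine sum_eq_zero fun c _ => ?_
  have h := ν.sq a c
  have h2 : ∀ b, ν.m a b * (ν.m b c * z c) = ν.m a b * ν.m b c * z c := fun b => by ring
  simp only [h2]
  rw [← sum_mul, h, zero_mul]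

/-- splitting a vector with entries in `J ⊔ (y)` -/
lemma exists_split (J : Ideal R) (y : R) {ι : Type} (P : ι → Prop) (z : ι → R)
    (hz : ∀ a, z a ∈ J ⊔ Ideal.span {y}) (h0 : ∀ a, ¬ P a → z a = 0) :
    ∃ u : ι → R, (∀ a, ¬ P a → u a = 0) ∧ ∀ a, z a - y * u a ∈ J := by
  classical
  have h1 : ∀ a, ∃ c, z a - y * c ∈ J := fun a => by
    obtain ⟨j, hj, c, hc, hjc⟩ := Submodule.mem_sup.mp (hz a)
    obtain ⟨e, rfl⟩ := Ideal.mem_span_singleton'.mp hc
    refine ⟨e, ?_⟩
    rw [← hjc]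
    have : j + e * y - y * e = j := by ring
    rw [this]; exact hj
  choose c hc using h1
  refine ⟨fun a => if P a then c a else 0, fun a ha => if_neg ha, fun a => ?_⟩
  by_cases ha : P a
  · simp only [if_pos ha]; exact hc a
  · simp only [if_neg ha, h0 a ha]; simp

/-- step of the exactness modulo a regular sequence -/
lemma exact_step (ν : BC R) (J : Ideal R) (y : R) (hy : ∀ z, y * z ∈ J → z ∈ J) (i : ℤ)
    (hT : ∀ j : ℤ, i < j → ∀ z : ν.ι → R, (∀ a, ν.g a ≠ j → z a = 0) →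
      (∀ a, ∑ b, ν.m a b * z b ∈ J) →
      ∃ w : ν.ι → R, (∀ a, ν.g a ≠ j + 1 → w a = 0) ∧ ∀ a, z a - ∑ b, ν.m a b * w b ∈ J)
    (j : ℤ) (hj : i + 1 < j) (z : ν.ι → R) (hz : ∀ a, ν.g a ≠ j → z a = 0)
    (hdz : ∀ a, ∑ b, ν.m a b * z b ∈ J ⊔ Ideal.span {y}) :
    ∃ w : ν.ι → R, (∀ a, ν.g a ≠ j + 1 → w a = 0) ∧
      ∀ a, z a - ∑ b, ν.m a b * w b ∈ J ⊔ Ideal.span {y} := by
  obtain ⟨u, hu1, hu2⟩ := exists_split J y (fun a => ν.g a = j - 1)
    (fun a => ∑ b, ν.m a b * z b) hdz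
    (fun a ha => sum_m_deg ν (i := j - 1) (by simpa using hz) a ha)
  have hdu : ∀ a, ∑ b, ν.m a b * u b ∈ J := fun a => by
    apply hy
    have h1 := sum_m_mem ν J hu2 a
    have h2 : ∑ b, ν.m a b * (∑ c, ν.m b c * z c - y * u b) = - (y * ∑ b, ν.m a b * u b) := by
      have h3 : ∀ b, ν.m a b * (∑ c, ν.m b c * z c - y * u b) =
          ν.m a b * (∑ c, ν.m b c * z c) - y * (ν.m a b * u b) := fun b => by ring
      simp only [h3, sum_sub_distrib]
      rw [sum_m_m, zero_sub, mul_sum]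
    rw [h2] at h1
    exact (Submodule.neg_mem_iff J).mp h1
  obtain ⟨v, hv1, hv2⟩ := hT (j - 1) (by omega) u (fun a ha => hu1 a ha) hdu
  have hv1' : ∀ a, ν.g a ≠ j → v a = 0 := fun a ha => hv1 a (by omega)
  obtain ⟨w, hw1, hw2⟩ := hT j (by omega) (fun a => z a - y * v a)
    (fun a ha => by simp only [hz a ha, hv1' a ha]; simp) (fun a => by
      have h3 : ∀ b, ν.m a b * (z b - y * v b) = ν.m a b * z b - y * (ν.m a b * v b) :=
        fun b => by ring
      simp only [h3, sum_sub_distrib]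
      rw [← mul_sum]
      have h4 : ∑ b, ν.m a b * z b - y * ∑ b, ν.m a b * v b =
          (∑ b, ν.m a b * z b - y * u a) + y * (u a - ∑ b, ν.m a b * v b) := by ring
      rw [h4]
      exact J.add_mem (hu2 a) (J.mul_mem_left _ (hv2 a)))
  refine ⟨w, hw1, fun a => ?_⟩
  have h5 : z a - ∑ b, ν.m a b * w b =
      (z a - y * v a - ∑ b, ν.m a b * w b) + v a * y := by ring
  rw [h5]
  exact Ideal.add_mem _ (Ideal.mem_sup_left (hw2 a))
    (Ideal.mem_sup_right (Ideal.mem_span_singleton'.mpr ⟨v a, rfl⟩))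

end Aux

theorem theta {R : Type u} [CommRing R] [IsLocalRing R] {N P : Type u} [AddCommGroup N]
    [Module R N] [AddCommGroup P] [Module R P] {s : ℕ} (FN : FRes R N s) (FP : FRes R P s)
    (φ : P →ₗ[R] N) (û : FN.ν.ι → FP.ν.ι → R) (hû : ChainLift FN FP φ û)
    (J : ℕ → Ideal R) (y : ℕ → R) (hJ : ∀ i < s, J (i + 1) = J i ⊔ Ideal.span {y i})
    (hy : ∀ i < s, y i ∈ maximalIdeal R ∧ ∀ z, y i * z ∈ J i → z ∈ J i)
    (hP : ∀ i : ℤ, 1 ≤ i → ∀ z : FP.ν.ι → R, (∀ a, FP.ν.g a ≠ i → z a = 0) →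
      (∀ a, ∑ b, FP.ν.m a b * z b ∈ J 0) →
      ∃ w : FP.ν.ι → R, (∀ a, FP.ν.g a ≠ i + 1 → w a = 0) ∧
        ∀ a, z a - ∑ b, FP.ν.m a b * w b ∈ J 0)
    (htop : ∀ n x, FN.ν.g n = s → û n x ∈ maximalIdeal R)
    (p : P) (hp : ∀ a ∈ maximalIdeal R, a • p ∈ J 0 • (⊤ : Submodule R P)) :
    φ p ∈ J 0 • (⊤ : Submodule R N) := by
  -- exactness modulo `J i` in degrees `> i`
  have hT : ∀ i : ℕ, i ≤ s → ∀ j : ℤ, (i : ℤ) < j → ∀ z : FP.ν.ι → R,
      (∀ a, FP.ν.g a ≠ j → z a = 0) → (∀ a, ∑ b, FP.ν.m a b * z b ∈ J i) →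
      ∃ w : FP.ν.ι → R, (∀ a, FP.ν.g a ≠ j + 1 → w a = 0) ∧
        ∀ a, z a - ∑ b, FP.ν.m a b * w b ∈ J i := by
    intro i
    induction i with
    | zero =>
      intro _ j hj z hz hdz
      exact hP j (by push_cast at hj; omega) z hz hdz
    | succ i ih =>
      intro hi j hj z hz hdz
      rw [hJ i (by omega)] at hdz ⊢
      exact exact_step FP.ν (J i) (y i) (hy i (by omega)).2 i (ih (by omega)) j
        (by push_cast at hj; omega) z hz hdz
  -- the zig-zag
  have hstep : ∀ i : ℕ, i < s → ∀ w : FP.ν.ι → R, (∀ a, FP.ν.g a ≠ i → w a = 0) →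
      (∀ r ∈ maximalIdeal R, ∃ w' : FP.ν.ι → R, (∀ a, FP.ν.g a ≠ i + 1 → w' a = 0) ∧
        ∀ a, r * w a - ∑ b, FP.ν.m a b * w' b ∈ J i) →
      ∃ w₁ : FP.ν.ι → R, (∀ a, FP.ν.g a ≠ (i + 1 : ℕ) → w₁ a = 0) ∧
        (∀ a, y i * w a - ∑ b, FP.ν.m a b * w₁ b ∈ J i) ∧
        (∀ r ∈ maximalIdeal R, ∃ w' : FP.ν.ι → R,
          (∀ a, FP.ν.g a ≠ (i + 1 : ℕ) + 1 → w' a = 0) ∧
          ∀ a, r * w₁ a - ∑ b, FP.ν.m a b * w' b ∈ J (i + 1)) := by
    intro i hi w hw hr
    obtain ⟨w₁, hw1, hw2⟩ := hr (y i) (hy i hi).1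
    refine ⟨w₁, fun a ha => hw1 a (by push_cast at ha; exact ha), hw2, fun r hrm => ?_⟩
    obtain ⟨w'', hw3, hw4⟩ := hr r hrm
    obtain ⟨w', hw5, hw6⟩ := hT i (by omega) (i + 1) (by omega)
      (fun a => r * w₁ a - y i * w'' a)
      (fun a ha => by simp only [hw1 a ha, hw3 a ha]; simp) (fun a => by
        have h3 : ∀ b, FP.ν.m a b * (r * w₁ b - y i * w'' b) =
            r * (FP.ν.m a b * w₁ b) - y i * (FP.ν.m a b * w'' b) := fun b => by ring
        simp only [h3, sum_sub_distrib]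
        rw [← mul_sum, ← mul_sum]
        have h4 : r * ∑ b, FP.ν.m a b * w₁ b - y i * ∑ b, FP.ν.m a b * w'' b =
            y i * (r * w a - ∑ b, FP.ν.m a b * w'' b) -
              r * (y i * w a - ∑ b, FP.ν.m a b * w₁ b) := by ring
        rw [h4]
        exact (J i).sub_mem ((J i).mul_mem_left _ (hw4 a)) ((J i).mul_mem_left _ (hw2 a)))
    refine ⟨w', fun a ha => hw5 a (by push_cast at ha; exact ha), fun a => ?_⟩
    have h5 : r * w₁ a - ∑ b, FP.ν.m a b * w' b =
        (r * w₁ a - y i * w'' a - ∑ b, FP.ν.m a b * w' b) + w'' a * y i := by ring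
    rw [h5, hJ i hi]
    exact Ideal.add_mem _ (Ideal.mem_sup_left (hw6 a))
      (Ideal.mem_sup_right (Ideal.mem_span_singleton'.mpr ⟨w'' a, rfl⟩))
  -- descending
  have hdown : ∀ k : ℕ, ∀ i : ℕ, i + k = s → ∀ w : FP.ν.ι → R,
      (∀ a, FP.ν.g a ≠ i → w a = 0) →
      (∀ r ∈ maximalIdeal R, ∃ w' : FP.ν.ι → R, (∀ a, FP.ν.g a ≠ i + 1 → w' a = 0) ∧
        ∀ a, r * w a - ∑ b, FP.ν.m a b * w' b ∈ J i) →
      ∃ v : FN.ν.ι → R, (∀ n, FN.ν.g n ≠ i + 1 → v n = 0) ∧
        ∀ n, ∑ x, û n x * w x - ∑ b, FN.ν.m n b * v b ∈ J i := by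
    intro k
    induction k with
    | zero =>
      intro i hi w hw hr
      have his : i = s := by omega
      subst his
      refine ⟨0, fun n _ => rfl, fun n => ?_⟩
      have h1 : ∑ b, FN.ν.m n b * (0 : FN.ν.ι → R) b = 0 := by simp
      rw [h1, sub_zero]
      refine (J i).sum_mem fun x _ => ?_
      by_cases hx : FP.ν.g x = i
      · by_cases hn : û n x = 0
        · rw [hn, zero_mul]; exact (J i).zero_mem
        · have hgn : FN.ν.g n = i := by rw [hû.deg n x hn, hx]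
          obtain ⟨w', hw1, hw2⟩ := hr (û n x) (htop n x hgn)
          have h2 : ∀ a, w' a = 0 := fun a => by
            by_cases ha : FP.ν.g a = i + 1
            · have := FP.gs a
              omega
            · exact hw1 a ha
          have h3 := hw2 x
          simp only [h2, mul_zero, sum_const_zero, sub_zero] at h3
          exact h3
      · rw [hw x hx, mul_zero]; exact (J i).zero_mem
    | succ k ih =>
      intro i hi w hw hr
      obtain ⟨w₁, hw1, hw2, hw3⟩ := hstep i (by omega) w hw hr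
      obtain ⟨v, hv1, hv2⟩ := ih (i + 1) (by omega) w₁ hw1 hw3
      rw [hJ i (by omega)] at hv2
      -- split
      obtain ⟨q, hq1, hq2⟩ := exists_split (J i) (y i) (fun n => FN.ν.g n = (i + 1 : ℕ))
        (fun n => ∑ x, û n x * w₁ x - ∑ b, FN.ν.m n b * v b) hv2 (fun n hn => by
          have h1 : ∑ x, û n x * w₁ x = 0 := by
            refine sum_eq_zero fun x _ => ?_
            by_cases hx : û n x = 0
            · rw [hx, zero_mul]
            · rw [hw1 x (by rw [← hû.deg n x hx]; exact hn), mul_zero]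
          have h2 : ∑ b, FN.ν.m n b * v b = 0 := sum_m_deg FN.ν hv1 n hn
          rw [h1, h2, sub_zero])
      refine ⟨fun n => FN.ν.σ n • q n, fun n hn => ?_, fun n => ?_⟩
      · have h1 : q n = 0 := hq1 n (by push_cast; exact hn)
        simp only [h1, smul_zero]
      · apply (hy i (by omega)).2
        -- `y û w = û j + û d w₁`
        have hA : y i * ∑ x, û n x * w x - ∑ x, û n x * ∑ b, FP.ν.m x b * w₁ b ∈ J i := by
          have h1 : y i * ∑ x, û n x * w x - ∑ x, û n x * ∑ b, FP.ν.m x b * w₁ b =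
              ∑ x, û n x * (y i * w x - ∑ b, FP.ν.m x b * w₁ b) := by
            rw [mul_sum, ← sum_sub_distrib]
            exact sum_congr rfl fun x _ => by ring
          rw [h1]
          exact (J i).sum_mem fun x _ => (J i).mul_mem_left _ (hw2 x)
        -- `û d w₁ = - σ d û w₁`
        have hB : ∑ x, û n x * ∑ b, FP.ν.m x b * w₁ b =
            - FN.ν.σ n • ∑ n', FN.ν.m n n' * ∑ x, û n' x * w₁ x := by
          have h1 : ∀ x, ∑ n', FN.ν.m n n' * û n' x =
              - FN.ν.σ n • ∑ y, û n y * FP.ν.m y x := hû.comm n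
          have h2 : ∑ n', FN.ν.m n n' * ∑ x, û n' x * w₁ x =
              ∑ x, (∑ n', FN.ν.m n n' * û n' x) * w₁ x := by
            simp only [mul_sum, sum_mul]
            rw [sum_comm]
            exact sum_congr rfl fun x _ => sum_congr rfl fun n' _ => by ring
          have h3 : ∑ x, û n x * ∑ b, FP.ν.m x b * w₁ b =
              ∑ b, (∑ x, û n x * FP.ν.m x b) * w₁ b := by
            simp only [mul_sum, sum_mul]
            rw [sum_comm]
            exact sum_congr rfl fun x _ => sum_congr rfl fun n' _ => by ring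
          rw [h2, h3]
          simp only [h1]
          rcases FN.ν.pm n with h | h <;> rw [h] <;> simp
        -- `d û w₁ = d (j + y q)`
        have hC : ∑ n', FN.ν.m n n' * ∑ x, û n' x * w₁ x -
            y i * ∑ n', FN.ν.m n n' * q n' ∈ J i := by
          have h1 := sum_m_mem FN.ν (J i) hq2 n
          have h2 : ∑ n', FN.ν.m n n' * (∑ x, û n' x * w₁ x - ∑ b, FN.ν.m n' b * v b -
              y i * q n') = ∑ n', FN.ν.m n n' * ∑ x, û n' x * w₁ x -
              ∑ n', FN.ν.m n n' * ∑ b, FN.ν.m n' b * v b -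
              y i * ∑ n', FN.ν.m n n' * q n' := by
            rw [mul_sum, ← sum_sub_distrib, ← sum_sub_distrib]
            exact sum_congr rfl fun x _ => by ring
          rw [h2, sum_m_m, sub_zero] at h1
          exact h1
        -- the sign rule
        have hD : ∑ b, FN.ν.m n b * (FN.ν.σ b • q b) =
            - FN.ν.σ n • ∑ b, FN.ν.m n b * q b := by
          rw [smul_sum]
          refine sum_congr rfl fun b _ => ?_
          by_cases hb : FN.ν.m n b = 0
          · simp [hb]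
          · rw [FN.ν.sgn n b hb, mul_smul_comm]
        rw [hD]
        rw [hB] at hA
        rcases FN.ν.pm n with h | h
        · rw [h] at hA ⊢
          simp only [neg_smul, one_smul] at hA ⊢
          have h5 : y i * (∑ x, û n x * w x - -∑ b, FN.ν.m n b * q b) =
              (y i * ∑ x, û n x * w x - -∑ n', FN.ν.m n n' * ∑ x, û n' x * w₁ x) -
              (∑ n', FN.ν.m n n' * ∑ x, û n' x * w₁ x -
                y i * ∑ n', FN.ν.m n n' * q n') := by ring
          rw [h5]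
          exact (J i).sub_mem hA hC
        · rw [h] at hA ⊢
          simp only [one_smul, neg_neg] at hA ⊢
          have h5 : y i * (∑ x, û n x * w x - ∑ b, FN.ν.m n b * q b) =
              (y i * ∑ x, û n x * w x - ∑ n', FN.ν.m n n' * ∑ x, û n' x * w₁ x) +
              (∑ n', FN.ν.m n n' * ∑ x, û n' x * w₁ x -
                y i * ∑ n', FN.ν.m n n' * q n') := by ring
          rw [h5]
          exact (J i).add_mem hA hC
  -- the start
  obtain ⟨w, hw1, hw2⟩ := FP.qi.surj p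
  have hw2' : ∑ a, w a • FP.ε a = p := by
    rw [← hw2]; exact sum_congr rfl fun a _ => by rw [LinearMap.toSpanSingleton_apply]
  have hr : ∀ r ∈ maximalIdeal R, ∃ w' : FP.ν.ι → R,
      (∀ a, FP.ν.g a ≠ ((0 : ℕ) : ℤ) + 1 → w' a = 0) ∧
      ∀ a, r * w a - ∑ b, FP.ν.m a b * w' b ∈ J 0 := by
    intro r hr
    obtain ⟨z, hz1, hz2, hz3⟩ := FP.mem_smul_top (J 0) (hp r hr)
    obtain ⟨w', hw3, hw4⟩ := FP.qi.ex0 (fun a => r * w a - z a)
      (fun a ha => by simp only [hw1 a ha, hz1 a ha]; simp) (by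
        simp only [LinearMap.toSpanSingleton_apply, sub_smul, mul_smul, sum_sub_distrib]
        rw [← smul_sum, hw2', hz3, sub_self])
    refine ⟨w', fun a ha => hw3 a (by simpa using ha), fun a => ?_⟩
    have h5 := congrFun hw4 a
    simp only [mulV, smul_eq_mul] at h5
    rw [h5]
    have h6 : r * w a - (r * w a - z a) = z a := by ring
    rw [h6]; exact hz2 a
  obtain ⟨v, -, hv2⟩ := hdown s 0 (by omega) w (fun a ha => hw1 a (by simpa using ha)) hr
  -- the end
  have h1 : φ p = ∑ n, (∑ x, û n x * w x) • FN.ε n := by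
    rw [← hw2', map_sum]
    have h2 : ∀ n, (∑ x, û n x * w x) • FN.ε n = ∑ x, w x • û n x • FN.ε n := fun n => by
      rw [sum_smul]
      exact sum_congr rfl fun x _ => by rw [mul_comm, mul_smul]
    simp only [h2]
    rw [sum_comm]
    refine sum_congr rfl fun x _ => ?_
    rw [map_smul, ← hû.lift x, smul_sum]
  have h2 : ∑ n, (∑ b, FN.ν.m n b * v b) • FN.ε n = 0 := by
    have h3 := FN.qi.sum_mulV v
    simp only [mulV, LinearMap.toSpanSingleton_apply, smul_eq_mul] at h3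
    exact h3
  have h4 : φ p = ∑ n, (∑ x, û n x * w x - ∑ b, FN.ν.m n b * v b) • FN.ε n := by
    simp only [sub_smul, sum_sub_distrib]
    rw [h2, sub_zero, h1]
  rw [h4]
  exact Submodule.sum_mem _ fun n _ => Submodule.smul_mem_smul (hv2 n) Submodule.mem_top

end Pool.Agent.CN
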