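import Pool.Agent.CN.Key
import Pool.Agent.CN.DDBuild
import Pool.Agent.CN.MinRes
import Pool.Agent.CN.Theta
import Pool.Agent.CN.Ends
import Pool.Agent.CN.SocleMod
import Pool.Agent.CN.Depth
import Pool.Agent.Helper19.NormalFree

/-!
# The cases depth `N = 0` and dim `N ≤ 1`
-/

universe u

namespace Pool.Agent.CN

open Finset IsLocalRing Pool.Agent.Helper19 RingTheory.Sequence

section

variable {S : Type u} [CommRing S] [IsLocalRing S] [IsNoetherianRing S] {I : Ideal S}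

omit [IsLocalRing S] [IsNoetherianRing S] in
lemma fpd_bot {n : ℕ} (h : PD S (S ⧸ I) (n + 1)) : FPD ⊥ I := by
  refine ⟨S, inferInstance, Algebra.id S, fun x => ⟨x, rfl⟩, ?_, n, ?_⟩
  · ext x
    simp [RingHom.mem_ker]
  · have h1 : I.map (algebraMap S S) = I := Ideal.map_id I
    rw [h1]
    exact h

variable [IsLocalRing (S ⧸ I)] {N : Type u} [AddCommGroup N] [Module S N] [Module (S ⧸ I) N]
  [IsScalarTower S (S ⧸ I) N]

theorem gen_of_detect (hI : I ≠ ⊤) (h0 : FPD ⊥ I) {s : ℕ} (FN : FRes (S ⧸ I) N s)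
    (FP : FRes (S ⧸ I) (I →ₗ[S] N) s) (hmin : ∀ a b, FP.ν.m a b ∈ maximalIdeal (S ⧸ I))
    (hdet : ∀ J : Ideal S, J ≤ I → FPD J I →
      (∀ f : I, ∃ f' : I, f'.1 ∈ J ∧ ∃ û, ChainLift FN FP (evP I N (f - f')) û ∧
        ∀ n x, FN.ν.g n = s → û n x ∈ maximalIdeal (S ⧸ I)) → I ≤ J) :
    ∃ rs : List S, IsRegular S rs ∧ Ideal.ofList rs = I := by
  obtain ⟨D, hD⟩ := exists_DD I N s FN FP hmin
  obtain ⟨r, c, h1, h2, h3⟩ := key I hI D h0
  have hJI : Ideal.span (Set.range fun l => D.evF (c l)) ≤ I := by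
    rw [Ideal.span_le]
    rintro _ ⟨l, rfl⟩
    exact D.evF_mem _
  have h4 : I ≤ Ideal.span (Set.range fun l => D.evF (c l)) := by
    refine hdet _ hJI h2 fun f => ?_
    obtain ⟨c', hc'⟩ := D.exists_evF f.2
    obtain ⟨s', hs'⟩ := h3 c'
    obtain ⟨û, hû1, hû2⟩ := hD _ hs'
    have h5 := D.evF_sub c' (fun i => ∑ l, s' l * c l i)
    rw [D.evF_sum] at h5
    have h6 : ∑ l, s' l * D.evF (c l) ∈ Ideal.span (Set.range fun l => D.evF (c l)) :=
      Ideal.sum_mem _ fun l _ => Ideal.mul_mem_left _ _ (Ideal.subset_span ⟨l, rfl⟩)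
    refine ⟨⟨_, hJI h6⟩, h6, û, ?_, hû2⟩
    have h7 : (⟨D.evF (fun i => c' i - ∑ l, s' l * c l i), D.evF_mem _⟩ : I) =
        f - ⟨∑ l, s' l * D.evF (c l), hJI h6⟩ := by
      apply Subtype.ext
      change D.evF _ = f.1 - _
      rw [h5, hc']
    rw [← h7]
    exact hû1
  obtain ⟨rs, h5, h6⟩ := exists_isRegular_of_regFam _
    (fun l => IsLocalRing.le_maximalIdeal hI (D.evF_mem (c l))) h1
  exact ⟨rs, h5, h6.trans (le_antisymm hJI h4)⟩

lemma FRes.exact_zero {R : Type u} [CommRing R] {P : Type u} [AddCommGroup P] [Module R P]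
    {s : ℕ} (F : FRes R P s) (i : ℤ) (hi : 1 ≤ i) (z : F.ν.ι → R)
    (hz : ∀ a, F.ν.g a ≠ i → z a = 0) (h : ∀ a, ∑ b, F.ν.m a b * z b = 0) :
    ∃ w : F.ν.ι → R, (∀ a, F.ν.g a ≠ i + 1 → w a = 0) ∧ ∀ a, ∑ b, F.ν.m a b * w b = z a := by
  obtain ⟨w, h1, h2⟩ := F.qi.ex i hi z hz (funext h)
  exact ⟨w, h1, fun a => congrFun h2 a⟩

lemma FRes.exact_mod {R : Type u} [CommRing R] {P : Type u} [AddCommGroup P] [Module R P]
    {s : ℕ} (F : FRes R P s) (x : R) (hx : IsSMulRegular R x) (hxP : IsSMulRegular P x)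
    (i : ℤ) (hi : 1 ≤ i) (z : F.ν.ι → R)
    (hz : ∀ a, F.ν.g a ≠ i → z a = 0) (h : ∀ a, ∑ b, F.ν.m a b * z b ∈ Ideal.span {x}) :
    ∃ w : F.ν.ι → R, (∀ a, F.ν.g a ≠ i + 1 → w a = 0) ∧
      ∀ a, z a - ∑ b, F.ν.m a b * w b ∈ Ideal.span {x} := by
  choose u hu using fun a => Ideal.mem_span_singleton'.mp (h a)
  have hx0 : ∀ y : R, y * x = 0 → y = 0 := fun y hy =>
    hx.right_eq_zero_of_smul (by rw [smul_eq_mul, mul_comm]; exact hy)
  have hu0 : ∀ a, F.ν.g a ≠ i - 1 → u a = 0 := by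
    intro a ha
    apply hx0
    rw [hu]
    refine sum_eq_zero fun b _ => ?_
    by_cases hm : F.ν.m a b = 0
    · rw [hm, zero_mul]
    · rw [hz b (by rw [F.ν.deg a b hm]; omega), mul_zero]
  obtain ⟨w', hw'1, hw'2⟩ : ∃ w' : F.ν.ι → R, (∀ a, F.ν.g a ≠ i → w' a = 0) ∧
      ∀ a, ∑ b, F.ν.m a b * w' b = u a := by
    rcases eq_or_lt_of_le hi with h1 | h1
    · subst h1
      obtain ⟨w, h2, h3⟩ := F.qi.ex0 u (by simpa using hu0) (by
        apply hxP.right_eq_zero_of_smul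
        simp only [LinearMap.toSpanSingleton_apply]
        rw [smul_sum]
        have h4 : ∀ a, x • u a • F.ε a = ∑ b, z b • F.ν.m a b • F.ε a := fun a => by
          rw [smul_smul, mul_comm, hu, sum_smul]
          exact sum_congr rfl fun b _ => by rw [mul_comm, mul_smul]
        simp only [h4]
        rw [sum_comm]
        refine sum_eq_zero fun b _ => ?_
        rw [← smul_sum, F.sum_m_ε, smul_zero])
      exact ⟨w, h2, fun a => congrFun h3 a⟩
    · obtain ⟨w, h2, h3⟩ := F.exact_zero (i - 1) (by omega) u hu0 (by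
        intro a
        apply hx0
        rw [sum_mul]
        have h4 : ∀ b, F.ν.m a b * u b * x = ∑ c, F.ν.m a b * F.ν.m b c * z c := fun b => by
          rw [mul_assoc, hu, mul_sum]
          exact sum_congr rfl fun c _ => by ring
        simp only [h4]
        rw [sum_comm]
        refine sum_eq_zero fun c _ => ?_
        rw [← sum_mul, F.ν.sq, zero_mul])
      exact ⟨w, by simpa using h2, h3⟩
  obtain ⟨w, h1, h2⟩ := F.exact_zero i hi (fun a => z a - w' a * x)
    (fun a ha => by rw [hz a ha, hw'1 a ha, zero_mul, sub_zero]) (by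
      intro a
      simp only [mul_sub, sum_sub_distrib]
      rw [← hu, ← hw'2, sum_mul, sub_eq_zero]
      exact sum_congr rfl fun b _ => by ring)
  refine ⟨w, h1, fun a => ?_⟩
  rw [h2, sub_sub_cancel]
  exact Ideal.mul_mem_left _ _ (Ideal.mem_span_singleton_self x)

variable [Module.Finite (S ⧸ I) N]

/-- depth `N = 0` -/
theorem caseA (hI : I ≠ ⊤) (h0 : FPD ⊥ I) (k l : ℕ) (hN : PD (S ⧸ I) N k)
    (hP : PD (S ⧸ I) (I →ₗ[S] N) l) (v : N) (hv : v ≠ 0)
    (hmv : ∀ a ∈ maximalIdeal S, a • v = 0) :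
    ∃ rs : List S, IsRegular S rs ∧ Ideal.ofList rs = I := by
  have hfin : Module.Finite (S ⧸ I) (I →ₗ[S] N) := finite_hom
  obtain ⟨rs, hrs, hbound⟩ := exists_max_regular (S ⧸ I)
  obtain ⟨FN, -⟩ := exists_minRes rs.length N (hbound k N hN)
  obtain ⟨FP, hmin⟩ := exists_minRes rs.length (I →ₗ[S] N) (hbound l _ hP)
  obtain ⟨J, y, hJ0, hJ1, hJ2⟩ := data_of_isRegular (RingHom.id (S ⧸ I)) (fun x => ⟨x, rfl⟩) rs hrs
  have hJ0' : J 0 = ⊥ := by
    rw [hJ0]
    ext x
    simp [RingHom.mem_ker]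
  refine gen_of_detect hI h0 FN FP hmin fun K hKI hK hdet => ?_
  by_contra hIK
  obtain ⟨g, hg, hgK, hmg⟩ := exists_hom_socle K I hIK N v hv hmv
  apply hg
  ext f
  obtain ⟨f', hf', û, hû, htop⟩ := hdet f
  have h1 := theta FN FP (evP I N (f - f')) û hû J y hJ1 hJ2 (by
    intro i hi z hz h
    rw [hJ0'] at h ⊢
    obtain ⟨w, h2, h3⟩ := FP.exact_zero i hi z hz (fun a => (Submodule.mem_bot _).mp (h a))
    exact ⟨w, h2, fun a => by rw [h3, sub_self]; exact Ideal.zero_mem _⟩) htop g (by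
    intro a ha
    have : a • g = 0 := by
      obtain ⟨b, rfl⟩ := Ideal.Quotient.mk_surjective a
      have hb : b ∈ maximalIdeal S := by
        by_contra hb
        rw [mem_maximalIdeal, mem_nonunits_iff, not_not] at hb
        rw [mem_maximalIdeal, mem_nonunits_iff] at ha
        exact ha (hb.map _)
      have h2 := hmg b hb
      rw [← h2]
      exact algebraMap_smul (S ⧸ I) b g
    rw [this]
    exact Submodule.zero_mem _)
  rw [hJ0', Submodule.bot_smul, Submodule.mem_bot] at h1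
  change g (f - f') = 0 at h1
  rw [map_sub, hgK f' hf', sub_zero] at h1
  exact h1

/-- dim `N ≤ 1`, depth `N ≥ 1` -/
theorem caseB (hI : I ≠ ⊤) (h0 : FPD ⊥ I) [Nontrivial N] (k l : ℕ) (hN : PD (S ⧸ I) N k)
    (hP : PD (S ⧸ I) (I →ₗ[S] N) l) (x : S ⧸ I) (hxm : x ∈ maximalIdeal (S ⧸ I))
    (hx : IsSMulRegular (S ⧸ I) x) (hxN : IsSMulRegular N x)
    (hdim : Module.supportDim (S ⧸ I) N ≤ 1) :
    ∃ rs : List S, IsRegular S rs ∧ Ideal.ofList rs = I := by
  have hfin : Module.Finite (S ⧸ I) (I →ₗ[S] N) := finite_hom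
  have hxP : IsSMulRegular (I →ₗ[S] N) x := by
    intro g g' h
    ext f
    exact hxN (LinearMap.congr_fun h f)
  have : IsLocalRing ((S ⧸ I) ⧸ Ideal.span {x}) := isLocalRing_quot hxm
  obtain ⟨rs, hrs, hbound⟩ := exists_max_regular ((S ⧸ I) ⧸ Ideal.span {x})
  have hb : ∀ (n : ℕ) (E : Type u) [AddCommGroup E] [Module (S ⧸ I) E]
      [Module.Finite (S ⧸ I) E], IsSMulRegular E x → PD (S ⧸ I) E n →
      PD (S ⧸ I) E (rs.length + 1) := by
    intro n E _ _ _ hE h
    have : Module.Finite ((S ⧸ I) ⧸ Ideal.span {x}) (QuotSMulTop x E) :=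
      Module.Finite.of_restrictScalars_finite (S ⧸ I) _ _
    exact pd_of_quotSMulTop x hxm hx _ E hE (hbound n _ (pd_quotSMulTop x hx n E hE h))
  obtain ⟨FN, -⟩ := exists_minRes rs.length N (hb k N hxN hN)
  obtain ⟨FP, hmin⟩ := exists_minRes rs.length (I →ₗ[S] N) (hb l _ hxP hP)
  obtain ⟨J, y, hJ0, hJ1, hJ2⟩ := data_of_isRegular (Ideal.Quotient.mk (Ideal.span {x}))
    Ideal.Quotient.mk_surjective rs hrs
  rw [Ideal.mk_ker] at hJ0
  have hmem : ∀ (E : Type u) [AddCommGroup E] [Module (S ⧸ I) E] (e : E),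
      e ∈ J 0 • (⊤ : Submodule (S ⧸ I) E) ↔ ∃ e', e = x • e' := by
    intro E _ _ e
    rw [hJ0, Submodule.ideal_span_singleton_smul, mem_smul_top_iff]
  refine gen_of_detect hI h0 FN FP hmin fun K hKI hK hdet => ?_
  have : Module.Finite S N := Module.Finite.trans (S ⧸ I) N
  refine le_of_hom_zero K I hI hKI hK N ?_ ?_
  · intro a ha v
    rw [← algebraMap_smul (S ⧸ I) a v]
    have : algebraMap S (S ⧸ I) a = 0 := Ideal.Quotient.eq_zero_iff_mem.mpr ha
    rw [this, zero_smul]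
  -- the submodule of maps vanishing on `K`
  let P' : Submodule (S ⧸ I) (I →ₗ[S] N) :=
    { carrier := {g | ∀ f : I, f.1 ∈ K → g f = 0}
      zero_mem' := fun f _ => rfl
      add_mem' := by
        intro g g' hg hg' f hf
        rw [LinearMap.add_apply, hg f hf, hg' f hf, add_zero]
      smul_mem' := by
        intro a g hg f hf
        rw [LinearMap.smul_apply, hg f hf, smul_zero] }
  intro g hg
  by_contra hg0
  have hnt : Nontrivial P' := ⟨⟨⟨g, hg⟩, 0, fun h => hg0 (congrArg Subtype.val h)⟩⟩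
  have hreg' : IsSMulRegular P' x :=
    isSMulRegular_of_injective P'.subtype Subtype.val_injective hxP
  have hdim' : Module.supportDim (S ⧸ I) P' ≤ 1 := by
    refine le_trans ?_ hdim
    have hPfin : Module.Finite (S ⧸ I) P' := inferInstance
    have hsub : Module.support (S ⧸ I) P' ⊆ Module.support (S ⧸ I) N := by
      rw [Module.support_eq_zeroLocus, Module.support_eq_zeroLocus]
      refine PrimeSpectrum.zeroLocus_anti_mono fun a ha => ?_
      rw [SetLike.mem_coe, Module.mem_annihilator] at ha ⊢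
      intro g
      apply Subtype.ext
      ext f
      exact ha _
    exact Order.krullDim_le_of_strictMono (fun a => ⟨a.1, hsub a.2⟩) (fun {_ _} lt => lt)
  obtain ⟨p, hp1, hp2⟩ := exists_socle_mod P' x hxm hreg' hdim'
  -- `p f ∈ x N` for all `f`
  have hpN : ∀ f : I, ∃ v : N, p.1 f = x • v := by
    intro f
    obtain ⟨f', hf', û, hû, htop⟩ := hdet f
    have h1 := theta FN FP (evP I N (f - f')) û hû J y hJ1 hJ2 (by
      intro i hi z hz h
      rw [hJ0] at h ⊢
      exact FP.exact_mod x hx hxP i hi z hz h) htop p.1 (by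
      intro a ha
      rw [hmem]
      obtain ⟨p', hp'⟩ := hp2 a ha
      exact ⟨p'.1, congrArg Subtype.val hp'⟩)
    rw [hmem] at h1
    obtain ⟨v, hv⟩ := h1
    change p.1 (f - f') = x • v at hv
    rw [map_sub, p.2 f' hf', sub_zero] at hv
    exact ⟨v, hv⟩
  choose q hq using hpN
  let q' : I →ₗ[S] N :=
    { toFun := q
      map_add' := by
        intro f f'
        apply hxN
        simp only [smul_add]
        rw [← hq, ← hq, ← hq, map_add]
      map_smul' := by
        intro a f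
        apply hxN
        change x • q (a • f) = x • a • q f
        rw [← hq, map_smul, hq f, smul_comm] }
  have hq' : q' ∈ P' := by
    intro f hf
    apply hxN
    change x • q f = x • 0
    rw [← hq, p.2 f hf, smul_zero]
  exact hp1 ⟨⟨q', hq'⟩, Subtype.ext (LinearMap.ext fun f => hq f)⟩

end

end Pool.Agent.CN
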