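import Pool.Agent.CN.Defs

/-!
# Surjectivity of `χ` on the homology of `D ⊗ V` in high degrees
-/

universe u

namespace Pool.Agent.CN

open Finset IsLocalRing

variable {R : Type u} [CommRing R]

namespace ChiSurjAux

/-- exactness in degrees `≥ t₀` -/
def Ex {V : Type u} [AddCommGroup V] [Module R V] (A : DG R V) (t₀ : ℤ) : Prop :=
  ∀ t, t₀ ≤ t → ∀ z : V, A.p t z = z → A.d z = 0 → ∃ y, A.p (t + 1) y = y ∧ A.d y = z

/-- the cone of `χ` -/
def cone {V : Type u} [AddCommGroup V] [Module R V] (A : DG R V)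
    (χ : V →ₗ[R] V) (hχ : Op2 A χ) : DG R (V × V) where
  d := (A.d ∘ₗ LinearMap.fst R V V).prod (- (χ ∘ₗ LinearMap.fst R V V) - A.d ∘ₗ LinearMap.snd R V V)
  p t := (A.p t ∘ₗ LinearMap.fst R V V).prod (A.p (t - 1) ∘ₗ LinearMap.snd R V V)
  dd := by
    rintro ⟨u, v⟩
    simp [A.dd, hχ.comm]
  dp := by
    rintro t ⟨u, v⟩
    simp [A.dp, hχ.deg, show t - 1 - 1 = t - 2 by ring]
  pp := by
    rintro t ⟨u, v⟩
    simp [A.pp]

section

variable {V : Type u} [AddCommGroup V] [Module R V] (A : DG R V)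
    (χ : V →ₗ[R] V) (hχ : Op2 A χ)

lemma cone_d (x : V × V) : (cone A χ hχ).d x = (A.d x.1, - χ x.1 - A.d x.2) := by
  simp [cone]

lemma cone_p (t : ℤ) (x : V × V) : (cone A χ hχ).p t x = (A.p t x.1, A.p (t - 1) x.2) := by
  simp [cone]

lemma cone_ex (t₀ : ℤ) (hex : ConeExact A χ t₀) : Ex (cone A χ hχ) t₀ := by
  rintro t ht ⟨u, v⟩ hp hd
  rw [cone_p, Prod.mk.injEq] at hp
  rw [cone_d, Prod.mk_eq_zero] at hd
  obtain ⟨u', v', h1, h2, h3, h4⟩ := hex t ht u v hp.1 hp.2 hd.1 (by
    have := hd.2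
    simp only at this
    rw [← neg_eq_zero, neg_add, ← sub_eq_add_neg]
    exact this)
  refine ⟨(u', v'), ?_, ?_⟩
  · rw [cone_p, Prod.mk.injEq]
    refine ⟨h1, ?_⟩
    rw [show t + 1 - 1 = t by ring]
    exact h2
  · rw [cone_d, Prod.mk.injEq]
    exact ⟨h3, h4⟩

end

/-- `D ⊗ Z` is exact in high degrees if `Z` is. -/
theorem ex_dg {V : Type u} [AddCommGroup V] [Module R V] (A : DG R V) (t₀ : ℤ) (h : Ex A t₀)
    (D : BC R) (L G : ℤ) (hL : ∀ a, L ≤ D.g a) (hG : ∀ a, D.g a ≤ G) :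
    Ex (D.dg A) (t₀ + G) := by
  intro t ht
  have key : ∀ n : ℕ, ∀ z : D.ι → V, (D.dg A).p t z = z → (D.dg A).d z = 0 →
      (∀ b, L + n ≤ D.g b → z b = 0) → ∃ y, (D.dg A).p (t + 1) y = y ∧ (D.dg A).d y = z := by
    intro n
    induction n with
    | zero =>
      intro z _ _ hz
      refine ⟨0, map_zero _, ?_⟩
      rw [map_zero]
      funext b
      exact (hz b (by simpa using hL b)).symm
    | succ n ih =>
      intro z hp hd hz
      -- the component of degree `L + n`
      have hza : ∀ a, D.g a = L + n → A.d (z a) = 0 := by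
        intro a ha
        have h1 := congrFun hd a
        rw [D.dg_d, BC.op_apply, Pi.zero_apply] at h1
        have h2 : ∑ b, D.m a b • z b = 0 := by
          refine sum_eq_zero fun b _ => ?_
          by_cases hb : D.m a b = 0
          · rw [hb, zero_smul]
          · rw [hz b (by rw [D.deg a b hb, ha]; push_cast; linarith), smul_zero]
        rw [h2, zero_add] at h1
        rw [← D.σσ_smul a (A.d (z a)), h1, smul_zero]
      have hzp : ∀ a, A.p (t - D.g a) (z a) = z a := fun a => congrFun hp a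
      have hy : ∀ a, ∃ y, A.p (t - D.g a + 1) y = y ∧ (D.g a = L + n → A.d y = z a) ∧
          (D.g a ≠ L + n → y = 0) := by
        intro a
        by_cases ha : D.g a = L + n
        · obtain ⟨y, hy1, hy2⟩ := h (t - D.g a) (by have := hG a; linarith) (z a) (hzp a) (hza a ha)
          exact ⟨y, hy1, fun _ => hy2, fun hh => absurd ha hh⟩
        · exact ⟨0, map_zero _, fun hh => absurd hh ha, fun _ => rfl⟩
      choose y hy1 hy2 hy3 using hy
      let w : D.ι → V := fun a => D.σ a • y a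
      have hwp : (D.dg A).p (t + 1) w = w := by
        funext a
        rw [D.dg_p, BC.pr_apply]
        change A.p (t + 1 - D.g a) (D.σ a • y a) = D.σ a • y a
        rw [map_zsmul, show t + 1 - D.g a = t - D.g a + 1 by ring, hy1]
      have hw0 : ∀ a, D.g a ≠ L + n → w a = 0 := fun a ha => by
        change D.σ a • y a = 0
        rw [hy3 a ha, smul_zero]
      have hDw : ∀ a, L + n ≤ D.g a → (D.dg A).d w a = z a := by
        intro a ha
        rw [D.dg_d, BC.op_apply]
        have h2 : ∑ b, D.m a b • w b = 0 := by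
          refine sum_eq_zero fun b _ => ?_
          by_cases hb : D.m a b = 0
          · rw [hb, zero_smul]
          · rw [hw0 b (by rw [D.deg a b hb]; intro hh; linarith), smul_zero]
        rw [h2, zero_add]
        by_cases hh : D.g a = L + n
        · change D.σ a • A.d (D.σ a • y a) = z a
          rw [map_zsmul, D.σσ_smul, hy2 a hh]
        · rw [hw0 a hh, map_zero, smul_zero]
          refine (hz a ?_).symm
          have : L + n < D.g a := lt_of_le_of_ne ha (Ne.symm hh)
          push_cast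
          linarith [Int.add_one_le_iff.mpr this]
      obtain ⟨y', hy'1, hy'2⟩ := ih (z - (D.dg A).d w) (by
          rw [map_sub, hp]
          congr 1
          have := (D.dg A).dp (t + 1) w
          rw [hwp, show t + 1 - 1 = t by ring] at this
          exact this.symm)
        (by rw [map_sub, hd, (D.dg A).dd, sub_zero])
        (fun b hb => by rw [Pi.sub_apply, hDw b hb, sub_self])
      refine ⟨y' + w, by rw [map_add, hy'1, hwp], ?_⟩
      rw [map_add, hy'2, sub_add_cancel]
  intro z hp hd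
  refine key (G - L + 1).toNat z hp hd fun b hb => ?_
  exfalso
  have h1 := hG b
  have h2 := Int.self_le_toNat (G - L + 1)
  linarith

end ChiSurjAux

open ChiSurjAux in
theorem chiSurj_of_coneExact {V : Type u} [AddCommGroup V] [Module R V] (A : DG R V)
    (χ : V →ₗ[R] V) (hχ : Op2 A χ) (t₀ : ℤ) (hex : ConeExact A χ t₀) (D : BC R) :
    ∃ t₁, ChiSurj A χ D t₁ := by
  obtain ⟨L, hL⟩ : ∃ L : ℤ, ∀ a, L ≤ D.g a := by
    obtain ⟨L, hL⟩ := (Set.finite_range D.g).bddBelow
    exact ⟨L, fun a => hL ⟨a, rfl⟩⟩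
  obtain ⟨G, hG⟩ : ∃ G : ℤ, ∀ a, D.g a ≤ G := by
    obtain ⟨G, hG⟩ := (Set.finite_range D.g).bddAbove
    exact ⟨G, fun a => hG ⟨a, rfl⟩⟩
  have hE := ex_dg (cone A χ hχ) t₀ (cone_ex A χ hχ t₀ hex) D L G hL hG
  refine ⟨t₀ + G, fun t ht z hz hp => ?_⟩
  have hzd : ∀ a, ∑ b, D.m a b • z b = - (D.σ a • A.d (z a)) := by
    intro a
    have h1 := congrFun hz a
    rw [BC.op_apply, Pi.zero_apply] at h1
    exact eq_neg_of_add_eq_zero_left h1
  let w : D.ι → V × V := fun a => (0, D.σ a • z a)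
  have hwp : (D.dg (cone A χ hχ)).p (t + 1) w = w := by
    funext a
    rw [D.dg_p, BC.pr_apply, cone_p]
    change (A.p (t + 1 - D.g a) 0, A.p (t + 1 - D.g a - 1) (D.σ a • z a)) = (0, D.σ a • z a)
    rw [map_zero, show t + 1 - D.g a - 1 = t - D.g a by ring, map_zsmul]
    have h1 : A.p (t - D.g a) (z a) = z a := congrFun hp a
    rw [h1]
  have hmσ : ∀ (x : D.ι → V) (a : D.ι), ∑ b, D.m a b • D.σ b • x b =
      - (D.σ a • ∑ b, D.m a b • x b) := by
    intro x a
    rw [smul_sum, ← sum_neg_distrib]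
    exact sum_congr rfl fun b _ => D.σmm a b (x b)
  have hfst : ∀ (x : D.ι → V × V) (a : D.ι), (∑ b, D.m a b • x b).1 = ∑ b, D.m a b • (x b).1 := by
    intro x a
    rw [Prod.fst_sum]
    rfl
  have hsnd : ∀ (x : D.ι → V × V) (a : D.ι), (∑ b, D.m a b • x b).2 = ∑ b, D.m a b • (x b).2 := by
    intro x a
    rw [Prod.snd_sum]
    rfl
  have hwd : (D.dg (cone A χ hχ)).d w = 0 := by
    funext a
    rw [D.dg_d, BC.op_apply, cone_d, Pi.zero_apply]
    refine Prod.ext ?_ ?_
    · rw [Prod.fst_add, hfst]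
      change ∑ b, D.m a b • (0 : V) + D.σ a • A.d 0 = 0
      simp
    · rw [Prod.snd_add, hsnd]
      change ∑ b, D.m a b • D.σ b • z b + D.σ a • (- χ 0 - A.d (D.σ a • z a)) = 0
      rw [hmσ, hzd, map_zero, neg_zero, zero_sub, smul_neg, neg_neg, D.σσ_smul, map_zsmul,
        smul_neg, D.σσ_smul, add_neg_cancel]
  obtain ⟨y, hyp, hyd⟩ := hE (t + 1) (by linarith) w hwp hwd
  have hy1 : ∀ a, A.p (t + 2 - D.g a) (y a).1 = (y a).1 := by
    intro a
    have h1 := congrFun hyp a
    rw [D.dg_p, BC.pr_apply, cone_p] at h1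
    have h2 := congrArg Prod.fst h1
    simp only at h2
    rw [show t + 2 - D.g a = t + 1 + 1 - D.g a by ring]
    exact h2
  have hyd1 : ∀ a, ∑ b, D.m a b • (y b).1 + D.σ a • A.d (y a).1 = 0 := by
    intro a
    have h1 := congrFun hyd a
    rw [D.dg_d, BC.op_apply, cone_d] at h1
    have h2 := congrArg Prod.fst h1
    rw [Prod.fst_add, hfst] at h2
    exact h2
  have hyd2 : ∀ a, ∑ b, D.m a b • (y b).2 + D.σ a • (- χ (y a).1 - A.d (y a).2) =
      D.σ a • z a := by
    intro a
    have h1 := congrFun hyd a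
    rw [D.dg_d, BC.op_apply, cone_d] at h1
    have h2 := congrArg Prod.snd h1
    rw [Prod.snd_add, hsnd] at h2
    exact h2
  refine ⟨fun a => - (y a).1, ?_, ?_, ⟨fun a => - (D.σ a • (y a).2), ?_⟩⟩
  · funext a
    rw [BC.op_apply, Pi.zero_apply]
    simp only [smul_neg, sum_neg_distrib, map_neg]
    rw [← neg_add, hyd1, neg_zero]
  · funext a
    rw [BC.pr_apply, map_neg, hy1]
  · funext a
    rw [D.dg_d, BC.op_apply]
    simp only [smul_neg, sum_neg_distrib, map_neg, map_zsmul]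
    rw [hmσ, D.σσ_smul, neg_neg]
    have h1 := congrArg (fun x => D.σ a • x) (hyd2 a)
    simp only [smul_add, D.σσ_smul] at h1
    rw [← h1]
    abel

end Pool.Agent.CN
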