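import Pool.Agent.CN.Defs

/-!
# Claim A: in high degrees every class of `D ⊗ V` comes from some `D'' → D` with entries in `𝔪`
-/

universe u

namespace Pool.Agent.CN

open Finset IsLocalRing

namespace ClaimA

section

variable {R : Type u} [CommRing R]

lemma tsum {M : Type*} [AddCommMonoid M] (X E : BC R) (f : X.ι × E.ι → M) :
    (∑ y : (X.tensor E).ι, f y) = ∑ x, ∑ e, f (x, e) := Fintype.sum_prod_type f

lemma tensor_m (X E : BC R) (x y : X.ι) (a b : E.ι) :
    (X.tensor E).m (x, a) (y, b) = X.m x y * (if a = b then 1 else 0) +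
      (if x = y then 1 else 0) * ((X.σ x : R) * E.m a b) := rfl

/-- rows of the tensor product against a product vector -/
lemma row (X E : BC R) (x : X.ι) (a : E.ι) (p : X.ι → R) (q : E.ι → R) :
    ∑ y : (X.tensor E).ι, (X.tensor E).m (x, a) y * (p y.1 * q y.2) =
      (∑ y, X.m x y * p y) * q a + (X.σ x : R) * p x * ∑ b, E.m a b * q b := by
  rw [tsum X E (fun y => (X.tensor E).m (x, a) y * (p y.1 * q y.2))]
  simp only [tensor_m, add_mul, sum_add_distrib]
  congr 1
  · rw [sum_mul]
    refine sum_congr rfl fun y _ => ?_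
    rw [sum_eq_single a]
    · simp; ring
    · intro b _ hb; rw [if_neg (Ne.symm hb)]; ring
    · simp
  · rw [sum_eq_single x]
    · rw [mul_sum]
      refine sum_congr rfl fun b _ => ?_
      rw [if_pos rfl]; ring
    · intro y _ hy
      refine sum_eq_zero fun b _ => ?_
      rw [if_neg (Ne.symm hy)]; ring
    · simp

/-- columns of the tensor product against a product vector -/
lemma col (X E : BC R) (y : X.ι) (b : E.ι) (p : X.ι → R) (q : E.ι → R) :
    ∑ x : (X.tensor E).ι, (p x.1 * q x.2) * (X.tensor E).m x (y, b) =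
      (∑ x, p x * X.m x y) * q b + (X.σ y : R) * p y * ∑ a, q a * E.m a b := by
  rw [tsum X E (fun x => (p x.1 * q x.2) * (X.tensor E).m x (y, b))]
  simp only [tensor_m, mul_add, sum_add_distrib]
  congr 1
  · rw [sum_mul]
    refine sum_congr rfl fun x _ => ?_
    rw [sum_eq_single b]
    · simp; ring
    · intro a _ ha; rw [if_neg ha]; ring
    · simp
  · rw [sum_eq_single y]
    · rw [mul_sum]
      refine sum_congr rfl fun a _ => ?_
      rw [if_pos rfl]; ring
    · intro x _ hx
      refine sum_eq_zero fun a _ => ?_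
      rw [if_neg hx]; ring
    · simp

lemma pow_comm' {V : Type u} [AddCommGroup V] [Module R V] {A : DG R V} {χ : V →ₗ[R] V}
    (hχ : Op2 A χ) (j : ℕ) (v : V) : A.d ((χ ^ j) v) = (χ ^ j) (A.d v) := by
  induction j generalizing v with
  | zero => simp
  | succ j ih =>
    rw [pow_succ, Module.End.mul_apply, Module.End.mul_apply, ih, hχ.comm]

/-- `η ⊗ χ` is a chain map -/
lemma eta_op {V : Type u} [AddCommGroup V] [Module R V] (A : DG R V) {χ : V →ₗ[R] V}
    (hχ : Op2 A χ) (X : BC R) (hX : ∀ x, 0 ≤ X.g x) (hσ : ∀ x, X.g x = 0 → X.σ x = 1)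
    (η : X.ι → R) (hη : ∀ x, η x ≠ 0 → X.g x = 0) (E : BC R) (v : E.ι → V) :
    (X.tensor E).op A.d (fun xa : X.ι × E.ι => η xa.1 • χ (v xa.2)) =
      fun xa : X.ι × E.ι => η xa.1 • χ (E.op A.d v xa.2) := by
  funext xa
  obtain ⟨x, a⟩ := xa
  rw [BC.tensor_op, BC.op_apply]
  have h1 : ∀ y, X.m x y • (fun a => η y • χ (v a)) = (0 : E.ι → V) := by
    intro y
    by_cases h : X.m x y = 0
    · rw [h, zero_smul]
    · have h2 : η y = 0 := by
        by_contra h3
        have := X.deg x y h
        have h4 := hη y h3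
        have h5 := hX x
        omega
      funext a
      simp [h2]
  have h2 : (∑ y, X.m x y • (fun a => η y • χ (v a)) : E.ι → V) = 0 :=
    sum_eq_zero fun y _ => h1 y
  have h3 : E.op A.d (fun a => η x • χ (v a)) = fun a => η x • χ (E.op A.d v a) := by
    have h4 : (fun a => η x • χ (v a)) = η x • (fun a => χ (v a)) := rfl
    rw [h4, map_smul, E.op_map A.d A.d χ hχ.comm]
    rfl
  have h5 : X.σ x • (η x • χ (E.op A.d v a)) = η x • χ (E.op A.d v a) := by
    by_cases h : η x = 0
    · simp [h]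
    · rw [hσ x (hη x h), one_smul]
  simp only [Pi.add_apply, h2, Pi.zero_apply, zero_add, h3, Pi.smul_apply]
  exact h5

end

section

variable {R : Type u} [CommRing R] [IsLocalRing R]

/-- the iterated construction -/
structure Stage {V : Type u} [AddCommGroup V] [Module R V] (A : DG R V) (χ : V →ₗ[R] V)
    (D : BC R) (j : ℕ) (E : BC R) (h : E.ι → D.ι → R) (r : D.ι → E.ι → R)
    (a : E.ι → D.ι → R) : Prop where
  cm : CM D E h
  deg : ∀ α c, h α c ≠ 0 → E.g α = D.g c
  one : ∀ b c, ∑ α, r b α * h α c = if b = c then 1 else 0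
  rs : ∀ b α, r b α ≠ 0 → D.σ b = E.σ α
  rm : ∀ b β, ∑ α, r b α * E.m α β - ∑ c, D.m b c * r c β ∈ maximalIdeal R
  low : ∀ α c, a α c ≠ 0 → E.g α = D.g c - 2 * j
  bd : ∀ α, ∃ c, D.g c ≤ E.g α
  it : ∀ u : D.ι → V, D.op A.d u = 0 → E.op A.d (mulV a u) = 0 ∧
    Bdy (E.dg A) (mulV h (fun c => (χ ^ j) (u c)) - mulV a u)

omit [IsLocalRing R] in
lemma mulV_one {V : Type u} [AddCommGroup V] [Module R V] {β : Type} [Fintype β]
    [DecidableEq β] (z : β → V) : mulV (fun a b : β => if a = b then (1 : R) else 0) z = z := by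
  funext a
  simp [mulV]

lemma stage_zero {V : Type u} [AddCommGroup V] [Module R V] (A : DG R V) (χ : V →ₗ[R] V)
    (D : BC R) : Stage A χ D 0 D (fun a b => if a = b then 1 else 0)
      (fun a b => if a = b then 1 else 0) (fun a b => if a = b then 1 else 0) where
  cm := ⟨fun a c => by simp, fun a b hab => by
    by_cases h : a = b
    · rw [h]
    · simp [h] at hab⟩
  deg α c h := by
    by_cases h1 : α = c
    · rw [h1]
    · simp [h1] at h
  one b c := by simp
  rs b α h := by
    by_cases h1 : b = α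
    · rw [h1]
    · simp [h1] at h
  rm b β := by simp
  low α c h := by
    by_cases h1 : α = c
    · rw [h1]; simp
    · simp [h1] at h
  bd α := ⟨α, le_refl _⟩
  it u hu := by
    rw [mulV_one, pow_zero]
    refine ⟨hu, ?_⟩
    have : mulV (fun a b : D.ι => if a = b then (1 : R) else 0)
        (fun c => (1 : Module.End R V) (u c)) - u = 0 := by
      rw [mulV_one]; funext c; simp
    rw [this]
    exact Bdy.zero

lemma stage_succ {V : Type u} [AddCommGroup V] [Module R V] {A : DG R V} {χ : V →ₗ[R] V}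
    (hχ : Op2 A χ) {X : BC R} (hX : ∀ x, 0 ≤ X.g x) (hσ : ∀ x, X.g x = 0 → X.σ x = 1)
    {η : X.ι → R} (hη : ∀ x, η x ≠ 0 → X.g x = 0)
    {ρ : X.ι → R} (hρ : ∀ x, ρ x ≠ 0 → X.g x = 0) (hρη : ∑ x, ρ x * η x = 1)
    (hρm : ∀ y, ∑ x, ρ x * X.m x y ∈ maximalIdeal R)
    (star : Star A X 1 (fun _ => χ) (fun _ => η)) {D : BC R} {j : ℕ} {E : BC R}
    {h : E.ι → D.ι → R} {r : D.ι → E.ι → R} {a : E.ι → D.ι → R} (S : Stage A χ D j E h r a) :
    ∃ a' : X.ι × E.ι → D.ι → R, Stage A χ D (j + 1) (X.tensor E)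
      (fun xα c => η xα.1 * h xα.2 c) (fun b xα => ρ xα.1 * r b xα.2) a' := by
  obtain ⟨α, hα1, hα2⟩ := star E
  refine ⟨fun xα c => - ∑ β, α xα β * a β c, ?_⟩
  have hηm : ∀ x, ∑ y, X.m x y * η y = 0 := by
    intro x
    refine sum_eq_zero fun y _ => ?_
    by_cases h1 : X.m x y = 0
    · rw [h1, zero_mul]
    · have h2 : η y = 0 := by
        by_contra h3
        have h6 := X.deg x y h1
        have h4 := hη y h3
        have h5 := hX x
        omega
      rw [h2, mul_zero]
  have hση : ∀ x, (X.σ x : R) * η x = η x := by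
    intro x
    by_cases h1 : η x = 0
    · rw [h1, mul_zero]
    · rw [hσ x (hη x h1)]; simp
  have hσρ : ∀ x, (X.σ x : R) * ρ x = ρ x := by
    intro x
    by_cases h1 : ρ x = 0
    · rw [h1, mul_zero]
    · rw [hσ x (hρ x h1)]; simp
  constructor
  · -- cm
    constructor
    · rintro ⟨x, β⟩ c
      rw [row X E x β η (fun β => h β c), hηm, zero_mul, zero_add, hση]
      have h1 := S.cm.comm β c
      rw [h1, mul_sum]
      exact sum_congr rfl fun b _ => by ring
    · rintro ⟨x, β⟩ c hc
      have h1 : η x ≠ 0 := fun h0 => hc (by simp only [h0, zero_mul])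
      have h2 : h β c ≠ 0 := fun h0 => hc (by simp only [h0, mul_zero])
      show X.σ x * E.σ β = D.σ c
      rw [hσ x (hη x h1), one_mul]
      exact S.cm.sgn β c h2
  · -- deg
    rintro ⟨x, β⟩ c hc
    have h1 : η x ≠ 0 := fun h0 => hc (by simp only [h0, zero_mul])
    have h2 : h β c ≠ 0 := fun h0 => hc (by simp only [h0, mul_zero])
    show X.g x + E.g β = D.g c
    rw [hη x h1, zero_add]
    exact S.deg β c h2
  · -- one
    intro b c
    rw [tsum X E (fun y => (ρ y.1 * r b y.2) * (η y.1 * h y.2 c)), ← S.one b c]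
    have : ∀ x, ∑ e, (ρ x * r b e) * (η x * h e c) = (ρ x * η x) * ∑ e, r b e * h e c := by
      intro x
      rw [mul_sum]
      exact sum_congr rfl fun e _ => by ring
    simp only [this]
    rw [← sum_mul, hρη, one_mul]
  · -- rs
    rintro b ⟨x, β⟩ hc
    have h1 : ρ x ≠ 0 := fun h0 => hc (by simp only [h0, zero_mul])
    have h2 : r b β ≠ 0 := fun h0 => hc (by simp only [h0, mul_zero])
    show D.σ b = X.σ x * E.σ β
    rw [hσ x (hρ x h1), one_mul]
    exact S.rs b β h2
  · -- rm
    rintro b ⟨y, β⟩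
    rw [col X E y β ρ (fun β => r b β), hσρ]
    have h1 : ∑ c, D.m b c * (ρ y * r c β) = ρ y * ∑ c, D.m b c * r c β := by
      rw [mul_sum]; exact sum_congr rfl fun c _ => by ring
    show (∑ x, ρ x * X.m x y) * r b β + ρ y * ∑ a, r b a * E.m a β -
      ∑ c, D.m b c * (ρ y * r c β) ∈ maximalIdeal R
    rw [h1]
    have h2 : (∑ x, ρ x * X.m x y) * r b β + ρ y * ∑ a, r b a * E.m a β -
        ρ y * ∑ c, D.m b c * r c β = (∑ x, ρ x * X.m x y) * r b β +
          ρ y * (∑ a, r b a * E.m a β - ∑ c, D.m b c * r c β) := by ring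
    rw [h2]
    exact Ideal.add_mem _ (Ideal.mul_mem_right _ _ (hρm y)) (Ideal.mul_mem_left _ _ (S.rm b β))
  · -- low
    rintro ⟨x, β⟩ c hc
    have hc' : ∑ γ, α (x, β) γ * a γ c ≠ 0 := fun h0 => hc (by
      show - ∑ γ, α (x, β) γ * a γ c = 0
      rw [h0, neg_zero])
    obtain ⟨γ, -, hγ⟩ := exists_ne_zero_of_sum_ne_zero hc'
    have h1 : α (x, β) γ ≠ 0 := fun h0 => hγ (by rw [h0, zero_mul])
    have h2 : a γ c ≠ 0 := fun h0 => hγ (by rw [h0, mul_zero])
    have h3 := hα1 x β γ h1
    have h4 := S.low γ c h2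
    show X.g x + E.g β = D.g c - 2 * ((j + 1 : ℕ) : ℤ)
    rw [h3, h4]
    push_cast
    ring
  · -- bd
    rintro ⟨x, β⟩
    obtain ⟨c, hc⟩ := S.bd β
    refine ⟨c, ?_⟩
    show D.g c ≤ X.g x + E.g β
    have := hX x
    omega
  · -- it
    intro u hu
    obtain ⟨h1, h2⟩ := S.it u hu
    obtain ⟨h3, h4⟩ := hα2 (mulV a u) h1
    have e1 : mulV (fun (xα : X.ι × E.ι) c => - ∑ β, α xα β * a β c) u =
        - mulV α (mulV a u) := by
      rw [mulV_mulV]
      funext xα
      simp [mulV]
    have e2 : mulV (fun (xα : X.ι × E.ι) c => η xα.1 * h xα.2 c)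
        (fun c => (χ ^ (j + 1)) (u c)) =
        fun xα : X.ι × E.ι => η xα.1 • χ (mulV h (fun c => (χ ^ j) (u c)) xα.2) := by
      funext xα
      have h5 : ∀ c, (χ ^ (j + 1)) (u c) = χ ((χ ^ j) (u c)) := fun c => by
        rw [pow_succ', Module.End.mul_apply]
      simp only [mulV, h5, map_sum, map_smul, smul_sum, mul_smul]
    refine ⟨?_, ?_⟩
    · have e1' : (mulV (fun (xα : X.ι × E.ι) c => - ∑ β, α xα β * a β c) u :
          (X.tensor E).ι → V) = -(mulV α (mulV a u) : (X.tensor E).ι → V) := e1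
      refine (congrArg ((X.tensor E).op A.d) e1').trans ?_
      rw [map_neg]
      exact neg_eq_zero.mpr h3
    · obtain ⟨v, hv⟩ := h2
      have h6 : mulV h (fun c => (χ ^ j) (u c)) = mulV a u + E.op A.d v := by
        have : mulV h (fun c => (χ ^ j) (u c)) - mulV a u = E.op A.d v := hv
        rw [← this]; abel
      let W : X.ι × E.ι → V := (X.tensor E).op A.d (fun xa : X.ι × E.ι => η xa.1 • χ (v xa.2))
      have hW : W = fun xa : X.ι × E.ι => η xa.1 • χ (E.op A.d v xa.2) :=
        eta_op A hχ X hX hσ η hη E v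
      have h7 : mulV (fun (xα : X.ι × E.ι) c => η xα.1 * h xα.2 c)
          (fun c => (χ ^ (j + 1)) (u c)) -
          mulV (fun (xα : X.ι × E.ι) c => - ∑ β, α xα β * a β c) u =
          (mulV α (mulV a u) + ∑ _l : Fin 1, fun xa : X.ι × E.ι =>
            η xa.1 • χ (mulV a u xa.2)) + W := by
        rw [e1, e2, hW, h6]
        funext xα
        simp only [Pi.sub_apply, Pi.neg_apply, Pi.add_apply, map_add, smul_add,
          univ_unique, sum_singleton]
        abel
      exact (congrArg (Bdy ((X.tensor E).dg A)) h7).mpr (h4.add ⟨_, rfl⟩)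

end

end ClaimA

variable {R : Type u} [CommRing R] [IsLocalRing R]

theorem claimA {V : Type u} [AddCommGroup V] [Module R V] (A : DG R V) (χ : V →ₗ[R] V)
    (hχ : Op2 A χ) (X : BC R) (hX : ∀ x, 0 ≤ X.g x) (hσ : ∀ x, X.g x = 0 → X.σ x = 1)
    (η : X.ι → R) (hη : ∀ x, η x ≠ 0 → X.g x = 0)
    (ρ : X.ι → R) (hρ : ∀ x, ρ x ≠ 0 → X.g x = 0) (hρη : ∑ x, ρ x * η x = 1)
    (hρm : ∀ y, ∑ x, ρ x * X.m x y ∈ maximalIdeal R)
    (star : Star A X 1 (fun _ => χ) (fun _ => η))
    (D : BC R) (t₀ : ℤ) (hsurj : ChiSurj A χ D t₀) :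
    ∃ (D'' : BC R) (φ : D.ι → D''.ι → R), Comps (maximalIdeal R) 0 D'' D φ ∧
      ∀ t, t₀ ≤ t → ∀ z : D.ι → V, D.op A.d z = 0 → D.pr A.p t z = z →
        ∃ z' : D''.ι → V, D''.op A.d z' = 0 ∧ D''.pr A.p (t + 1) z' = z' ∧
          Bdy (D.dg A) (z - mulV φ z') := by
  classical
  -- iterate the construction
  have hst : ∀ j : ℕ, ∃ (E : BC R) (h : E.ι → D.ι → R) (r : D.ι → E.ι → R)
      (a : E.ι → D.ι → R), ClaimA.Stage A χ D j E h r a := by
    intro j
    induction j with
    | zero => exact ⟨D, _, _, _, ClaimA.stage_zero A χ D⟩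
    | succ j ih =>
      obtain ⟨E, h, r, a, S⟩ := ih
      obtain ⟨a', S'⟩ := ClaimA.stage_succ hχ hX hσ hη hρ hρη hρm star S
      exact ⟨_, _, _, _, S'⟩
  -- a bound for the degrees of `D`
  obtain ⟨M, hM⟩ : ∃ M : ℕ, ∀ c c' : D.ι, D.g c - D.g c' < 2 * M := by
    obtain ⟨B, hB⟩ := (Set.finite_range fun x : D.ι × D.ι => D.g x.1 - D.g x.2).bddAbove
    refine ⟨(B + 1).toNat, fun c c' => ?_⟩
    have h1 := hB ⟨(c, c'), rfl⟩
    have h2 := Int.self_le_toNat (B + 1)
    simp only at h1
    omega
  obtain ⟨E, h, r, a, S⟩ := hst M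
  have ha : ∀ α c, a α c = 0 := by
    intro α c
    by_contra h1
    have h2 := S.low α c h1
    obtain ⟨c', hc'⟩ := S.bd α
    have h3 := hM c c'
    omega
  -- the matrix `r m_E - m_D r`
  let f : D.ι → E.ι → R := fun b β => ∑ α, r b α * E.m α β - ∑ c, D.m b c * r c β
  let D'' : BC R :=
    { ι := E.ι ⊕ D.ι
      fin := inferInstance
      dec := inferInstance
      g := Sum.elim E.g (fun c => D.g c + 1)
      σ := Sum.elim (fun α => - E.σ α) D.σ
      m := fun x y => Sum.elim (fun α => Sum.elim (fun β => - E.m α β) (fun c => - h α c) y)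
        (fun b => Sum.elim (fun _ => 0) (fun c => D.m b c) y) x
      pm := by
        rintro (α | b)
        · rcases E.pm α with h1 | h1
          · right; simp [h1]
          · left; simp [h1]
        · exact D.pm b
      deg := by
        rintro (α | b) (β | c) h1
        · exact E.deg α β (fun h2 => h1 (by simp [h2]))
        · have h2 : h α c ≠ 0 := fun h2 => h1 (by simp [h2])
          simp [S.deg α c h2]
        · exact absurd rfl h1
        · have := D.deg b c h1
          simp [this]
      sgn := by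
        rintro (α | b) (β | c) h1
        · have := E.sgn α β (fun h2 => h1 (by simp [h2]))
          simp [this]
        · have h2 : h α c ≠ 0 := fun h2 => h1 (by simp [h2])
          simp [S.cm.sgn α c h2]
        · exact absurd rfl h1
        · exact D.sgn b c h1
      sq := by
        rintro (α | b) (β | c)
        · rw [Fintype.sum_sum_type]
          simp [E.sq]
        · rw [Fintype.sum_sum_type]
          simp [S.cm.comm]
        · rw [Fintype.sum_sum_type]
          simp
        · rw [Fintype.sum_sum_type]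
          simp [D.sq] }
  let φ : D.ι → D''.ι → R := fun b => Sum.elim (fun α => f b α) (fun _ => 0)
  have hrh : ∀ b c, ∑ α, (∑ β, r b β * E.m β α) * h α c = D.m b c := by
    intro b c
    have h1 : ∑ α, (∑ β, r b β * E.m β α) * h α c = ∑ β, r b β * ∑ α, E.m β α * h α c := by
      simp only [sum_mul, mul_sum]
      rw [sum_comm]
      exact sum_congr rfl fun β _ => sum_congr rfl fun α _ => by ring
    rw [h1]
    simp only [S.cm.comm]
    have h2 : ∑ β, r b β * ∑ e, h β e * D.m e c = ∑ e, (∑ β, r b β * h β e) * D.m e c := by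
      simp only [sum_mul, mul_sum]
      rw [sum_comm]
      exact sum_congr rfl fun β _ => sum_congr rfl fun α _ => by ring
    rw [h2]
    simp [S.one]
  have hmrh : ∀ b c, ∑ α, (∑ e, D.m b e * r e α) * h α c = D.m b c := by
    intro b c
    have h1 : ∑ α, (∑ e, D.m b e * r e α) * h α c = ∑ e, D.m b e * ∑ α, r e α * h α c := by
      simp only [sum_mul, mul_sum]
      rw [sum_comm]
      exact sum_congr rfl fun β _ => sum_congr rfl fun α _ => by ring
    rw [h1]
    simp [S.one]
  have hφcm : CM D'' D φ := by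
    constructor
    · rintro b (γ | c)
      · show ∑ e, D.m b e * f e γ = ∑ x : E.ι ⊕ D.ι, φ b x * D''.m x (Sum.inl γ)
        rw [Fintype.sum_sum_type]
        show ∑ e, D.m b e * f e γ = ∑ α, f b α * (- E.m α γ) + ∑ c : D.ι, (0 : R) * 0
        have h1 : ∑ e, D.m b e * f e γ = ∑ e, D.m b e * ∑ α, r e α * E.m α γ := by
          simp only [f, mul_sub, sum_sub_distrib]
          have h2 : ∑ e, D.m b e * ∑ c, D.m e c * r c γ = 0 := by
            have h3 : ∑ e, D.m b e * ∑ c, D.m e c * r c γ =
                ∑ c, (∑ e, D.m b e * D.m e c) * r c γ := by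
              simp only [sum_mul, mul_sum]
              rw [sum_comm]
              exact sum_congr rfl fun β _ => sum_congr rfl fun α _ => by ring
            rw [h3]
            simp [D.sq]
          rw [h2, sub_zero]
        have h4 : ∑ α, f b α * (- E.m α γ) = ∑ e, D.m b e * ∑ α, r e α * E.m α γ := by
          simp only [f, sub_mul, mul_neg]
          have h5 : ∑ α, (∑ β, r b β * E.m β α) * E.m α γ = 0 := by
            have h6 : ∑ α, (∑ β, r b β * E.m β α) * E.m α γ =
                ∑ β, r b β * ∑ α, E.m β α * E.m α γ := by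
              simp only [sum_mul, mul_sum]
              rw [sum_comm]
              exact sum_congr rfl fun β _ => sum_congr rfl fun α _ => by ring
            rw [h6]
            simp [E.sq]
          have h7 : ∑ α, (∑ e, D.m b e * r e α) * E.m α γ =
              ∑ e, D.m b e * ∑ α, r e α * E.m α γ := by
            simp only [sum_mul, mul_sum]
            rw [sum_comm]
            exact sum_congr rfl fun β _ => sum_congr rfl fun α _ => by ring
          rw [sum_neg_distrib, sum_sub_distrib, h5, h7]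
          ring
        rw [h1, h4]
        simp
      · show ∑ e, D.m b e * (0 : R) = ∑ x : E.ι ⊕ D.ι, φ b x * D''.m x (Sum.inr c)
        rw [Fintype.sum_sum_type]
        show ∑ e, D.m b e * (0 : R) = ∑ α, f b α * (- h α c) + ∑ e : D.ι, (0 : R) * D.m e c
        have h4 : ∑ α, f b α * (- h α c) = 0 := by
          simp only [f, sub_mul, sum_sub_distrib, mul_neg, sum_neg_distrib]
          rw [hrh, hmrh]
          ring
        rw [h4]
        simp
    · rintro b (α | c) h1
      · show D.σ b = - E.σ α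
        have h2 : f b α ≠ 0 := h1
        have h3 : (∑ β, r b β * E.m β α) ≠ 0 ∨ (∑ c, D.m b c * r c α) ≠ 0 := by
          by_contra hcon
          push Not at hcon
          exact h2 (by simp only [f]; rw [hcon.1, hcon.2, sub_zero])
        rcases h3 with h3 | h3
        · obtain ⟨β, -, hβ⟩ := exists_ne_zero_of_sum_ne_zero h3
          have h4 : r b β ≠ 0 := fun h0 => hβ (by rw [h0, zero_mul])
          have h5 : E.m β α ≠ 0 := fun h0 => hβ (by rw [h0, mul_zero])
          rw [S.rs b β h4, E.sgn β α h5, neg_neg]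
        · obtain ⟨e, -, he⟩ := exists_ne_zero_of_sum_ne_zero h3
          have h4 : D.m b e ≠ 0 := fun h0 => he (by rw [h0, zero_mul])
          have h5 : r e α ≠ 0 := fun h0 => he (by rw [h0, mul_zero])
          have h6 := D.sgn b e h4
          have h7 := S.rs e α h5
          rw [h6] at h7
          rw [← h7, neg_neg]
      · exact absurd rfl h1
  refine ⟨D'', φ, ⟨hφcm, ?_⟩, ?_⟩
  · rintro b (α | c)
    · exact S.rm b α
    · exact Ideal.zero_mem _
  intro t ht z hz hzt
  -- `z ~ χ ^ j u`
  have hχj : ∀ j : ℕ, ∃ u : D.ι → V, D.op A.d u = 0 ∧ D.pr A.p (t + 2 * j) u = u ∧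
      Bdy (D.dg A) (z - fun c => (χ ^ j) (u c)) := by
    intro j
    induction j with
    | zero =>
      refine ⟨z, hz, by simpa using hzt, ?_⟩
      have : (z - fun c => (χ ^ 0) (z c)) = 0 := by
        funext c; simp
      rw [this]
      exact Bdy.zero
    | succ j ih =>
      obtain ⟨u, hu1, hu2, hu3⟩ := ih
      obtain ⟨u', h1, h2, v, hv⟩ := hsurj (t + 2 * j) (by omega) u hu1 hu2
      refine ⟨u', h1, ?_, ?_⟩
      · rw [show t + 2 * ((j + 1 : ℕ) : ℤ) = t + 2 * j + 2 by push_cast; ring]
        exact h2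
      · have h3 : (z - fun c => (χ ^ (j + 1)) (u' c)) =
            (z - fun c => (χ ^ j) (u c)) + fun c => (χ ^ j) (u c - χ (u' c)) := by
          funext c
          simp only [Pi.sub_apply, Pi.add_apply, map_sub, pow_succ, Module.End.mul_apply]
          abel
        rw [h3]
        refine hu3.add ⟨fun c => (χ ^ j) (v c), ?_⟩
        have h4 := D.op_map A.d A.d (χ ^ j) (ClaimA.pow_comm' hχ j) v
        show _ = D.op A.d (fun c => (χ ^ j) (v c))
        rw [h4]
        funext c
        have h5 := congrFun hv c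
        have h6 : u c - χ (u' c) = D.op A.d v c := h5
        rw [h6]
  obtain ⟨u, hu1, -, y, hy⟩ := hχj M
  have hau : mulV a u = 0 := by
    funext α
    simp [mulV, ha]
  -- `h z` is a boundary
  obtain ⟨v, hv⟩ : ∃ v, mulV h z = E.op A.d v := by
    obtain ⟨-, y', hy'⟩ := S.it u hu1
    rw [hau, sub_zero] at hy'
    refine ⟨mulV h y + y', ?_⟩
    rw [map_add, S.cm.op A.d y]
    have h1 : z = D.op A.d y + fun c => (χ ^ M) (u c) := by
      have : z - (fun c => (χ ^ M) (u c)) = D.op A.d y := hy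
      rw [← this]; abel
    have h2 : mulV h (fun c => (χ ^ M) (u c)) = E.op A.d y' := hy'
    conv_lhs => rw [h1]
    rw [mulV_add, h2]
  have hhz : E.pr A.p t (mulV h z) = mulV h z := by
    funext α
    rw [BC.pr_apply]
    simp only [mulV, map_sum, map_smul]
    refine sum_congr rfl fun c _ => ?_
    by_cases h1 : h α c = 0
    · rw [h1, zero_smul, zero_smul]
    · rw [S.deg α c h1]
      have := congrFun hzt c
      rw [BC.pr_apply] at this
      rw [this]
  let v' := E.pr A.p (t + 1) v
  have hv'1 : E.pr A.p (t + 1) v' = v' := (E.dg A).pp (t + 1) v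
  have hv'2 : E.op A.d v' = mulV h z := by
    have h1 := (E.dg A).dp (t + 1) v
    have h2 : E.op A.d v' = E.pr A.p (t + 1 - 1) (E.op A.d v) := h1
    rw [h2, ← hv, show t + 1 - 1 = t by ring, hhz]
  refine ⟨Sum.elim v' (fun c => - z c), ?_, ?_, ?_⟩
  · funext x
    rcases x with α | b
    · show D''.op A.d (Sum.elim v' (fun c => - z c)) (Sum.inl α) = 0
      rw [BC.op_apply]
      have h1 : ∑ y : D''.ι, D''.m (Sum.inl α) y • (Sum.elim v' (fun c => - z c) : D''.ι → V) y =
          ∑ β, (- E.m α β) • v' β + ∑ c, (- h α c) • (- z c) := Fintype.sum_sum_type _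
      rw [h1]
      show ∑ β, (- E.m α β) • v' β + ∑ c, (- h α c) • (- z c) + (- E.σ α) • A.d (v' α) = 0
      have h2 := congrFun hv'2 α
      rw [BC.op_apply] at h2
      have h3 : ∑ c, (- h α c) • (- z c) = mulV h z α := by
        simp [mulV]
      rw [h3, ← h2]
      simp only [neg_smul, sum_neg_distrib]
      abel
    · show D''.op A.d (Sum.elim v' (fun c => - z c)) (Sum.inr b) = 0
      rw [BC.op_apply]
      have h1 : ∑ y : D''.ι, D''.m (Sum.inr b) y • (Sum.elim v' (fun c => - z c) : D''.ι → V) y =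
          ∑ β : E.ι, (0 : R) • v' β + ∑ c, D.m b c • (- z c) := Fintype.sum_sum_type _
      rw [h1]
      show ∑ β : E.ι, (0 : R) • v' β + ∑ c, D.m b c • (- z c) + D.σ b • A.d (- z b) = 0
      have h2 := congrFun hz b
      rw [BC.op_apply, Pi.zero_apply] at h2
      simp only [zero_smul, sum_const_zero, zero_add, smul_neg, sum_neg_distrib, map_neg]
      rw [← neg_add, h2, neg_zero]
  · funext x
    rcases x with α | b
    · exact congrFun hv'1 α
    · show A.p (t + 1 - (D.g b + 1)) (- z b) = - z b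
      have := congrFun hzt b
      rw [BC.pr_apply] at this
      rw [map_neg, show t + 1 - (D.g b + 1) = t - D.g b by ring, this]
  · refine ⟨mulV r v', ?_⟩
    show z - mulV φ (Sum.elim v' (fun c => - z c)) = D.op A.d (mulV r v')
    have h1 : ∀ b, mulV φ (Sum.elim v' (fun c => - z c)) b = ∑ α, f b α • v' α := by
      intro b
      have h2 : mulV φ (Sum.elim v' (fun c => - z c)) b =
          ∑ α, f b α • v' α + ∑ c : D.ι, (0 : R) • (- z c) := Fintype.sum_sum_type _
      rw [h2]
      simp
    have h3 : z = mulV r (E.op A.d v') := by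
      rw [hv'2, mulV_mulV]
      funext b
      simp [mulV, S.one]
    funext b
    rw [Pi.sub_apply, h1]
    have h4 : z b = ∑ α, r b α • (∑ β, E.m α β • v' β + E.σ α • A.d (v' α)) := congrFun h3 b
    rw [h4, BC.op_apply]
    simp only [f, sub_smul, sum_sub_distrib, smul_add, sum_add_distrib, mulV, smul_sum, sum_smul,
      mul_smul, map_sum, map_smul]
    have h5 : ∑ β, ∑ α, r b α • E.m α β • v' β = ∑ α, ∑ β, r b α • E.m α β • v' β := sum_comm
    have h6 : ∑ β, ∑ c, D.m b c • r c β • v' β = ∑ c, ∑ β, D.m b c • r c β • v' β := sum_comm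
    have h7 : ∑ α, D.σ b • r b α • A.d (v' α) = ∑ α, r b α • E.σ α • A.d (v' α) := by
      refine sum_congr rfl fun α _ => ?_
      by_cases h8 : r b α = 0
      · simp [h8]
      · rw [S.rs b α h8, smul_comm]
    rw [h5, h6, h7]
    abel

end Pool.Agent.CN
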