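import Pool.Agent.CN.Defs

/-!
# Claim B: compositions of many chain maps with entries in the maximal ideal are zero
-/

universe u

namespace Pool.Agent.CN

open Finset IsLocalRing

variable {R : Type u} [CommRing R]

namespace ClaimB

/-- the cone of multiplication by `y` -/
def cone (D : BC R) (y : R) : BC R where
  ι := D.ι ⊕ D.ι
  fin := inferInstance
  dec := inferInstance
  g := Sum.elim D.g (fun a => D.g a + 1)
  σ := Sum.elim D.σ (fun a => - D.σ a)
  m a b := Sum.elim (fun a => Sum.elim (fun b => D.m a b) (fun b => if a = b then y else 0) b)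
    (fun a => Sum.elim (fun _ => 0) (fun b => - D.m a b) b) a
  pm := by
    rintro (a | a)
    · exact D.pm a
    · rcases D.pm a with h | h
      · right
        simp [h]
      · left
        simp [h]
  deg := by
    rintro (a | a) (b | b) h
    · exact D.deg a b h
    · have h1 : a = b := by
        by_contra h1
        exact h (by simp [h1])
      subst h1
      rfl
    · exact absurd rfl h
    · have h1 : D.m a b ≠ 0 := fun h1 => h (by simp [h1])
      change D.g b + 1 = D.g a + 1 + 1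
      rw [D.deg a b h1]
  sgn := by
    rintro (a | a) (b | b) h
    · exact D.sgn a b h
    · have h1 : a = b := by
        by_contra h1
        exact h (by simp [h1])
      subst h1
      rfl
    · exact absurd rfl h
    · have h1 : D.m a b ≠ 0 := fun h1 => h (by simp [h1])
      change - D.σ b = - - D.σ a
      rw [D.sgn a b h1]
  sq := by
    rintro (a | a) (c | c)
    · rw [Fintype.sum_sum_type]
      simp only [Sum.elim_inl, Sum.elim_inr, mul_zero, sum_const_zero, add_zero]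
      exact D.sq a c
    · rw [Fintype.sum_sum_type]
      simp only [Sum.elim_inl, Sum.elim_inr, mul_ite, mul_zero, ite_mul, zero_mul, sum_ite_eq,
        sum_ite_eq', mem_univ, if_true]
      ring
    · rw [Fintype.sum_sum_type]
      simp
    · rw [Fintype.sum_sum_type]
      simp only [Sum.elim_inl, Sum.elim_inr, zero_mul, sum_const_zero, zero_add, neg_mul_neg]
      exact D.sq a c

variable {V : Type u} [AddCommGroup V] [Module R V]

lemma op_inl (D : BC R) (y : R) (d : V →ₗ[R] V) (z : D.ι ⊕ D.ι → V) (a : D.ι) :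
    (cone D y).op d z (Sum.inl a) = D.op d (fun a => z (Sum.inl a)) a + y • z (Sum.inr a) := by
  have h : (cone D y).op d z (Sum.inl a) =
    ∑ b : D.ι ⊕ D.ι, (cone D y).m (Sum.inl a) b • z b + D.σ a • d (z (Sum.inl a)) := rfl
  rw [h, Fintype.sum_sum_type, BC.op_apply]
  have h1 : ∑ b : D.ι, (cone D y).m (Sum.inl a) (Sum.inr b) • z (Sum.inr b) =
      y • z (Sum.inr a) := by
    rw [sum_eq_single a]
    · change (if a = a then y else 0) • _ = _
      rw [if_pos rfl]
    · intro b _ hb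
      change (if a = b then y else 0) • _ = _
      rw [if_neg (Ne.symm hb), zero_smul]
    · simp
  rw [h1]
  change (∑ b : D.ι, D.m a b • z (Sum.inl b) + y • z (Sum.inr a)) + _ = _
  abel

lemma op_inr (D : BC R) (y : R) (d : V →ₗ[R] V) (z : D.ι ⊕ D.ι → V) (a : D.ι) :
    (cone D y).op d z (Sum.inr a) = - D.op d (fun a => z (Sum.inr a)) a := by
  have h : (cone D y).op d z (Sum.inr a) =
    ∑ b : D.ι ⊕ D.ι, (cone D y).m (Sum.inr a) b • z b + (- D.σ a) • d (z (Sum.inr a)) := rfl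
  rw [h, Fintype.sum_sum_type, BC.op_apply]
  have h1 : ∑ b : D.ι, (cone D y).m (Sum.inr a) (Sum.inl b) • z (Sum.inl b) = 0 := by
    refine sum_eq_zero fun b _ => ?_
    change (0 : R) • _ = _
    rw [zero_smul]
  have h2 : ∑ b : D.ι, (cone D y).m (Sum.inr a) (Sum.inr b) • z (Sum.inr b) =
      - ∑ b : D.ι, D.m a b • z (Sum.inr b) := by
    rw [← sum_neg_distrib]
    refine sum_congr rfl fun b _ => ?_
    change (- D.m a b) • _ = _
    rw [neg_smul]
  rw [h1, h2, zero_add, neg_smul, neg_add]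

/-- (1): a boundary of the cone with second component zero is a boundary -/
lemma bdy_of_cone {A : DG R V} {y : R} {τ : V →ₗ[R] V}
    (hτ : ∀ v, A.d (τ v) + τ (A.d v) = y • v) {D : BC R} {z : D.ι → V}
    (h : Bdy ((cone D y).dg A) (Sum.elim z (fun _ => 0) : D.ι ⊕ D.ι → V)) :
    Bdy (D.dg A) z := by
  obtain ⟨w, hw⟩ := h
  have hw' : ∀ x : D.ι ⊕ D.ι, (Sum.elim z (fun _ => 0) : D.ι ⊕ D.ι → V) x =
    (cone D y).op A.d w x := fun x => congrFun hw x
  have h1 : ∀ a, z a = D.op A.d (fun a => w (Sum.inl a)) a + y • w (Sum.inr a) := by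
    intro a
    have := hw' (Sum.inl a)
    rw [op_inl] at this
    exact this
  have h2 : D.op A.d (fun a => w (Sum.inr a)) = 0 := by
    funext a
    have := hw' (Sum.inr a)
    rw [op_inr] at this
    have h3 : (0 : V) = - D.op A.d (fun a => w (Sum.inr a)) a := this
    rw [Pi.zero_apply]
    exact neg_eq_zero.1 h3.symm
  refine ⟨fun a => w (Sum.inl a) + D.σ a • τ (w (Sum.inr a)), ?_⟩
  have h4 : (fun a => w (Sum.inl a) + D.σ a • τ (w (Sum.inr a))) =
    (fun a => w (Sum.inl a)) + (fun a => D.σ a • τ (w (Sum.inr a))) := rfl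
  rw [h4, BC.dg_d, map_add]
  funext a
  rw [Pi.add_apply, h1 a]
  congr 1
  rw [BC.op_apply, map_zsmul, D.σσ_smul]
  have h5 : ∀ b, D.m a b • D.σ b • τ (w (Sum.inr b)) =
    - (D.σ a • D.m a b • τ (w (Sum.inr b))) := fun b => D.σmm a b _
  simp only [h5]
  rw [sum_neg_distrib, ← smul_sum]
  have h6 := congrFun h2 a
  rw [BC.op_apply, Pi.zero_apply] at h6
  have h7 := congrArg (fun v => D.σ a • τ v) h6
  simp only [map_add, map_sum, map_smul, map_zsmul, map_zero, smul_zero, smul_add,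
    D.σσ_smul] at h7
  have h8 : D.σ a • ∑ b, D.m a b • τ (w (Sum.inr b)) = - τ (A.d (w (Sum.inr a))) :=
    eq_neg_of_add_eq_zero_left h7
  rw [h8, neg_neg, add_comm, hτ]

/-- two copies of a matrix -/
def dbl {α β : Type} (φ : α → β → R) : α ⊕ α → β ⊕ β → R := fun a b =>
  Sum.elim (fun a => Sum.elim (fun b => φ a b) (fun _ => 0) b)
    (fun a => Sum.elim (fun _ => 0) (fun b => φ a b) b) a

lemma dbl_mulV {α β : Type} [Fintype β] (φ : α → β → R) (w : β ⊕ β → V) :
    mulV (dbl φ) w = Sum.elim (mulV φ fun b => w (Sum.inl b)) (mulV φ fun b => w (Sum.inr b)) := by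
  funext a
  rcases a with a | a
  · simp [mulV, dbl, Fintype.sum_sum_type]
  · simp [mulV, dbl, Fintype.sum_sum_type]

lemma dbl_comp {α β γ : Type} [Fintype β] (φ : α → β → R) (ψ : β → γ → R) :
    dbl (fun a c => ∑ b, φ a b * ψ b c) = fun a c => ∑ b, dbl φ a b * dbl ψ b c := by
  funext a c
  rcases a with a | a <;> rcases c with c | c <;> simp [dbl, Fintype.sum_sum_type]

lemma dbl_cm {D' D : BC R} {φ : D.ι → D'.ι → R} (h : CM D' D φ) (y : R) :
    CM (cone D' y) (cone D y) (dbl φ) where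
  comm := by
    rintro (a | a) (c | c)
    · have := h.comm a c
      change ∑ b : D.ι ⊕ D.ι, _ = ∑ b : D'.ι ⊕ D'.ι, _
      rw [Fintype.sum_sum_type, Fintype.sum_sum_type]
      simpa [cone, dbl] using this
    · change ∑ b : D.ι ⊕ D.ι, _ = ∑ b : D'.ι ⊕ D'.ι, _
      rw [Fintype.sum_sum_type, Fintype.sum_sum_type]
      simp [cone, dbl, mul_comm]
    · change ∑ b : D.ι ⊕ D.ι, _ = ∑ b : D'.ι ⊕ D'.ι, _
      rw [Fintype.sum_sum_type, Fintype.sum_sum_type]
      simp [cone, dbl]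
    · have := h.comm a c
      change ∑ b : D.ι ⊕ D.ι, _ = ∑ b : D'.ι ⊕ D'.ι, _
      rw [Fintype.sum_sum_type, Fintype.sum_sum_type]
      simpa [cone, dbl] using this
  sgn := by
    rintro (a | a) (b | b) hab
    · exact h.sgn a b hab
    · exact absurd rfl hab
    · exact absurd rfl hab
    · have := h.sgn a b hab
      change - D.σ a = - D'.σ b
      rw [this]

/-- the homotopy property -/
def Hpy (A : DG R V) (y : R) (D' D : BC R) (φ : D.ι → D'.ι → R)
    (φh : D.ι ⊕ D.ι → D'.ι ⊕ D'.ι → R) : Prop :=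
  ∀ w : D'.ι ⊕ D'.ι → V, (cone D' y).op A.d w = 0 →
    Bdy ((cone D y).dg A) (mulV (dbl φ) w - mulV φh w : D.ι ⊕ D.ι → V)

lemma Hpy.comp {A : DG R V} {y : R} {D'' D' D : BC R} {φ₁ : D.ι → D'.ι → R}
    {φ₂ : D'.ι → D''.ι → R} {ψ₁ : D.ι ⊕ D.ι → D'.ι ⊕ D'.ι → R}
    {ψ₂ : D'.ι ⊕ D'.ι → D''.ι ⊕ D''.ι → R} (hφ₂ : CM D'' D' φ₂)
    (hψ₁ : CM (cone D' y) (cone D y) ψ₁) (h1 : Hpy A y D' D φ₁ ψ₁) (h2 : Hpy A y D'' D' φ₂ ψ₂) :
    Hpy A y D'' D (fun a c => ∑ b, φ₁ a b * φ₂ b c) (fun a c => ∑ b, ψ₁ a b * ψ₂ b c) := by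
  intro w hw
  rw [dbl_comp, ← mulV_mulV, ← mulV_mulV]
  have e : mulV (dbl φ₁) (mulV (dbl φ₂) w) - mulV ψ₁ (mulV ψ₂ w) =
    (mulV (dbl φ₁) (mulV (dbl φ₂) w) - mulV ψ₁ (mulV (dbl φ₂) w)) +
      mulV ψ₁ (mulV (dbl φ₂) w - mulV ψ₂ w) := by
    rw [mulV_sub]
    abel
  rw [e]
  refine Bdy.add (h1 _ ?_) (hψ₁.bdy A (h2 w hw))
  have h3 := (dbl_cm hφ₂ y).op A.d w
  rw [hw] at h3
  refine h3.trans ?_
  exact mulV_zero _

/-- the corrected double of a chain map with entries in `J + (y)` -/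
lemma exists_hat {A : DG R V} {J : Ideal R} {y : R} {D' D : BC R} {φ : D.ι → D'.ι → R}
    (h : CM D' D φ) (hJ : ∀ a b, φ a b ∈ J ⊔ Ideal.span {y}) :
    ∃ ψ : D.ι ⊕ D.ι → D'.ι ⊕ D'.ι → R, CM (cone D' y) (cone D y) ψ ∧ Hpy A y D' D φ ψ ∧
      (∀ a b, ψ (Sum.inl a) (Sum.inl b) ∈ J) ∧ (∀ a b, ψ (Sum.inl a) (Sum.inr b) = 0) ∧
      (∀ a b, ψ (Sum.inr a) (Sum.inr b) ∈ J) := by
  classical
  have h1 : ∀ a b, ∃ c s : R, c ∈ J ∧ φ a b = c + y * s ∧ (φ a b = 0 → c = 0 ∧ s = 0) := by
    intro a b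
    by_cases h0 : φ a b = 0
    · exact ⟨0, 0, J.zero_mem, by simp [h0], fun _ => ⟨rfl, rfl⟩⟩
    · obtain ⟨c, hc, d, hd, hcd⟩ := Submodule.mem_sup.1 (hJ a b)
      obtain ⟨s, rfl⟩ := Ideal.mem_span_singleton'.1 hd
      exact ⟨c, s, hc, by rw [← hcd, mul_comm], fun h => absurd h h0⟩
  choose c s hc hcs h0 using h1
  let ω : D.ι → D'.ι → R := fun a b => ∑ e, D.m a e * s e b - ∑ e, s a e * D'.m e b
  have hω : ∀ a b, ∑ e, D.m a e * c e b + y * ω a b = ∑ e, c a e * D'.m e b := by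
    intro a b
    have h2 := h.comm a b
    simp only [hcs, mul_add, add_mul, sum_add_distrib] at h2
    have h3 : ∑ e, D.m a e * (y * s e b) = y * ∑ e, D.m a e * s e b := by
      rw [mul_sum]; exact sum_congr rfl fun e _ => by ring
    have h4 : ∑ e, y * s a e * D'.m e b = y * ∑ e, s a e * D'.m e b := by
      rw [mul_sum]; exact sum_congr rfl fun e _ => by ring
    rw [h3, h4] at h2
    change _ + y * (_ - _) = _
    linear_combination h2
  have hmω : ∀ a b, ∑ e, D.m a e * ω e b = - ∑ e, ω a e * D'.m e b := by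
    intro a b
    have h2 : ∀ e, D.m a e * ω e b = ∑ f, D.m a e * (D.m e f * s f b) -
      ∑ f, D.m a e * (s e f * D'.m f b) := by
      intro e
      change _ * (_ - _) = _
      rw [mul_sub, mul_sum, mul_sum]
    have h3 : ∀ e, ω a e * D'.m e b = ∑ f, (D.m a f * s f e) * D'.m e b -
      ∑ f, (s a f * D'.m f e) * D'.m e b := by
      intro e
      change (_ - _) * _ = _
      rw [sub_mul, sum_mul, sum_mul]
    simp only [h2, h3, sum_sub_distrib]
    have h4 : ∑ e, ∑ f, D.m a e * (D.m e f * s f b) = 0 := by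
      rw [sum_comm]
      refine sum_eq_zero fun f _ => ?_
      have : ∀ e, D.m a e * (D.m e f * s f b) = (D.m a e * D.m e f) * s f b := fun e => by ring
      simp only [this]
      rw [← sum_mul, D.sq, zero_mul]
    have h5 : ∑ e, ∑ f, (s a f * D'.m f e) * D'.m e b = 0 := by
      rw [sum_comm]
      refine sum_eq_zero fun f _ => ?_
      have : ∀ e, (s a f * D'.m f e) * D'.m e b = s a f * (D'.m f e * D'.m e b) :=
        fun e => by ring
      simp only [this]
      rw [← mul_sum, D'.sq, mul_zero]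
    rw [h4, h5, zero_sub, sub_zero, sum_comm]
    congr 1
    exact sum_congr rfl fun e _ => sum_congr rfl fun f _ => by ring
  have hcsgn : ∀ a b, c a b ≠ 0 → D.σ a = D'.σ b := fun a b hab =>
    h.sgn a b fun h2 => hab (h0 a b h2).1
  have hssgn : ∀ a b, s a b ≠ 0 → D.σ a = D'.σ b := fun a b hab =>
    h.sgn a b fun h2 => hab (h0 a b h2).2
  have hωsgn : ∀ a b, ω a b ≠ 0 → - D.σ a = D'.σ b := by
    intro a b hab
    by_cases h2 : ∑ e, D.m a e * s e b = 0
    · have h3 : ∑ e, s a e * D'.m e b ≠ 0 := fun h3 => hab (by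
        change _ - _ = _
        rw [h2, h3, sub_zero])
      obtain ⟨e, -, he⟩ := exists_ne_zero_of_sum_ne_zero h3
      rw [hssgn a e (left_ne_zero_of_mul he), D'.sgn e b (right_ne_zero_of_mul he)]
    · obtain ⟨e, -, he⟩ := exists_ne_zero_of_sum_ne_zero h2
      rw [← D.sgn a e (left_ne_zero_of_mul he), hssgn e b (right_ne_zero_of_mul he)]
  let ψ : D.ι ⊕ D.ι → D'.ι ⊕ D'.ι → R := fun a b =>
    Sum.elim (fun a => Sum.elim (fun b => c a b) (fun _ => 0) b)
      (fun a => Sum.elim (fun b => ω a b) (fun b => c a b) b) a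
  refine ⟨ψ, ⟨?_, ?_⟩, ?_, fun a b => hc a b, fun a b => rfl, fun a b => hc a b⟩
  · rintro (a | a) (b | b)
    · change ∑ b : D.ι ⊕ D.ι, _ = ∑ b : D'.ι ⊕ D'.ι, _
      rw [Fintype.sum_sum_type, Fintype.sum_sum_type]
      have := hω a b
      simpa [cone, ψ] using this
    · change ∑ b : D.ι ⊕ D.ι, _ = ∑ b : D'.ι ⊕ D'.ι, _
      rw [Fintype.sum_sum_type, Fintype.sum_sum_type]
      simp [cone, ψ, mul_comm]
    · change ∑ b : D.ι ⊕ D.ι, _ = ∑ b : D'.ι ⊕ D'.ι, _
      rw [Fintype.sum_sum_type, Fintype.sum_sum_type]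
      have := hmω a b
      simp [cone, ψ, this]
    · change ∑ b : D.ι ⊕ D.ι, _ = ∑ b : D'.ι ⊕ D'.ι, _
      rw [Fintype.sum_sum_type, Fintype.sum_sum_type]
      have := hω a b
      simp only [cone, ψ, Sum.elim_inl, Sum.elim_inr, sum_const_zero, zero_add,
        neg_mul, sum_neg_distrib, mul_neg, mul_ite, mul_zero, sum_ite_eq', mem_univ, if_true]
      linear_combination -this
  · rintro (a | a) (b | b) hab
    · exact hcsgn a b hab
    · exact absurd rfl hab
    · exact hωsgn a b hab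
    · have := hcsgn a b hab
      change - D.σ a = - D'.σ b
      rw [this]
  · intro w hw
    refine ⟨(Sum.elim (fun _ => 0) (mulV s fun b => w (Sum.inl b)) : D.ι ⊕ D.ι → V), ?_⟩
    have hw1 : ∀ b, D'.op A.d (fun b => w (Sum.inl b)) b = - (y • w (Sum.inr b)) := by
      intro b
      have h2 := congrFun hw (Sum.inl b)
      rw [op_inl] at h2
      exact eq_neg_of_add_eq_zero_left h2
    rw [dbl_mulV]
    funext a
    rw [Pi.sub_apply, BC.dg_d]
    rcases a with a | a
    · rw [op_inl]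
      have h2 : (fun a => (Sum.elim (fun _ => 0) (mulV s fun b => w (Sum.inl b)) :
        D.ι ⊕ D.ι → V) (Sum.inl a)) = 0 := rfl
      rw [h2, map_zero, Pi.zero_apply, zero_add]
      simp only [mulV, Sum.elim_inl, Sum.elim_inr, Fintype.sum_sum_type, ψ, zero_smul,
        sum_const_zero, add_zero]
      rw [← sum_sub_distrib, smul_sum]
      refine sum_congr rfl fun b _ => ?_
      rw [hcs a b, add_smul, add_sub_cancel_left, mul_smul]
    · rw [op_inr]
      have h2 : (fun a => (Sum.elim (fun _ => 0) (mulV s fun b => w (Sum.inl b)) :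
        D.ι ⊕ D.ι → V) (Sum.inr a)) = mulV s fun b => w (Sum.inl b) := rfl
      rw [h2, BC.op_apply]
      have h3 : ∑ b, D.m a b • mulV s (fun b => w (Sum.inl b)) b =
          ∑ b, (∑ e, D.m a e * s e b) • w (Sum.inl b) := by
        simp only [mulV, smul_sum, sum_smul, mul_smul]
        rw [sum_comm]
      have h4 : D.σ a • A.d (mulV s (fun b => w (Sum.inl b)) a) =
          ∑ b, s a b • D'.σ b • A.d (w (Sum.inl b)) := by
        simp only [mulV, map_sum, map_smul, smul_sum]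
        refine sum_congr rfl fun b _ => ?_
        by_cases h5 : s a b = 0
        · simp [h5]
        · rw [hssgn a b h5, smul_comm]
      have h5 : ∑ b, s a b • D'.op A.d (fun b => w (Sum.inl b)) b =
          ∑ b, (∑ e, s a e * D'.m e b) • w (Sum.inl b) +
            ∑ b, s a b • D'.σ b • A.d (w (Sum.inl b)) := by
        simp only [BC.op_apply, smul_add, sum_add_distrib, smul_sum, sum_smul, mul_smul]
        rw [sum_comm]
      simp only [hw1] at h5
      rw [h3, h4]
      simp only [mulV, Sum.elim_inl, Sum.elim_inr, Fintype.sum_sum_type, ψ]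
      have h6 : ∑ b, φ a b • w (Sum.inr b) = ∑ b, c a b • w (Sum.inr b) +
          ∑ b, s a b • y • w (Sum.inr b) := by
        rw [← sum_add_distrib]
        refine sum_congr rfl fun b _ => ?_
        rw [hcs a b, add_smul, mul_comm, mul_smul]
      have h7 : ∑ b, ω a b • w (Sum.inl b) = ∑ b, (∑ e, D.m a e * s e b) • w (Sum.inl b) -
          ∑ b, (∑ e, s a e * D'.m e b) • w (Sum.inl b) := by
        rw [← sum_sub_distrib]
        refine sum_congr rfl fun b _ => ?_
        rw [← sub_smul]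
      have h8 : ∑ b, s a b • -(y • w (Sum.inr b)) = - ∑ b, s a b • y • w (Sum.inr b) := by
        rw [← sum_neg_distrib]
        exact sum_congr rfl fun b _ => smul_neg _ _
      rw [h8] at h5
      rw [h6, h7]
      have h9 : ∑ b, s a b • D'.σ b • A.d (w (Sum.inl b)) =
        - ∑ b, s a b • y • w (Sum.inr b) - ∑ b, (∑ e, s a e * D'.m e b) • w (Sum.inl b) := by
        rw [h5]
        abel
      rw [h9]
      abel

/-- (3) -/
lemma exists_comps {A : DG R V} {J : Ideal R} {y : R} (n : ℕ) {D' D : BC R}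
    {φ : D.ι → D'.ι → R} (h : Comps (J ⊔ Ideal.span {y}) (n + 1) D' D φ) :
    ∃ ψ : D.ι ⊕ D.ι → D'.ι ⊕ D'.ι → R, Comps J n (cone D' y) (cone D y) ψ ∧
      Hpy A y D' D φ ψ := by
  induction n generalizing D' D φ with
  | zero =>
    obtain ⟨D₁, φ₁, φ₂, h1, h2, rfl⟩ := h
    obtain ⟨ψ₁, c1, p1, q1, r1, s1⟩ := exists_hat (A := A) h1.1 h1.2
    obtain ⟨ψ₂, c2, p2, q2, r2, s2⟩ := exists_hat (A := A) h2.1 h2.2
    refine ⟨fun a c => ∑ b, ψ₁ a b * ψ₂ b c, ⟨c1.comp c2, ?_⟩, p1.comp h2.1 c1 p2⟩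
    rintro (a | a) (c | c)
    · change ∑ b : D₁.ι ⊕ D₁.ι, _ ∈ J
      rw [Fintype.sum_sum_type]
      refine J.add_mem (J.sum_mem fun b _ => J.mul_mem_left _ (q2 _ _))
        (J.sum_mem fun b _ => ?_)
      rw [r1, zero_mul]
      exact J.zero_mem
    · change ∑ b : D₁.ι ⊕ D₁.ι, _ ∈ J
      rw [Fintype.sum_sum_type]
      refine J.add_mem (J.sum_mem fun b _ => ?_) (J.sum_mem fun b _ => ?_)
      · rw [r2, mul_zero]
        exact J.zero_mem
      · rw [r1, zero_mul]
        exact J.zero_mem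
    · change ∑ b : D₁.ι ⊕ D₁.ι, _ ∈ J
      rw [Fintype.sum_sum_type]
      exact J.add_mem (J.sum_mem fun b _ => J.mul_mem_left _ (q2 _ _))
        (J.sum_mem fun b _ => J.mul_mem_right _ (s1 _ _))
    · change ∑ b : D₁.ι ⊕ D₁.ι, _ ∈ J
      rw [Fintype.sum_sum_type]
      exact J.add_mem (J.sum_mem fun b _ => by rw [r2, mul_zero]; exact J.zero_mem)
        (J.sum_mem fun b _ => J.mul_mem_left _ (s2 _ _))
  | succ n ih =>
    obtain ⟨D₁, φ₁, φ₂, h1, h2, rfl⟩ := h
    obtain ⟨ψ₁, c1, p1⟩ := ih h1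
    obtain ⟨ψ₂, c2, p2⟩ := ih h2
    exact ⟨fun a c => ∑ b, ψ₁ a b * ψ₂ b c, ⟨cone D₁ y, ψ₁, ψ₂, c1, c2, rfl⟩,
      p1.comp h2.cm c1.cm p2⟩

end ClaimB

/-- If every `x i` acts by zero up to homotopy on `V`, a composition of `2 ^ e` chain maps with
entries in `(x 0, …, x (e-1))` is zero on the homology of `D' ⊗ V`. -/
theorem claimB {V : Type u} [AddCommGroup V] [Module R V] (A : DG R V) (e : ℕ) (x : Fin e → R)
    (hτ : ∀ i, ∃ τ : V →ₗ[R] V, ∀ v, A.d (τ v) + τ (A.d v) = x i • v)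
    {D' D : BC R} {φ : D.ι → D'.ι → R} (h : Comps (Ideal.span (Set.range x)) e D' D φ)
    (z : D'.ι → V) (hz : D'.op A.d z = 0) : Bdy (D.dg A) (mulV φ z) := by
  induction e generalizing D' D with
  | zero =>
    have h1 : Ideal.span (Set.range x) = ⊥ := by
      rw [Set.range_eq_empty, Ideal.span_empty]
    have h2 : mulV φ z = 0 := by
      funext a
      change ∑ b, φ a b • z b = 0
      refine sum_eq_zero fun b _ => ?_
      have := h.2 a b
      rw [h1, Ideal.mem_bot] at this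
      rw [this, zero_smul]
    rw [h2]
    exact Bdy.zero
  | succ e ih =>
    set y := x (Fin.last e) with hy
    have hspan : Ideal.span (Set.range x) =
        Ideal.span (Set.range (fun i : Fin e => x i.castSucc)) ⊔ Ideal.span {y} := by
      rw [← Ideal.span_union]
      congr 1
      ext r
      simp only [Set.mem_range, Set.mem_union, Set.mem_singleton_iff]
      constructor
      · rintro ⟨i, rfl⟩
        refine Fin.lastCases ?_ (fun i => ?_) i
        · exact Or.inr rfl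
        · exact Or.inl ⟨i, rfl⟩
      · rintro (⟨i, rfl⟩ | rfl)
        · exact ⟨_, rfl⟩
        · exact ⟨_, rfl⟩
    rw [hspan] at h
    obtain ⟨ψ, c, p⟩ := ClaimB.exists_comps (A := A) e h
    obtain ⟨τ, hτ'⟩ := hτ (Fin.last e)
    refine ClaimB.bdy_of_cone hτ' ?_
    have hw : (ClaimB.cone D' y).op A.d (Sum.elim z (fun _ => 0) : D'.ι ⊕ D'.ι → V) = 0 := by
      funext a
      rcases a with a | a
      · rw [ClaimB.op_inl]
        change D'.op A.d z a + y • (0 : V) = 0
        rw [hz, smul_zero, add_zero]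
        rfl
      · rw [ClaimB.op_inr]
        change - D'.op A.d 0 a = 0
        rw [map_zero, Pi.zero_apply, neg_zero]
    have h1 := p _ hw
    have h2 := ih (fun i : Fin e => x i.castSucc) (fun i => hτ i.castSucc) c _ hw
    have h3 : Bdy ((ClaimB.cone D y).dg A) (mulV (ClaimB.dbl φ)
        (Sum.elim z (fun _ => 0) : D'.ι ⊕ D'.ι → V) : D.ι ⊕ D.ι → V) := by
      obtain ⟨v1, hv1⟩ := h1
      obtain ⟨v2, hv2⟩ := h2
      refine ⟨v1 + v2, ?_⟩
      rw [map_add, ← hv1, ← hv2]
      exact (sub_add_cancel _ _).symm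
    rw [ClaimB.dbl_mulV] at h3
    convert h3 using 1
    funext a
    rcases a with a | a
    · rfl
    · change (0 : V) = mulV φ (fun _ => 0) a
      have := mulV_zero (V := V) φ
      exact (congrFun this a).symm

end Pool.Agent.CN
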