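import Pool.Agent.CN.Defs

/-!
# Killing `η 0, …, η (r-1)`: the star property for the last operator alone
-/

universe u

namespace Pool.Agent.CN

open Finset IsLocalRing

variable {R : Type u} [CommRing R]

/-- `X` with extra basis elements of degree `1` mapping to the `η l` -/
def BC.addCols (X : BC R) (hX : ∀ x, 0 ≤ X.g x) (hσ : ∀ x, X.g x = 0 → X.σ x = 1) (r : ℕ)
    (η : Fin r → X.ι → R) (hη : ∀ l x, η l x ≠ 0 → X.g x = 0) : BC R where
  ι := X.ι ⊕ Fin r
  fin := inferInstance
  dec := inferInstance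
  g := Sum.elim X.g (fun _ => 1)
  σ := Sum.elim X.σ (fun _ => -1)
  m x y := match x, y with
    | Sum.inl x, Sum.inl y => X.m x y
    | Sum.inl x, Sum.inr l => η l x
    | Sum.inr _, _ => 0
  pm x := by
    rcases x with x | l
    · exact X.pm x
    · exact Or.inr rfl
  deg := by
    rintro (x | l) (y | l') h
    · exact X.deg x y h
    · simp only [Sum.elim_inl, Sum.elim_inr]
      rw [hη l' x h]; rfl
    · exact absurd rfl h
    · exact absurd rfl h
  sgn := by
    rintro (x | l) (y | l') h
    · exact X.sgn x y h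
    · simp only [Sum.elim_inl, Sum.elim_inr]
      rw [hσ x (hη l' x h)]
    · exact absurd rfl h
    · exact absurd rfl h
  sq := by
    rintro (x | l) (y | l')
    · rw [Fintype.sum_sum_type]
      simp [X.sq]
    · rw [Fintype.sum_sum_type]
      simp only [mul_zero, sum_const_zero, add_zero]
      refine sum_eq_zero fun y _ => ?_
      by_cases h1 : X.m x y = 0
      · rw [h1, zero_mul]
      · have h2 := X.deg x y h1
        have h3 : η l' y = 0 := by
          by_contra h3
          have h4 := hη l' y h3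
          have h5 := hX x
          omega
        rw [h3, mul_zero]
    · simp
    · simp

namespace StarColsA

variable {V : Type u} [AddCommGroup V] [Module R V]

/-- a vector over `X'` from a vector over `X` and `r` vectors -/
def glue {ι κ : Type} {r : ℕ} (w : ι × κ → V) (u : Fin r → κ → V) : (ι ⊕ Fin r) × κ → V
  | (Sum.inl x, a) => w (x, a)
  | (Sum.inr l, a) => u l a

/-- extension of a matrix by zero rows -/
def ext0 {ι κ : Type} {r : ℕ} (α : ι × κ → κ → R) : (ι ⊕ Fin r) × κ → κ → R
  | (Sum.inl x, a) => α (x, a)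
  | (Sum.inr _, _) => fun _ => 0

lemma mulV_ext0 {ι κ : Type} [Fintype κ] {r : ℕ} (α : ι × κ → κ → R) (z : κ → V) :
    mulV (ext0 (r := r) α) z = glue (mulV α z) (fun _ : Fin r => 0) := by
  funext xa
  rcases xa with ⟨x | l, a⟩
  · rfl
  · simp [mulV, glue, ext0]

lemma op_inl (X : BC R) (hX : ∀ x, 0 ≤ X.g x) (hσ : ∀ x, X.g x = 0 → X.σ x = 1) (r : ℕ)
    (η : Fin r → X.ι → R) (hη : ∀ l x, η l x ≠ 0 → X.g x = 0) (D : BC R) (d : V →ₗ[R] V)
    (w : X.ι × D.ι → V) (u : Fin r → D.ι → V) (x : X.ι) (a : D.ι) :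
    ((X.addCols hX hσ r η hη).tensor D).op d (glue w u) (Sum.inl x, a) =
      (X.tensor D).op d w (x, a) + ∑ l, η l x • u l a := by
  have h1 := BC.tensor_op (X.addCols hX hσ r η hη) D d (glue w u) (Sum.inl x) a
  have h2 := BC.tensor_op X D d w x a
  have h3 : (X.addCols hX hσ r η hη).op (D.op d) (fun x' a => glue w u (x', a)) (Sum.inl x) =
      ∑ y : X.ι ⊕ Fin r, (X.addCols hX hσ r η hη).m (Sum.inl x) y •
        (fun a => glue w u (y, a)) + X.σ x • D.op d (fun a => w (x, a)) := rfl
  have h4 : X.op (D.op d) (fun x a => w (x, a)) x =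
      ∑ y, X.m x y • (fun a => w (y, a)) + X.σ x • D.op d (fun a => w (x, a)) := rfl
  refine h1.trans ((congrFun h3 a).trans ?_)
  rw [h2, h4, Fintype.sum_sum_type]
  simp only [Pi.add_apply, Finset.sum_apply, Pi.smul_apply]
  have h5 : ∀ y : X.ι, (X.addCols hX hσ r η hη).m (Sum.inl x) (Sum.inl y) = X.m x y :=
    fun _ => rfl
  have h6 : ∀ l : Fin r, (X.addCols hX hσ r η hη).m (Sum.inl x) (Sum.inr l) = η l x :=
    fun _ => rfl
  simp only [h5, h6, glue]
  abel

lemma op_inr (X : BC R) (hX : ∀ x, 0 ≤ X.g x) (hσ : ∀ x, X.g x = 0 → X.σ x = 1) (r : ℕ)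
    (η : Fin r → X.ι → R) (hη : ∀ l x, η l x ≠ 0 → X.g x = 0) (D : BC R) (d : V →ₗ[R] V)
    (w : X.ι × D.ι → V) (u : Fin r → D.ι → V) (l : Fin r) (a : D.ι) :
    ((X.addCols hX hσ r η hη).tensor D).op d (glue w u) (Sum.inr l, a) =
      - D.op d (u l) a := by
  have h1 := BC.tensor_op (X.addCols hX hσ r η hη) D d (glue w u) (Sum.inr l) a
  have h3 : (X.addCols hX hσ r η hη).op (D.op d) (fun x' a => glue w u (x', a)) (Sum.inr l) =
      ∑ y : X.ι ⊕ Fin r, (X.addCols hX hσ r η hη).m (Sum.inr l) y •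
        (fun a => glue w u (y, a)) + (-1 : ℤ) • D.op d (fun a => u l a) := rfl
  have h5 : ∀ y : X.ι ⊕ Fin r, (X.addCols hX hσ r η hη).m (Sum.inr l) y = 0 := by
    rintro (y | y) <;> rfl
  refine h1.trans ((congrFun h3 a).trans ?_)
  simp only [h5, zero_smul, Finset.sum_const_zero, zero_add, neg_smul, one_smul]
  rfl

end StarColsA

open StarColsA in
theorem star_addCols {V : Type u} [AddCommGroup V] [Module R V] (A : DG R V) (r : ℕ)
    (χ : Fin (r + 1) → V →ₗ[R] V) (hχ : ∀ l, Op2 A (χ l)) (X : BC R)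
    (hX : ∀ x, 0 ≤ X.g x) (hσ : ∀ x, X.g x = 0 → X.σ x = 1)
    (η : Fin (r + 1) → X.ι → R) (hη : ∀ l x, η l x ≠ 0 → X.g x = 0)
    (star : Star A X (r + 1) χ η) :
    Star A (X.addCols hX hσ r (fun l => η l.castSucc) (fun l => hη l.castSucc)) 1
      (fun _ => χ (Fin.last r)) (fun _ => Sum.elim (η (Fin.last r)) (fun _ => 0)) := by
  intro D
  obtain ⟨α, hα1, hα2⟩ := star D
  refine ⟨ext0 (ι := X.ι) (κ := D.ι) (r := r) α, ?_, ?_⟩
  · rintro (x | l) a c h
    · exact hα1 x a c h
    · exact absurd rfl h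
  · intro z hz
    obtain ⟨h1, v, h2⟩ := hα2 z hz
    have h2' : ∀ x a, mulV α z (x, a) + (∑ l : Fin r, η l.castSucc x • χ l.castSucc (z a) +
        η (Fin.last r) x • χ (Fin.last r) (z a)) = (X.tensor D).op A.d v (x, a) := by
      intro x a
      have h3 := congrFun h2 (x, a)
      refine Eq.trans ?_ h3
      rw [← Fin.sum_univ_castSucc (fun l => η l x • χ l (z a))]
      show _ = mulV α z (x, a) + (∑ l, fun xa : X.ι × D.ι => η l xa.1 • χ l (z xa.2)) (x, a)
      rw [Finset.sum_apply]
    have e1 := mulV_ext0 (V := V) (ι := X.ι) (κ := D.ι) (r := r) α z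
    refine ⟨?_, ?_⟩
    · have e2 : ((X.addCols hX hσ r (fun l => η l.castSucc) (fun l => hη l.castSucc)).tensor
          D).op A.d (glue (mulV α z) (fun _ : Fin r => 0)) = 0 := by
        funext xa
        rcases xa with ⟨x | l, a⟩
        · refine (op_inl X hX hσ r _ _ D A.d (mulV α z) (fun _ : Fin r => 0) x a).trans ?_
          have h3 : (X.tensor D).op A.d (mulV α z) (x, a) = (0 : V) := congrFun h1 (x, a)
          have h4 : ∑ l : Fin r, η l.castSucc x • (0 : D.ι → V) a = 0 :=
            Finset.sum_eq_zero fun l _ => smul_zero _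
          exact (congrArg₂ (· + ·) h3 h4).trans (add_zero 0)
        · refine (op_inr X hX hσ r _ _ D A.d (mulV α z) (fun _ : Fin r => 0) l a).trans ?_
          have : D.op A.d (0 : D.ι → V) = 0 := map_zero _
          exact (congrArg (fun w => - w) (congrFun this a)).trans neg_zero
      exact (congrArg _ e1).trans e2
    · refine ⟨glue (ι := X.ι) (κ := D.ι) v (fun l a => - χ l.castSucc (z a)), ?_⟩
      funext xa
      have e4 := congrFun e1 xa
      rcases xa with ⟨x | l, a⟩
      · refine Eq.trans ?_ (op_inl X hX hσ r _ _ D A.d v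
          (fun l a => - χ l.castSucc (z a)) x a).symm
        rw [← h2' x a]
        have e5 : (∑ _l : Fin 1, fun xa : (X.ι ⊕ Fin r) × D.ι =>
            (Sum.elim (η (Fin.last r)) (fun _ => 0) xa.1 : R) • χ (Fin.last r) (z xa.2))
            (Sum.inl x, a) = η (Fin.last r) x • χ (Fin.last r) (z a) := by
          rw [Finset.sum_apply]
          simp
        refine (congrArg₂ (· + ·) e4 e5).trans ?_
        simp only [glue, smul_neg, Finset.sum_neg_distrib]
        abel
      · refine Eq.trans ?_ (op_inr X hX hσ r _ _ D A.d v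
          (fun l a => - χ l.castSucc (z a)) l a).symm
        have h4 : D.op A.d (fun a => - χ l.castSucc (z a)) = 0 := by
          have h5 := D.op_map A.d A.d (χ l.castSucc) (fun v => (hχ l.castSucc).comm v) z
          rw [hz] at h5
          have h6 : (fun a => - χ l.castSucc (z a)) = - (fun a => χ l.castSucc (z a)) := rfl
          rw [h6, map_neg, h5]
          funext b
          simp
        rw [h4]
        have e5 : (∑ _l : Fin 1, fun xa : (X.ι ⊕ Fin r) × D.ι =>
            (Sum.elim (η (Fin.last r)) (fun _ => 0) xa.1 : R) • χ (Fin.last r) (z xa.2))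
            (Sum.inr l, a) = 0 := by
          rw [Finset.sum_apply]
          simp
        refine (congrArg₂ (· + ·) e4 e5).trans ?_
        simp [glue]

end Pool.Agent.CN
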