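import Pool.Agent.CN.ClaimA
import Pool.Agent.CN.ClaimB
import Pool.Agent.CN.ChiSurj
import Pool.Agent.CN.StarCols

/-!
# The core step
-/

universe u

namespace Pool.Agent.CN

open Finset IsLocalRing

/-- iteration of Claim A -/
lemma exists_comps {R : Type u} [CommRing R] [IsLocalRing R] {V : Type u} [AddCommGroup V]
    [Module R V] (A : DG R V)
    (h : ∀ D : BC R, ∃ (D'' : BC R) (φ : D.ι → D''.ι → R) (t₀ : ℤ),
      Comps (maximalIdeal R) 0 D'' D φ ∧
      ∀ t, t₀ ≤ t → ∀ z : D.ι → V, D.op A.d z = 0 → D.pr A.p t z = z →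
        ∃ z' : D''.ι → V, D''.op A.d z' = 0 ∧ D''.pr A.p (t + 1) z' = z' ∧
          Bdy (D.dg A) (z - mulV φ z')) (n : ℕ) :
    ∀ D : BC R, ∃ (D'' : BC R) (φ : D.ι → D''.ι → R) (t₀ : ℤ),
      Comps (maximalIdeal R) n D'' D φ ∧
      ∀ t, t₀ ≤ t → ∀ z : D.ι → V, D.op A.d z = 0 → D.pr A.p t z = z →
        ∃ (z' : D''.ι → V) (t' : ℤ), t ≤ t' ∧ D''.op A.d z' = 0 ∧ D''.pr A.p t' z' = z' ∧
          Bdy (D.dg A) (z - mulV φ z') := by
  induction n with
  | zero =>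
    intro D
    obtain ⟨D'', φ, t₀, h1, h2⟩ := h D
    refine ⟨D'', φ, t₀, h1, fun t ht z hz hz' => ?_⟩
    obtain ⟨z', h3, h4, h5⟩ := h2 t ht z hz hz'
    exact ⟨z', t + 1, by omega, h3, h4, h5⟩
  | succ n ih =>
    intro D
    obtain ⟨D₁, φ₁, t₁, h1, h2⟩ := ih D
    obtain ⟨D₂, φ₂, t₂, h3, h4⟩ := ih D₁
    refine ⟨D₂, fun a c => ∑ b, φ₁ a b * φ₂ b c, max t₁ t₂, ⟨D₁, φ₁, φ₂, h1, h3, rfl⟩, ?_⟩
    intro t ht z hz hz'
    obtain ⟨z₁, s₁, h5, h6, h7, h8⟩ := h2 t (le_trans (le_max_left _ _) ht) z hz hz'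
    obtain ⟨z₂, s₂, h9, h10, h11, h12⟩ := h4 s₁ (le_trans (le_trans (le_max_right _ _) ht) h5)
      z₁ h6 h7
    refine ⟨z₂, s₂, h5.trans h9, h10, h11, ?_⟩
    have h13 : z - mulV (fun a c => ∑ b, φ₁ a b * φ₂ b c) z₂ =
        (z - mulV φ₁ z₁) + mulV φ₁ (z₁ - mulV φ₂ z₂) := by
      rw [mulV_sub, mulV_mulV]; abel
    rw [h13]
    exact h8.add (h1.cm.bdy A h12)

theorem core_step {R : Type u} [CommRing R] [IsLocalRing R] {V : Type u} [AddCommGroup V]
    [Module R V] (A : DG R V) (r : ℕ) (χ : Fin (r + 1) → V →ₗ[R] V) (hχ : ∀ l, Op2 A (χ l))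
    (X : BC R) (hX : ∀ x, 0 ≤ X.g x) (hσ : ∀ x, X.g x = 0 → X.σ x = 1)
    (hXm : ∀ x y, X.m x y ∈ maximalIdeal R)
    (η : Fin (r + 1) → X.ι → R) (hη : ∀ l x, η l x ≠ 0 → X.g x = 0)
    (ρ : X.ι → R) (hρη : ∑ x, ρ x * η (Fin.last r) x = 1)
    (hρl : ∀ l : Fin r, ∑ x, ρ x * η l.castSucc x ∈ maximalIdeal R)
    (star : Star A X (r + 1) χ η) (t₀ : ℤ) (hcone : ConeExact A (χ (Fin.last r)) t₀)
    (e : ℕ) (x : Fin e → R) (hx : Ideal.span (Set.range x) = maximalIdeal R)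
    (hτ : ∀ i, ∃ τ : V →ₗ[R] V, ∀ v, A.d (τ v) + τ (A.d v) = x i • v) :
    ∃ t₁ : ℤ, ∀ t, t₁ ≤ t → ∀ v, A.p t v = v → A.d v = 0 →
      ∃ w, A.p (t + 1) w = w ∧ A.d w = v := by
  let X' := X.addCols hX hσ r (fun l => η l.castSucc) (fun l => hη l.castSucc)
  let η' : X'.ι → R := Sum.elim (η (Fin.last r)) (fun _ => 0)
  let ρ' : X'.ι → R := Sum.elim (fun x => if X.g x = 0 then ρ x else 0) (fun _ => 0)
  have hρ1 : ∀ (l : Fin (r + 1)), ∑ x, (if X.g x = 0 then ρ x else 0) * η l x =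
      ∑ x, ρ x * η l x := fun l => by
    refine sum_congr rfl fun x _ => ?_
    by_cases h : X.g x = 0
    · rw [if_pos h]
    · have : η l x = 0 := by
        by_contra h'
        exact h (hη l x h')
      rw [this, mul_zero, mul_zero]
  have star' : Star A X' 1 (fun _ => χ (Fin.last r)) (fun _ => η') :=
    star_addCols A r χ hχ X hX hσ η hη star
  have hA : ∀ D : BC R, ∃ (D'' : BC R) (φ : D.ι → D''.ι → R) (t₀ : ℤ),
      Comps (maximalIdeal R) 0 D'' D φ ∧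
      ∀ t, t₀ ≤ t → ∀ z : D.ι → V, D.op A.d z = 0 → D.pr A.p t z = z →
        ∃ z' : D''.ι → V, D''.op A.d z' = 0 ∧ D''.pr A.p (t + 1) z' = z' ∧
          Bdy (D.dg A) (z - mulV φ z') := by
    intro D
    obtain ⟨t₁, ht₁⟩ := chiSurj_of_coneExact A (χ (Fin.last r)) (hχ _) t₀ hcone D
    obtain ⟨D'', φ, h1, h2⟩ := claimA A (χ (Fin.last r)) (hχ _) X' (by
        rintro (x | l)
        · exact hX x
        · exact Int.zero_le_ofNat 1) (by
        rintro (x | l) h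
        · exact hσ x h
        · exact absurd h one_ne_zero) η' (by
        rintro (x | l) h
        · exact hη _ x h
        · exact absurd rfl h) ρ' (by
        rintro (x | l) h
        · by_contra h'
          exact h (if_neg h')
        · exact absurd rfl h) (by
        rw [← hρη, ← hρ1]
        change ∑ x : X.ι ⊕ Fin r, ρ' x * η' x = _
        rw [Fintype.sum_sum_type]
        simp [ρ', η']) (by
        rintro (y | l)
        · change ∑ x : X.ι ⊕ Fin r, ρ' x * X'.m x (Sum.inl y) ∈ _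
          exact Ideal.sum_mem _ fun x _ => by
            rcases x with x | l
            · exact Ideal.mul_mem_left _ _ (hXm x y)
            · have : ρ' (Sum.inr l) = 0 := rfl
              rw [this, zero_mul]; exact Ideal.zero_mem _
        · change ∑ x : X.ι ⊕ Fin r, ρ' x * X'.m x (Sum.inr l) ∈ _
          rw [Fintype.sum_sum_type]
          have h1 : ∑ x : X.ι, ρ' (Sum.inl x) * X'.m (Sum.inl x) (Sum.inr l) =
              ∑ x, ρ x * η l.castSucc x := hρ1 l.castSucc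
          have h2 : ∑ x : Fin r, ρ' (Sum.inr x) * X'.m (Sum.inr x) (Sum.inr l) = 0 :=
            sum_eq_zero fun x _ => by
              have : ρ' (Sum.inr x) = 0 := rfl
              rw [this, zero_mul]
          rw [h1, h2, add_zero]
          exact hρl l) star' D t₁ ht₁
    exact ⟨D'', φ, t₁, h1, h2⟩
  obtain ⟨D'', φ, t₁, h1, h2⟩ := exists_comps A hA e (BC.one R)
  refine ⟨t₁, fun t ht v hv hdv => ?_⟩
  obtain ⟨z', t', h3, h4, h5, h6⟩ := h2 t ht (fun _ => v) (by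
    funext a
    rw [BC.op_apply]
    simp [BC.one, hdv]) (by
    funext a
    change A.p (t - 0) v = v
    rw [sub_zero, hv])
  rw [← hx] at h1
  have h7 := h6.add (claimB A e x hτ h1 z' h4)
  rw [sub_add_cancel] at h7
  obtain ⟨y, hy⟩ := h7
  have h8 : v = A.d (y ()) := by
    have h9 := congrFun hy ()
    change v = _ at h9
    rw [h9, BC.dg_d, BC.op_apply]
    simp [BC.one]
  refine ⟨A.p (t + 1) (y ()), A.pp _ _, ?_⟩
  rw [A.dp, ← h8, add_sub_cancel_right, hv]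

end Pool.Agent.CN
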