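import Pool.Agent.CN.StarAbs

/-!
# The abstract star property in all degrees
-/

universe u

namespace Pool.Agent.CN

open Finset

open StarAbs in
theorem star_all {R : Type u} [CommRing R] {N : Type u} [AddCommGroup N] [Module R N] {s : ℕ}
    (FN : FRes R N s) (X : BC R) {V VN : Type u} [AddCommGroup V] [Module R V]
    [AddCommGroup VN] [Module R VN] (A : DG R V) (B : DG R VN) (e : N →ₗ[R] V →ₗ[R] VN)
    (he : ∀ y v, B.d (e y v) = e y (A.d v))
    (hqi : QIData FN.ν V VN (fun a => e (FN.ε a)))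
    {r : ℕ} (χ : Fin r → V →ₗ[R] V) (hχ : ∀ l, Op2 A (χ l))
    (ηh : Fin r → FN.ν.ι → X.ι → R) (hη : ∀ l, FN.ν.op (X.op (0 : R →ₗ[R] R)) (ηh l) = 0)
    (D : BC R) (q : X.ι → D.ι → D.ι → N)
    (hq0 : ∀ x a c, q x a c ≠ 0 → X.g x = s ∧ D.g a = D.g c - 2 ∧ D.σ a = D.σ c)
    (hq1 : ∀ x a c, ∑ y, X.m x y • q y a c = 0)
    (hq2 : ∀ x a c, ∑ b, D.m a b • q x b c = ∑ b, D.m b c • q x a b)
    (hid : ∀ z : D.ι → V, D.op A.d z = 0 → ∃ y : X.ι → D.ι → VN,
      (fun x a => ∑ c, e (q x a c) (z c) + ∑ l, e (∑ n, ηh l n x • FN.ε n) (χ l (z a))) =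
        X.op (D.op B.d) y) :
    ∃ α : FN.ν.ι → X.ι → D.ι → D.ι → R,
      (∀ n x a c, α n x a c ≠ 0 → FN.ν.g n + X.g x - s + D.g a = D.g c - 2) ∧
      ∀ z : D.ι → V, D.op A.d z = 0 →
        FN.ν.op (X.op (D.op A.d)) (fun n x a => ∑ c, α n x a c • z c) = 0 ∧
        ∃ v : FN.ν.ι → X.ι → D.ι → V,
          (fun n x a => ∑ c, α n x a c • z c + ∑ l, ηh l n x • χ l (z a)) =
            FN.ν.op (X.op (D.op A.d)) v := by
  -- the quasi-isomorphism with coefficients in the dual complex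
  have q3 : QIData FN.ν (D.ι → R) (D.ι → N) _ :=
    QIData.pi (J := D.ι) (V := fun _ => R) (W := fun _ => N)
      (E := fun a _ => LinearMap.toSpanSingleton R N (FN.ε a)) (fun _ => FN.qi)
  have q2 : QIData FN.ν (D.ι → D.ι → R) (D.ι → D.ι → N) _ :=
    QIData.pi (J := D.ι) (V := fun _ => D.ι → R) (W := fun _ => D.ι → N) (fun _ => q3)
  have q1 : QIData FN.ν (X.ι → D.ι → D.ι → R) (X.ι → D.ι → D.ι → N) _ :=
    QIData.pi (J := X.ι) (V := fun _ => D.ι → D.ι → R) (W := fun _ => D.ι → D.ι → N)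
      (fun _ => q2)
  -- naturality
  have nat : ∀ a (v : X.ι → D.ι → D.ι → R),
      (LinearMap.pi fun _j : X.ι => (LinearMap.pi fun _j : D.ι => (LinearMap.pi fun _j : D.ι =>
        (LinearMap.toSpanSingleton R N (FN.ε a)) ∘ₗ (LinearMap.proj _j)) ∘ₗ
          (LinearMap.proj _j)) ∘ₗ (LinearMap.proj _j) :
        (X.ι → D.ι → D.ι → R) →ₗ[R] (X.ι → D.ι → D.ι → N)) ((X.dg (D.dg (du D R))).d v) =
      (X.dg (D.dg (du D N))).d ((LinearMap.pi fun _j : X.ι => (LinearMap.pi fun _j : D.ι =>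
        (LinearMap.pi fun _j : D.ι =>
        (LinearMap.toSpanSingleton R N (FN.ε a)) ∘ₗ (LinearMap.proj _j)) ∘ₗ
          (LinearMap.proj _j)) ∘ₗ (LinearMap.proj _j) :
        (X.ι → D.ι → D.ι → R) →ₗ[R] (X.ι → D.ι → D.ι → N)) v) := by
    intro a v
    have e1 : ∀ w : D.ι → R, (du D N).d ((LinearMap.pi fun _j : D.ι =>
        (LinearMap.toSpanSingleton R N (FN.ε a)) ∘ₗ (LinearMap.proj _j) :
          (D.ι → R) →ₗ[R] (D.ι → N)) w) = (LinearMap.pi fun _j : D.ι =>
        (LinearMap.toSpanSingleton R N (FN.ε a)) ∘ₗ (LinearMap.proj _j) :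
          (D.ι → R) →ₗ[R] (D.ι → N)) ((du D R).d w) := by
      intro w
      funext c
      change dud D N _ c = (dud D R w c) • FN.ε a
      rw [dud_apply, dud_apply, neg_smul, sum_smul]
      congr 1
      refine sum_congr rfl fun c' _ => ?_
      change D.σ c' • D.m c' c • (w c' • FN.ε a) = _
      rw [smul_assoc, smul_assoc]
    have e2 := fun w : D.ι → D.ι → R => D.op_map (du D R).d (du D N).d _ e1 w
    have e3 := X.op_map (D.dg (du D R)).d (D.dg (du D N)).d
      (LinearMap.pi fun _j : D.ι => (LinearMap.pi fun _j : D.ι =>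
        (LinearMap.toSpanSingleton R N (FN.ε a)) ∘ₗ (LinearMap.proj _j)) ∘ₗ
          (LinearMap.proj _j) : (D.ι → D.ι → R) →ₗ[R] (D.ι → D.ι → N)) (fun w => e2 w) v
    exact e3.symm
  -- `q` is a cycle
  have hqc : (X.dg (D.dg (du D N))).d q = 0 := by
    change X.op (D.op (dud D N)) q = 0
    funext x a c
    rw [BC.op_apply]
    simp only [Pi.add_apply, Finset.sum_apply, Pi.smul_apply, Pi.zero_apply]
    rw [hq1, zero_add, BC.op_apply]
    simp only [Pi.add_apply, Finset.sum_apply, Pi.smul_apply, dud_apply]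
    rw [hq2]
    have h1 : D.σ a • (- ∑ c', D.σ c' • D.m c' c • q x a c') = - ∑ b, D.m b c • q x a b := by
      rw [smul_neg, smul_sum]
      congr 1
      refine sum_congr rfl fun b _ => ?_
      by_cases hb : q x a b = 0
      · simp [hb]
      · rw [(hq0 x a b hb).2.2, smul_smul, D.σσ, one_smul]
    rw [h1, add_neg_cancel, smul_zero]
  obtain ⟨K, hK1, hK2⟩ := q1.lift FN.g0 FN.σ0 (X.dg (D.dg (du D R))) (X.dg (D.dg (du D N))) nat q hqc
  -- the homogeneous part
  let K' : FN.ν.ι → X.ι → D.ι → D.ι → R :=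
    (FN.ν.dg (X.dg (D.dg (du D R)))).p ((s : ℤ) - 2) K
  have hK' : ∀ n x a c, K' n x a c =
      if - D.g c = (s : ℤ) - 2 - FN.ν.g n - X.g x - D.g a then K n x a c else 0 :=
    fun n x a c => rfl
  have hK1' : FN.ν.op (X.dg (D.dg (du D R))).d K' = 0 := by
    have h1 := (FN.ν.dg (X.dg (D.dg (du D R)))).dp ((s : ℤ) - 2) K
    have h2 : (FN.ν.dg (X.dg (D.dg (du D R)))).d K = 0 := hK1
    rw [h2, LinearMap.map_zero] at h1
    exact h1
  have hK2' : ∀ x a c, ∑ n, K' n x a c • FN.ε n = q x a c := by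
    intro x a c
    have h1 : ∑ n, K n x a c • FN.ε n = q x a c := by
      have h2 := congrFun (congrFun (congrFun hK2 x) a) c
      rw [← h2]
      simp only [Finset.sum_apply]
      rfl
    have h0 : ∀ n, FN.ν.g n ≠ 0 → FN.ε n = 0 := by
      intro n hn
      have h2 := FN.qi.E0 n hn
      have h3 := congrArg (fun f : R →ₗ[R] N => f 1) h2
      simpa using h3
    by_cases hq : q x a c = 0
    · by_cases hd : - D.g c = (s : ℤ) - 2 - X.g x - D.g a
      · rw [hq, ← hq, ← h1]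
        refine sum_congr rfl fun n _ => ?_
        by_cases hn : FN.ν.g n = 0
        · rw [hK', if_pos (by rw [hn]; linarith)]
        · rw [h0 n hn, smul_zero, smul_zero]
      · rw [hq]
        refine sum_eq_zero fun n _ => ?_
        by_cases hn : FN.ν.g n = 0
        · rw [hK', if_neg (by rw [hn]; intro h; exact hd (by linarith)), zero_smul]
        · rw [h0 n hn, smul_zero]
    · obtain ⟨g1, g2, -⟩ := hq0 x a c hq
      rw [← h1]
      refine sum_congr rfl fun n _ => ?_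
      by_cases hn : FN.ν.g n = 0
      · rw [hK', if_pos (by rw [hn]; linarith)]
      · rw [h0 n hn, smul_zero, smul_zero]
  refine ⟨K', ?_, ?_⟩
  · intro n x a c h
    by_contra hne
    apply h
    rw [hK', if_neg]
    intro h3
    exact hne (by linarith)
  intro z hz
  -- the cycle `K' z`
  have hcyc : FN.ν.op (X.op (D.op A.d)) (fun n x a => pair D z (K' n x a)) = 0 := by
    have e1 := fun w : D.ι → D.ι → R => D.op_map (du D R).d A.d (pair D z)
      (fun v => pair_d D A z hz v) w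
    have e2 := fun w : X.ι → D.ι → D.ι → R => X.op_map (D.dg (du D R)).d (D.op A.d)
      (LinearMap.pi fun j : D.ι => (pair D z) ∘ₗ (LinearMap.proj j) :
        (D.ι → D.ι → R) →ₗ[R] (D.ι → V)) (fun w => e1 w) w
    have e3 := FN.ν.op_map (X.dg (D.dg (du D R))).d (X.op (D.op A.d))
      (LinearMap.pi fun j : X.ι => (LinearMap.pi fun j : D.ι => (pair D z) ∘ₗ
        (LinearMap.proj j)) ∘ₗ (LinearMap.proj j) :
        (X.ι → D.ι → D.ι → R) →ₗ[R] (X.ι → D.ι → V)) (fun w => e2 w) K'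
    rw [hK1'] at e3
    refine e3.trans ?_
    funext n
    exact map_zero _
  refine ⟨hcyc, ?_⟩
  -- the cycle `U`
  have hcyc2 : ∀ l, FN.ν.op (X.op (D.op A.d)) (fun n x a => ηh l n x • χ l (z a)) = 0 := by
    intro l
    have hχz : D.op A.d (fun a => χ l (z a)) = 0 := by
      rw [D.op_map A.d A.d (χ l) (hχ l).comm, hz]
      funext a
      exact map_zero _
    have e1 := fun w : X.ι → R => X.op_map (0 : R →ₗ[R] R) (D.op A.d)
      (LinearMap.toSpanSingleton R (D.ι → V) (fun a => χ l (z a))) (by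
        intro v
        rw [LinearMap.toSpanSingleton_apply, map_smul, hχz, smul_zero, LinearMap.zero_apply,
          map_zero]) w
    have e2 := FN.ν.op_map (X.op (0 : R →ₗ[R] R)) (X.op (D.op A.d))
      (LinearMap.pi fun j : X.ι =>
        (LinearMap.toSpanSingleton R (D.ι → V) (fun a => χ l (z a))) ∘ₗ (LinearMap.proj j) :
        (X.ι → R) →ₗ[R] (X.ι → D.ι → V)) (fun w => e1 w) (ηh l)
    rw [hη l] at e2
    refine e2.trans ?_
    funext n
    exact map_zero _
  let U : FN.ν.ι → X.ι → D.ι → V := fun n x a =>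
    ∑ c, K' n x a c • z c + ∑ l, ηh l n x • χ l (z a)
  have hUeq : U = (fun n x a => pair D z (K' n x a)) +
      ∑ l, (fun n x a => ηh l n x • χ l (z a)) := by
    funext n x a
    simp only [Pi.add_apply, Finset.sum_apply]
    rfl
  have hU : FN.ν.op (X.dg (D.dg A)).d U = 0 := by
    change FN.ν.op (X.op (D.op A.d)) U = 0
    rw [hUeq, map_add, hcyc, zero_add, map_sum]
    exact sum_eq_zero fun l _ => hcyc2 l
  obtain ⟨y, hy⟩ := hid z hz
  have p2 : QIData FN.ν (D.ι → V) (D.ι → VN) _ :=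
    QIData.pi (J := D.ι) (V := fun _ => V) (W := fun _ => VN)
      (E := fun a _ => e (FN.ε a)) (fun _ => hqi)
  have p1 : QIData FN.ν (X.ι → D.ι → V) (X.ι → D.ι → VN) _ :=
    QIData.pi (J := X.ι) (V := fun _ => D.ι → V) (W := fun _ => D.ι → VN) (fun _ => p2)
  have nat2 : ∀ a (v : X.ι → D.ι → V),
      (LinearMap.pi fun _j : X.ι => (LinearMap.pi fun _j : D.ι =>
        (e (FN.ε a)) ∘ₗ (LinearMap.proj _j)) ∘ₗ (LinearMap.proj _j) :
        (X.ι → D.ι → V) →ₗ[R] (X.ι → D.ι → VN)) ((X.dg (D.dg A)).d v) =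
      (X.dg (D.dg B)).d ((LinearMap.pi fun _j : X.ι => (LinearMap.pi fun _j : D.ι =>
        (e (FN.ε a)) ∘ₗ (LinearMap.proj _j)) ∘ₗ (LinearMap.proj _j) :
        (X.ι → D.ι → V) →ₗ[R] (X.ι → D.ι → VN)) v) := by
    intro a v
    have e1 := fun w : D.ι → V => D.op_map A.d B.d (e (FN.ε a)) (fun v => he (FN.ε a) v) w
    have e2 := X.op_map (D.op A.d) (D.op B.d)
      (LinearMap.pi fun j : D.ι => (e (FN.ε a)) ∘ₗ (LinearMap.proj j) :
        (D.ι → V) →ₗ[R] (D.ι → VN)) (fun w => e1 w) v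
    exact e2.symm
  obtain ⟨v, hv⟩ := p1.bdy FN.g0 FN.σ0 (X.dg (D.dg A)) (X.dg (D.dg B)) nat2 U hU y (by
    change _ = X.op (D.op B.d) y
    rw [← hy]
    funext x a
    simp only [Finset.sum_apply]
    change ∑ n, e (FN.ε n) (U n x a) = _
    have h1 : ∀ n, e (FN.ε n) (U n x a) = ∑ c, K' n x a c • e (FN.ε n) (z c) +
        ∑ l, ηh l n x • e (FN.ε n) (χ l (z a)) := by
      intro n
      change e (FN.ε n) (∑ c, K' n x a c • z c + ∑ l, ηh l n x • χ l (z a)) = _
      rw [map_add, map_sum, map_sum]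
      simp only [map_smul]
    rw [sum_congr rfl fun n _ => h1 n, sum_add_distrib]
    congr 1
    · rw [sum_comm]
      refine sum_congr rfl fun c _ => ?_
      rw [← hK2' x a c, map_sum, LinearMap.sum_apply]
      refine sum_congr rfl fun n _ => ?_
      rw [map_smul, LinearMap.smul_apply]
    · rw [sum_comm]
      refine sum_congr rfl fun l _ => ?_
      rw [map_sum, LinearMap.sum_apply]
      refine sum_congr rfl fun n _ => ?_
      rw [map_smul, LinearMap.smul_apply])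
  have h2 : FN.ν.op (X.op (D.op A.d)) v = U := hv
  exact ⟨v, h2.symm⟩

end Pool.Agent.CN
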