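import Pool.Agent.CN.DDBuild
import Pool.Agent.CN.StarAll

/-!
# Detection data in all degrees

`exists_DD_all`: as `exists_DD`, but the complex `X` is the part of degrees `≥ 0` of
`Hom(P_•, N_•)`, so that all entries of the lifts are detected.
-/

universe u

namespace Pool.Agent.CN

open Finset IsLocalRing

section Trunc

variable {R : Type u} [CommRing R]

private lemma tr_sum (H : BC R) (s : ℕ) {M : Type*} [AddCommMonoid M] (f : H.ι → M)
    (hf : ∀ b, ¬ ((s : ℤ) ≤ H.g b) → f b = 0) :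
    ∑ b : {h : H.ι // (s : ℤ) ≤ H.g h}, f b.1 = ∑ b, f b := by
  classical
  rw [← Finset.sum_filter_add_sum_filter_not (univ : Finset H.ι) (fun b => (s : ℤ) ≤ H.g b) f]
  rw [Finset.sum_eq_zero (s := univ.filter fun b => ¬ (s : ℤ) ≤ H.g b)
    (fun b hb => hf b (mem_filter.1 hb).2), add_zero]
  exact (Finset.sum_subtype _ (fun b => by simp) f).symm

/-- the part of degrees `≥ s`, shifted by `s` -/
def BC.tr (H : BC R) (s : ℕ) : BC R where
  ι := {h : H.ι // (s : ℤ) ≤ H.g h}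
  fin := inferInstance
  dec := inferInstance
  g x := H.g x.1 - s
  σ x := (-1) ^ s * H.σ x.1
  m x y := (-1) ^ s * H.m x.1 y.1
  pm x := by
    rcases H.pm x.1 with h | h <;> rcases neg_one_pow_eq_or ℤ s with h' | h' <;> rw [h, h'] <;>
      norm_num
  deg x y h := by
    rw [H.deg x.1 y.1 (right_ne_zero_of_mul h)]; ring
  sgn x y h := by
    rw [H.sgn x.1 y.1 (right_ne_zero_of_mul h)]; ring
  sq a c := by
    have h1 : ∀ b : {h : H.ι // (s : ℤ) ≤ H.g h}, ((-1) ^ s * H.m a.1 b.1) * ((-1) ^ s * H.m b.1 c.1) =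
        H.m a.1 b.1 * H.m b.1 c.1 := by
      intro b
      have h2 : ((-1 : R) ^ s) * (-1) ^ s = 1 := by rw [← mul_pow]; norm_num
      calc ((-1) ^ s * H.m a.1 b.1) * ((-1) ^ s * H.m b.1 c.1)
          = (((-1 : R) ^ s) * (-1) ^ s) * (H.m a.1 b.1 * H.m b.1 c.1) := by ring
        _ = _ := by rw [h2, one_mul]
    rw [sum_congr rfl fun b _ => h1 b, tr_sum H s (fun b => H.m a.1 b * H.m b c.1), H.sq]
    intro b hb
    by_cases h3 : H.m a.1 b = 0
    · rw [h3, zero_mul]
    · exfalso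
      have h4 := H.deg a.1 b h3
      have h5 := a.2
      omega

lemma BC.tr_op (H : BC R) (s : ℕ) {V : Type u} [AddCommGroup V] [Module R V] (d : V →ₗ[R] V)
    (z : H.ι → V) (x : (H.tr s).ι) :
    (H.tr s).op d (fun y => z y.1) x = ((-1 : ℤ) ^ s) • H.op d z x.1 := by
  have h : (H.tr s).op d (fun y => z y.1) x =
      ∑ y : {h : H.ι // (s : ℤ) ≤ H.g h}, ((-1) ^ s * H.m x.1 y.1) • z y.1 +
        ((-1) ^ s * H.σ x.1) • d (z x.1) := rfl
  rw [h, BC.op_apply, smul_add, mul_smul, smul_sum,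
    tr_sum H s (fun y => ((-1) ^ s * H.m x.1 y) • z y)]
  · congr 1
    refine sum_congr rfl fun y _ => ?_
    rw [mul_smul, ← Int.cast_smul_eq_zsmul R]
    congr 1
    push_cast
    rfl
  · intro b hb
    by_cases h3 : H.m x.1 b = 0
    · rw [h3, mul_zero, zero_smul]
    · exfalso
      have h4 := H.deg x.1 b h3
      have h5 := x.2
      omega

/-- a cycle over zero has all components in `K` -/
lemma FRes.all_mem {N : Type u} [AddCommGroup N] [Module R N] {s : ℕ} (F : FRes R N s)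
    (X : BC R) (K : Ideal R) (hF : ∀ x y, F.ν.m x y ∈ K) (hK : ∀ x y, X.m x y ∈ K)
    (ηh : F.ν.ι → X.ι → R)
    (h1 : F.ν.op (X.op (0 : R →ₗ[R] R)) ηh = 0) (h2 : ∀ x, ∑ n, ηh n x • F.ε n = 0)
    (n : F.ν.ι) (x : X.ι) : ηh n x ∈ K := by
  have hcomm : ∀ (a : F.ν.ι) (v : X.ι → R),
      (LinearMap.pi fun j => (LinearMap.toSpanSingleton R N (F.ε a)) ∘ₗ
        (LinearMap.proj j)) ((X.dg (DG.triv R R)).d v) =
      (X.dg (DG.triv R N)).d ((LinearMap.pi fun j =>
        (LinearMap.toSpanSingleton R N (F.ε a)) ∘ₗ (LinearMap.proj j)) v) := by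
    intro a v
    funext x
    simp only [BC.dg_d, DG.triv, LinearMap.pi_apply, LinearMap.comp_apply, LinearMap.proj_apply,
      LinearMap.toSpanSingleton_apply, BC.op_apply, LinearMap.zero_apply, smul_zero, add_zero,
      smul_eq_mul, sum_smul, mul_smul]
  obtain ⟨v, hv, -⟩ := (F.qiPi X.ι).acyc F.g0 F.σ0 (X.dg (DG.triv R R))
    (X.dg (DG.triv R N)) hcomm ηh h1 (by
      funext x
      rw [Finset.sum_apply]
      exact h2 x)
  rw [← hv]
  have h3 : F.ν.op (X.dg (DG.triv R R)).d v n x =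
      (∑ n', F.ν.m n n' • v n') x + (F.ν.σ n • (X.op (0 : R →ₗ[R] R) (v n))) x := rfl
  rw [h3, Pi.smul_apply, BC.op_apply, LinearMap.zero_apply, smul_zero, add_zero, Finset.sum_apply]
  refine Ideal.add_mem _ (Ideal.sum_mem _ fun b _ => ?_) ?_
  · exact Ideal.mul_mem_right _ _ (hF n b)
  · have h8 : ∑ b, X.m x b • v n b ∈ K :=
      Ideal.sum_mem _ fun b _ => Ideal.mul_mem_right _ _ (hK x b)
    rw [← Int.cast_smul_eq_zsmul R]
    exact Ideal.mul_mem_left _ _ h8

end Trunc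

theorem exists_DD_all {S : Type u} [CommRing S] [IsLocalRing S] [IsNoetherianRing S] (I : Ideal S)
    [IsLocalRing (S ⧸ I)] (N : Type u) [AddCommGroup N] [Module S N] [Module (S ⧸ I) N]
    [IsScalarTower S (S ⧸ I) N] (s : ℕ) (FN : FRes (S ⧸ I) N s)
    (FP : FRes (S ⧸ I) (I →ₗ[S] N) s)
    (hσN : ∀ a, FN.ν.σ a = (-1) ^ (FN.ν.g a).toNat) (hσP : ∀ a, FP.ν.σ a = (-1) ^ (FP.ν.g a).toNat)
    (hminN : ∀ a b, FN.ν.m a b ∈ maximalIdeal (S ⧸ I))
    (hmin : ∀ a b, FP.ν.m a b ∈ maximalIdeal (S ⧸ I)) :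
    ∃ D : DD S I, ∀ c : Fin D.N → S, (∀ x, D.evη c x ∈ maximalIdeal (S ⧸ I)) →
      ∃ û : FN.ν.ι → FP.ν.ι → S ⧸ I,
        ChainLift FN FP (evP I N ⟨D.evF c, D.evF_mem c⟩) û ∧
        ∀ n x, û n x ∈ maximalIdeal (S ⧸ I) := by
  obtain ⟨k, F, hF⟩ := (Submodule.fg_iff_exists_fin_generating_family
    (N := I)).mp (IsNoetherian.noetherian _)
  have hFI : ∀ i, F i ∈ I := fun i => by rw [← hF]; exact Submodule.subset_span ⟨i, rfl⟩
  let X := FP.ν.dualS s
  -- the functions `x ↦ ε x f`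
  have hcyc : ∀ (f : I) (x : X.ι), ∑ y, X.m x y • FP.ε y f = 0 := by
    intro f x
    have h1 := congrArg (evP I N f) (FP.sum_m_ε x)
    rw [map_sum, map_zero] at h1
    rw [← h1]
    exact sum_congr rfl fun y _ => ((evP I N f).map_smul _ _).symm
  have hsupp : ∀ (f : I) (x : X.ι), FP.ε x f ≠ 0 → X.g x = s := by
    intro f x h
    have h1 : FP.ν.g x = 0 := by
      by_contra h2
      exact h (by rw [FP.ε0 x h2]; rfl)
    change (s : ℤ) - FP.ν.g x = s
    rw [h1, sub_zero]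
  choose ηh hη1 hη2 hη3 using fun i => FN.lift_deg X s (fun x => FP.ε x ⟨F i, hFI i⟩)
    (hcyc ⟨F i, hFI i⟩) (hsupp ⟨F i, hFI i⟩)
  -- linear combinations
  let ηc : (Fin k → S) → FN.ν.ι → X.ι → S ⧸ I :=
    fun c => ∑ i, Ideal.Quotient.mk I (c i) • ηh i
  have hηc : ∀ c n x, ηc c n x = ∑ i, Ideal.Quotient.mk I (c i) * ηh i n x := by
    intro c n x
    simp only [ηc, Finset.sum_apply, Pi.smul_apply, smul_eq_mul]
  have hηc1 : ∀ c, FN.ν.op (X.op (0 : (S ⧸ I) →ₗ[S ⧸ I] (S ⧸ I))) (ηc c) = 0 := by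
    intro c
    simp only [ηc, map_sum, map_smul, hη1, smul_zero, sum_const_zero]
  have hηc2 : ∀ c n x, ηc c n x ≠ 0 → FN.ν.g n + X.g x = s := by
    intro c n x h
    rw [hηc] at h
    obtain ⟨i, -, hi⟩ := exists_ne_zero_of_sum_ne_zero h
    exact hη2 i n x (fun h0 => hi (by rw [h0, mul_zero]))
  have hcI : ∀ c : Fin k → S, ∑ i, c i * F i ∈ I := fun c =>
    I.sum_mem fun i _ => I.mul_mem_left _ (hFI i)
  have hηc3 : ∀ (c : Fin k → S) x, ∑ n, ηc c n x • FN.ε n = FP.ε x ⟨∑ i, c i * F i, hcI c⟩ := by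
    intro c x
    simp only [hηc, sum_smul, mul_smul]
    rw [sum_comm]
    have h1 : (⟨∑ i, c i * F i, hcI c⟩ : I) = ∑ i, c i • (⟨F i, hFI i⟩ : I) := by
      apply Subtype.ext
      rw [AddSubmonoidClass.coe_finsetSum]
      rfl
    rw [h1, map_sum]
    refine sum_congr rfl fun i _ => ?_
    rw [← smul_sum, hη3, map_smul]
    exact algebraMap_smul (S ⧸ I) (c i) (FP.ε x ⟨F i, hFI i⟩)
  refine ⟨{
    N := k
    F := F
    hF := hF
    X := (FN.ν.tensor X).tr s
    hX := ?_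
    hσ := ?_
    hXm := ?_
    η := fun i x => ηh i x.1.1 x.1.2
    hη := ?_
    rel := ?_
    star := ?_ }, ?_⟩
  · rintro ⟨⟨n, x⟩, h⟩
    change (s : ℤ) ≤ FN.ν.g n + X.g x at h
    change 0 ≤ FN.ν.g n + X.g x - s
    omega
  · rintro ⟨⟨n, x⟩, h⟩ h'
    have h1 : FN.ν.g n = FP.ν.g x := by
      change FN.ν.g n + ((s : ℤ) - FP.ν.g x) - s = 0 at h'
      omega
    change (-1) ^ s * (FN.ν.σ n * ((-1) ^ s * FP.ν.σ x)) = 1
    rw [hσN, hσP, h1]
    have h2 : ((-1 : ℤ) ^ s) * (-1) ^ s = 1 := by rw [← mul_pow]; norm_num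
    have h3 : ((-1 : ℤ) ^ (FP.ν.g x).toNat) * (-1) ^ (FP.ν.g x).toNat = 1 := by
      rw [← mul_pow]; norm_num
    linear_combination h2 * ((-1 : ℤ) ^ (FP.ν.g x).toNat) * (-1) ^ (FP.ν.g x).toNat + h3
  · rintro ⟨⟨n, x⟩, h⟩ ⟨⟨n', y⟩, h'⟩
    change (-1) ^ s * (FN.ν.m n n' * (if x = y then 1 else 0) +
      (if n = n' then 1 else 0) * ((FN.ν.σ n : S ⧸ I) * FP.ν.m y x)) ∈ _
    refine Ideal.mul_mem_left _ _ (Ideal.add_mem _ (Ideal.mul_mem_right _ _ (hminN n n')) ?_)
    exact Ideal.mul_mem_left _ _ (Ideal.mul_mem_left _ _ (hmin y x))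
  · rintro i ⟨⟨n, x⟩, h'⟩ h
    have h1 := hη2 i n x h
    change FN.ν.g n + X.g x - s = 0
    omega
  · rintro c hc ⟨⟨n, x⟩, h⟩
    have h1 := FN.all_mem X (maximalIdeal (S ⧸ I)) hminN (fun x y => hmin y x) (ηc c) (hηc1 c) (by
      intro x
      rw [hηc3]
      have : (⟨∑ i, c i * F i, hcI c⟩ : I) = 0 := Subtype.ext hc
      rw [this, map_zero]) n x
    rw [hηc] at h1
    exact h1
  · -- the star property
    intro r c hreg w hf D
    obtain ⟨θ, hθ1, hθ2, hθ3⟩ := exists_atiyah I D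
    let e : N →ₗ[S ⧸ I] (∀ n, Fin (w.b n) → S ⧸ I) →ₗ[S ⧸ I] (∀ n, Fin (w.b n) → N) :=
      LinearMap.mk₂ (S ⧸ I) (fun y v n i => v n i • y)
        (fun y y' v => by funext n i; exact smul_add _ _ _)
        (fun a y v => by funext n i; exact smul_comm _ _ _)
        (fun y v v' => by funext n i; exact add_smul _ _ _)
        (fun a y v => by funext n i; exact mul_smul _ _ _)
    have he : ∀ y v n i, e y v n i = v n i • y := fun y v n i => rfl
    obtain ⟨α, hα1, hα2⟩ := star_all FN X (w.dg I hf (S ⧸ I)) (w.dg I hf N) e (by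
        intro y v
        funext n i
        rw [he]
        change ∑ j, Ideal.Quotient.mk I (w.G n i j) • e y v (n + 1) j =
          (∑ j, Ideal.Quotient.mk I (w.G n i j) • v (n + 1) j) • y
        rw [sum_smul]
        exact sum_congr rfl fun j _ => by rw [he, smul_eq_mul, mul_smul]) (by
        have h1 := QIData.pi (V := fun n => Fin (w.b n) → S ⧸ I) (W := fun n => Fin (w.b n) → N)
          (fun n => FN.qiPi (Fin (w.b n)))
        have h2 : (fun a => e (FN.ε a)) = (fun a => LinearMap.pi fun n =>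
          (LinearMap.pi fun j : Fin (w.b n) => (LinearMap.toSpanSingleton (S ⧸ I) N (FN.ε a)) ∘ₗ
            (LinearMap.proj j)) ∘ₗ (LinearMap.proj n)) := by
          funext a
          refine LinearMap.ext fun v => ?_
          funext n i
          rfl
        rw [h2]
        exact h1)
      (w.chi I (S ⧸ I)) (fun l => w.op2 hreg I hf (S ⧸ I) l) (fun l => ηc (c l))
      (fun l => hηc1 (c l)) D (fun x a c => FP.ε x (θ a c)) (by
        intro x a c h
        refine ⟨hsupp _ x h, hθ1 a c fun h0 => h ?_⟩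
        rw [h0, map_zero]) (by
        intro x a c
        exact hcyc (θ a c) x) (by
        intro x a c
        exact hθ2 N (FP.ε x) a c) (by
        intro z hz
        obtain ⟨y, hy⟩ := hθ3 r _ w hf z hz
        refine ⟨fun x a n i => X.σ x • FP.ε x (y a n i), ?_⟩
        funext x a
        have h1 := congrFun (hy N (FP.ε x)) a
        have h2 : X.op (D.op (w.dg I hf N).d) (fun x a n i => X.σ x • FP.ε x (y a n i)) x a =
            D.op (w.dg I hf N).d (fun a n i => FP.ε x (y a n i)) a := by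
          rw [BC.op_apply]
          have h3 : (fun a n i => X.σ x • FP.ε x (y a n i)) =
              X.σ x • (fun a n i => FP.ε x (y a n i)) := rfl
          rw [h3, map_zsmul, X.σσ_smul, Pi.add_apply]
          have h4 : (∑ x', X.m x x' • (fun a n i => X.σ x' • FP.ε x' (y a n i))) = 0 := by
            funext a n i
            simp only [Finset.sum_apply, Pi.smul_apply, Pi.zero_apply]
            have h5 : ∀ x', X.m x x' • X.σ x' • FP.ε x' (y a n i) =
                - (X.σ x • X.m x x' • FP.ε x' (y a n i)) := fun x' => X.σmm x x' _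
            simp only [h5, sum_neg_distrib, ← smul_sum, hcyc, smul_zero, neg_zero]
          rw [h4]
          simp
        rw [h2, ← h1]
        funext n i
        simp only [Pi.add_apply, Finset.sum_apply, he, hηc3])
    have hop : ∀ (Z : FN.ν.ι → X.ι → D.ι → ∀ n, Fin (w.b n) → S ⧸ I)
        (p : ((FN.ν.tensor X).tr s).ι × D.ι),
        (((FN.ν.tensor X).tr s).tensor D).op (w.dg I hf (S ⧸ I)).d
          (fun q => Z q.1.1.1 q.1.1.2 q.2) p =
          ((-1 : ℤ) ^ s) • FN.ν.op (X.op (D.op (w.dg I hf (S ⧸ I)).d)) Z p.1.1.1 p.1.1.2 p.2 := by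
      rintro Z ⟨⟨⟨n, x⟩, h⟩, a⟩
      rw [BC.tensor_op]
      have h1 := BC.tr_op (FN.ν.tensor X) s (D.op (w.dg I hf (S ⧸ I)).d)
        (fun y => Z y.1 y.2) ⟨(n, x), h⟩
      have h2 := congrFun h1 a
      refine h2.trans ?_
      rw [Pi.smul_apply]
      congr 1
      exact congrFun (BC.tensor_op FN.ν X (D.op (w.dg I hf (S ⧸ I)).d) (fun y => Z y.1 y.2) n x) a
    refine ⟨fun x c => α x.1.1.1 x.1.1.2 x.2 c, fun x a c h => ?_, fun z hz => ⟨?_, ?_⟩⟩
    · exact hα1 x.1.1 x.1.2 a c h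
    · obtain ⟨h1, _⟩ := hα2 z hz
      funext p
      have h2 := hop (fun n x a => ∑ c, α n x a c • z c) p
      refine h2.trans ?_
      rw [h1]
      simp
    · obtain ⟨_, v, hv⟩ := hα2 z hz
      refine ⟨fun q => ((-1 : ℤ) ^ s) • v q.1.1.1 q.1.1.2 q.2, ?_⟩
      funext p
      rw [BC.dg_d]
      have h2 := hop (fun n x a => ((-1 : ℤ) ^ s) • v n x a) p
      refine Eq.trans ?_ h2.symm
      have h3 : (fun n x a => ((-1 : ℤ) ^ s) • v n x a) = ((-1 : ℤ) ^ s) • v := rfl
      rw [h3, map_zsmul, ← hv, Pi.smul_apply, Pi.smul_apply, Pi.smul_apply, smul_smul, ← mul_pow]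
      norm_num
      simp only [Pi.add_apply, Finset.sum_apply, mulV, hηc]
  · -- the chain lift
    intro c hc
    refine ⟨fun n x => ηc c n x, ⟨fun n x h => ?_, fun n x => ?_, fun x => ?_⟩, fun n x => ?_⟩
    · have h1 := hηc2 c n x h
      change FN.ν.g n + ((s : ℤ) - FP.ν.g x) = s at h1
      omega
    · have h1 := congrFun (congrFun (hηc1 c) n) x
      rw [BC.op_apply, Pi.add_apply, Finset.sum_apply, Pi.smul_apply, BC.op_apply,
        LinearMap.zero_apply, smul_zero, add_zero] at h1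
      have h2 := eq_neg_of_add_eq_zero_left h1
      simp only [Pi.smul_apply, smul_eq_mul] at h2
      refine h2.trans ?_
      rw [neg_smul]
      congr 2
      exact sum_congr rfl fun y _ => mul_comm _ _
    · exact hηc3 c x
    · change ηc c n x ∈ maximalIdeal (S ⧸ I)
      by_cases hnx : ηc c n x = 0
      · rw [hnx]; exact Ideal.zero_mem _
      · have h0 := hηc2 c n x hnx
        have h1 := hc ⟨(n, x), by
          change (s : ℤ) ≤ FN.ν.g n + X.g x
          omega⟩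
        have h2 : ηc c n x ∈ maximalIdeal (S ⧸ I) := by
          rw [hηc]
          exact h1
        exact h2

end Pool.Agent.CN
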