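import Pool.Agent.CN.QI

/-!
# Definitions for the core step: compositions, operators of degree `-2`, the star property
-/

universe u

namespace Pool.Agent.CN

open Finset IsLocalRing

variable {R : Type u} [CommRing R]

/-- compositions of `2 ^ n` chain maps with entries in the ideal `J` -/
def Comps (J : Ideal R) : ℕ → ∀ (D' D : BC R), (D.ι → D'.ι → R) → Prop
  | 0, D', D, φ => CM D' D φ ∧ ∀ a b, φ a b ∈ J
  | n + 1, D'', D, φ => ∃ (D' : BC R) (φ₁ : D.ι → D'.ι → R) (φ₂ : D'.ι → D''.ι → R),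
      Comps J n D' D φ₁ ∧ Comps J n D'' D' φ₂ ∧ φ = fun a c => ∑ b, φ₁ a b * φ₂ b c

lemma Comps.cm {J : Ideal R} {n : ℕ} {D' D : BC R} {φ : D.ι → D'.ι → R} (h : Comps J n D' D φ) :
    CM D' D φ := by
  induction n generalizing D' D φ with
  | zero => exact h.1
  | succ n ih =>
    obtain ⟨D₁, φ₁, φ₂, h1, h2, rfl⟩ := h
    exact (ih h1).comp (ih h2)

/-- an operator of degree `-2` commuting with the differential -/
structure Op2 {V : Type u} [AddCommGroup V] [Module R V] (A : DG R V) (χ : V →ₗ[R] V) :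
    Prop where
  comm : ∀ v, A.d (χ v) = χ (A.d v)
  deg : ∀ t v, χ (A.p t v) = A.p (t - 2) (χ v)

/-- The star property: for every complex `D` there is a matrix `α` lowering the degree by `2`,
mapping cycles to cycles, with `α z + ∑ l, η l ⊗ χ l z` a boundary for all cycles `z`. -/
def Star {V : Type u} [AddCommGroup V] [Module R V] (A : DG R V) (X : BC R) (r : ℕ)
    (χ : Fin r → V →ₗ[R] V) (η : Fin r → X.ι → R) : Prop :=
  ∀ D : BC R, ∃ α : (X.ι × D.ι) → D.ι → R,
    (∀ x a c, α (x, a) c ≠ 0 → X.g x + D.g a = D.g c - 2) ∧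
    ∀ z : D.ι → V, D.op A.d z = 0 →
      (X.tensor D).op A.d (mulV α z) = 0 ∧
      Bdy ((X.tensor D).dg A)
        (mulV α z + ∑ l, fun xa : X.ι × D.ι => η l xa.1 • χ l (z xa.2))

/-- exactness of the cone of `χ` in degrees `≥ t₀` -/
def ConeExact {V : Type u} [AddCommGroup V] [Module R V] (A : DG R V) (χ : V →ₗ[R] V)
    (t₀ : ℤ) : Prop :=
  ∀ t, t₀ ≤ t → ∀ u v : V, A.p t u = u → A.p (t - 1) v = v → A.d u = 0 → χ u + A.d v = 0 →
    ∃ u' v', A.p (t + 1) u' = u' ∧ A.p t v' = v' ∧ A.d u' = u ∧ - χ u' - A.d v' = v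

/-- surjectivity of `χ` on the homology of `D ⊗ V` in degrees `≥ t₀` -/
def ChiSurj {V : Type u} [AddCommGroup V] [Module R V] (A : DG R V) (χ : V →ₗ[R] V)
    (D : BC R) (t₀ : ℤ) : Prop :=
  ∀ t, t₀ ≤ t → ∀ z : D.ι → V, D.op A.d z = 0 → D.pr A.p t z = z →
    ∃ u : D.ι → V, D.op A.d u = 0 ∧ D.pr A.p (t + 2) u = u ∧
      Bdy (D.dg A) (fun a => z a - χ (u a))

/-- the ring as a complex -/
def BC.one (R : Type u) [CommRing R] : BC R where
  ι := Unit
  fin := inferInstance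
  dec := inferInstance
  g _ := 0
  σ _ := 1
  m _ _ := 0
  pm _ := Or.inl rfl
  deg _ _ h := absurd rfl h
  sgn _ _ h := absurd rfl h
  sq _ _ := by simp

end Pool.Agent.CN
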