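import Pool.Agent.CN.Cases
import Pool.Agent.CN.DDAll

/-!
# Detection in all degrees

`gen_of_und`: if every `f ∈ I` such that the evaluation at `f` lifts to a chain map of minimal
resolutions with all entries in the maximal ideal lies in `𝔪 I`, then `I` is generated by a
regular sequence.
-/

universe u

namespace Pool.Agent.CN

open Finset IsLocalRing Pool.Agent.Helper19 RingTheory.Sequence

/-- A chain map `w` over `φ`. -/
structure CMap {R : Type u} [CommRing R] {N P : Type u} [AddCommGroup N] [Module R N]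
    [AddCommGroup P] [Module R P] {s : ℕ} (FN : FRes R N s) (FP : FRes R P s) (φ : P →ₗ[R] N)
    (w : FN.ν.ι → FP.ν.ι → R) : Prop where
  deg : ∀ n x, w n x ≠ 0 → FN.ν.g n = FP.ν.g x
  comm : ∀ n x, ∑ n', FN.ν.m n n' * w n' x = ∑ y, w n y * FP.ν.m y x
  lift : ∀ x, ∑ n, w n x • FN.ε n = φ (FP.ε x)

/-- the same resolution with the signs `(-1) ^ degree` -/
def FRes.norm {R : Type u} [CommRing R] {N : Type u} [AddCommGroup N] [Module R N] {s : ℕ}
    (F : FRes R N s) : FRes R N s where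
  ν :=
    { ι := F.ν.ι
      fin := F.ν.fin
      dec := F.ν.dec
      g := F.ν.g
      σ := fun a => (-1) ^ (F.ν.g a).toNat
      m := F.ν.m
      pm := fun a => neg_one_pow_eq_or ℤ _
      deg := F.ν.deg
      sgn := fun a b h => by
        have h1 := F.ν.deg a b h
        have h2 := F.g0 a
        have h3 : (F.ν.g b).toNat = (F.ν.g a).toNat + 1 := by omega
        rw [h3, pow_succ]
        ring
      sq := F.ν.sq }
  ε := F.ε
  g0 := F.g0
  gs := F.gs
  σ0 := fun a h => by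
    have h1 : F.ν.g a = 0 := h
    show (-1 : ℤ) ^ (F.ν.g a).toNat = 1
    rw [h1]
    rfl
  σs := fun a h => by
    have h1 : F.ν.g a = s := h
    show (-1 : ℤ) ^ (F.ν.g a).toNat = (-1) ^ s
    rw [h1]
    rfl
  qi :=
    { E0 := F.qi.E0
      surj := F.qi.surj
      Em := F.qi.Em
      ex0 := F.qi.ex0
      ex := F.qi.ex }

private def eta (k : ℕ) : ℤ := (-1) ^ (k * (k + 1) / 2)

private theorem eta_succ (k : ℕ) : eta (k + 1) = eta k * (-1) ^ (k + 1) := by
  unfold eta
  rw [← pow_add]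
  congr 1
  have h1 : (k + 1) * (k + 1 + 1) = k * (k + 1) + 2 * (k + 1) := by ring
  rw [h1, Nat.add_mul_div_left _ _ (by norm_num)]

/-- from `ChainLift` to `CMap` -/
private theorem cmap_of_lift {R : Type u} [CommRing R] {N P : Type u} [AddCommGroup N] [Module R N]
    [AddCommGroup P] [Module R P] {s : ℕ} (FN : FRes R N s) (FP : FRes R P s) (φ : P →ₗ[R] N)
    (hσ : ∀ a, FN.ν.σ a = (-1) ^ (FN.ν.g a).toNat)
    (û : FN.ν.ι → FP.ν.ι → R) (h : ChainLift FN FP φ û) :
    CMap FN FP φ (fun n x => (eta (FN.ν.g n).toNat : R) * û n x) where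
  deg n x hn := h.deg n x (right_ne_zero_of_mul hn)
  comm n x := by
    have h1 : ∀ n', FN.ν.m n n' * ((eta (FN.ν.g n').toNat : R) * û n' x) =
        ((eta (FN.ν.g n).toNat * (-1) ^ ((FN.ν.g n).toNat + 1) : ℤ) : R) * (FN.ν.m n n' * û n' x) := by
      intro n'
      by_cases h2 : FN.ν.m n n' = 0
      · rw [h2, zero_mul, zero_mul, mul_zero]
      · have h3 := FN.ν.deg n n' h2
        have h4 := FN.g0 n
        have h5 : (FN.ν.g n').toNat = (FN.ν.g n).toNat + 1 := by omega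
        rw [h5, eta_succ]
        ring
    rw [sum_congr rfl fun n' _ => h1 n', ← mul_sum, h.comm n x, hσ, ← Int.cast_smul_eq_zsmul R,
      smul_eq_mul, ← mul_assoc, ← Int.cast_mul]
    have h6 : (eta (FN.ν.g n).toNat * (-1) ^ ((FN.ν.g n).toNat + 1)) * -(-1) ^ (FN.ν.g n).toNat =
        eta (FN.ν.g n).toNat := by
      have h7 : ((-1 : ℤ) ^ (FN.ν.g n).toNat) * (-1) ^ (FN.ν.g n).toNat = 1 := by
        rw [← mul_pow]; norm_num
      rw [pow_succ]
      linear_combination eta (FN.ν.g n).toNat * h7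
    rw [h6, mul_sum]
    refine sum_congr rfl fun y _ => ?_
    ring
  lift x := by
    rw [← h.lift x]
    refine sum_congr rfl fun n _ => ?_
    by_cases hn : FN.ν.g n = 0
    · rw [hn]
      have h1 : eta ((0 : ℤ).toNat) = 1 := rfl
      rw [h1, Int.cast_one, one_mul]
    · rw [FN.ε0 n hn, smul_zero, smul_zero]

variable {S : Type u} [CommRing S] [IsLocalRing S] [IsNoetherianRing S] {I : Ideal S}
  [IsLocalRing (S ⧸ I)] {N : Type u} [AddCommGroup N] [Module S N] [Module (S ⧸ I) N]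
  [IsScalarTower S (S ⧸ I) N]

theorem gen_of_und (hI : I ≠ ⊤) (h0 : FPD ⊥ I) {s : ℕ} (FN : FRes (S ⧸ I) N s)
    (FP : FRes (S ⧸ I) (I →ₗ[S] N) s) (hminN : ∀ a b, FN.ν.m a b ∈ maximalIdeal (S ⧸ I))
    (hminP : ∀ a b, FP.ν.m a b ∈ maximalIdeal (S ⧸ I))
    (hund : ∀ (f : I) (w : FN.ν.ι → FP.ν.ι → S ⧸ I), CMap FN FP (evP I N f) w →
      (∀ n x, w n x ∈ maximalIdeal (S ⧸ I)) → f.1 ∈ maximalIdeal S * I) :
    ∃ rs : List S, IsRegular S rs ∧ Ideal.ofList rs = I := by
  obtain ⟨D, hD⟩ := exists_DD_all I N s FN.norm FP.norm (fun _ => rfl) (fun _ => rfl) hminN hminP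
  obtain ⟨r, c, h1, h2, h3⟩ := key I hI D h0
  have hJI : Ideal.span (Set.range fun l => D.evF (c l)) ≤ I := by
    rw [Ideal.span_le]
    rintro _ ⟨l, rfl⟩
    exact D.evF_mem _
  have h4 : I ≤ Ideal.span (Set.range fun l => D.evF (c l)) := by
    have h5 : I ≤ Ideal.span (Set.range fun l => D.evF (c l)) ⊔ maximalIdeal S • I := by
      intro x hx
      obtain ⟨c', hc'⟩ := D.exists_evF hx
      obtain ⟨s', hs'⟩ := h3 c'
      obtain ⟨û, hû1, hû2⟩ := hD _ hs'
      have hc := cmap_of_lift FN.norm FP.norm _ (fun _ => rfl) û hû1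
      have h7 := hund ⟨_, D.evF_mem _⟩ (fun n x => (eta (FN.ν.g n).toNat : S ⧸ I) * û n x)
        ⟨hc.deg, hc.comm, hc.lift⟩ (fun n x => Ideal.mul_mem_left _ _ (hû2 n x))
      have h8 := D.evF_sub c' (fun i => ∑ l, s' l * c l i)
      rw [D.evF_sum] at h8
      have h9 : D.evF (fun i => c' i - ∑ l, s' l * c l i) ∈ maximalIdeal S * I := h7
      rw [h8, hc'] at h9
      have h10 : ∑ l, s' l * D.evF (c l) ∈ Ideal.span (Set.range fun l => D.evF (c l)) :=
        Ideal.sum_mem _ fun l _ => Ideal.mul_mem_left _ _ (Ideal.subset_span ⟨l, rfl⟩)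
      have h11 : x = ∑ l, s' l * D.evF (c l) + (x - ∑ l, s' l * D.evF (c l)) := by ring
      rw [h11]
      exact Submodule.add_mem_sup h10 h9
    exact Submodule.le_of_le_smul_of_le_jacobson_bot (IsNoetherian.noetherian I)
      (IsLocalRing.maximalIdeal_le_jacobson ⊥) h5
  obtain ⟨rs, h5, h6⟩ := exists_isRegular_of_regFam _
    (fun l => IsLocalRing.le_maximalIdeal hI (D.evF_mem (c l))) h1
  exact ⟨rs, h5, h6.trans (le_antisymm hJI h4)⟩

end Pool.Agent.CN
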