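import Pool.Agent.CN.Main

/-!
# Reduction modulo a regular sequence under vanishing of `Ext`
-/

universe u

open CategoryTheory Abelian IsLocalRing RingTheory.Sequence Pool.Agent.Helper19
open scoped Pointwise

namespace Pool.Agent.CN

/-- `N → N → N/xN` is exact -/
lemma exact_lsmul_mkQ {R : Type u} [CommRing R] (N : Type u) [AddCommGroup N] [Module R N]
    (x : R) : Function.Exact (LinearMap.lsmul R N x) (Submodule.mkQ (x • (⊤ : Submodule R N))) := by
  intro y
  rw [Submodule.mkQ_apply, Submodule.Quotient.mk_eq_zero, Submodule.mem_smul_pointwise_iff_exists]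
  constructor
  · rintro ⟨z, -, rfl⟩
    exact ⟨z, rfl⟩
  · rintro ⟨z, rfl⟩
    exact ⟨z, trivial, rfl⟩

/-- the short exact sequence `0 → N → N → N/xN → 0` -/
lemma shortExact_quot {R : Type u} [CommRing R] (N : Type u) [AddCommGroup N] [Module R N]
    (x : R) (hx : IsSMulRegular N x) :
    (ShortComplex.moduleCatMk (LinearMap.lsmul R N x) (Submodule.mkQ (x • (⊤ : Submodule R N)))
      (exact_lsmul_mkQ N x).linearMap_comp_eq_zero).ShortExact :=
  shortExact_mk (f := LinearMap.lsmul R N x) (g := Submodule.mkQ (x • (⊤ : Submodule R N)))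
    hx (Submodule.mkQ_surjective _) (exact_lsmul_mkQ N x)

/-- one step: `x` regular on `N`, `Ext^1(M,N) = 0` -/
theorem pd_hom_quotSMulTop {R : Type u} [CommRing R] (M N : Type u) [AddCommGroup M] [Module R M]
    [AddCommGroup N] [Module R N] (x : R) (hx : IsSMulRegular N x) (n : ℕ)
    (hpd : PD R (M →ₗ[R] N) n)
    (hE : Subsingleton (Ext (ModuleCat.of R M) (ModuleCat.of R N) 1)) :
    PD R (M →ₗ[R] QuotSMulTop x N) (n + 1) := by
  have hfinj : Function.Injective (LinearMap.lsmul R (M →ₗ[R] N) x) := by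
    intro a b hab
    ext m
    exact hx (LinearMap.congr_fun hab m)
  have hexact : Function.Exact (LinearMap.lsmul R (M →ₗ[R] N) x)
      (LinearMap.compRight R (Submodule.mkQ (x • (⊤ : Submodule R N))) :
        (M →ₗ[R] N) →ₗ[R] M →ₗ[R] QuotSMulTop x N) := by
    intro φ
    constructor
    · intro h
      have h1 : ∀ m, ∃ z, x • z = φ m := by
        intro m
        have h2 : Submodule.mkQ (x • (⊤ : Submodule R N)) (φ m) = 0 := LinearMap.congr_fun h m
        exact (exact_lsmul_mkQ N x (φ m)).mp h2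
      choose ψ hψ using h1
      refine ⟨{ toFun := ψ, map_add' := ?_, map_smul' := ?_ }, ?_⟩
      · intro a b
        apply hx
        change x • ψ (a + b) = x • (ψ a + ψ b)
        rw [smul_add, hψ, hψ, hψ, map_add]
      · intro r a
        apply hx
        change x • ψ (r • a) = x • (r • ψ a)
        rw [smul_comm x r, hψ, hψ, map_smul]
      · ext m
        exact hψ m
    · rintro ⟨ψ, rfl⟩
      ext m
      exact (exact_lsmul_mkQ N x _).mpr ⟨ψ m, rfl⟩
  have hsurj : Function.Surjective (LinearMap.compRight R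
      (Submodule.mkQ (x • (⊤ : Submodule R N))) : (M →ₗ[R] N) →ₗ[R] M →ₗ[R] QuotSMulTop x N) := by
    intro φ
    have hS := shortExact_quot N x hx
    obtain ⟨x₂, hx₂⟩ := Ext.covariant_sequence_exact₃ (X := ModuleCat.of R M) hS
      (Ext.mk₀ (ModuleCat.ofHom φ)) (zero_add 1) (hE.elim _ _)
    obtain ⟨ψ, rfl⟩ := (Ext.mk₀_bijective _ _).2 x₂
    rw [Ext.mk₀_comp_mk₀] at hx₂
    have h1 := (Ext.mk₀_bijective _ _).1 hx₂
    refine ⟨ψ.hom, ?_⟩
    have h2 := congrArg ModuleCat.Hom.hom h1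
    exact h2
  exact pd_coker hfinj hsurj hexact hpd (hpd.mono (Nat.le_succ n))

theorem ext_quotSMulTop {R : Type u} [CommRing R] (M N : Type u) [AddCommGroup M] [Module R M]
    [AddCommGroup N] [Module R N] (x : R) (hx : IsSMulRegular N x) (i : ℕ)
    (hE : Subsingleton (Ext (ModuleCat.of R M) (ModuleCat.of R N) i))
    (hE' : Subsingleton (Ext (ModuleCat.of R M) (ModuleCat.of R N) (i + 1))) :
    Subsingleton (Ext (ModuleCat.of R M) (ModuleCat.of R (QuotSMulTop x N)) i) := by
  have hS := shortExact_quot N x hx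
  have key : ∀ x₃ : Ext (ModuleCat.of R M) (ModuleCat.of R (QuotSMulTop x N)) i, x₃ = 0 := by
    intro x₃
    obtain ⟨x₂, hx₂⟩ := Ext.covariant_sequence_exact₃ (X := ModuleCat.of R M) hS
      x₃ rfl (hE'.elim _ _)
    have h0 : x₂ = 0 := hE.elim _ _
    rw [h0, Ext.zero_comp] at hx₂
    exact hx₂.symm
  exact ⟨fun a b => (key a).trans (key b).symm⟩

/-- The main theorem with vanishing of `Ext`. -/
theorem ext_theorem (S : Type u) [CommRing S] [IsLocalRing S] [IsNoetherianRing S]
    (I : Ideal S) (hI : I ≠ ⊤) (hpd : projectiveDimension (ModuleCat.of S (S ⧸ I)) < ⊤)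
    (rs : List (S ⧸ I)) :
    ∀ (N : Type u) [AddCommGroup N] [Module (S ⧸ I) N] [Module.Finite (S ⧸ I) N] [Nontrivial N]
    (_ : projectiveDimension (ModuleCat.of (S ⧸ I) N) < ⊤)
    (_ : projectiveDimension (ModuleCat.of (S ⧸ I) (I.Cotangent →ₗ[S ⧸ I] N)) < ⊤)
    (_ : IsRegular N rs)
    (_ : ∀ i, 1 ≤ i → i ≤ rs.length →
      Subsingleton (Ext (ModuleCat.of (S ⧸ I) I.Cotangent) (ModuleCat.of (S ⧸ I) N) i))
    (_ : (∃ v : N ⧸ (Ideal.ofList rs • ⊤ : Submodule (S ⧸ I) N), v ≠ 0 ∧
        ∀ r ∈ maximalIdeal S, Ideal.Quotient.mk I r • v = 0) ∨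
      Module.supportDim (S ⧸ I) (N ⧸ (Ideal.ofList rs • ⊤ : Submodule (S ⧸ I) N)) ≤ 1),
    ∃ rs : List S, IsRegular S rs ∧ Ideal.ofList rs = I := by
  induction rs with
  | nil =>
    intro N _ _ _ _ hN hHom _ _ h
    have hbot : (Ideal.ofList ([] : List (S ⧸ I)) • ⊤ : Submodule (S ⧸ I) N) = ⊥ := by
      rw [Ideal.ofList_nil, Submodule.bot_smul]
    let e := Submodule.quotEquivOfEqBot _ hbot
    refine main_theorem S I hI hpd N hN hHom ?_
    rcases h with ⟨v, hv, hmv⟩ | hdim
    · left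
      refine ⟨e v, fun h0 => hv ?_, fun r hr => ?_⟩
      · exact e.map_eq_zero_iff.mp h0
      · rw [← map_smul, hmv r hr, map_zero]
    · right
      rwa [Module.supportDim_eq_of_equiv e] at hdim
  | cons x rs' ih =>
    intro N _ _ _ _ hN hHom hreg hE h
    obtain ⟨hx, hreg'⟩ := (isRegular_cons_iff N x rs').mp hreg
    have hnt : Nontrivial (QuotSMulTop x N) := hreg'.nontrivial
    have hl : (x :: rs').length = rs'.length + 1 := rfl
    obtain ⟨k, hk⟩ := (projectiveDimension_ne_top_iff _).mp hN.ne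
    obtain ⟨l, hl'⟩ := (projectiveDimension_ne_top_iff _).mp hHom.ne
    have hk1 : PD (S ⧸ I) N (k + 1) := hk
    have hl1 : PD (S ⧸ I) (I.Cotangent →ₗ[S ⧸ I] N) (l + 1) := hl'
    have hN' : projectiveDimension (ModuleCat.of (S ⧸ I) (QuotSMulTop x N)) < ⊤ := by
      have h1 : PD (S ⧸ I) (QuotSMulTop x N) (k + 1 + 1) :=
        pd_coker (f := LinearMap.lsmul (S ⧸ I) N x)
          (g := Submodule.mkQ (x • (⊤ : Submodule (S ⧸ I) N)))
          hx (Submodule.mkQ_surjective _) (exact_lsmul_mkQ N x) hk1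
          (hk1.mono (Nat.le_succ _))
      exact lt_top_iff_ne_top.mpr ((projectiveDimension_ne_top_iff _).mpr ⟨k + 1, h1⟩)
    have hHom' : projectiveDimension (ModuleCat.of (S ⧸ I)
        (I.Cotangent →ₗ[S ⧸ I] QuotSMulTop x N)) < ⊤ := by
      have h1 := pd_hom_quotSMulTop I.Cotangent N x hx (l + 1) hl1
        (hE 1 le_rfl (by rw [hl]; omega))
      exact lt_top_iff_ne_top.mpr ((projectiveDimension_ne_top_iff _).mpr ⟨l + 1, h1⟩)
    refine ih (QuotSMulTop x N) hN' hHom' hreg' ?_ ?_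
    · intro i hi hi'
      exact ext_quotSMulTop I.Cotangent N x hx i (hE i hi (by rw [hl]; omega))
        (hE (i + 1) (by omega) (by rw [hl]; omega))
    · let e := Submodule.quotOfListConsSMulTopEquivQuotSMulTopInner N x rs'
      rcases h with ⟨v, hv, hmv⟩ | hdim
      · left
        refine ⟨e v, fun h0 => hv ?_, fun r hr => ?_⟩
        · exact e.map_eq_zero_iff.mp h0
        · rw [← map_smul, hmv r hr, map_zero]
      · right
        rwa [Module.supportDim_eq_of_equiv e] at hdim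

end Pool.Agent.CN
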