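import Pool.Agent.CN.WDefs
import Pool.Agent.Helper19.PdBasic

/-!
# Finite projective dimension over `S/J`, detection data, chain lifts
-/

universe u

namespace Pool.Agent.CN

open Finset IsLocalRing Pool.Agent.Helper19

/-- `S/I` has finite projective dimension over `S/J` -/
def FPD {S : Type u} [CommRing S] (J I : Ideal S) : Prop :=
  ∃ (A : Type u) (_ : CommRing A) (_ : Algebra S A), Function.Surjective (algebraMap S A) ∧
    RingHom.ker (algebraMap S A) = J ∧ ∃ n, PD A (A ⧸ I.map (algebraMap S A)) (n + 1)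

/-- detection data: generators `F i` of `I`, a complex `X` of free `S/I`-modules in degrees `≥ 0`
with differential in `𝔪`, elements `η i` of degree `0`, such that the star property holds for
all linear combinations of the `F i` forming a regular family. -/
structure DD (S : Type u) [CommRing S] [IsLocalRing S] (I : Ideal S) [IsLocalRing (S ⧸ I)] where
  N : ℕ
  F : Fin N → S
  hF : Ideal.span (Set.range F) = I
  X : BC (S ⧸ I)
  hX : ∀ x, 0 ≤ X.g x
  hσ : ∀ x, X.g x = 0 → X.σ x = 1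
  hXm : ∀ x y, X.m x y ∈ maximalIdeal (S ⧸ I)
  η : Fin N → X.ι → S ⧸ I
  hη : ∀ i x, η i x ≠ 0 → X.g x = 0
  rel : ∀ c : Fin N → S, ∑ i, c i * F i = 0 →
    ∀ x, ∑ i, Ideal.Quotient.mk I (c i) * η i x ∈ maximalIdeal (S ⧸ I)
  star : ∀ (r : ℕ) (c : Fin r → Fin N → S), RegFam (fun l => ∑ i, c l i * F i) →
    ∀ (w : WD S (fun l => ∑ i, c l i * F i)) (hf : ∀ l, ∑ i, c l i * F i ∈ I),
      Star (w.dg I hf (S ⧸ I)) X r (w.chi I (S ⧸ I))
        (fun l x => ∑ i, Ideal.Quotient.mk I (c l i) * η i x)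

namespace DD

variable {S : Type u} [CommRing S] [IsLocalRing S] {I : Ideal S} [IsLocalRing (S ⧸ I)]
  (D : DD S I)

/-- the element of `I` with coefficients `c` -/
def evF (c : Fin D.N → S) : S := ∑ i, c i * D.F i

/-- the element of `X₀` with coefficients `c` -/
def evη (c : Fin D.N → S) (x : D.X.ι) : S ⧸ I := ∑ i, Ideal.Quotient.mk I (c i) * D.η i x

lemma F_mem (i : Fin D.N) : D.F i ∈ I := by
  have h : D.F i ∈ Ideal.span (Set.range D.F) := Ideal.subset_span ⟨i, rfl⟩
  exact le_of_eq D.hF h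

lemma evF_mem (c : Fin D.N → S) : D.evF c ∈ I :=
  I.sum_mem fun i _ => I.mul_mem_left _ (D.F_mem i)

end DD

/-- A lift `û` of `φ : P → N` to the resolutions. -/
structure ChainLift {R : Type u} [CommRing R] {N P : Type u} [AddCommGroup N] [Module R N]
    [AddCommGroup P] [Module R P] {s : ℕ} (FN : FRes R N s) (FP : FRes R P s) (φ : P →ₗ[R] N)
    (û : FN.ν.ι → FP.ν.ι → R) : Prop where
  deg : ∀ n x, û n x ≠ 0 → FN.ν.g n = FP.ν.g x
  comm : ∀ n x, ∑ n', FN.ν.m n n' * û n' x = - FN.ν.σ n • ∑ y, û n y * FP.ν.m y x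
  lift : ∀ x, ∑ n, û n x • FN.ε n = φ (FP.ε x)

/-- evaluation at `f ∈ I` of the maps `I → N` -/
def evP {S : Type u} [CommRing S] (I : Ideal S) (N : Type u) [AddCommGroup N] [Module S N]
    [Module (S ⧸ I) N] [IsScalarTower S (S ⧸ I) N] (f : I) :
    (I →ₗ[S] N) →ₗ[S ⧸ I] N where
  toFun g := g f
  map_add' _ _ := rfl
  map_smul' _ _ := rfl

end Pool.Agent.CN
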