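import Pool.Agent.CN.FDefs
import Pool.Agent.CN.WComm
import Pool.Agent.Helper19.TorInf

/-!
# Exactness of the cone of the last operator in high degrees
-/

universe u

namespace Pool.Agent.CN

open Finset IsLocalRing Pool.Agent.Helper19

namespace WConeP

open TensorProduct

section mats

variable {A : Type u} [CommRing A] {α β : Type} [Fintype α] [DecidableEq α] [Fintype β]
  [DecidableEq β] {Y : Type u} [AddCommGroup Y] [Module A Y]

/-- a matrix as a linear map -/
def mm (M : α → β → A) : (β → A) →ₗ[A] (α → A) where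
  toFun x a := ∑ b, M a b • x b
  map_add' x y := by
    funext a; simp [mul_add, sum_add_distrib]
  map_smul' c x := by
    funext a
    simp only [Pi.smul_apply, smul_eq_mul, RingHom.id_apply, mul_sum]
    exact sum_congr rfl fun b _ => mul_left_comm _ _ _

/-- `A^α ⊗ Y = Y^α` -/
noncomputable def th (A : Type u) [CommRing A] (Y : Type u) [AddCommGroup Y] [Module A Y]
    (α : Type) [Fintype α] [DecidableEq α] : (α → A) ⊗[A] Y ≃ₗ[A] (α → Y) :=
  TensorProduct.comm A _ _ ≪≫ₗ TensorProduct.piScalarRight A A Y α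

omit [Fintype β] in
lemma th_tmul (x : α → A) (y : Y) (a : α) : th A Y α (x ⊗ₜ y) a = x a • y := by
  simp [th]

lemma th_mm (M : α → β → A) (z : (β → A) ⊗[A] Y) (a : α) :
    th A Y α ((mm M).rTensor Y z) a = ∑ b, M a b • th A Y β z b := by
  induction z using TensorProduct.induction_on with
  | zero => simp
  | add x y hx hy => simp only [map_add, Pi.add_apply, hx, hy, smul_add, sum_add_distrib]
  | tmul x y =>
    rw [LinearMap.rTensor_tmul, th_tmul]
    simp only [th_tmul]
    change (∑ b, M a b • x b) • y = _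
    rw [sum_smul]
    exact sum_congr rfl fun b _ => by rw [smul_assoc]

end mats

section cone

variable {A : Type u} [CommRing A] {b : ℕ → ℕ} (f : A)
  (G : ∀ n, Fin (b n) → Fin (b (n + 1)) → A) (C : ∀ n, Fin (b n) → Fin (b (n + 2)) → A)

/-- the index types -/
abbrev Ix (b : ℕ → ℕ) (j : ℕ) : Type := Fin (b (j + 1)) ⊕ Fin (b j)

/-- the matrix of the cone -/
def dM (j : ℕ) : Ix b j → Ix b (j + 1) → A
  | Sum.inl i, Sum.inl k => G (j + 1) i k
  | Sum.inl i, Sum.inr k => if i = k then f else 0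
  | Sum.inr i, Sum.inl k => - C j i k
  | Sum.inr i, Sum.inr k => - G j i k

variable {Y : Type u} [AddCommGroup Y] [Module A Y]

lemma act_inl (j : ℕ) (z : Ix b (j + 1) → Y) (i : Fin (b (j + 1))) :
    ∑ x, dM f G C j (Sum.inl i) x • z x =
      ∑ k, G (j + 1) i k • z (Sum.inl k) + f • z (Sum.inr i) := by
  rw [Fintype.sum_sum_type]
  simp [dM]

lemma act_inr (j : ℕ) (z : Ix b (j + 1) → Y) (i : Fin (b j)) :
    ∑ x, dM f G C j (Sum.inr i) x • z x =
      - ∑ k, C j i k • z (Sum.inl k) - ∑ k, G j i k • z (Sum.inr k) := by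
  rw [Fintype.sum_sum_type]
  simp [dM, sub_eq_add_neg]

lemma dd (sq : ∀ n i k, ∑ j, G n i j * G (n + 1) j k = f * C n i k)
    (comm : ∀ n i k, ∑ j, G n i j * C (n + 1) j k = ∑ j, C n i j * G (n + 2) j k)
    (j : ℕ) (z : Ix b (j + 2) → A) : mm (dM f G C j) (mm (dM f G C (j + 1)) z) = 0 := by
  have hsum : ∀ (n : ℕ) {p q : ℕ} (M : Fin (b n) → Fin p → A) (N : Fin p → Fin q → A)
      (x : Fin q → A) (i : Fin (b n)),
      ∑ k, M i k * ∑ l, N k l * x l = ∑ l, (∑ k, M i k * N k l) * x l := by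
    intro n p q M N x i
    simp only [mul_sum, sum_mul]
    rw [sum_comm]
    exact sum_congr rfl fun _ _ => sum_congr rfl fun _ _ => by ring
  funext a
  rcases a with i | i
  · change ∑ x, dM f G C j (Sum.inl i) x • (mm (dM f G C (j + 1)) z) x = 0
    rw [act_inl]
    have h1 : ∀ k, (mm (dM f G C (j + 1)) z) (Sum.inl k) =
        ∑ l, G (j + 2) k l * z (Sum.inl l) + f * z (Sum.inr k) := fun k =>
      act_inl f G C (j + 1) z k
    have h2 : ∀ k, (mm (dM f G C (j + 1)) z) (Sum.inr k) =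
        - ∑ l, C (j + 1) k l * z (Sum.inl l) - ∑ l, G (j + 1) k l * z (Sum.inr l) := fun k =>
      act_inr f G C (j + 1) z k
    simp only [h1, h2, smul_eq_mul, mul_add, sum_add_distrib]
    rw [hsum (j + 1) (G (j + 1)) (G (j + 2))]
    simp only [sq]
    have h3 : ∑ l, f * C (j + 1) i l * z (Sum.inl l) =
        f * ∑ l, C (j + 1) i l * z (Sum.inl l) := by
      rw [mul_sum]; exact sum_congr rfl fun _ _ => by ring
    have h4 : ∑ k, G (j + 1) i k * (f * z (Sum.inr k)) =
        f * ∑ l, G (j + 1) i l * z (Sum.inr l) := by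
      rw [mul_sum]; exact sum_congr rfl fun _ _ => by ring
    rw [h3, h4]
    ring
  · change ∑ x, dM f G C j (Sum.inr i) x • (mm (dM f G C (j + 1)) z) x = 0
    rw [act_inr]
    have h1 : ∀ k, (mm (dM f G C (j + 1)) z) (Sum.inl k) =
        ∑ l, G (j + 2) k l * z (Sum.inl l) + f * z (Sum.inr k) := fun k =>
      act_inl f G C (j + 1) z k
    have h2 : ∀ k, (mm (dM f G C (j + 1)) z) (Sum.inr k) =
        - ∑ l, C (j + 1) k l * z (Sum.inl l) - ∑ l, G (j + 1) k l * z (Sum.inr l) := fun k =>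
      act_inr f G C (j + 1) z k
    simp only [h1, h2, smul_eq_mul, mul_add, mul_sub, mul_neg, sum_add_distrib, sum_sub_distrib,
      sum_neg_distrib]
    rw [hsum j (C j) (G (j + 2)), hsum j (G j) (C (j + 1)), hsum j (G j) (G (j + 1))]
    simp only [sq, comm]
    have h4 : ∑ k, C j i k * (f * z (Sum.inr k)) = ∑ k, f * C j i k * z (Sum.inr k) :=
      sum_congr rfl fun _ _ => by ring
    rw [h4]
    ring

lemma exact (reg : ∀ x : A, f * x = 0 → x = 0)
    (sq : ∀ n i k, ∑ j, G n i j * G (n + 1) j k = f * C n i k)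
    (comm : ∀ n i k, ∑ j, G n i j * C (n + 1) j k = ∑ j, C n i j * G (n + 2) j k)
    (ex : ∀ n (x : Fin (b (n + 1)) → A), (∀ i, ∃ c, ∑ j, G n i j * x j = f * c) →
      ∃ (y : Fin (b (n + 2)) → A) (v : Fin (b (n + 1)) → A),
        ∀ i, x i = ∑ j, G (n + 1) i j * y j + f * v i)
    (j : ℕ) (z : Ix b (j + 1) → A) (hz : mm (dM f G C j) z = 0) :
    ∃ y, mm (dM f G C (j + 1)) y = z := by
  have h1 : ∀ i, ∑ k, G (j + 1) i k * z (Sum.inl k) + f * z (Sum.inr i) = 0 := fun i => by
    have := congrFun hz (Sum.inl i)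
    change ∑ x, dM f G C j (Sum.inl i) x • z x = 0 at this
    rw [act_inl] at this
    simpa using this
  obtain ⟨y, v, hyv⟩ := ex (j + 1) (fun k => z (Sum.inl k)) (fun i =>
    ⟨- z (Sum.inr i), by linear_combination h1 i⟩)
  -- subtract a boundary
  let p : Ix b (j + 2) → A := Sum.elim y v
  have hp : ∀ i, (z - mm (dM f G C (j + 1)) p) (Sum.inl i) = 0 := fun i => by
    have h2 : (mm (dM f G C (j + 1)) p) (Sum.inl i) =
        ∑ l, G (j + 2) i l * y l + f * v i := act_inl f G C (j + 1) p i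
    rw [Pi.sub_apply, h2, ← hyv i, sub_self]
  have hz' : mm (dM f G C j) (z - mm (dM f G C (j + 1)) p) = 0 := by
    rw [map_sub, hz, dd f G C sq comm, sub_self]
  refine ⟨p, ?_⟩
  have h3 : z - mm (dM f G C (j + 1)) p = 0 := by
    funext a
    rcases a with i | i
    · exact hp i
    · have := congrFun hz' (Sum.inl i)
      change ∑ x, dM f G C j (Sum.inl i) x • (z - mm (dM f G C (j + 1)) p) x = 0 at this
      rw [act_inl] at this
      simp only [hp, smul_zero, sum_const_zero, zero_add] at this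
      exact reg _ this
  exact (sub_eq_zero.1 h3).symm

lemma cone_high [IsLocalRing A] [IsNoetherianRing A] (reg : ∀ x : A, f * x = 0 → x = 0)
    (sq : ∀ n i k, ∑ j, G n i j * G (n + 1) j k = f * C n i k)
    (comm : ∀ n i k, ∑ j, G n i j * C (n + 1) j k = ∑ j, C n i j * G (n + 2) j k)
    (ex : ∀ n (x : Fin (b (n + 1)) → A), (∀ i, ∃ c, ∑ j, G n i j * x j = f * c) →
      ∃ (y : Fin (b (n + 2)) → A) (v : Fin (b (n + 1)) → A),
        ∀ i, x i = ∑ j, G (n + 1) i j * y j + f * v i)
    [Module.Finite A Y] (n : ℕ) (hpd : PD A Y (n + 1)) (m : ℕ) (hm : n ≤ m)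
    (u : Fin (b (m + 2)) → Y) (v : Fin (b (m + 1)) → Y)
    (h1 : ∀ i, ∑ j, G (m + 1) i j • u j + f • v i = 0)
    (h2 : ∀ i, - ∑ j, C m i j • u j - ∑ j, G m i j • v j = 0) :
    ∃ (u' : Fin (b (m + 3)) → Y) (v' : Fin (b (m + 2)) → Y),
      (∀ i, ∑ j, G (m + 2) i j • u' j + f • v' i = u i) ∧
      ∀ i, - ∑ j, C (m + 1) i j • u' j - ∑ j, G (m + 1) i j • v' j = v i := by
  let Φ : ℕ → ModuleCat.{u} A := fun j => ModuleCat.of A (Ix b j → A)
  have hfree : ∀ j, Module.Free A (Φ j) := fun j => inferInstanceAs (Module.Free A (Ix b j → A))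
  let d : ∀ j, Φ (j + 1) →ₗ[A] Φ j := fun j => mm (dM f G C j)
  have hH : Hz d Y m := hz_of_pd d (fun j x => dd f G C sq comm j x)
    (fun j x hx => exact f G C reg sq comm ex j x hx) n Y hpd m hm
  let z : (Ix b (m + 1) → A) ⊗[A] Y := (th A Y (Ix b (m + 1))).symm (Sum.elim u v)
  have hz : th A Y (Ix b (m + 1)) z = Sum.elim u v := LinearEquiv.apply_symm_apply _ _
  have hz0 : (mm (dM f G C m)).rTensor Y z = 0 := by
    apply (th A Y (Ix b m)).injective
    rw [map_zero]
    funext a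
    rw [th_mm, hz, Pi.zero_apply]
    rcases a with i | i
    · rw [act_inl]; exact h1 i
    · rw [act_inr]; exact h2 i
  obtain ⟨w, hw⟩ := hH z hz0
  have hw' : (mm (dM f G C (m + 1))).rTensor Y w = z := hw
  refine ⟨fun k => th A Y (Ix b (m + 2)) w (Sum.inl k),
    fun k => th A Y (Ix b (m + 2)) w (Sum.inr k), fun i => ?_, fun i => ?_⟩
  · have h3 := congrFun (congrArg (th A Y (Ix b (m + 1))) hw') (Sum.inl i)
    rw [th_mm, hz, act_inl] at h3
    exact h3
  · have h3 := congrFun (congrArg (th A Y (Ix b (m + 1))) hw') (Sum.inr i)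
    rw [th_mm, hz, act_inr] at h3
    exact h3

end cone

end WConeP

open WConeP

variable {S : Type u} [CommRing S] [IsLocalRing S] [IsNoetherianRing S]

theorem WD.coneExact {r : ℕ} {f : Fin (r + 1) → S} (w : WD S f) (hreg : RegFam f)
    (I : Ideal S) (hI : I ≠ ⊤) (hf : ∀ l, f l ∈ I)
    (hpd : FPD (Ideal.span (Set.range fun l : Fin r => f l.castSucc)) I) :
    ∃ t₀, ConeExact (w.dg I hf (S ⧸ I)) (w.chi I (S ⧸ I) (Fin.last r)) t₀ := by
  obtain ⟨A, _, _, hsurj, hker, n, hn⟩ := hpd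
  set J : Ideal S := Ideal.span (Set.range fun l : Fin r => f l.castSucc) with hJ
  set φ := algebraMap S A with hφ
  have hJI : J ≤ I := by
    rw [hJ, Ideal.span_le]
    rintro _ ⟨l, rfl⟩
    exact hf _
  have hnt : Nontrivial A := by
    by_contra hn'
    rw [not_nontrivial_iff_subsingleton] at hn'
    have h1 : (1 : S) ∈ RingHom.ker φ := by
      rw [RingHom.mem_ker]
      exact Subsingleton.elim _ _
    rw [hker] at h1
    exact hI ((Ideal.eq_top_iff_one I).2 (hJI h1))
  have hloc : IsLocalRing A := IsLocalRing.of_surjective' φ hsurj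
  have hnoeth : IsNoetherianRing A := isNoetherianRing_of_surjective S A φ hsurj
  have hφJ : ∀ x, φ x = 0 ↔ x ∈ J := fun x => by rw [← hker, RingHom.mem_ker]
  -- membership in the ideal of all `f l`
  have hspan : ∀ x, x ∈ Ideal.span (Set.range f) ↔ ∃ c, x - f (Fin.last r) * c ∈ J := by
    intro x
    constructor
    · intro hx
      obtain ⟨c, hc⟩ := Ideal.mem_span_range_iff_exists_fun.1 hx
      refine ⟨c (Fin.last r), ?_⟩
      rw [Fin.sum_univ_castSucc] at hc
      have : x - f (Fin.last r) * c (Fin.last r) =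
          ∑ l : Fin r, c l.castSucc * f l.castSucc := by
        linear_combination -hc
      rw [this]
      exact J.sum_mem fun l _ => J.mul_mem_left _ (Ideal.subset_span ⟨l, rfl⟩)
    · rintro ⟨c, hc⟩
      have h1 : J ≤ Ideal.span (Set.range f) := by
        rw [hJ, Ideal.span_le]
        rintro _ ⟨l, rfl⟩
        exact Ideal.subset_span ⟨_, rfl⟩
      have h2 : f (Fin.last r) * c ∈ Ideal.span (Set.range f) :=
        Ideal.mul_mem_right _ _ (Ideal.subset_span ⟨_, rfl⟩)
      have := Ideal.add_mem _ (h1 hc) h2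
      rwa [sub_add_cancel] at this
  have hreg' : ∀ x : A, φ (f (Fin.last r)) * x = 0 → x = 0 := by
    intro x hx
    obtain ⟨x, rfl⟩ := hsurj x
    rw [← map_mul, hφJ] at hx
    rw [hφJ]
    exact hreg.2 x hx
  have sq' : ∀ n i k, ∑ j, φ (w.G n i j) * φ (w.G (n + 1) j k) =
      φ (f (Fin.last r)) * φ (w.C (Fin.last r) n i k) := by
    intro n i k
    simp only [← map_mul]
    rw [← map_sum, w.sq, Fin.sum_univ_castSucc, map_add]
    have : φ (∑ l : Fin r, f l.castSucc * w.C l.castSucc n i k) = 0 := by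
      rw [hφJ]
      exact J.sum_mem fun l _ => J.mul_mem_right _ (Ideal.subset_span ⟨l, rfl⟩)
    rw [this, zero_add]
  have comm' : ∀ n i k, ∑ j, φ (w.G n i j) * φ (w.C (Fin.last r) (n + 1) j k) =
      ∑ j, φ (w.C (Fin.last r) n i j) * φ (w.G (n + 2) j k) := by
    intro n i k
    simp only [← map_mul]
    rw [← map_sum, ← map_sum, ← sub_eq_zero, ← map_sub, hφJ]
    exact w.commLast hreg n i k
  have ex' : ∀ n (x : Fin (w.b (n + 1)) → A),
      (∀ i, ∃ c, ∑ j, φ (w.G n i j) * x j = φ (f (Fin.last r)) * c) →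
      ∃ (y : Fin (w.b (n + 2)) → A) (v : Fin (w.b (n + 1)) → A),
        ∀ i, x i = ∑ j, φ (w.G (n + 1) i j) * y j + φ (f (Fin.last r)) * v i := by
    intro n x hx
    choose x' hx' using fun i => hsurj (x i)
    obtain rfl : (fun i => φ (x' i)) = x := funext hx'
    obtain ⟨y, hy⟩ := w.ex n x' (fun i => by
      obtain ⟨c, hc⟩ := hx i
      obtain ⟨c, rfl⟩ := hsurj c
      rw [hspan]
      refine ⟨c, ?_⟩
      rw [← hφJ, map_sub, map_sum, map_mul, sub_eq_zero, ← hc]
      exact sum_congr rfl fun j _ => map_mul _ _ _)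
    choose v hv using fun i => (hspan _).1 (hy i)
    refine ⟨fun j => φ (y j), fun i => φ (v i), fun i => ?_⟩
    have h1 := (hφJ _).2 (hv i)
    simp only [map_sub, map_sum, map_mul] at h1
    linear_combination h1
  -- the module
  have hIcomap : ∀ x, φ x ∈ I.map φ ↔ x ∈ I := by
    intro x
    have h1 := Ideal.comap_map_of_surjective φ hsurj I
    rw [← RingHom.ker_eq_comap_bot, hker, sup_eq_left.2 hJI] at h1
    rw [← Ideal.mem_comap, h1]
  refine ⟨(n : ℤ) + 2, ?_⟩
  intro t ht u v hu hv hdu hχ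
  obtain ⟨m, hm, rfl⟩ : ∃ m : ℕ, n ≤ m ∧ t = ((m + 2 : ℕ) : ℤ) :=
    ⟨(t - 2).toNat, by omega, by omega⟩
  choose uh huh using fun j => Ideal.Quotient.mk_surjective (I := I) (u (m + 2) j)
  choose vh hvh using fun j => Ideal.Quotient.mk_surjective (I := I) (v (m + 1) j)
  have key : ∃ (u' : Fin (w.b (m + 3)) → S) (v' : Fin (w.b (m + 2)) → S),
      (∀ i, uh i - ∑ j, w.G (m + 2) i j * u' j ∈ I) ∧
      ∀ i, vh i + ∑ j, w.C (Fin.last r) (m + 1) i j * u' j +
        ∑ j, w.G (m + 1) i j * v' j ∈ I := by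
    have hfin : Module.Finite A (A ⧸ I.map φ) := inferInstance
    have hmk : ∀ (a x : S), φ a • Ideal.Quotient.mk (I.map φ) (φ x) =
        Ideal.Quotient.mk (I.map φ) (φ (a * x)) := fun a x => by
      rw [map_mul, map_mul]; rfl
    have hmk0 : ∀ x : S, Ideal.Quotient.mk (I.map φ) (φ x) = 0 ↔ x ∈ I := fun x => by
      rw [Ideal.Quotient.eq_zero_iff_mem, hIcomap]
    have h1 : ∀ i, ∑ j, w.G (m + 1) i j * uh j ∈ I := fun i => by
      have h := congrFun (congrFun hdu (m + 1)) i
      change ∑ j, Ideal.Quotient.mk I (w.G (m + 1) i j) • u (m + 2) j = 0 at h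
      simp only [← huh, smul_eq_mul, ← map_mul] at h
      rwa [← map_sum, Ideal.Quotient.eq_zero_iff_mem] at h
    have h2 : ∀ i, ∑ j, w.C (Fin.last r) m i j * uh j + ∑ j, w.G m i j * vh j ∈ I := fun i => by
      have h := congrFun (congrFun hχ m) i
      change ∑ j, Ideal.Quotient.mk I (w.C (Fin.last r) m i j) • u (m + 2) j +
        ∑ j, Ideal.Quotient.mk I (w.G m i j) • v (m + 1) j = 0 at h
      simp only [← huh, ← hvh, smul_eq_mul, ← map_mul] at h
      rwa [← map_sum, ← map_sum, ← map_add, Ideal.Quotient.eq_zero_iff_mem] at h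
    obtain ⟨U, V, hU, hV⟩ := cone_high (Y := A ⧸ I.map φ) (φ (f (Fin.last r)))
      (fun n i j => φ (w.G n i j)) (fun n i j => φ (w.C (Fin.last r) n i j)) hreg' sq' comm' ex'
      n hn m hm (fun j => Ideal.Quotient.mk (I.map φ) (φ (uh j)))
      (fun j => Ideal.Quotient.mk (I.map φ) (φ (vh j)))
      (fun i => by
        simp only [hmk]
        rw [← map_sum, ← map_sum, ← map_add, ← map_add, hmk0]
        exact I.add_mem (h1 i) (I.mul_mem_right _ (hf _)))
      (fun i => by
        simp only [hmk]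
        rw [← map_sum, ← map_sum, ← map_sum, ← map_sum, ← map_neg, ← map_neg, ← map_sub,
          ← map_sub, hmk0]
        have := I.neg_mem (h2 i)
        rwa [neg_add'] at this)
    have hsurj2 : ∀ y : A ⧸ I.map φ, ∃ x : S, Ideal.Quotient.mk (I.map φ) (φ x) = y := fun y => by
      obtain ⟨a, rfl⟩ := Ideal.Quotient.mk_surjective y
      obtain ⟨x, rfl⟩ := hsurj a
      exact ⟨x, rfl⟩
    choose u' hu' using fun j => hsurj2 (U j)
    choose v' hv' using fun j => hsurj2 (V j)
    refine ⟨u', v', fun i => ?_, fun i => ?_⟩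
    · have h := hU i
      simp only [← hu', ← hv', hmk] at h
      rw [← map_sum, ← map_sum, ← map_add, ← map_add, ← sub_eq_zero, ← map_sub, ← map_sub,
        hmk0] at h
      have h3 := I.add_mem (I.neg_mem h) (I.neg_mem (I.mul_mem_right (v' i) (hf (Fin.last r))))
      have e : uh i - ∑ j, w.G (m + 2) i j * u' j =
          -(∑ j, w.G (m + 2) i j * u' j + f (Fin.last r) * v' i - uh i) +
            -(f (Fin.last r) * v' i) - (-(f (Fin.last r) * v' i) + -(f (Fin.last r) * v' i)) := by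
        ring
      rw [e]
      exact I.sub_mem h3 (I.add_mem (I.neg_mem (I.mul_mem_right _ (hf _)))
        (I.neg_mem (I.mul_mem_right _ (hf _))))
    · have h := hV i
      simp only [← hu', ← hv', hmk] at h
      rw [← map_sum, ← map_sum, ← map_sum, ← map_sum, ← map_neg, ← map_neg, ← map_sub,
        ← map_sub, ← sub_eq_zero, ← map_sub, ← map_sub, hmk0] at h
      have h3 := I.neg_mem h
      have e : vh i + ∑ j, w.C (Fin.last r) (m + 1) i j * u' j +
        ∑ j, w.G (m + 1) i j * v' j = -(-∑ j, w.C (Fin.last r) (m + 1) i j * u' j -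
          ∑ j, w.G (m + 1) i j * v' j - vh i) := by ring
      rw [e]
      exact h3
  obtain ⟨u', v', hu', hv'⟩ := key
  have hu0 : ∀ k : ℕ, k ≠ m + 2 → u k = 0 := by
    intro k hk
    funext i
    rw [← hu]
    change (if (k : ℤ) = ((m + 2 : ℕ) : ℤ) then u k i else 0) = 0
    rw [if_neg (by exact_mod_cast hk)]
  have hv0 : ∀ k : ℕ, k ≠ m + 1 → v k = 0 := by
    intro k hk
    funext i
    rw [← hv]
    change (if (k : ℤ) = ((m + 2 : ℕ) : ℤ) - 1 then v k i else 0) = 0
    rw [if_neg (by push_cast; omega)]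
  let U : ∀ k, Fin (w.b k) → S ⧸ I := Pi.single (m + 3) (fun j => Ideal.Quotient.mk I (u' j))
  let V : ∀ k, Fin (w.b k) → S ⧸ I := Pi.single (m + 2) (fun j => Ideal.Quotient.mk I (v' j))
  have hU1 : U (m + 3) = fun j => Ideal.Quotient.mk I (u' j) := Pi.single_eq_same _ _
  have hV1 : V (m + 2) = fun j => Ideal.Quotient.mk I (v' j) := Pi.single_eq_same _ _
  have hU0 : ∀ k, k ≠ m + 3 → U k = 0 := fun k hk => Pi.single_eq_of_ne hk _
  have hV0 : ∀ k, k ≠ m + 2 → V k = 0 := fun k hk => Pi.single_eq_of_ne hk _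
  refine ⟨U, V, ?_, ?_, ?_, ?_⟩
  · funext k i
    change (if (k : ℤ) = ((m + 2 : ℕ) : ℤ) + 1 then U k i else 0) = U k i
    by_cases hk : k = m + 3
    · rw [if_pos (by rw [hk]; push_cast; ring)]
    · rw [if_neg (by push_cast; omega), hU0 k hk]; rfl
  · funext k i
    change (if (k : ℤ) = ((m + 2 : ℕ) : ℤ) then V k i else 0) = V k i
    by_cases hk : k = m + 2
    · rw [if_pos (by rw [hk])]
    · rw [if_neg (by exact_mod_cast hk), hV0 k hk]; rfl
  · funext k i
    change ∑ j, Ideal.Quotient.mk I (w.G k i j) • U (k + 1) j = u k i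
    by_cases hk : k = m + 2
    · subst hk
      rw [hU1, ← huh]
      simp only [smul_eq_mul, ← map_mul]
      rw [← map_sum, eq_comm, ← sub_eq_zero, ← map_sub, Ideal.Quotient.eq_zero_iff_mem]
      exact hu' i
    · rw [hU0 (k + 1) (by omega), hu0 k hk]
      simp
  · funext k i
    change - ∑ j, Ideal.Quotient.mk I (w.C (Fin.last r) k i j) • U (k + 2) j -
      ∑ j, Ideal.Quotient.mk I (w.G k i j) • V (k + 1) j = v k i
    by_cases hk : k = m + 1
    · subst hk
      rw [hU1, hV1, ← hvh]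
      simp only [smul_eq_mul, ← map_mul]
      rw [← map_sum, ← map_sum, ← map_neg, ← map_sub, eq_comm, ← sub_eq_zero, ← map_sub,
        Ideal.Quotient.eq_zero_iff_mem]
      have h3 := hv' i
      have e : vh i - (-∑ j, w.C (Fin.last r) (m + 1) i j * u' j -
          ∑ j, w.G (m + 1) i j * v' j) = vh i + ∑ j, w.C (Fin.last r) (m + 1) i j * u' j +
        ∑ j, w.G (m + 1) i j * v' j := by ring
      rw [e]
      exact h3
    · rw [hU0 (k + 2) (by omega), hV0 (k + 1) (by omega), hv0 k hk]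
      simp

end Pool.Agent.CN
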