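import Pool.Agent.CN.WDefs
import Pool.Agent.Helper19.TorInf

/-!
# Existence of the data `WD`
-/

universe u

namespace Pool.Agent.CN

open Finset IsLocalRing Pool.Agent.Helper19

theorem exists_WD {S : Type u} [CommRing S] [IsLocalRing S] [IsNoetherianRing S] {r : ℕ}
    (f : Fin r → S) (hf : ∀ l, f l ∈ maximalIdeal S) : Nonempty (WD S f) := by
  classical
  set J : Ideal S := Ideal.span (Set.range f) with hJ
  have hJm : J ≤ maximalIdeal S := by
    rw [hJ, Ideal.span_le]
    rintro _ ⟨l, rfl⟩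
    exact hf l
  have hJt : J ≠ ⊤ := fun h => (maximalIdeal.isMaximal S).ne_top (top_le_iff.mp (h ▸ hJm))
  have : Nontrivial (S ⧸ J) := Ideal.Quotient.nontrivial_iff.mpr hJt
  have : IsLocalRing (S ⧸ J) :=
    IsLocalRing.of_surjective' (Ideal.Quotient.mk J) Ideal.Quotient.mk_surjective
  let q : S →+* S ⧸ J := Ideal.Quotient.mk J
  have hq : ∀ s, q s ∈ maximalIdeal (S ⧸ J) ↔ s ∈ maximalIdeal S := by
    intro s
    rw [mem_maximalIdeal, mem_maximalIdeal, mem_nonunits_iff, mem_nonunits_iff, not_iff_not]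
    constructor
    · intro h
      obtain ⟨t, ht⟩ := Ideal.Quotient.mk_surjective (I := J) (h.unit⁻¹ : (S ⧸ J)ˣ).1
      have h1 : q (s * t - 1) = 0 := by
        rw [map_sub, map_mul, map_one]
        change q s * Ideal.Quotient.mk J t - 1 = 0
        rw [ht, IsUnit.mul_val_inv, sub_self]
      have h2 : s * t - 1 ∈ maximalIdeal S := hJm (Ideal.Quotient.eq_zero_iff_mem.mp h1)
      have h3 : IsUnit (s * t) := by
        by_contra h3
        have h4 : s * t ∈ maximalIdeal S := h3
        exact (maximalIdeal.isMaximal S).ne_top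
          ((Ideal.eq_top_iff_one _).mpr (by simpa using Ideal.sub_mem _ h4 h2))
      exact isUnit_of_mul_isUnit_left h3
    · exact fun h => h.map q
  obtain ⟨F, d, e, hfin, hfree, h1, h2, h3, h4⟩ :=
    exists_resolution_inf (S := S ⧸ J) (maximalIdeal (S ⧸ J))
  have := hfin
  have := hfree
  let B : ∀ j, Σ n : ℕ, Module.Basis (Fin n) (S ⧸ J) (F j) := fun j => match j with
    | 0 => ⟨1, (Module.Basis.singleton (Fin 1) (S ⧸ J)).map e.symm⟩
    | j + 1 => ⟨_, Module.finBasis (S ⧸ J) (F (j + 1))⟩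
  have hB0 : ∀ i, e ((B 0).2 i) = 1 := by
    intro i
    change e (((Module.Basis.singleton (Fin 1) (S ⧸ J)).map e.symm) i) = 1
    simp
  let Gb : ∀ n, Fin (B n).1 → Fin (B (n + 1)).1 → S ⧸ J :=
    fun n i j => (B n).2.repr (d n ((B (n + 1)).2 j)) i
  choose G hG using fun n i j => Ideal.Quotient.mk_surjective (I := J) (Gb n i j)
  -- the vector of `F n` with coordinates `q (x i)`
  let vec : ∀ n, (Fin (B n).1 → S) → F n := fun n x => ∑ i, q (x i) • (B n).2 i
  have hvec : ∀ n (x : Fin (B n).1 → S) i, (B n).2.repr (vec n x) i = q (x i) := by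
    intro n x i
    simp only [vec, map_sum, map_smul, Module.Basis.repr_self, Finsupp.coe_finsetSum,
      Finset.sum_apply, Finsupp.smul_apply, Finsupp.single_apply, smul_eq_mul, mul_ite, mul_one,
      mul_zero, sum_ite_eq', mem_univ, if_true]
  have hdvec : ∀ n (x : Fin (B (n + 1)).1 → S) i,
      (B n).2.repr (d n (vec (n + 1) x)) i = q (∑ j, G n i j * x j) := by
    intro n x i
    simp only [vec, map_sum, map_smul, Finsupp.coe_finsetSum, Finset.sum_apply,
      Finsupp.smul_apply, smul_eq_mul, map_mul]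
    refine sum_congr rfl fun j _ => ?_
    rw [mul_comm]
    congr 1
    exact (hG n i j).symm
  have hlift : ∀ n (v : F n), ∃ x : Fin (B n).1 → S, vec n x = v := by
    intro n v
    choose x hx using fun i => Ideal.Quotient.mk_surjective (I := J) ((B n).2.repr v i)
    refine ⟨x, ?_⟩
    apply (B n).2.repr.injective
    ext i
    rw [hvec]
    exact hx i
  have hmem : ∀ x, x ∈ J ↔ q x = 0 := fun x => Ideal.Quotient.eq_zero_iff_mem.symm
  have hsq : ∀ n i k, ∃ c : Fin r → S, ∑ j, G n i j * G (n + 1) j k = ∑ l, f l * c l := by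
    intro n i k
    have hz : q (∑ j, G n i j * G (n + 1) j k) = 0 := by
      rw [← hdvec n (fun j => G (n + 1) j k) i]
      have : vec (n + 1) (fun j => G (n + 1) j k) = d (n + 1) ((B (n + 2)).2 k) := by
        apply (B (n + 1)).2.repr.injective
        ext j
        rw [hvec]
        exact hG (n + 1) j k
      rw [this, h3, map_zero, Finsupp.zero_apply]
    have hz' : ∑ j, G n i j * G (n + 1) j k ∈ Ideal.span (Set.range f) := (hmem _).mpr hz
    rw [Ideal.mem_span_range_iff_exists_fun] at hz'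
    obtain ⟨c, hc⟩ := hz'
    exact ⟨c, by rw [← hc]; exact sum_congr rfl fun l _ => mul_comm _ _⟩
  choose C hC using hsq
  refine ⟨⟨fun n => (B n).1, G, fun l n i k => C n i k l, hC, rfl, ?_, ?_, ?_⟩⟩
  · intro i j
    rw [← hq]
    have h5 := h2 ((B 1).2 j)
    have h6 : q (G 0 i j) = e (d 0 ((B 1).2 j)) := by
      have h7 : q (G 0 i j) = (B 0).2.repr (d 0 ((B 1).2 j)) i := hG 0 i j
      have h8 : ∀ v : F 0, (B 0).2.repr v i = e v := by
        intro v
        change ((Module.Basis.singleton (Fin 1) (S ⧸ J)).map e.symm).repr v i = e v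
        simp
      rw [h7, h8]
    rw [h6]
    exact h5
  · intro x hx
    have h5 : e (vec 0 x) ∈ maximalIdeal (S ⧸ J) := by
      simp only [vec, map_sum, map_smul, hB0, smul_eq_mul, mul_one]
      exact Ideal.sum_mem _ fun i _ => (hq _).mpr (hx i)
    obtain ⟨y, hy⟩ := h1 _ h5
    obtain ⟨z, rfl⟩ := hlift 1 y
    refine ⟨z, fun i => ?_⟩
    refine (hmem _).mpr ?_
    rw [map_sub, ← hdvec 0 z i, hy, hvec, sub_self]
  · intro n x hx
    have h5 : d n (vec (n + 1) x) = 0 := by
      apply (B n).2.repr.injective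
      ext i
      rw [hdvec, map_zero, Finsupp.zero_apply]
      exact (hmem _).mp (hx i)
    obtain ⟨y, hy⟩ := h4 n _ h5
    obtain ⟨z, rfl⟩ := hlift (n + 2) y
    refine ⟨z, fun i => ?_⟩
    refine (hmem _).mpr ?_
    rw [map_sub, ← hdvec (n + 1) z i, hy, hvec, sub_self]

end Pool.Agent.CN
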