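import Pool.Agent.CN.WDefs

/-!
# The maximal ideal acts by zero up to homotopy
-/

universe u

namespace Pool.Agent.CN

open Finset IsLocalRing

variable {S : Type u} [CommRing S] [IsLocalRing S]

namespace WHtpyAux

variable {r : ℕ} {f : Fin r → S} (w : WD S f)

/-- the matrices over `S/(f)` -/
def gm (n : ℕ) : Matrix (Fin (w.b n)) (Fin (w.b (n + 1))) (S ⧸ Ideal.span (Set.range f)) :=
  Matrix.of fun i j => Ideal.Quotient.mk _ (w.G n i j)

theorem gm_apply (n : ℕ) (i : Fin (w.b n)) (j : Fin (w.b (n + 1))) :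
    gm w n i j = Ideal.Quotient.mk _ (w.G n i j) := rfl

theorem gm_mul (n : ℕ) : gm w n * gm w (n + 1) = 0 := by
  ext i k
  rw [Matrix.mul_apply, Matrix.zero_apply]
  simp only [gm_apply, ← map_mul]
  rw [← map_sum, w.sq, Ideal.Quotient.eq_zero_iff_mem]
  exact Ideal.sum_mem _ fun l _ => Ideal.mul_mem_right _ _ (Ideal.subset_span ⟨l, rfl⟩)

theorem gm_ex (n : ℕ) {m : Type} (M : Matrix (Fin (w.b (n + 1))) m
    (S ⧸ Ideal.span (Set.range f))) (hM : gm w n * M = 0) :
    ∃ N : Matrix (Fin (w.b (n + 2))) m (S ⧸ Ideal.span (Set.range f)),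
      gm w (n + 1) * N = M := by
  have h : ∀ k : m, ∃ y : Fin (w.b (n + 2)) → S ⧸ Ideal.span (Set.range f),
      ∀ i, ∑ j, gm w (n + 1) i j * y j = M i k := by
    intro k
    have h1 : ∀ i, ∃ c : S, Ideal.Quotient.mk (Ideal.span (Set.range f)) c = M i k := fun i =>
      Ideal.Quotient.mk_surjective _
    choose c hc using h1
    obtain ⟨y, hy⟩ := w.ex n c (fun i => by
      rw [← Ideal.Quotient.eq_zero_iff_mem, map_sum]
      have h2 := congrFun (congrFun hM i) k
      rw [Matrix.mul_apply, Matrix.zero_apply] at h2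
      rw [← h2]
      refine sum_congr rfl fun j _ => ?_
      rw [map_mul, hc, gm_apply])
    refine ⟨fun j => Ideal.Quotient.mk _ (y j), fun i => ?_⟩
    have h3 := hy i
    rw [← Ideal.Quotient.eq_zero_iff_mem, map_sub, map_sum, hc, sub_eq_zero] at h3
    rw [h3]
    refine sum_congr rfl fun j _ => ?_
    rw [map_mul, gm_apply]
  choose y hy using h
  refine ⟨Matrix.of fun j k => y k j, ?_⟩
  ext i k
  rw [Matrix.mul_apply]
  exact hy k i

/-- the scalar matrices -/
def sc (n : ℕ) (x : S) : Matrix (Fin (w.b n)) (Fin (w.b n)) (S ⧸ Ideal.span (Set.range f)) :=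
  Matrix.of fun i k => if i = k then Ideal.Quotient.mk _ x else 0

theorem sc_apply (n : ℕ) (x : S) (i k : Fin (w.b n)) :
    sc w n x i k = if i = k then Ideal.Quotient.mk _ x else 0 := rfl

theorem gm_sc (n : ℕ) (x : S) : gm w n * sc w (n + 1) x = sc w n x * gm w n := by
  ext i k
  rw [Matrix.mul_apply, Matrix.mul_apply]
  simp only [sc_apply, mul_ite, mul_zero, ite_mul, zero_mul]
  rw [Finset.sum_ite_eq', Finset.sum_ite_eq]
  simp only [Finset.mem_univ, if_true]
  exact mul_comm _ _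

theorem gm_ex0 (x : S) (hx : x ∈ maximalIdeal S) :
    ∃ t : Matrix (Fin (w.b 1)) (Fin (w.b 0)) (S ⧸ Ideal.span (Set.range f)),
      gm w 0 * t = sc w 0 x := by
  have h : ∀ k : Fin (w.b 0), ∃ y : Fin (w.b 1) → S, ∀ i,
      (if i = k then x else 0) - ∑ j, w.G 0 i j * y j ∈ Ideal.span (Set.range f) := by
    intro k
    apply w.ex0
    intro i
    split_ifs
    · exact hx
    · exact Ideal.zero_mem _
  choose y hy using h
  refine ⟨Matrix.of fun j k => Ideal.Quotient.mk _ (y k j), ?_⟩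
  ext i k
  rw [Matrix.mul_apply]
  have h1 := hy k i
  rw [← Ideal.Quotient.eq_zero_iff_mem, map_sub, map_sum, sub_eq_zero] at h1
  have h2 : sc w 0 x i k = Ideal.Quotient.mk _ (if i = k then x else 0) := by
    rw [sc_apply]
    split_ifs <;> simp
  rw [h2, h1]
  refine sum_congr rfl fun j _ => ?_
  rw [map_mul, gm_apply]
  rfl

/-- the condition carried through the recursion -/
def Good (x : S) (n : ℕ)
    (t : Matrix (Fin (w.b (n + 1))) (Fin (w.b n)) (S ⧸ Ideal.span (Set.range f))) : Prop :=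
  gm w n * (sc w (n + 1) x - t * gm w n) = 0

theorem exists_T (x : S) (hx : x ∈ maximalIdeal S) :
    ∃ t : ∀ n, Matrix (Fin (w.b (n + 1))) (Fin (w.b n)) (S ⧸ Ideal.span (Set.range f)),
      gm w 0 * t 0 = sc w 0 x ∧
      ∀ n, gm w (n + 1) * t (n + 1) = sc w (n + 1) x - t n * gm w n := by
  obtain ⟨t0, ht0⟩ := gm_ex0 w x hx
  have hg0 : Good w x 0 t0 := by
    unfold Good
    rw [Matrix.mul_sub, ← Matrix.mul_assoc, ht0, gm_sc, sub_self]
  have hstep : ∀ n (t : {t // Good w x n t}), ∃ t' : {t' // Good w x (n + 1) t'},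
      gm w (n + 1) * t'.1 = sc w (n + 1) x - t.1 * gm w n := by
    intro n t
    obtain ⟨t', ht'⟩ := gm_ex w n _ t.2
    refine ⟨⟨t', ?_⟩, ht'⟩
    unfold Good
    rw [Matrix.mul_sub, ← Matrix.mul_assoc, ht', Matrix.sub_mul, Matrix.mul_assoc, gm_mul,
      Matrix.mul_zero, sub_zero, gm_sc, sub_self]
  choose F hF using hstep
  let sq : ∀ n, {t // Good w x n t} := fun n =>
    Nat.rec (motive := fun n => {t // Good w x n t}) ⟨t0, hg0⟩ (fun n t => F n t) n
  exact ⟨fun n => (sq n).1, ht0, fun n => hF n (sq n)⟩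

end WHtpyAux

open WHtpyAux in
theorem WD.htpy {r : ℕ} {f : Fin r → S} (w : WD S f) (I : Ideal S) (hf : ∀ l, f l ∈ I)
    (x : S) (hx : x ∈ maximalIdeal S) :
    ∃ τ : (∀ n, Fin (w.b n) → S ⧸ I) →ₗ[S ⧸ I] (∀ n, Fin (w.b n) → S ⧸ I),
      ∀ v, (w.dg I hf (S ⧸ I)).d (τ v) + τ ((w.dg I hf (S ⧸ I)).d v) =
        Ideal.Quotient.mk I x • v := by
  obtain ⟨t, ht0, ht1⟩ := exists_T w x hx
  have hJ : Ideal.span (Set.range f) ≤ I := by
    rw [Ideal.span_le]
    rintro _ ⟨l, rfl⟩
    exact hf l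
  set φ : S ⧸ Ideal.span (Set.range f) →+* S ⧸ I := Ideal.Quotient.factor hJ with hφ
  have hφm : ∀ s : S, φ (Ideal.Quotient.mk _ s) = Ideal.Quotient.mk I s := fun s => by
    rw [hφ, Ideal.Quotient.factor_mk]
  let τ : (∀ n, Fin (w.b n) → S ⧸ I) →ₗ[S ⧸ I] (∀ n, Fin (w.b n) → S ⧸ I) :=
    { toFun := fun v n => match n with
        | 0 => fun _ => 0
        | n + 1 => fun i => ∑ j, φ (t n i j) * v n j
      map_add' := by
        intro v v'
        funext n i
        cases n with
        | zero => simp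
        | succ n => simp [mul_add, sum_add_distrib]
      map_smul' := by
        intro c v
        funext n i
        cases n with
        | zero => simp
        | succ n =>
          simp only [Pi.smul_apply, smul_eq_mul, RingHom.id_apply, mul_sum]
          exact sum_congr rfl fun j _ => by ring }
  have hτ0 : ∀ v i, τ v 0 i = 0 := fun _ _ => rfl
  have hτ1 : ∀ v n i, τ v (n + 1) i = ∑ j, φ (t n i j) * v n j := fun _ _ _ => rfl
  have hd : ∀ (v : ∀ n, Fin (w.b n) → S ⧸ I) n i, (w.dg I hf (S ⧸ I)).d v n i =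
      ∑ j, φ (gm w n i j) * v (n + 1) j := by
    intro v n i
    have : (w.dg I hf (S ⧸ I)).d v n i =
      ∑ j, Ideal.Quotient.mk I (w.G n i j) • v (n + 1) j := rfl
    rw [this]
    refine sum_congr rfl fun j _ => ?_
    rw [gm_apply, hφm, smul_eq_mul]
  have hsc : ∀ n (i k : Fin (w.b n)), φ (sc w n x i k) =
        if i = k then Ideal.Quotient.mk I x else 0 := by
    intro n i k
    rw [sc_apply]
    split_ifs with h
    · exact hφm x
    · exact map_zero φ
  refine ⟨τ, fun v => ?_⟩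
  funext n i
  rw [Pi.add_apply, Pi.add_apply, Pi.smul_apply, Pi.smul_apply, hd, smul_eq_mul]
  cases n with
  | zero =>
    rw [hτ0, add_zero]
    simp only [hτ1, mul_sum]
    rw [sum_comm]
    have h1 : ∀ k, ∑ j, φ (gm w 0 i j) * (φ (t 0 j k) * v 0 k) =
        (if i = k then Ideal.Quotient.mk I x else 0) * v 0 k := by
      intro k
      rw [← hsc, ← ht0, Matrix.mul_apply, map_sum, sum_mul]
      exact sum_congr rfl fun j _ => by rw [map_mul]; ring
    rw [sum_congr rfl fun k _ => h1 k]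
    simp
  | succ n =>
    simp only [hτ1, hd, mul_sum]
    rw [sum_comm, sum_comm (f := fun j k => φ (t n i j) * (φ (gm w n j k) * v (n + 1) k)),
      ← sum_add_distrib]
    have h1 : ∀ k, (∑ j, φ (gm w (n + 1) i j) * (φ (t (n + 1) j k) * v (n + 1) k)) +
        ∑ j, φ (t n i j) * (φ (gm w n j k) * v (n + 1) k) =
        (if i = k then Ideal.Quotient.mk I x else 0) * v (n + 1) k := by
      intro k
      have h2 : (gm w (n + 1) * t (n + 1)) i k + (t n * gm w n) i k = sc w (n + 1) x i k := by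
        rw [ht1, Matrix.sub_apply, sub_add_cancel]
      rw [← hsc, ← h2, map_add, Matrix.mul_apply, Matrix.mul_apply, map_sum, map_sum, add_mul,
        sum_mul, sum_mul]
      congr 1 <;> exact sum_congr rfl fun j _ => by rw [map_mul]; ring
    rw [sum_congr rfl fun k _ => h1 k]
    simp

end Pool.Agent.CN
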