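import Pool.Agent.CN.FDefs
import Pool.Agent.Helper19.TorInf

/-!
# Vanishing of the homology in high degrees gives finite projective dimension
-/

universe u

namespace Pool.Agent.CN

open Finset IsLocalRing Pool.Agent.Helper19 TensorProduct

variable {S : Type u} [CommRing S] [IsLocalRing S] [IsNoetherianRing S]

theorem WD.fpd_of_vanish {r : ℕ} {f : Fin r → S} (w : WD S f) (I : Ideal S) (hI : I ≠ ⊤)
    (hf : ∀ l, f l ∈ I) (t₁ : ℤ)
    (h : ∀ t, t₁ ≤ t → ∀ v, (w.dg I hf (S ⧸ I)).p t v = v → (w.dg I hf (S ⧸ I)).d v = 0 →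
      ∃ u, (w.dg I hf (S ⧸ I)).p (t + 1) u = u ∧ (w.dg I hf (S ⧸ I)).d u = v) :
    FPD (Ideal.span (Set.range f)) I := by
  classical
  set J : Ideal S := Ideal.span (Set.range f) with hJdef
  have hJI : J ≤ I := by
    rw [hJdef, Ideal.span_le]
    rintro _ ⟨l, rfl⟩
    exact hf l
  have hJ : J ≠ ⊤ := fun hh => hI (top_le_iff.mp (hh ▸ hJI))
  have : Nontrivial (S ⧸ J) := Ideal.Quotient.nontrivial_iff.mpr hJ
  have : IsLocalRing (S ⧸ J) :=
    IsLocalRing.of_surjective' (Ideal.Quotient.mk J) Ideal.Quotient.mk_surjective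
  have : IsNoetherianRing (S ⧸ J) := inferInstance
  refine ⟨S ⧸ J, inferInstance, inferInstance, Ideal.Quotient.mk_surjective, ?_, ?_⟩
  · exact Ideal.mk_ker
  -- the complex
  let A := S ⧸ J
  let π : S →+* A := Ideal.Quotient.mk J
  let Φ : ℕ → ModuleCat.{u} A := fun j => ModuleCat.of A (Fin (w.b j) → A)
  have : ∀ j, Module.Free A (Φ j) := fun j =>
    inferInstanceAs (Module.Free A (Fin (w.b j) → A))
  let d : ∀ j, Φ (j + 1) →ₗ[A] Φ j := fun j =>
    (Matrix.mulVecLin (Matrix.of fun i k => π (w.G j i k)) :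
      (Fin (w.b (j + 1)) → A) →ₗ[A] (Fin (w.b j) → A))
  have hd : ∀ j (x : Fin (w.b (j + 1)) → A) (i : Fin (w.b j)),
      (show Fin (w.b j) → A from d j x) i = ∑ k, π (w.G j i k) * x k := by
    intro j x i
    change Matrix.mulVec (Matrix.of fun i k => π (w.G j i k)) x i = _
    simp [Matrix.mulVec, dotProduct]
  have : Unique (Fin (w.b 0)) := by rw [w.one]; infer_instance
  let e : Φ 0 ≃ₗ[A] A :=
    (LinearEquiv.funUnique (Fin (w.b 0)) A A : (Fin (w.b 0) → A) ≃ₗ[A] A)
  have he : ∀ x : Fin (w.b 0) → A, e x = x default := fun x => rfl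
  have hπm : ∀ s : S, π s ∈ maximalIdeal A ↔ s ∈ maximalIdeal S := by
    intro s
    have hloc : IsLocalHom π := IsLocalHom.of_surjective π Ideal.Quotient.mk_surjective
    rw [mem_maximalIdeal, mem_maximalIdeal, mem_nonunits_iff, mem_nonunits_iff]
    exact not_congr (isUnit_map_iff π s)
  have hπ0 : ∀ s : S, π s = 0 ↔ s ∈ J := fun s => Ideal.Quotient.eq_zero_iff_mem
  have hlift : ∀ {m : ℕ} (x : Fin m → A), ∃ y : Fin m → S, ∀ i, π (y i) = x i := by
    intro m x
    exact ⟨fun i => (Ideal.Quotient.mk_surjective (x i)).choose,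
      fun i => (Ideal.Quotient.mk_surjective (x i)).choose_spec⟩
  have hd0 : ∀ x : Φ 0, e x ∈ maximalIdeal A → ∃ y, d 0 y = x := by
    intro x hx
    obtain ⟨x', hx'⟩ := hlift (show Fin (w.b 0) → A from x)
    obtain ⟨y, hy⟩ := w.ex0 x' (fun i => by
      rw [Unique.eq_default i, ← hπm, hx']
      exact hx)
    refine ⟨(fun k => π (y k) : Fin (w.b 1) → A), ?_⟩
    funext i
    have h1 := hd 0 (fun k => π (y k)) i
    refine h1.trans ?_
    have h2 := hy i
    rw [← hJdef, ← hπ0, map_sub, sub_eq_zero, hx', map_sum] at h2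
    simp only [map_mul] at h2
    exact h2.symm
  have hd0' : ∀ y, e (d 0 y) ∈ maximalIdeal A := by
    intro y
    have h1 : e (d 0 y) = ∑ k, π (w.G 0 default k) * (show Fin (w.b 1) → A from y) k :=
      hd 0 y default
    rw [h1]
    exact Ideal.sum_mem _ fun k _ => Ideal.mul_mem_right _ _ ((hπm _).mpr (w.G0 _ _))
  have hdd : ∀ j x, d j (d (j + 1) x) = 0 := by
    intro j x
    funext i
    have h1 := hd j (d (j + 1) x) i
    refine h1.trans ?_
    have h2 : ∀ k, (show Fin (w.b (j + 1)) → A from d (j + 1) x) k =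
      ∑ l, π (w.G (j + 1) k l) * (show Fin (w.b (j + 2)) → A from x) l := fun k =>
        hd (j + 1) x k
    have h3 : ∑ k, π (w.G j i k) * (show Fin (w.b (j + 1)) → A from d (j + 1) x) k =
        ∑ k, ∑ l, π (w.G j i k) * (π (w.G (j + 1) k l) *
          (show Fin (w.b (j + 2)) → A from x) l) :=
      sum_congr rfl fun k _ => by rw [h2, Finset.mul_sum]
    refine h3.trans ?_
    rw [sum_comm]
    refine sum_eq_zero fun l _ => ?_
    have h4 : ∑ k, π (w.G j i k) * π (w.G (j + 1) k l) = 0 := by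
      have h5 : π (∑ k, w.G j i k * w.G (j + 1) k l) = 0 := by
        rw [w.sq, hπ0]
        exact Ideal.sum_mem _ fun l _ => Ideal.mul_mem_right _ _ (Ideal.subset_span ⟨l, rfl⟩)
      rw [map_sum] at h5
      rw [← h5]
      exact sum_congr rfl fun k _ => (map_mul π _ _).symm
    calc ∑ k, π (w.G j i k) * (π (w.G (j + 1) k l) *
          (show Fin (w.b (j + 2)) → A from x) l)
        = ∑ k, (π (w.G j i k) * π (w.G (j + 1) k l)) *
          (show Fin (w.b (j + 2)) → A from x) l :=
          sum_congr rfl fun k _ => (mul_assoc _ _ _).symm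
      _ = 0 := by rw [← Finset.sum_mul, h4, zero_mul]
  have hex : ∀ j x, d j x = 0 → ∃ y, d (j + 1) y = x := by
    intro j x hx
    obtain ⟨x', hx'⟩ := hlift (show Fin (w.b (j + 1)) → A from x)
    obtain ⟨y, hy⟩ := w.ex j x' (fun i => by
      rw [← hJdef, ← hπ0, map_sum]
      simp only [map_mul, hx']
      rw [← hd j x i, hx]
      rfl)
    refine ⟨(fun k => π (y k) : Fin (w.b (j + 2)) → A), ?_⟩
    funext i
    have h1 := hd (j + 1) (fun k => π (y k)) i
    refine h1.trans ?_
    have h2 := hy i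
    rw [← hJdef, ← hπ0, map_sub, sub_eq_zero, hx', map_sum] at h2
    simp only [map_mul] at h2
    exact h2.symm
  -- the module
  let Y := A ⧸ I.map (algebraMap S A)
  let ψ : Y ≃+* S ⧸ I := DoubleQuot.quotQuotEquivQuotOfLE hJI
  have hψ : ∀ s : S, ψ (Ideal.Quotient.mk _ (π s)) = Ideal.Quotient.mk I s := fun s => rfl
  have hψ' : ∀ (s : S) (y : Y), ψ (π s • y) = Ideal.Quotient.mk I s • ψ y := by
    intro s y
    have h1 : π s • y = (Ideal.Quotient.mk _ (π s) : Y) * y := Algebra.smul_def (π s) y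
    rw [h1, map_mul, hψ, smul_eq_mul]
  let T : ∀ j, (Fin (w.b j) → A) ⊗[A] Y ≃ₗ[A] (Fin (w.b j) → Y) := fun j =>
    (TensorProduct.comm A (Fin (w.b j) → A) Y).trans
      (TensorProduct.piScalarRight A A Y (Fin (w.b j)))
  have hT : ∀ j (x : Fin (w.b j) → A) (y : Y) (i : Fin (w.b j)), T j (x ⊗ₜ y) i = x i • y := by
    intro j x y i
    simp [T, TensorProduct.piScalarRight_apply]
  have hTd : ∀ j (z : (Fin (w.b (j + 1)) → A) ⊗[A] Y) (i : Fin (w.b j)),
      T j (dT d Y j z) i = ∑ k, π (w.G j i k) • T (j + 1) z k := by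
    intro j z i
    induction z using TensorProduct.induction_on with
    | zero => simp
    | add a b ha hb =>
      rw [map_add, map_add, Pi.add_apply, ha, hb, ← sum_add_distrib]
      refine sum_congr rfl fun k _ => ?_
      rw [map_add, Pi.add_apply, smul_add]
    | tmul x y =>
      have h1 : dT d Y j (x ⊗ₜ[A] y) = (show Fin (w.b j) → A from d j x) ⊗ₜ[A] y := rfl
      rw [h1, hT]
      refine (congrArg (fun a => a • y) (hd j x i)).trans ?_
      rw [sum_smul]
      refine sum_congr rfl fun k _ => ?_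
      rw [hT, mul_smul]
  obtain ⟨m, hm⟩ : ∃ m : ℕ, m = t₁.toNat := ⟨_, rfl⟩
  have hHz : Hz d Y m := by
    intro z hz
    -- the element of the graded module
    let v : ∀ n, Fin (w.b n) → S ⧸ I := fun n i =>
      if hn : n = m + 1 then ψ (T (m + 1) z (Fin.cast (by rw [hn]) i)) else 0
    have hv1 : ∀ i, v (m + 1) i = ψ (T (m + 1) z i) := by
      intro i
      simp only [v, dif_pos rfl]
      rfl
    have hv0 : ∀ n, n ≠ m + 1 → ∀ i, v n i = 0 := by
      intro n hn i
      simp only [v, dif_neg hn]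
    obtain ⟨u, -, hu⟩ := h (m + 1 : ℕ) (by push_cast; omega) v (by
      funext n i
      change WD.prj I (S ⧸ I) _ v n i = _
      rw [WD.prj_apply]
      by_cases hn : n = m + 1
      · rw [if_pos (by rw [hn])]
      · rw [if_neg (by exact_mod_cast hn), hv0 n hn]) (by
      funext n i
      change WD.nat I 1 w.G (S ⧸ I) v n i = 0
      rw [WD.nat_apply]
      by_cases hn : n = m
      · subst hn
        simp only [hv1, ← hψ', ← map_sum]
        rw [← hTd]
        have h1 : dT d Y n z = 0 := hz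
        rw [h1, (T n).map_zero, Pi.zero_apply, ψ.map_zero]
      · exact sum_eq_zero fun k _ => by rw [hv0 _ (by omega), smul_zero])
    refine ⟨(T (m + 2)).symm (fun k => ψ.symm (u (m + 2) k)), ?_⟩
    apply (T (m + 1)).injective
    funext i
    have h2 := hTd (m + 1) ((T (m + 2)).symm (fun k => ψ.symm (u (m + 2) k))) i
    refine h2.trans ?_
    apply ψ.injective
    rw [map_sum]
    simp only [hψ', LinearEquiv.apply_symm_apply, RingEquiv.apply_symm_apply]
    rw [← hv1, ← hu]
    rfl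
  exact ⟨m, pd_of_hz d e hd0 hd0' hdd hex m Y hHz⟩

end Pool.Agent.CN
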