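import Pool.Agent.CN.Core
import Pool.Agent.CN.FDefs
import Pool.Agent.CN.WExists
import Pool.Agent.CN.WComm
import Pool.Agent.CN.WCone
import Pool.Agent.CN.WHtpy
import Pool.Agent.CN.WPd
import Pool.Agent.CN.Avoid

/-!
# The key theorem
-/

universe u

namespace Pool.Agent.CN

open Finset IsLocalRing

section

variable {S : Type u} [CommRing S] [IsLocalRing S] {I : Ideal S} [IsLocalRing (S ⧸ I)]
  (D : DD S I)

lemma DD.evF_add (c c' : Fin D.N → S) : D.evF (fun i => c i + c' i) = D.evF c + D.evF c' := by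
  simp [DD.evF, add_mul, sum_add_distrib]

lemma DD.evF_sub (c c' : Fin D.N → S) : D.evF (fun i => c i - c' i) = D.evF c - D.evF c' := by
  simp [DD.evF, sub_mul, sum_sub_distrib]

lemma DD.evF_smul (a : S) (c : Fin D.N → S) : D.evF (fun i => a * c i) = a * D.evF c := by
  simp [DD.evF, mul_assoc, mul_sum]

lemma DD.evF_sum {r : ℕ} (s : Fin r → S) (c : Fin r → Fin D.N → S) :
    D.evF (fun i => ∑ l, s l * c l i) = ∑ l, s l * D.evF (c l) := by
  simp only [DD.evF, sum_mul, mul_sum]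
  rw [sum_comm]
  exact sum_congr rfl fun l _ => sum_congr rfl fun i _ => by ring

lemma DD.evη_add (c c' : Fin D.N → S) (x : D.X.ι) :
    D.evη (fun i => c i + c' i) x = D.evη c x + D.evη c' x := by
  simp [DD.evη, add_mul, sum_add_distrib]

lemma DD.evη_sub (c c' : Fin D.N → S) (x : D.X.ι) :
    D.evη (fun i => c i - c' i) x = D.evη c x - D.evη c' x := by
  simp [DD.evη, sub_mul, sum_sub_distrib]

lemma DD.evη_smul (a : S) (c : Fin D.N → S) (x : D.X.ι) :
    D.evη (fun i => a * c i) x = Ideal.Quotient.mk I a * D.evη c x := by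
  simp [DD.evη, mul_assoc, mul_sum]

lemma DD.evη_sum {r : ℕ} (s : Fin r → S) (c : Fin r → Fin D.N → S) (x : D.X.ι) :
    D.evη (fun i => ∑ l, s l * c l i) x = ∑ l, Ideal.Quotient.mk I (s l) * D.evη (c l) x := by
  simp only [DD.evη, map_sum, map_mul, sum_mul, mul_sum]
  rw [sum_comm]
  exact sum_congr rfl fun l _ => sum_congr rfl fun i _ => by ring

lemma DD.exists_evF {f : S} (hf : f ∈ I) : ∃ c, D.evF c = f := by
  have h : f ∈ Ideal.span (Set.range D.F) := le_of_eq D.hF.symm hf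
  obtain ⟨c, hc⟩ := (Ideal.mem_span_range_iff_exists_fun).mp h
  exact ⟨c, hc⟩

/-- the elements of `I` detected by the `c l` only -/
def DD.V {r : ℕ} (c : Fin r → Fin D.N → S) : Ideal S where
  carrier := {f | ∃ c', D.evF c' = f ∧ ∃ s : Fin r → S, ∀ x,
    D.evη (fun i => c' i - ∑ l, s l * c l i) x ∈ maximalIdeal (S ⧸ I)}
  zero_mem' := ⟨fun _ => 0, by simp [DD.evF], fun _ => 0, fun x => by simp [DD.evη]⟩
  add_mem' := by
    rintro a b ⟨c₁, rfl, s₁, h₁⟩ ⟨c₂, rfl, s₂, h₂⟩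
    refine ⟨fun i => c₁ i + c₂ i, D.evF_add _ _, fun l => s₁ l + s₂ l, fun x => ?_⟩
    have : (fun i => c₁ i + c₂ i - ∑ l, (s₁ l + s₂ l) * c l i) =
        fun i => (c₁ i - ∑ l, s₁ l * c l i) + (c₂ i - ∑ l, s₂ l * c l i) := by
      funext i
      simp only [add_mul, sum_add_distrib]
      ring
    rw [this, D.evη_add]
    exact Ideal.add_mem _ (h₁ x) (h₂ x)
  smul_mem' := by
    rintro a b ⟨c₁, rfl, s₁, h₁⟩
    refine ⟨fun i => a * c₁ i, D.evF_smul _ _, fun l => a * s₁ l, fun x => ?_⟩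
    have : (fun i => a * c₁ i - ∑ l, a * s₁ l * c l i) =
        fun i => a * (c₁ i - ∑ l, s₁ l * c l i) := by
      funext i
      simp only [mul_sub, mul_sum, mul_assoc]
    rw [this, D.evη_smul]
    exact Ideal.mul_mem_left _ _ (h₁ x)

lemma DD.mem_V {r : ℕ} (c : Fin r → Fin D.N → S) (c' : Fin D.N → S) :
    D.evF c' ∈ D.V c ↔ ∃ s : Fin r → S, ∀ x,
      D.evη (fun i => c' i - ∑ l, s l * c l i) x ∈ maximalIdeal (S ⧸ I) := by
  constructor
  · rintro ⟨c₁, h1, s, h2⟩
    refine ⟨s, fun x => ?_⟩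
    have h3 := D.rel (fun i => c' i - c₁ i) (by
      have := D.evF_sub c' c₁
      rw [h1, sub_self] at this
      exact this) x
    have h4 : (fun i => c' i - ∑ l, s l * c l i) =
        fun i => (c' i - c₁ i) + (c₁ i - ∑ l, s l * c l i) := by
      funext i; ring
    rw [h4, D.evη_add]
    exact Ideal.add_mem _ h3 (h2 x)
  · rintro ⟨s, hs⟩
    exact ⟨c', rfl, s, hs⟩

lemma DD.V_snoc {r : ℕ} (c : Fin r → Fin D.N → S) (c' : Fin D.N → S)
    (h : D.evF c' ∉ D.V c) : D.V c < D.V (Fin.snoc (α := fun _ => Fin D.N → S) c c') := by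
  refine lt_of_le_of_ne ?_ (fun heq => h ?_)
  · rintro _ ⟨c₁, rfl, s, hs⟩
    refine ⟨c₁, rfl, Fin.snoc (α := fun _ => S) s 0, fun x => ?_⟩
    simpa [Fin.sum_univ_castSucc] using hs x
  · rw [heq, DD.mem_V]
    refine ⟨Fin.snoc (α := fun _ => S) (fun _ => 0) 1, fun x => ?_⟩
    simp [Fin.sum_univ_castSucc, DD.evη]

end

/-- one step -/
lemma key_step {S : Type u} [CommRing S] [IsLocalRing S] [IsNoetherianRing S] (I : Ideal S)
    (hI : I ≠ ⊤) [IsLocalRing (S ⧸ I)] (D : DD S I) {r : ℕ} (c : Fin r → Fin D.N → S)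
    (hreg : RegFam (fun l => D.evF (c l)))
    (hfpd : FPD (Ideal.span (Set.range fun l => D.evF (c l))) I)
    (hno : ¬ I ≤ D.V c) :
    ∃ c' : Fin D.N → S, D.evF c' ∉ D.V c ∧
      RegFam (fun l => D.evF (Fin.snoc (α := fun _ => Fin D.N → S) c c' l)) ∧
      FPD (Ideal.span (Set.range fun l =>
        D.evF (Fin.snoc (α := fun _ => Fin D.N → S) c c' l))) I := by
  have hJV : Ideal.span (Set.range fun l => D.evF (c l)) ≤ D.V c := by
    rw [Ideal.span_le]
    rintro _ ⟨l, rfl⟩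
    change D.evF (c l) ∈ D.V c
    rw [D.mem_V]
    refine ⟨Pi.single l 1, fun x => ?_⟩
    have : (fun i => c l i - ∑ k, (Pi.single l 1 : Fin r → S) k * c k i) = fun _ => 0 := by
      funext i
      rw [sum_eq_single l]
      · simp
      · intro k _ hk; simp [Pi.single_eq_of_ne hk]
      · simp
    rw [this]
    simp [DD.evη]
  have hJI : Ideal.span (Set.range fun l => D.evF (c l)) ≤ I := by
    rw [Ideal.span_le]
    rintro _ ⟨l, rfl⟩
    exact D.evF_mem _
  obtain ⟨f, hfI, hfV, hfreg⟩ := exists_regular_avoid _ I (D.V c) hI hJV hJI hno hfpd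
  obtain ⟨c', rfl⟩ := D.exists_evF hfI
  let c₁ : Fin (r + 1) → Fin D.N → S := Fin.snoc (α := fun _ => Fin D.N → S) c c'
  have hc1 : ∀ l : Fin r, c₁ l.castSucc = c l := fun l => by simp [c₁]
  have hc2 : c₁ (Fin.last r) = c' := by simp [c₁]
  have hreg₁ : RegFam (fun l => D.evF (c₁ l)) := by
    refine ⟨?_, ?_⟩
    · simp only [hc1]; exact hreg
    · simp only [hc1, hc2]; exact hfreg
  have hf : ∀ l, D.evF (c₁ l) ∈ I := fun l => D.evF_mem _
  obtain ⟨w⟩ := exists_WD (fun l => D.evF (c₁ l))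
    (fun l => IsLocalRing.le_maximalIdeal hI (hf l))
  have star := D.star (r + 1) c₁ hreg₁ w hf
  -- the functional
  obtain ⟨ρ, hρ1, hρ2⟩ := exists_dual (fun l => D.evη (c l)) (D.evη c') (by
    rintro ⟨s, hs⟩
    apply hfV
    choose s' hs' using fun l => Ideal.Quotient.mk_surjective (s l)
    rw [D.mem_V]
    refine ⟨s', fun x => ?_⟩
    rw [D.evη_sub, D.evη_sum]
    simp only [hs']
    exact hs x)
  obtain ⟨t₀, hcone⟩ := w.coneExact hreg₁ I hI hf (by simp only [hc1]; exact hfpd)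
  -- generators of the maximal ideal
  obtain ⟨e, x, hx⟩ := (Submodule.fg_iff_exists_fin_generating_family
    (N := maximalIdeal (S ⧸ I))).mp (IsNoetherian.noetherian _)
  obtain ⟨t₁, ht₁⟩ := core_step (w.dg I hf (S ⧸ I)) r (w.chi I (S ⧸ I))
    (fun l => w.op2 hreg₁ I hf (S ⧸ I) l) D.X D.hX D.hσ D.hXm (fun l => D.evη (c₁ l))
    (fun l x h => by
      obtain ⟨i, -, hi⟩ := exists_ne_zero_of_sum_ne_zero h
      exact D.hη i x (fun h0 => hi (by rw [h0, mul_zero])))
    ρ (by rw [hc2]; exact hρ1) (fun l => by rw [hc1]; exact hρ2 l) star t₀ hcone e x hx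
    (fun i => by
      obtain ⟨y, hy⟩ := Ideal.Quotient.mk_surjective (x i)
      have hxi : x i ∈ maximalIdeal (S ⧸ I) := by
        rw [← hx]; exact Submodule.subset_span ⟨i, rfl⟩
      obtain ⟨τ, hτ⟩ := w.htpy I hf y (by
        by_contra hy'
        rw [mem_maximalIdeal, mem_nonunits_iff, not_not] at hy'
        rw [mem_maximalIdeal, mem_nonunits_iff, ← hy] at hxi
        exact hxi (hy'.map _))
      exact ⟨τ, fun v => by rw [hτ, hy]⟩)
  exact ⟨c', hfV, hreg₁, w.fpd_of_vanish I hI hf t₁ ht₁⟩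

theorem key {S : Type u} [CommRing S] [IsLocalRing S] [IsNoetherianRing S] (I : Ideal S)
    (hI : I ≠ ⊤) [IsLocalRing (S ⧸ I)] (D : DD S I) (h0 : FPD ⊥ I) :
    ∃ (r : ℕ) (c : Fin r → Fin D.N → S), RegFam (fun l => D.evF (c l)) ∧
      FPD (Ideal.span (Set.range fun l => D.evF (c l))) I ∧
      ∀ c' : Fin D.N → S, ∃ s : Fin r → S, ∀ x,
        D.evη (fun i => c' i - ∑ l, s l * c l i) x ∈ maximalIdeal (S ⧸ I) := by
  have main : ∀ V : Ideal S, ∀ (r : ℕ) (c : Fin r → Fin D.N → S), D.V c = V →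
      RegFam (fun l => D.evF (c l)) → FPD (Ideal.span (Set.range fun l => D.evF (c l))) I →
      ∃ (r : ℕ) (c : Fin r → Fin D.N → S), RegFam (fun l => D.evF (c l)) ∧
        FPD (Ideal.span (Set.range fun l => D.evF (c l))) I ∧ I ≤ D.V c := by
    intro V
    induction V using WellFoundedGT.induction with
    | ind V ih =>
      intro r c hV hreg hfpd
      by_cases hno : I ≤ D.V c
      · exact ⟨r, c, hreg, hfpd, hno⟩
      · obtain ⟨c', h1, h2, h3⟩ := key_step I hI D c hreg hfpd hno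
        exact ih _ (by rw [← hV]; exact D.V_snoc c c' h1) (r + 1) _ rfl h2 h3
  obtain ⟨r, c, h1, h2, h3⟩ := main (D.V (fun l : Fin 0 => l.elim0)) 0 (fun l => l.elim0) rfl
    trivial (by
      have : Set.range (fun l : Fin 0 => D.evF (l.elim0)) = ∅ := Set.range_eq_empty _
      rw [this, Ideal.span_empty]
      exact h0)
  exact ⟨r, c, h1, h2, fun c' => (D.mem_V c c').mp (h3 (D.evF_mem c'))⟩

end Pool.Agent.CN
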