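import Pool.Agent.CN.DetAll

/-!
# Chain maps and null homotopies in matrix form

`exists_lift`: every map from the degree zero part of a complex `π` to `N` which vanishes on
boundaries lifts to a chain map into a resolution of `N`.
`exists_htpy`: a chain map of degree `e ≥ 0` into a resolution (over the zero map, if `e = 0`) is
null homotopic.
-/

universe u

namespace Pool.Agent.CN

open Finset

private def al (e : ℕ) : ℕ → ℤ
  | 0 => 1
  | k + 1 => -(-1) ^ (k + e) * al e k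

private theorem al_sq (e : ℕ) : ∀ k, al e k * al e k = 1
  | 0 => rfl
  | k + 1 => by
    have h1 : ((-1 : ℤ) ^ (k + e)) * (-1) ^ (k + e) = 1 := by rw [← mul_pow]; norm_num
    have h2 := al_sq e k
    show (-(-1) ^ (k + e) * al e k) * (-(-1) ^ (k + e) * al e k) = 1
    linear_combination (al e k * al e k) * h1 + h2

variable {R : Type u} [CommRing R] {N : Type u} [AddCommGroup N] [Module R N] {s : ℕ}

private theorem op_dual (F : FRes R N s) (π : BC R) (t : ℕ) (z : F.ν.ι → π.ι → R) (a : F.ν.ι)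
    (x : π.ι) : F.norm.ν.op ((π.dualS t).op (0 : R →ₗ[R] R)) z a x =
      ∑ b, F.ν.m a b * z b x + ((-1) ^ (F.ν.g a).toNat : ℤ) * ∑ y, z a y * π.m y x := by
  have h3 : F.norm.ν.op ((π.dualS t).op (0 : R →ₗ[R] R)) z a x =
      (∑ b, F.ν.m a b • z b) x +
        ((F.norm.ν.σ a) • ((π.dualS t).op (0 : R →ₗ[R] R) (z a))) x := rfl
  rw [h3, Pi.smul_apply, BC.op_apply, LinearMap.zero_apply, smul_zero, add_zero, Finset.sum_apply]
  congr 1
  have h4 : F.norm.ν.σ a = (-1) ^ (F.ν.g a).toNat := rfl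
  rw [h4, ← Int.cast_smul_eq_zsmul R, smul_eq_mul]
  congr 1
  refine sum_congr rfl fun y _ => ?_
  exact mul_comm _ _

theorem exists_lift (F : FRes R N s) (π : BC R) (h : π.ι → N) (h0 : ∀ x, h x ≠ 0 → π.g x = 0)
    (h1 : ∀ x, ∑ y, π.m y x • h y = 0) :
    ∃ u : F.ν.ι → π.ι → R, (∀ a x, u a x ≠ 0 → F.ν.g a = π.g x) ∧
      (∀ a x, ∑ b, F.ν.m a b * u b x = ∑ y, u a y * π.m y x) ∧
      ∀ x, ∑ a, u a x • F.ε a = h x := by
  obtain ⟨η, hη1', hη2, hη3⟩ : ∃ η : F.ν.ι → π.ι → R, (∀ a x, ∑ b, F.ν.m a b * η b x +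
      ((-1) ^ (F.ν.g a).toNat : ℤ) * ∑ y, η a y * π.m y x = 0) ∧
      (∀ a x, η a x ≠ 0 → F.ν.g a + ((s : ℤ) - π.g x) = s) ∧ ∀ x, ∑ a, η a x • F.ε a = h x := by
    obtain ⟨η, hη1, hη2, hη3⟩ := F.norm.lift_deg (π.dualS s) s h (fun x => h1 x) (fun x hx => by
      have h2 := h0 x hx
      show (s : ℤ) - π.g x = s
      rw [h2, sub_zero])
    refine ⟨η, fun a x => ?_, fun a x => hη2 a x, fun x => hη3 x⟩
    exact (op_dual F π s η a x).symm.trans (congrFun (congrFun hη1 a) x)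
  refine ⟨fun a x => (al 0 (F.ν.g a).toNat : R) * η a x, fun a x hax => ?_, fun a x => ?_,
    fun x => ?_⟩
  · have h2 : F.ν.g a + ((s : ℤ) - π.g x) = s := hη2 a x (right_ne_zero_of_mul hax)
    linarith
  · have h2 : ∀ b, F.ν.m a b * ((al 0 (F.ν.g b).toNat : R) * η b x) =
        (al 0 ((F.ν.g a).toNat + 1) : R) * (F.ν.m a b * η b x) := by
      intro b
      by_cases hb : F.ν.m a b = 0
      · rw [hb, zero_mul, zero_mul, mul_zero]
      · have h3 := F.ν.deg a b hb
        have h4 := F.g0 a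
        have h5 : (F.ν.g b).toNat = (F.ν.g a).toNat + 1 := by omega
        rw [h5]
        ring
    have h8 : ∑ y, (al 0 (F.ν.g a).toNat : R) * η a y * π.m y x =
        (al 0 (F.ν.g a).toNat : R) * ∑ y, η a y * π.m y x := by
      rw [mul_sum]
      exact sum_congr rfl fun y _ => mul_assoc _ _ _
    show ∑ b, F.ν.m a b * ((al 0 (F.ν.g b).toNat : R) * η b x) =
      ∑ y, (al 0 (F.ν.g a).toNat : R) * η a y * π.m y x
    rw [sum_congr rfl fun b _ => h2 b, ← mul_sum, eq_neg_of_add_eq_zero_left (hη1' a x), h8]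
    have h6 : al 0 ((F.ν.g a).toNat + 1) = -(-1) ^ ((F.ν.g a).toNat + 0) * al 0 (F.ν.g a).toNat := rfl
    rw [h6, add_zero]
    have h7 : ((-1 : R) ^ (F.ν.g a).toNat) * (-1) ^ (F.ν.g a).toNat = 1 := by
      rw [← mul_pow]; norm_num
    push_cast
    linear_combination ((al 0 (F.ν.g a).toNat : R) * ∑ y, η a y * π.m y x) * h7
  · rw [← hη3 x]
    refine sum_congr rfl fun a _ => ?_
    show ((al 0 (F.ν.g a).toNat : R) * η a x) • F.ε a = η a x • F.ε a
    by_cases ha : F.ν.g a = 0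
    · rw [ha]
      have h2 : al 0 ((0 : ℤ).toNat) = 1 := rfl
      rw [h2, Int.cast_one, one_mul]
    · rw [F.ε0 a ha, smul_zero, smul_zero]

theorem exists_htpy (F : FRes R N s) (π : BC R) (hπ : ∀ x, 0 ≤ π.g x) (e : ℕ)
    (u : F.ν.ι → π.ι → R) (hdeg : ∀ a x, u a x ≠ 0 → F.ν.g a = π.g x + e)
    (hcyc : ∀ a x, ∑ b, F.ν.m a b * u b x = (-1) ^ e * ∑ y, u a y * π.m y x)
    (h0 : e = 0 → ∀ x, ∑ a, u a x • F.ε a = 0) :
    ∃ v : F.ν.ι → π.ι → R, (∀ a x, v a x ≠ 0 → F.ν.g a = π.g x + e + 1) ∧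
      ∀ a x, u a x = ∑ b, F.ν.m a b * v b x + (-1) ^ e * ∑ y, v a y * π.m y x := by
  obtain ⟨u', hu'⟩ : ∃ u' : F.ν.ι → π.ι → R, ∀ a x, u' a x = (al e (F.ν.g a).toNat : R) * u a x :=
    ⟨_, fun _ _ => rfl⟩
  obtain ⟨X, hX⟩ : ∃ X, X = π.dualS s := ⟨_, rfl⟩
  have hsq : ∀ k, ((al e k : R)) * (al e k : R) = 1 := by
    intro k
    rw [← Int.cast_mul, al_sq, Int.cast_one]
  have hone : ∀ k : ℕ, ((-1 : R) ^ k) * (-1) ^ k = 1 := by
    intro k
    rw [← mul_pow]
    norm_num
  have hcyc' : ∀ a x, ∑ b, F.ν.m a b * u' b x +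
      ((-1) ^ (F.ν.g a).toNat : ℤ) * ∑ y, u' a y * π.m y x = 0 := by
    intro a x
    have h2 : ∀ b, F.ν.m a b * u' b x =
        (al e ((F.ν.g a).toNat + 1) : R) * (F.ν.m a b * u b x) := by
      intro b
      rw [hu']
      by_cases hb : F.ν.m a b = 0
      · rw [hb, zero_mul, zero_mul, mul_zero]
      · have h3 := F.ν.deg a b hb
        have h4 := F.g0 a
        have h5 : (F.ν.g b).toNat = (F.ν.g a).toNat + 1 := by omega
        rw [h5]
        ring
    have h6 : al e ((F.ν.g a).toNat + 1) = -(-1) ^ ((F.ν.g a).toNat + e) * al e (F.ν.g a).toNat := rfl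
    have h8 : ∑ y, u' a y * π.m y x = (al e (F.ν.g a).toNat : R) * ∑ y, u a y * π.m y x := by
      rw [mul_sum]
      exact sum_congr rfl fun y _ => by rw [hu', mul_assoc]
    rw [sum_congr rfl fun b _ => h2 b, ← mul_sum, hcyc, h6, h8]
    push_cast
    rw [pow_add]
    linear_combination (-(-1 : R) ^ (F.ν.g a).toNat * (al e (F.ν.g a).toNat : R) *
      ∑ y, u a y * π.m y x) * hone e
  have hcomm : ∀ (a : F.norm.ν.ι) (v : X.ι → R),
      (LinearMap.pi fun j => (LinearMap.toSpanSingleton R N (F.norm.ε a)) ∘ₗ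
        (LinearMap.proj j)) ((X.dg (DG.triv R R)).d v) =
      (X.dg (DG.triv R N)).d ((LinearMap.pi fun j =>
        (LinearMap.toSpanSingleton R N (F.norm.ε a)) ∘ₗ (LinearMap.proj j)) v) := by
    intro a v
    funext x
    simp only [BC.dg_d, DG.triv, LinearMap.pi_apply, LinearMap.comp_apply, LinearMap.proj_apply,
      LinearMap.toSpanSingleton_apply, BC.op_apply, LinearMap.zero_apply, smul_zero, add_zero,
      smul_eq_mul, sum_smul, mul_smul]
  subst hX
  have hε : ∀ x, ∑ a, u' a x • F.ε a = 0 := by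
    intro x
    rcases Nat.eq_zero_or_pos e with he | he
    · rw [← h0 he x]
      refine sum_congr rfl fun a _ => ?_
      rw [hu']
      by_cases ha : F.ν.g a = 0
      · rw [ha]
        have h2 : al e ((0 : ℤ).toNat) = 1 := rfl
        rw [h2, Int.cast_one, one_mul]
      · rw [F.ε0 a ha, smul_zero, smul_zero]
    · refine sum_eq_zero fun a _ => ?_
      by_cases ha : F.ν.g a = 0
      · have h2 : u a x = 0 := by
          by_contra h3
          have h4 := hdeg a x h3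
          have h5 := hπ x
          omega
        rw [hu', h2, mul_zero, zero_smul]
      · rw [F.ε0 a ha, smul_zero]
  obtain ⟨v, hv, -⟩ := (F.norm.qiPi (π.dualS s).ι).acyc F.norm.g0 F.norm.σ0
    ((π.dualS s).dg (DG.triv R R)) ((π.dualS s).dg (DG.triv R N)) hcomm u' (by
      funext a x
      exact (op_dual F π s u' a x).trans (hcyc' a x)) (by
      funext x
      rw [Finset.sum_apply]
      exact hε x)
  let Z := F.norm.ν.dg ((π.dualS s).dg (DG.triv R R))
  have hp : ∀ (k : ℤ) (z : F.ν.ι → π.ι → R) n x,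
      Z.p k z n x = if F.ν.g n + (s - π.g x) = k then z n x else 0 := by
    intro k z n x
    change (DG.triv R R).p (k - F.ν.g n - (s - π.g x)) (z n x) = _
    by_cases hk : F.ν.g n + ((s : ℤ) - π.g x) = k
    · rw [if_pos hk]
      simp [DG.triv, show k - F.ν.g n - (s - π.g x) = 0 by omega]
    · rw [if_neg hk]
      have : ¬ (k - F.ν.g n - ((s : ℤ) - π.g x) = 0) := by omega
      simp [DG.triv, this]
  obtain ⟨v', hv'⟩ : ∃ v' : F.ν.ι → π.ι → R, v' = Z.p (s + e + 1) v := ⟨_, rfl⟩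
  have hv1 : ∀ a x, ∑ b, F.ν.m a b * v' b x +
      ((-1) ^ (F.ν.g a).toNat : ℤ) * ∑ y, v' a y * π.m y x = u' a x := by
    intro a x
    rw [← op_dual F π s v' a x]
    have h2 : Z.d v' = Z.p (s + e) u' := by
      rw [hv', Z.dp]
      have h3 : Z.d v = u' := hv
      rw [h3]
      congr 1
      ring_nf
    have h3 : Z.d v' a x = u' a x := by
      rw [h2, hp]
      by_cases h4 : F.ν.g a + ((s : ℤ) - π.g x) = s + e
      · rw [if_pos h4]
      · rw [if_neg h4, hu']
        have h5 : u a x = 0 := by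
          by_contra h6
          have := hdeg a x h6
          omega
        rw [h5, mul_zero]
    exact h3
  have hv2 : ∀ a x, v' a x ≠ 0 → F.ν.g a = π.g x + e + 1 := by
    intro a x h
    by_contra h2
    apply h
    rw [hv', hp, if_neg]
    omega
  refine ⟨fun a x => ((-1) ^ ((F.ν.g a).toNat + e) * (al e (F.ν.g a).toNat : R)) * v' a x,
    fun a x h => hv2 a x (right_ne_zero_of_mul h), fun a x => ?_⟩
  have h2 : ∀ b, F.ν.m a b * (((-1) ^ ((F.ν.g b).toNat + e) * (al e (F.ν.g b).toNat : R)) * v' b x) =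
      (al e (F.ν.g a).toNat : R) * (F.ν.m a b * v' b x) := by
    intro b
    by_cases hb : F.ν.m a b = 0
    · rw [hb, zero_mul, zero_mul, mul_zero]
    · have h3 := F.ν.deg a b hb
      have h4 := F.g0 a
      have h5 : (F.ν.g b).toNat = (F.ν.g a).toNat + 1 := by omega
      have h6 : al e ((F.ν.g a).toNat + 1) = -(-1) ^ ((F.ν.g a).toNat + e) * al e (F.ν.g a).toNat := rfl
      rw [h5, h6]
      push_cast
      have h7 := hone ((F.ν.g a).toNat + e)
      have h8 : (-1 : R) ^ ((F.ν.g a).toNat + 1 + e) = -(-1) ^ ((F.ν.g a).toNat + e) := by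
        rw [show (F.ν.g a).toNat + 1 + e = ((F.ν.g a).toNat + e) + 1 by ring, pow_succ]
        ring
      rw [h8]
      linear_combination (F.ν.m a b * (al e (F.ν.g a).toNat : R) * v' b x) * h7
  have h3 : ∑ y, (((-1) ^ ((F.ν.g a).toNat + e) * (al e (F.ν.g a).toNat : R)) * v' a y) * π.m y x =
      ((-1) ^ ((F.ν.g a).toNat + e) * (al e (F.ν.g a).toNat : R)) * ∑ y, v' a y * π.m y x := by
    rw [mul_sum]
    exact sum_congr rfl fun y _ => mul_assoc _ _ _
  have h4 : u a x = (al e (F.ν.g a).toNat : R) * u' a x := by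
    rw [hu', ← mul_assoc, hsq, one_mul]
  rw [sum_congr rfl fun b _ => h2 b, ← mul_sum, h3, h4, ← hv1 a x, pow_add]
  push_cast
  linear_combination (-(al e (F.ν.g a).toNat : R) * (-1) ^ (F.ν.g a).toNat *
    ∑ y, v' a y * π.m y x) * hone e

end Pool.Agent.CN
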