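import Pool.Agent.CN.Main

/-!
# The local version, for arbitrary `N`
-/

universe u

open CategoryTheory Abelian IsLocalRing RingTheory.Sequence Pool.Agent.Helper19

namespace Pool.Agent.CN

/-- projective dimension along a ring isomorphism -/
lemma pd_of_ringEquiv {B C : Type u} [CommRing B] [CommRing C] (e : B ≃+* C) (n : ℕ) :
    ∀ (X : Type u) [AddCommGroup X] [Module C X] [Module B X],
      (∀ (b : B) (x : X), e b • x = b • x) → PD C X n → PD B X n := by
  induction n with
  | zero =>
    intro X _ _ _ _ h
    have := subsingleton_of_pd_zero h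
    exact (ModuleCat.isZero_iff_subsingleton (M := ModuleCat.of B X)).mpr this
      |>.hasProjectiveDimensionLT_zero
  | succ n ih =>
    intro X _ _ _ hs h
    have key : ∀ (Y : Type u) [AddCommGroup Y] [Module C Y] [Module B Y],
        (∀ (b : B) (x : Y), e b • x = b • x) → Module.Projective C Y → Module.Projective B Y := by
      intro Y _ _ _ hs hP
      let _ : RingHomInvPair (e : B →+* C) (e.symm : C →+* B) := RingHomInvPair.of_ringEquiv e
      let _ : RingHomInvPair (e.symm : C →+* B) (e : B →+* C) :=
        RingHomInvPair.of_ringEquiv e.symm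
      let l : Y ≃ₛₗ[(e.symm : C →+* B)] Y :=
        { toFun := fun y => y
          invFun := fun y => y
          map_add' := fun _ _ => rfl
          map_smul' := fun c y => by
            change c • y = e.symm c • y
            rw [← hs, e.apply_symm_apply]
          left_inv := fun _ => rfl
          right_inv := fun _ => rfl }
      exact Module.Projective.of_equiv l
    match n with
    | 0 =>
      have h1 : Module.Projective C X := projective_of_pd_one h
      have h2 : Module.Projective B X := key X hs h1
      exact pd_of_projective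
    | n + 1 =>
      let F := X →₀ C
      let π : F →ₗ[C] X := Finsupp.linearCombination C (id : X → X)
      have hπ : Function.Surjective π := fun x => ⟨Finsupp.single x 1, by
        exact (Finsupp.linearCombination_single C 1 x).trans (one_smul C x)⟩
      let K := LinearMap.ker π
      have hK : PD C K (n + 1) := by
        have hinj : Function.Injective (LinearMap.ker π).subtype := Subtype.val_injective
        have hex : Function.Exact (LinearMap.ker π).subtype π := fun v => by simp
        exact pd_ker hinj hπ hex h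
      let mF : Module B F := Module.compHom F (e : B →+* C)
      let mK : Module B K := Module.compHom K (e : B →+* C)
      let π' : F →ₗ[B] X :=
        { toFun := π
          map_add' := π.map_add
          map_smul' := fun b f => by
            change π (e b • f) = b • π f
            rw [π.map_smul, hs] }
      let i' : K →ₗ[B] F :=
        { toFun := fun k => k.1
          map_add' := fun _ _ => rfl
          map_smul' := fun b k => rfl }
      have hi' : Function.Injective i' := Subtype.val_injective
      have hex' : Function.Exact i' π' := fun v => by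
        constructor
        · intro hv
          exact ⟨⟨v, hv⟩, rfl⟩
        · rintro ⟨k, rfl⟩
          exact k.2
      have hK' : PD B K (n + 1) := ih K (fun b x => rfl) hK
      have hPF : Module.Projective B F := key F (fun b x => rfl) inferInstance
      have hF' : PD B F 1 := pd_of_projective
      exact pd_coker (A := B) (f := i') (g := π') hi' hπ hex' hK' (PD.mono (A := B) hF' (by omega))

lemma Loc_alg {S : Type u} [CommRing S] (I : Ideal S) (S' : Type u) [CommRing S'] [Algebra S S']
    (s : S) : algebraMap (S ⧸ I) (S' ⧸ I.map (algebraMap S S')) (Ideal.Quotient.mk I s) =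
    Ideal.Quotient.mk (I.map (algebraMap S S')) (algebraMap S S' s) := rfl

/-- Hom commutes with localization -/
theorem hom_localized {S : Type u} [CommRing S] [IsNoetherianRing S] (I : Ideal S) (M : Submonoid S)
    (S' : Type u) [CommRing S'] [Algebra S S'] [IsLocalization M S']
    (N : Type u) [AddCommGroup N] [Module (S ⧸ I) N]
    (X : Type u) [AddCommGroup X] [Module (S ⧸ I) X]
    [Module (S' ⧸ I.map (algebraMap S S')) X]
    [IsScalarTower (S ⧸ I) (S' ⧸ I.map (algebraMap S S')) X]
    (g : N →ₗ[S ⧸ I] X) [IsLocalizedModule (Algebra.algebraMapSubmonoid (S ⧸ I) M) g]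
    (Y : Type u) [AddCommGroup Y] [Module (S ⧸ I) Y]
    [Module (S' ⧸ I.map (algebraMap S S')) Y]
    [IsScalarTower (S ⧸ I) (S' ⧸ I.map (algebraMap S S')) Y]
    (f : (I.Cotangent →ₗ[S ⧸ I] N) →ₗ[S ⧸ I] Y)
    [IsLocalizedModule (Algebra.algebraMapSubmonoid (S ⧸ I) M) f] :
    Nonempty (Y ≃ₗ[S' ⧸ I.map (algebraMap S S')]
    ((I.map (algebraMap S S')).Cotangent →ₗ[S' ⧸ I.map (algebraMap S S')] X)) := by
  -- auxiliary structures
  let _ : Module S N := Module.compHom N (algebraMap S (S ⧸ I))
  have : IsScalarTower S (S ⧸ I) N := IsScalarTower.of_algebraMap_smul fun r x => rfl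
  let _ : Module S X := Module.compHom X (algebraMap S (S ⧸ I))
  have : IsScalarTower S (S ⧸ I) X := IsScalarTower.of_algebraMap_smul fun r x => rfl
  let _ : Module S' X := Module.compHom X (algebraMap S' (S' ⧸ I.map (algebraMap S S')))
  have : IsScalarTower S' (S' ⧸ I.map (algebraMap S S')) X :=
    IsScalarTower.of_algebraMap_smul fun r x => rfl
  have : IsScalarTower S S' X := by
    refine IsScalarTower.of_algebraMap_smul fun r x => ?_
    change Ideal.Quotient.mk (I.map (algebraMap S S')) (algebraMap S S' r) • x =
      Ideal.Quotient.mk I r • x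
    rw [← Loc_alg, algebraMap_smul]
  have : SMulCommClass S' (S ⧸ I) X := by
    refine ⟨fun a b x => ?_⟩
    change Ideal.Quotient.mk (I.map (algebraMap S S')) a • b • x =
      b • Ideal.Quotient.mk (I.map (algebraMap S S')) a • x
    rw [← algebraMap_smul (S' ⧸ I.map (algebraMap S S')) b x, smul_comm,
      algebraMap_smul (S' ⧸ I.map (algebraMap S S')) b]
  let _ : Module S Y := Module.compHom Y (algebraMap S (S ⧸ I))
  have : IsScalarTower S (S ⧸ I) Y := IsScalarTower.of_algebraMap_smul fun r x => rfl
  have hg : IsLocalizedModule M (g.restrictScalars S) := IsLocalizedModule.restrictScalars M g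
  have hf : IsLocalizedModule M (f.restrictScalars S) := IsLocalizedModule.restrictScalars M f
  have hI : Module.FinitePresentation S I := Module.finitePresentation_of_finite S I
  let φ := IsLocalizedModule.mapExtendScalars M (Algebra.idealMap (S := S') I)
    (g.restrictScalars S) S'
  have hφ : IsLocalizedModule M φ :=
    Module.FinitePresentation.isLocalizedModule_mapExtendScalars M _ _ S'
  let c := (cotHomEquiv I N).restrictScalars S
  have hφ' : IsLocalizedModule M (φ ∘ₗ c.toLinearMap) := IsLocalizedModule.of_linearEquiv_right M φ c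
  let E0 : Y ≃ₗ[S] (I.map (algebraMap S S') →ₗ[S'] X) :=
    IsLocalizedModule.linearEquiv M (f.restrictScalars S) (φ ∘ₗ c.toLinearMap)
  have hsurj : Function.Surjective (algebraMap S (S ⧸ I)) := Ideal.Quotient.mk_surjective
  have : IsScalarTower S (S ⧸ I) (I.map (algebraMap S S') →ₗ[S'] X) := by
    refine IsScalarTower.of_algebraMap_smul fun r h => ?_
    ext x
    rfl
  have : IsScalarTower (S ⧸ I) (S' ⧸ I.map (algebraMap S S'))
      (I.map (algebraMap S S') →ₗ[S'] X) := by
    refine IsScalarTower.of_algebraMap_smul fun r h => ?_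
    ext x
    exact algebraMap_smul (S' ⧸ I.map (algebraMap S S')) r (h x)
  let E1 : Y ≃ₗ[S ⧸ I] (I.map (algebraMap S S') →ₗ[S'] X) := E0.extendScalarsOfSurjective hsurj
  let E2 : Y ≃ₗ[S' ⧸ I.map (algebraMap S S')] (I.map (algebraMap S S') →ₗ[S'] X) :=
    E1.extendScalarsOfIsLocalization (Algebra.algebraMapSubmonoid (S ⧸ I) M)
      (S' ⧸ I.map (algebraMap S S'))
  exact ⟨E2.trans (cotHomEquiv (I.map (algebraMap S S')) X).symm⟩

/-- the complement of a prime of the quotient is the image of the complement of its preimage -/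
lemma loc_compl {S : Type u} [CommRing S] (I : Ideal S) (p : Ideal (S ⧸ I)) [p.IsPrime] :
    Algebra.algebraMapSubmonoid (S ⧸ I) (p.comap (Ideal.Quotient.mk I)).primeCompl =
      p.primeCompl := by
  ext x
  constructor
  · rintro ⟨y, hy, rfl⟩
    exact hy
  · intro hx
    obtain ⟨y, rfl⟩ := Ideal.Quotient.mk_surjective x
    exact ⟨y, hx, rfl⟩

lemma loc_pdS {S : Type u} [CommRing S] [IsLocalRing S] [IsNoetherianRing S]
    (I : Ideal S) (q : Ideal S) [q.IsPrime] (n : ℕ) (h : PD S (S ⧸ I) n) :
    PD (Localization.AtPrime q)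
      (Localization.AtPrime q ⧸ I.map (algebraMap S (Localization.AtPrime q))) n := by
  have h1 := pd_localized q.primeCompl n (S ⧸ I) h
  let B := Localization.AtPrime q ⧸ I.map (algebraMap S (Localization.AtPrime q))
  let f : (S ⧸ I) →ₗ[S] B := (IsScalarTower.toAlgHom S (S ⧸ I) B).toLinearMap
  have hf : IsLocalizedModule q.primeCompl f :=
    (isLocalizedModule_iff_isLocalization (S := q.primeCompl) (A := S ⧸ I) (Aₛ := B)).mpr
      inferInstance
  let E := IsLocalizedModule.linearEquiv q.primeCompl
    (LocalizedModule.mkLinearMap q.primeCompl (S ⧸ I)) f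
  exact PD.congr (E.extendScalarsOfIsLocalization q.primeCompl (Localization.AtPrime q)) h1

lemma supportDim_of_ringEquiv {B C : Type u} [CommRing B] [CommRing C] (e : B ≃+* C)
    (X : Type u) [AddCommGroup X] [Module C X] [Module B X]
    (hs : ∀ (b : B) (x : X), e b • x = b • x) [Module.Finite C X] [Module.Finite B X] :
    Module.supportDim B X = Module.supportDim C X := by
  rw [Module.supportDim_eq_ringKrullDim_quotient_annihilator,
    Module.supportDim_eq_ringKrullDim_quotient_annihilator]
  refine ringKrullDim_eq_of_ringEquiv (Ideal.quotientEquiv _ _ e ?_)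
  ext c
  rw [Ideal.mem_map_iff_of_surjective (e : B →+* C) e.surjective, Module.mem_annihilator]
  constructor
  · intro h
    refine ⟨e.symm c, Module.mem_annihilator.mpr fun x => ?_, e.apply_symm_apply c⟩
    rw [← hs, e.apply_symm_apply]
    exact h x
  · rintro ⟨b, hb, rfl⟩ x
    exact (hs b x).trans (Module.mem_annihilator.mp hb x)

theorem local_theorem_aux (S : Type u) [CommRing S] [IsLocalRing S] [IsNoetherianRing S]
    (I : Ideal S) (hI : I ≠ ⊤) (hpd : projectiveDimension (ModuleCat.of S (S ⧸ I)) < ⊤)
    (N : Type u) [AddCommGroup N] [Module (S ⧸ I) N] [Module.Finite (S ⧸ I) N]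
    (hN : projectiveDimension (ModuleCat.of (S ⧸ I) N) < ⊤)
    (hHom : projectiveDimension (ModuleCat.of (S ⧸ I) (I.Cotangent →ₗ[S ⧸ I] N)) < ⊤)
    (p : Ideal (S ⧸ I)) [p.IsPrime] [Nontrivial (LocalizedModule p.primeCompl N)]
    (h : p ∈ associatedPrimes (S ⧸ I) N ∨
        Module.supportDim (Localization.AtPrime p)
          (LocalizedModule p.primeCompl N) ≤ 1) :
    ∃ rs : List (Localization.AtPrime (p.comap (Ideal.Quotient.mk I))),
      IsRegular (Localization.AtPrime (p.comap (Ideal.Quotient.mk I))) rs ∧
      Ideal.ofList rs = I.map (algebraMap S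
        (Localization.AtPrime (p.comap (Ideal.Quotient.mk I)))) := by
  have : Nontrivial (S ⧸ I) := Ideal.Quotient.nontrivial_iff.mpr hI
  have : IsLocalRing (S ⧸ I) :=
    IsLocalRing.of_surjective' (Ideal.Quotient.mk I) Ideal.Quotient.mk_surjective
  obtain ⟨n, hn⟩ := (projectiveDimension_ne_top_iff _).mp hpd.ne
  obtain ⟨k, hk⟩ := (projectiveDimension_ne_top_iff _).mp hN.ne
  obtain ⟨l, hl⟩ := (projectiveDimension_ne_top_iff _).mp hHom.ne
  let _ : Module S N := Module.compHom N (algebraMap S (S ⧸ I))
  have : IsScalarTower S (S ⧸ I) N := IsScalarTower.of_algebraMap_smul fun r x => rfl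
  have hfin0 : Module.Finite (S ⧸ I) (I →ₗ[S] N) := finite_hom
  have hfin : Module.Finite (S ⧸ I) (I.Cotangent →ₗ[S ⧸ I] N) :=
    Module.Finite.equiv (cotHomEquiv I N).symm
  let q := p.comap (Ideal.Quotient.mk I)
  let S' := Localization.AtPrime q
  let J := I.map (algebraMap S S')
  let B := S' ⧸ J
  have hloc : IsLocalization p.primeCompl B := by
    rw [← loc_compl I p]
    infer_instance
  let e : B ≃ₐ[S ⧸ I] Localization.AtPrime p :=
    IsLocalization.algEquiv p.primeCompl B (Localization.AtPrime p)
  let X := LocalizedModule p.primeCompl N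
  let Y := LocalizedModule p.primeCompl (I.Cotangent →ₗ[S ⧸ I] N)
  let _ : Module B X := Module.compHom X (e : B →+* Localization.AtPrime p)
  let _ : Module B Y := Module.compHom Y (e : B →+* Localization.AtPrime p)
  have : IsScalarTower (S ⧸ I) B X := IsScalarTower.of_algebraMap_smul fun r x => by
    change e (algebraMap (S ⧸ I) B r) • x = r • x
    rw [e.commutes, algebraMap_smul]
  have : IsScalarTower (S ⧸ I) B Y := IsScalarTower.of_algebraMap_smul fun r x => by
    change e (algebraMap (S ⧸ I) B r) • x = r • x
    rw [e.commutes, algebraMap_smul]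
  have hX : PD B X (k + 1) := pd_of_ringEquiv e.toRingEquiv (k + 1) X (fun b x => rfl)
    (pd_localized p.primeCompl (k + 1) N hk)
  have hY : PD B Y (l + 1) := pd_of_ringEquiv e.toRingEquiv (l + 1) Y (fun b x => rfl)
    (pd_localized p.primeCompl (l + 1) _ hl)
  have hg : IsLocalizedModule (Algebra.algebraMapSubmonoid (S ⧸ I) q.primeCompl)
      (LocalizedModule.mkLinearMap p.primeCompl N) := by
    rw [loc_compl I p]
    infer_instance
  have hf : IsLocalizedModule (Algebra.algebraMapSubmonoid (S ⧸ I) q.primeCompl)
      (LocalizedModule.mkLinearMap p.primeCompl (I.Cotangent →ₗ[S ⧸ I] N)) := by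
    rw [loc_compl I p]
    infer_instance
  obtain ⟨E⟩ := hom_localized I q.primeCompl S' N X (LocalizedModule.mkLinearMap p.primeCompl N)
    Y (LocalizedModule.mkLinearMap p.primeCompl (I.Cotangent →ₗ[S ⧸ I] N))
  have hH : PD B (J.Cotangent →ₗ[B] X) (l + 1) := PD.congr E hY
  have hB : PD S' B (n + 1) := loc_pdS I q (n + 1) hn
  have hIq : I ≤ q := by
    intro x hx
    change Ideal.Quotient.mk I x ∈ p
    rw [Ideal.Quotient.eq_zero_iff_mem.mpr hx]
    exact p.zero_mem
  have hJle : J ≤ maximalIdeal S' := by
    have h1 : q.map (algebraMap S S') = maximalIdeal S' := Localization.AtPrime.map_eq_maximalIdeal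
    rw [← h1]
    exact Ideal.map_mono hIq
  have hJ : J ≠ ⊤ := fun hJ => (maximalIdeal.isMaximal S').ne_top (top_le_iff.mp (hJ ▸ hJle))
  have hXfin : Module.Finite B X :=
    Module.Finite.of_isLocalizedModule p.primeCompl (LocalizedModule.mkLinearMap p.primeCompl N)
  refine main_theorem S' J hJ
    (lt_top_iff_ne_top.mpr ((projectiveDimension_ne_top_iff _).mpr ⟨n, hB⟩)) X
    (lt_top_iff_ne_top.mpr ((projectiveDimension_ne_top_iff _).mpr ⟨k, hX⟩))
    (lt_top_iff_ne_top.mpr ((projectiveDimension_ne_top_iff _).mpr ⟨l, hH⟩)) ?_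
  rcases h with h | h
  · left
    rw [AssociatedPrimes.mem_iff, isAssociatedPrime_iff_exists_injective_linearMap] at h
    obtain ⟨-, f, hf⟩ := h
    let x := f 1
    refine ⟨LocalizedModule.mkLinearMap p.primeCompl N x, fun h0 => ?_, fun r hr => ?_⟩
    · obtain ⟨c, hc⟩ := (IsLocalizedModule.eq_zero_iff p.primeCompl
        (LocalizedModule.mkLinearMap p.primeCompl N)).mp h0
      have h1 : f (Ideal.Quotient.mk p c.1) = f 0 := by
        rw [map_zero]
        have h2 : Ideal.Quotient.mk p c.1 = c.1 • (1 : (S ⧸ I) ⧸ p) :=
          (congrArg (Ideal.Quotient.mk p) (mul_one c.1)).symm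
        rw [h2, map_smul]
        exact hc
      have h2 := hf h1
      rw [Ideal.Quotient.eq_zero_iff_mem] at h2
      exact c.2 h2
    · let v := LocalizedModule.mkLinearMap p.primeCompl N x
      have h1 : q.map (algebraMap S S') = maximalIdeal S' :=
        Localization.AtPrime.map_eq_maximalIdeal
      rw [← h1] at hr
      refine Submodule.span_induction (p := fun r _ => Ideal.Quotient.mk J r • v = 0)
        ?_ ?_ ?_ ?_ hr
      · rintro _ ⟨s, hs, rfl⟩
        have h2 : Ideal.Quotient.mk J (algebraMap S S' s) • v = Ideal.Quotient.mk I s • v := by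
          rw [← Loc_alg, algebraMap_smul]
        rw [h2]
        change Ideal.Quotient.mk I s • (LocalizedModule.mkLinearMap p.primeCompl N) x = 0
        rw [← map_smul]
        have h3 : Ideal.Quotient.mk I s • x = 0 := by
          change Ideal.Quotient.mk I s • f 1 = 0
          rw [← map_smul]
          have h4 : Ideal.Quotient.mk I s • (1 : (S ⧸ I) ⧸ p) = 0 :=
            (congrArg (Ideal.Quotient.mk p) (mul_one (Ideal.Quotient.mk I s))).trans
              (Ideal.Quotient.eq_zero_iff_mem.mpr hs)
          rw [h4, map_zero]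
        rw [h3, map_zero]
      · rw [map_zero]
        exact zero_smul B v
      · intro a b _ _ ha hb
        rw [map_add, add_smul, ha, hb, add_zero]
      · intro a b _ hb
        rw [smul_eq_mul, map_mul, mul_smul, hb, smul_zero]
  · right
    rw [supportDim_of_ringEquiv e.toRingEquiv X (fun b x => rfl)]
    exact h

/-- For arbitrary `N`: `I` is generated by a regular sequence locally at every prime `q` of `S`
containing `I` such that `q/I` is associated to `N` or `N_q ≠ 0` has dimension at most one. -/
theorem local_theorem (S : Type u) [CommRing S] [IsLocalRing S] [IsNoetherianRing S]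
    (I : Ideal S) (hI : I ≠ ⊤) (hpd : projectiveDimension (ModuleCat.of S (S ⧸ I)) < ⊤)
    (N : Type u) [AddCommGroup N] [Module (S ⧸ I) N] [Module.Finite (S ⧸ I) N]
    (hN : projectiveDimension (ModuleCat.of (S ⧸ I) N) < ⊤)
    (hHom : projectiveDimension (ModuleCat.of (S ⧸ I) (I.Cotangent →ₗ[S ⧸ I] N)) < ⊤)
    (p : PrimeSpectrum (S ⧸ I))
    (h : p.asIdeal ∈ associatedPrimes (S ⧸ I) N ∨
      (p ∈ Module.support (S ⧸ I) N ∧
        Module.supportDim (Localization.AtPrime p.asIdeal)
          (LocalizedModule p.asIdeal.primeCompl N) ≤ 1)) :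
    ∃ rs : List (Localization.AtPrime (p.asIdeal.comap (Ideal.Quotient.mk I))),
      IsRegular (Localization.AtPrime (p.asIdeal.comap (Ideal.Quotient.mk I))) rs ∧
      Ideal.ofList rs = I.map (algebraMap S
        (Localization.AtPrime (p.asIdeal.comap (Ideal.Quotient.mk I)))) := by
  have hnt : Nontrivial (LocalizedModule p.asIdeal.primeCompl N) := by
    rcases h with h | h
    · rw [AssociatedPrimes.mem_iff, isAssociatedPrime_iff_exists_injective_linearMap] at h
      obtain ⟨-, f, hf⟩ := h
      refine ⟨LocalizedModule.mkLinearMap p.asIdeal.primeCompl N (f 1), 0, fun h0 => ?_⟩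
      obtain ⟨c, hc⟩ := (IsLocalizedModule.eq_zero_iff p.asIdeal.primeCompl
        (LocalizedModule.mkLinearMap p.asIdeal.primeCompl N)).mp h0
      have h1 : f (Ideal.Quotient.mk p.asIdeal c.1) = f 0 := by
        rw [map_zero]
        have h2 : Ideal.Quotient.mk p.asIdeal c.1 = c.1 • (1 : (S ⧸ I) ⧸ p.asIdeal) :=
          (congrArg (Ideal.Quotient.mk p.asIdeal) (mul_one c.1)).symm
        rw [h2, map_smul]
        exact hc
      have h2 := hf h1
      rw [Ideal.Quotient.eq_zero_iff_mem] at h2
      exact c.2 h2
    · exact Module.mem_support_iff.mp h.1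
  exact local_theorem_aux S I hI hpd N hN hHom p.asIdeal (h.imp id And.right)

end Pool.Agent.CN
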