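import Pool.Agent.CN.Cases

/-!
# The main theorem: depth `N = 0` or dim `N ≤ 1`
-/

universe u

open CategoryTheory IsLocalRing RingTheory.Sequence Pool.Agent.Helper19

namespace Pool.Agent.CN

/-- `Hom_{S/I}(I/I², N) = Hom_S(I, N)` -/
noncomputable def cotHomEquiv {S : Type u} [CommRing S] (I : Ideal S) (N : Type u)
    [AddCommGroup N] [Module (S ⧸ I) N] [Module S N] [IsScalarTower S (S ⧸ I) N] :
    (I.Cotangent →ₗ[S ⧸ I] N) ≃ₗ[S ⧸ I] (I →ₗ[S] N) where
  toFun g := (g.restrictScalars S) ∘ₗ I.toCotangent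
  map_add' a b := by ext; simp
  map_smul' r a := by ext; simp
  invFun h := (Ideal.Cotangent.lift h (by
      intro x y
      have h1 : x * y = (x : S) • y := rfl
      rw [h1, map_smul, ← algebraMap_smul (S ⧸ I)]
      have h2 : algebraMap S (S ⧸ I) (x : S) = 0 := Ideal.Quotient.eq_zero_iff_mem.mpr x.2
      rw [h2, zero_smul])).extendScalarsOfSurjective Ideal.Quotient.mk_surjective
  left_inv g := by
    ext x
    obtain ⟨x, rfl⟩ := I.toCotangent_surjective x
    rfl
  right_inv h := by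
    ext x
    rfl

/-- in a Noetherian local ring, a finite module has depth zero or admits, together with the
ring, a common regular element (if the ring has positive depth) -/
lemma exists_common_regular {R : Type u} [CommRing R] [IsLocalRing R] [IsNoetherianRing R]
    (N : Type u) [AddCommGroup N] [Module R N] [Module.Finite R N]
    (hN : ¬ ∃ v : N, v ≠ 0 ∧ ∀ a ∈ maximalIdeal R, a • v = 0)
    (hR : ¬ ∃ v : R, v ≠ 0 ∧ ∀ a ∈ maximalIdeal R, a • v = 0) :
    ∃ x ∈ maximalIdeal R, IsSMulRegular R x ∧ IsSMulRegular N x := by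
  have h1 : Subsingleton ((R ⧸ maximalIdeal R) →ₗ[R] (N × R)) := by
    refine ⟨fun φ ψ => ?_⟩
    have key : ∀ χ : (R ⧸ maximalIdeal R) →ₗ[R] (N × R), χ = 0 := by
      intro χ
      have hχ : ∀ a ∈ maximalIdeal R, a • χ 1 = 0 := by
        intro a ha
        rw [← map_smul]
        have h1 : a • (1 : R ⧸ maximalIdeal R) = 0 := by
          rw [Algebra.smul_def, mul_one]
          exact Ideal.Quotient.eq_zero_iff_mem.mpr ha
        rw [h1, map_zero]
      have h2 : (χ 1).1 = 0 := by
        by_contra h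
        exact hN ⟨_, h, fun a ha => congrArg Prod.fst (hχ a ha)⟩
      have h3 : (χ 1).2 = 0 := by
        by_contra h
        exact hR ⟨_, h, fun a ha => congrArg Prod.snd (hχ a ha)⟩
      have h4 : χ 1 = 0 := Prod.ext h2 h3
      apply LinearMap.ext
      intro y
      obtain ⟨y, rfl⟩ := Ideal.Quotient.mk_surjective y
      have h5 : (Ideal.Quotient.mk (maximalIdeal R)) y = y • (1 : R ⧸ maximalIdeal R) := by
        rw [Algebra.smul_def, mul_one]; rfl
      rw [h5, map_smul, h4, smul_zero]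
      rfl
    rw [key φ, key ψ]
  rw [IsSMulRegular.subsingleton_linearMap_iff] at h1
  obtain ⟨x, hx, hreg⟩ := h1
  rw [Ideal.annihilator_quotient] at hx
  refine ⟨x, hx, fun a b h => ?_, fun a b h => ?_⟩
  · have := @hreg (0, a) (0, b) (Prod.ext rfl h)
    exact congrArg Prod.snd this
  · have := @hreg (a, 0) (b, 0) (Prod.ext h rfl)
    exact congrArg Prod.fst this

/-- The main theorem. -/
theorem main_theorem (S : Type u) [CommRing S] [IsLocalRing S] [IsNoetherianRing S]
    (I : Ideal S) (hI : I ≠ ⊤) (hpd : projectiveDimension (ModuleCat.of S (S ⧸ I)) < ⊤)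
    (N : Type u) [AddCommGroup N] [Module (S ⧸ I) N] [Module.Finite (S ⧸ I) N] [Nontrivial N]
    (hN : projectiveDimension (ModuleCat.of (S ⧸ I) N) < ⊤)
    (hHom : projectiveDimension (ModuleCat.of (S ⧸ I) (I.Cotangent →ₗ[S ⧸ I] N)) < ⊤)
    (h : (∃ v : N, v ≠ 0 ∧ ∀ r ∈ maximalIdeal S, Ideal.Quotient.mk I r • v = 0) ∨
      Module.supportDim (S ⧸ I) N ≤ 1) :
    ∃ rs : List S, IsRegular S rs ∧ Ideal.ofList rs = I := by
  have : Nontrivial (S ⧸ I) := Ideal.Quotient.nontrivial_iff.mpr hI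
  have : IsLocalRing (S ⧸ I) :=
    IsLocalRing.of_surjective' (Ideal.Quotient.mk I) Ideal.Quotient.mk_surjective
  let _ : Module S N := Module.compHom N (algebraMap S (S ⧸ I))
  have : IsScalarTower S (S ⧸ I) N := IsScalarTower.of_algebraMap_smul fun r x => rfl
  obtain ⟨n, hn⟩ := (projectiveDimension_ne_top_iff _).mp hpd.ne
  obtain ⟨k, hk⟩ := (projectiveDimension_ne_top_iff _).mp hN.ne
  obtain ⟨l, hl⟩ := (projectiveDimension_ne_top_iff _).mp hHom.ne
  have hl' : PD (S ⧸ I) (I →ₗ[S] N) (l + 1) := PD.congr (cotHomEquiv I N) hl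
  have h0 : FPD ⊥ I := fpd_bot (n := n) hn
  have hA : ∀ v : N, v ≠ 0 → (∀ r ∈ maximalIdeal S, Ideal.Quotient.mk I r • v = 0) →
      ∃ rs : List S, IsRegular S rs ∧ Ideal.ofList rs = I := by
    intro v hv hmv
    exact caseA hI h0 (k + 1) (l + 1) hk hl' v hv hmv
  rcases h with ⟨v, hv, hmv⟩ | hdim
  · exact hA v hv hmv
  · by_cases hsN : ∃ v : N, v ≠ 0 ∧ ∀ a ∈ maximalIdeal (S ⧸ I), a • v = 0
    · obtain ⟨v, hv, hmv⟩ := hsN
      refine hA v hv fun r hr => hmv _ ?_
      rw [mem_maximalIdeal, mem_nonunits_iff]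
      intro hu
      obtain ⟨q, hq⟩ := Ideal.Quotient.mk_surjective (hu.unit⁻¹ : (S ⧸ I)ˣ).1
      have h1 : Ideal.Quotient.mk I (r * q - 1) = 0 := by
        rw [map_sub, map_mul, hq, map_one, sub_eq_zero]
        exact hu.mul_val_inv
      rw [Ideal.Quotient.eq_zero_iff_mem] at h1
      have h2 := IsLocalRing.le_maximalIdeal hI h1
      have h3 : (1 : S) ∈ maximalIdeal S := by
        have h4 := Ideal.sub_mem _ (Ideal.mul_mem_right q _ hr) h2
        rwa [sub_sub_cancel] at h4
      exact (Ideal.ne_top_iff_one _).mp (maximalIdeal.isMaximal S).ne_top h3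
    · by_cases hsR : ∃ v : S ⧸ I, v ≠ 0 ∧ ∀ a ∈ maximalIdeal (S ⧸ I), a • v = 0
      · -- depth `R = 0`: `N` is free, so has depth zero
        exfalso
        obtain ⟨v, hv, hmv⟩ := hsR
        have hfree : Module.Free (S ⧸ I) N := free_of_depth_zero v hv
          (fun r hr => hmv r hr) (k + 1) N hk
        let b := Module.Free.chooseBasis (S ⧸ I) N
        obtain ⟨j⟩ : Nonempty (Module.Free.ChooseBasisIndex (S ⧸ I) N) := b.index_nonempty
        refine hsN ⟨v • b j, fun h => hv ?_, fun a ha => ?_⟩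
        · have h2 := congrArg (fun w => b.repr w j) h
          simpa using h2
        · rw [smul_smul]
          have : a * v = 0 := hmv a ha
          rw [this, zero_smul]
      · obtain ⟨x, hxm, hxR, hxN⟩ := exists_common_regular N hsN hsR
        exact caseB hI h0 (k + 1) (l + 1) hk hl' x hxm hxR hxN hdim

end Pool.Agent.CN
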