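import Pool.Agent.CN.Base

/-!
# Resolutions and the comparison `ν ⊗ V → N ⊗ V`
-/

universe u

namespace Pool.Agent.CN

open Finset

variable {R : Type u} [CommRing R]

/-- `ν ⊗ V → W` (given by `E` on the basis elements of degree `0`) is a resolution, for a fixed
value of the degree in `V`. -/
structure QIData (ν : BC R) (V W : Type u) [AddCommGroup V] [Module R V] [AddCommGroup W]
    [Module R W] (E : ν.ι → V →ₗ[R] W) : Prop where
  E0 : ∀ a, ν.g a ≠ 0 → E a = 0
  surj : ∀ y : W, ∃ z : ν.ι → V, (∀ a, ν.g a ≠ 0 → z a = 0) ∧ ∑ a, E a (z a) = y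
  Em : ∀ b v, ∑ a, ν.m a b • E a v = 0
  ex0 : ∀ z : ν.ι → V, (∀ a, ν.g a ≠ 0 → z a = 0) → ∑ a, E a (z a) = 0 →
    ∃ w : ν.ι → V, (∀ a, ν.g a ≠ 1 → w a = 0) ∧ mulV ν.m w = z
  ex : ∀ i : ℤ, 1 ≤ i → ∀ z : ν.ι → V, (∀ a, ν.g a ≠ i → z a = 0) → mulV ν.m z = 0 →
    ∃ w : ν.ι → V, (∀ a, ν.g a ≠ i + 1 → w a = 0) ∧ mulV ν.m w = z

/-- a finite free resolution of `N` of length `≤ s` -/
structure FRes (R : Type u) [CommRing R] (N : Type u) [AddCommGroup N] [Module R N] (s : ℕ) where
  ν : BC R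
  ε : ν.ι → N
  g0 : ∀ a, 0 ≤ ν.g a
  gs : ∀ a, ν.g a ≤ s
  σ0 : ∀ a, ν.g a = 0 → ν.σ a = 1
  σs : ∀ a, ν.g a = s → ν.σ a = (-1) ^ s
  qi : QIData ν R N (fun a => LinearMap.toSpanSingleton R N (ε a))

section QI

variable {ν : BC R} {V W : Type u} [AddCommGroup V] [Module R V] [AddCommGroup W]
    [Module R W] {E : ν.ι → V →ₗ[R] W}

lemma QIData.pi {J : Type} {V W : J → Type u} [∀ j, AddCommGroup (V j)] [∀ j, Module R (V j)]
    [∀ j, AddCommGroup (W j)] [∀ j, Module R (W j)] {E : ν.ι → ∀ j, V j →ₗ[R] W j}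
    (h : ∀ j, QIData ν (V j) (W j) (fun a => E a j)) :
    QIData ν (∀ j, V j) (∀ j, W j)
      (fun a => LinearMap.pi fun j => (E a j) ∘ₗ (LinearMap.proj j)) where
  E0 a ha := by
    ext v j
    have := (h j).E0 a ha
    simp [this]
  surj y := by
    choose z hz1 hz2 using fun j => (h j).surj (y j)
    refine ⟨fun a j => z j a, fun a ha => funext fun j => hz1 j a ha, ?_⟩
    funext j
    rw [Finset.sum_apply]
    exact hz2 j
  Em b v := by
    funext j
    have := (h j).Em b (v j)
    rw [Finset.sum_apply]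
    exact this
  ex0 z hz1 hz2 := by
    have h1 : ∀ j, ∑ a, E a j (z a j) = 0 := fun j => by
      have := congrFun hz2 j
      rw [Finset.sum_apply] at this
      exact this
    choose w hw1 hw2 using fun j => (h j).ex0 (fun a => z a j)
      (fun a ha => by rw [hz1 a ha]; rfl) (h1 j)
    refine ⟨fun a j => w j a, fun a ha => funext fun j => hw1 j a ha, ?_⟩
    funext a j
    have := congrFun (hw2 j) a
    simp only [mulV, Finset.sum_apply, Pi.smul_apply] at this ⊢
    exact this
  ex i hi z hz1 hz2 := by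
    have h1 : ∀ j, mulV ν.m (fun a => z a j) = 0 := fun j => by
      funext a
      have := congrFun (congrFun hz2 a) j
      simp only [mulV, Finset.sum_apply, Pi.smul_apply, Pi.zero_apply] at this ⊢
      exact this
    choose w hw1 hw2 using fun j => (h j).ex i hi (fun a => z a j)
      (fun a ha => by rw [hz1 a ha]; rfl) (h1 j)
    refine ⟨fun a j => w j a, fun a ha => funext fun j => hw1 j a ha, ?_⟩
    funext a j
    have := congrFun (hw2 j) a
    simp only [mulV, Finset.sum_apply, Pi.smul_apply] at this ⊢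
    exact this

lemma QIData.sum_mulV (h : QIData ν V W E) (z : ν.ι → V) : ∑ a, E a (mulV ν.m z a) = 0 := by
  simp only [mulV, map_sum, map_smul]
  rw [sum_comm]
  exact sum_eq_zero fun b _ => h.Em b (z b)

lemma QIData.sum_op (h : QIData ν V W E) (hσ : ∀ a, ν.g a = 0 → ν.σ a = 1) (A : DG R V)
    (B : DG R W) (hE : ∀ a v, E a (A.d v) = B.d (E a v)) (z : ν.ι → V) :
    ∑ a, E a (ν.op A.d z a) = B.d (∑ a, E a (z a)) := by
  simp only [BC.op_apply, map_add, sum_add_distrib]
  have h1 := h.sum_mulV z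
  simp only [mulV] at h1
  rw [h1, zero_add, map_sum]
  refine sum_congr rfl fun a _ => ?_
  by_cases ha : ν.g a = 0
  · rw [hσ a ha, one_smul, hE]
  · rw [h.E0 a ha]; simp

/-- The kernel of `ν ⊗ V → W` is acyclic. -/
theorem QIData.acyc (h : QIData ν V W E) (hg : ∀ a, 0 ≤ ν.g a)
    (hσ : ∀ a, ν.g a = 0 → ν.σ a = 1) (A : DG R V) (B : DG R W)
    (hEd : ∀ a v, E a (A.d v) = B.d (E a v)) (w : ν.ι → V)
    (hw : ν.op A.d w = 0) (hE : ∑ a, E a (w a) = 0) :
    ∃ v : ν.ι → V, ν.op A.d v = w ∧ ∑ a, E a (v a) = 0 := by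
  have key : ∀ i : ℕ, ∃ v : ν.ι → V, (∀ a, ν.g a < i → (w - ν.op A.d v) a = 0) ∧
      ∑ a, E a (v a) = 0 := by
    intro i
    induction i with
    | zero => exact ⟨0, fun a ha => absurd (hg a) (by push_cast at ha; omega), by simp⟩
    | succ i ih =>
      obtain ⟨v, hv1, hv2⟩ := ih
      -- `w' = w - D v`
      have hw' : ν.op A.d (w - ν.op A.d v) = 0 := by
        rw [map_sub, hw, ν.op_op A.d A.dd, sub_zero]
      have hEw' : ∑ a, E a ((w - ν.op A.d v) a) = 0 := by
        simp only [Pi.sub_apply, map_sub, sum_sub_distrib]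
        rw [h.sum_op hσ A B hEd, hv2, map_zero, hE, sub_zero]
      -- the component in degree `i`
      let z : ν.ι → V := fun a => if ν.g a = i then (w - ν.op A.d v) a else 0
      have hz1 : ∀ a, ν.g a ≠ i → z a = 0 := fun a ha => if_neg ha
      have hu : ∃ u : ν.ι → V, (∀ a, ν.g a ≠ i + 1 → u a = 0) ∧ mulV ν.m u = z := by
        rcases Nat.eq_zero_or_pos i with h0 | h0
        · subst h0
          obtain ⟨u, hu1, hu2⟩ := h.ex0 z (by simpa using hz1) (by
            rw [← hEw']
            refine sum_congr rfl fun a _ => ?_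
            by_cases ha : ν.g a = 0
            · rw [show z a = (w - ν.op A.d v) a from if_pos (by simpa using ha)]
            · rw [h.E0 a ha]; rfl)
          exact ⟨u, by simpa using hu1, hu2⟩
        · refine h.ex i (by exact_mod_cast h0) z hz1 ?_
          funext a
          rw [Pi.zero_apply]
          by_cases ha : ν.g a + 1 = i
          · have h3 := congrFun hw' a
            rw [BC.op_apply, hv1 a (by omega), map_zero, smul_zero, add_zero] at h3
            rw [Pi.zero_apply] at h3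
            rw [← h3]
            refine sum_congr rfl fun b _ => ?_
            by_cases hb : ν.m a b = 0
            · simp [hb]
            · have : z b = (w - ν.op A.d v) b := if_pos (by rw [ν.deg a b hb]; exact ha)
              rw [this]
          · refine sum_eq_zero fun b _ => ?_
            by_cases hb : ν.m a b = 0
            · simp [hb]
            · have : z b = 0 := if_neg (by rw [ν.deg a b hb]; exact ha)
              rw [this, smul_zero]
      obtain ⟨u, hu1, hu2⟩ := hu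
      refine ⟨v + u, fun a ha => ?_, ?_⟩
      · have h4 : (w - ν.op A.d (v + u)) a = (w - ν.op A.d v) a - z a - ν.σ a • A.d (u a) := by
          have h5 : ν.op A.d u a = z a + ν.σ a • A.d (u a) := by
            rw [BC.op_apply, ← hu2]; rfl
          rw [map_add, Pi.sub_apply, Pi.add_apply, Pi.sub_apply, h5]
          abel
        rw [h4, hu1 a (by push_cast at ha; omega), map_zero, smul_zero, sub_zero]
        by_cases hi : ν.g a = i
        · rw [show z a = (w - ν.op A.d v) a from if_pos hi, sub_self]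
        · rw [hz1 a hi, sub_zero, hv1 a (by push_cast at ha; omega)]
      · simp only [Pi.add_apply, map_add, sum_add_distrib, hv2, zero_add]
        refine sum_eq_zero fun a _ => ?_
        by_cases ha : ν.g a = 0
        · rw [hu1 a (by omega), map_zero]
        · rw [h.E0 a ha]; rfl
  -- a bound for the degrees
  obtain ⟨M, hM⟩ : ∃ M : ℕ, ∀ a, ν.g a < M := by
    obtain ⟨M, hM⟩ := (Set.finite_range ν.g).bddAbove
    refine ⟨(M + 1).toNat, fun a => ?_⟩
    have h1 := hM ⟨a, rfl⟩
    have h2 := Int.self_le_toNat (M + 1)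
    omega
  obtain ⟨v, hv1, hv2⟩ := key M
  exact ⟨v, (sub_eq_zero.mp (funext fun a => hv1 a (hM a))).symm, hv2⟩

/-- cycles of `W` lift to cycles -/
theorem QIData.lift (h : QIData ν V W E) (hg : ∀ a, 0 ≤ ν.g a)
    (hσ : ∀ a, ν.g a = 0 → ν.σ a = 1) (A : DG R V) (B : DG R W)
    (hEd : ∀ a v, E a (A.d v) = B.d (E a v)) (y : W) (hy : B.d y = 0) :
    ∃ z : ν.ι → V, ν.op A.d z = 0 ∧ ∑ a, E a (z a) = y := by
  obtain ⟨z, -, hz⟩ := h.surj y
  obtain ⟨v, hv1, hv2⟩ := h.acyc hg hσ A B hEd (ν.op A.d z) (ν.op_op A.d A.dd z) (by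
    rw [h.sum_op hσ A B hEd, hz, hy])
  refine ⟨z - v, by rw [map_sub, hv1, sub_self], ?_⟩
  simp only [Pi.sub_apply, map_sub, sum_sub_distrib, hv2, sub_zero, hz]

/-- a cycle whose image is a boundary is a boundary -/
theorem QIData.bdy (h : QIData ν V W E) (hg : ∀ a, 0 ≤ ν.g a)
    (hσ : ∀ a, ν.g a = 0 → ν.σ a = 1) (A : DG R V) (B : DG R W)
    (hEd : ∀ a v, E a (A.d v) = B.d (E a v)) (w : ν.ι → V)
    (hw : ν.op A.d w = 0) (y : W) (hE : ∑ a, E a (w a) = B.d y) :
    ∃ v : ν.ι → V, ν.op A.d v = w := by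
  obtain ⟨z, -, hz⟩ := h.surj y
  obtain ⟨v, hv1, -⟩ := h.acyc hg hσ A B hEd (w - ν.op A.d z)
    (by rw [map_sub, hw, ν.op_op A.d A.dd, sub_zero]) (by
      simp only [Pi.sub_apply, map_sub, sum_sub_distrib]
      rw [h.sum_op hσ A B hEd, hz, hE, sub_self])
  exact ⟨v + z, by rw [map_add, hv1]; abel⟩

end QI

end Pool.Agent.CN
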