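import Pool.Agent.CN.Defs

/-!
# Resolutions of the residue field over `S/(f)` by matrices over `S`
-/

universe u

namespace Pool.Agent.CN

open Finset IsLocalRing

/-- regular families: `f l` is regular modulo the previous ones -/
def RegFam {S : Type u} [CommRing S] : ∀ {r : ℕ}, (Fin r → S) → Prop
  | 0, _ => True
  | r + 1, f => RegFam (fun l : Fin r => f l.castSucc) ∧
      ∀ x, f (Fin.last r) * x ∈ Ideal.span (Set.range fun l : Fin r => f l.castSucc) →
        x ∈ Ideal.span (Set.range fun l : Fin r => f l.castSucc)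

/-- a resolution of the residue field over `S/(f)`, lifted to `S` -/
structure WD (S : Type u) [CommRing S] [IsLocalRing S] {r : ℕ} (f : Fin r → S) where
  b : ℕ → ℕ
  G : ∀ n, Fin (b n) → Fin (b (n + 1)) → S
  C : Fin r → ∀ n, Fin (b n) → Fin (b (n + 2)) → S
  sq : ∀ n i k, ∑ j, G n i j * G (n + 1) j k = ∑ l, f l * C l n i k
  one : b 0 = 1
  G0 : ∀ i j, G 0 i j ∈ maximalIdeal S
  ex0 : ∀ x : Fin (b 0) → S, (∀ i, x i ∈ maximalIdeal S) →
    ∃ y : Fin (b 1) → S, ∀ i, x i - ∑ j, G 0 i j * y j ∈ Ideal.span (Set.range f)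
  ex : ∀ n (x : Fin (b (n + 1)) → S), (∀ i, ∑ j, G n i j * x j ∈ Ideal.span (Set.range f)) →
    ∃ y : Fin (b (n + 2)) → S, ∀ i, x i - ∑ j, G (n + 1) i j * y j ∈ Ideal.span (Set.range f)

namespace WD

variable {S : Type u} [CommRing S] [IsLocalRing S] {r : ℕ} {f : Fin r → S} (w : WD S f)
  (I : Ideal S)

/-- an operator on `Y`-valued families given by matrices lowering the degree by `δ` -/
def nat {b : ℕ → ℕ} (δ : ℕ) (M : ∀ n, Fin (b n) → Fin (b (n + δ)) → S) (Y : Type u)
    [AddCommGroup Y] [Module (S ⧸ I) Y] :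
    (∀ n, Fin (b n) → Y) →ₗ[S ⧸ I] (∀ n, Fin (b n) → Y) where
  toFun v n i := ∑ j, Ideal.Quotient.mk I (M n i j) • v (n + δ) j
  map_add' v v' := by
    funext n i; simp [smul_add, sum_add_distrib]
  map_smul' c v := by
    funext n i
    simp only [Pi.smul_apply, RingHom.id_apply, smul_sum]
    exact sum_congr rfl fun j _ => smul_comm _ _ _

lemma nat_apply {b : ℕ → ℕ} (δ : ℕ) (M : ∀ n, Fin (b n) → Fin (b (n + δ)) → S) (Y : Type u)
    [AddCommGroup Y] [Module (S ⧸ I) Y] (v : ∀ n, Fin (b n) → Y) (n : ℕ) (i : Fin (b n)) :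
    nat I δ M Y v n i = ∑ j, Ideal.Quotient.mk I (M n i j) • v (n + δ) j := rfl

/-- the projection to degree `t` -/
def prj {b : ℕ → ℕ} (Y : Type u) [AddCommGroup Y] [Module (S ⧸ I) Y] (t : ℤ) :
    (∀ n, Fin (b n) → Y) →ₗ[S ⧸ I] (∀ n, Fin (b n) → Y) where
  toFun v n i := if (n : ℤ) = t then v n i else 0
  map_add' v v' := by
    funext n i
    by_cases h : (n : ℤ) = t <;> simp [h]
  map_smul' c v := by
    funext n i
    by_cases h : (n : ℤ) = t <;> simp [h]

lemma prj_apply {b : ℕ → ℕ} (Y : Type u) [AddCommGroup Y] [Module (S ⧸ I) Y] (t : ℤ)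
    (v : ∀ n, Fin (b n) → Y) (n : ℕ) (i : Fin (b n)) :
    prj I Y t v n i = if (n : ℤ) = t then v n i else 0 := rfl

/-- the graded differential module `G ⊗ Y` -/
def dg (hf : ∀ l, f l ∈ I) (Y : Type u) [AddCommGroup Y] [Module (S ⧸ I) Y] :
    DG (S ⧸ I) (∀ n, Fin (w.b n) → Y) where
  d := nat I 1 w.G Y
  p := prj I Y
  dd v := by
    funext n i
    simp only [nat_apply, smul_sum, Pi.zero_apply]
    rw [sum_comm]
    refine sum_eq_zero fun k _ => ?_
    simp only [smul_smul, ← map_mul]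
    rw [← sum_smul, ← map_sum]
    have h1 : Ideal.Quotient.mk I (∑ j, w.G n i j * w.G (n + 1) j k) = 0 := by
      rw [w.sq, Ideal.Quotient.eq_zero_iff_mem]
      exact I.sum_mem fun l _ => I.mul_mem_right _ (hf l)
    rw [h1, zero_smul]
  dp t v := by
    funext n i
    simp only [nat_apply, prj_apply]
    by_cases h : (n : ℤ) = t - 1
    · have h' : ((n + 1 : ℕ) : ℤ) = t := by push_cast; omega
      simp only [if_pos h, if_pos h']
    · have h' : ¬ ((n + 1 : ℕ) : ℤ) = t := by push_cast; omega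
      simp only [if_neg h, if_neg h', smul_zero, sum_const_zero]
  pp t v := by
    funext n i
    simp only [prj_apply]
    by_cases h : (n : ℤ) = t <;> simp [h]

/-- the operators `χ l` on `G ⊗ Y` -/
def chi (Y : Type u) [AddCommGroup Y] [Module (S ⧸ I) Y] (l : Fin r) :
    (∀ n, Fin (w.b n) → Y) →ₗ[S ⧸ I] (∀ n, Fin (w.b n) → Y) := nat I 2 (w.C l) Y

end WD

end Pool.Agent.CN
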